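import Pool.Agent.GH.Stmts

/-!
AB: admissible exponents give lower bounds for the hole probability.
-/

namespace Pool.Agent.GH

open MeasureTheory ProbabilityTheory Filter Topology

universe u

namespace AB

theorem sum_erase {n : ℕ} (f : Fin n → Fin n → ℝ) (hf : ∀ i j, f i j = f j i) :
    ∑ i, ∑ j ∈ Finset.univ.erase i, f i j = 2 * ∑ i, ∑ j ∈ Finset.Ioi i, f i j := by
  have h1 : ∀ i : Fin n, ∑ j ∈ Finset.univ.erase i, f i j =
      ∑ j ∈ Finset.Ioi i, f i j + ∑ j ∈ Finset.Iio i, f i j := by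
    intro i
    rw [← Finset.sum_union]
    · refine Finset.sum_congr ?_ fun _ _ => rfl
      ext j
      simp only [Finset.mem_erase, Finset.mem_univ, and_true, Finset.mem_union, Finset.mem_Ioi,
        Finset.mem_Iio]
      exact ⟨fun h => (lt_or_gt_of_ne h).symm, fun h => h.elim (fun h => h.ne') fun h => h.ne⟩
    · rw [Finset.disjoint_left]
      intro j h2 h3
      exact lt_asymm (Finset.mem_Ioi.1 h2) (Finset.mem_Iio.1 h3)
  simp only [h1, Finset.sum_add_distrib]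
  have h2 : ∑ i : Fin n, ∑ j ∈ Finset.Iio i, f i j = ∑ i : Fin n, ∑ j ∈ Finset.Ioi i, f i j := by
    rw [Finset.sum_comm' (t' := Finset.univ) (s' := fun j => Finset.Ioi j)]
    · exact Finset.sum_congr rfl fun i _ => Finset.sum_congr rfl fun j _ => hf j i
    · intro x y
      simp
  rw [h2]
  ring

theorem vdm_sq {n : ℕ} {z : Fin n → ℂ} (hz : Function.Injective z) :
    (vdm z) ^ 2 = Real.exp (∑ i, ∑ j ∈ Finset.univ.erase i, Real.log ‖z i - z j‖) := by
  have hne : ∀ i : Fin n, ∀ j ∈ Finset.Ioi i, 0 < ‖z i - z j‖ := by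
    intro i j hj
    rw [norm_pos_iff, sub_ne_zero]
    exact fun h => (Finset.mem_Ioi.1 hj).ne (hz h)
  have h1 : vdm z = Real.exp (∑ i, ∑ j ∈ Finset.Ioi i, Real.log ‖z i - z j‖) := by
    unfold vdm
    rw [Real.exp_sum]
    refine Finset.prod_congr rfl fun i _ => ?_
    rw [Real.exp_sum]
    exact Finset.prod_congr rfl fun j hj => (Real.exp_log (hne i j hj)).symm
  rw [sum_erase _ (fun i j => by rw [norm_sub_rev]), h1, ← Real.exp_nat_mul]
  norm_num

theorem vdm_scale {n : ℕ} {ζ : Fin n → ℂ} (hζ : Function.Injective ζ) {r : ℝ} (hr : 0 < r) :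
    (vdm fun j => (r : ℂ) * ζ j) ^ 2 = Real.exp ((n : ℝ) * ((n : ℝ) - 1) * Real.log r +
      ∑ i, ∑ j ∈ Finset.univ.erase i, Real.log ‖ζ i - ζ j‖) := by
  have hr' : (r : ℂ) ≠ 0 := by exact_mod_cast hr.ne'
  have hinj : Function.Injective fun j => (r : ℂ) * ζ j := fun i j h =>
    hζ (mul_left_cancel₀ hr' h)
  rw [vdm_sq hinj]
  congr 1
  have h1 : ∀ i : Fin n, ∑ j ∈ Finset.univ.erase i, Real.log ‖(r : ℂ) * ζ i - (r : ℂ) * ζ j‖ =
      ((n : ℝ) - 1) * Real.log r + ∑ j ∈ Finset.univ.erase i, Real.log ‖ζ i - ζ j‖ := by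
    intro i
    have h2 : ∀ j ∈ Finset.univ.erase i, Real.log ‖(r : ℂ) * ζ i - (r : ℂ) * ζ j‖ =
        Real.log r + Real.log ‖ζ i - ζ j‖ := by
      intro j hj
      have h3 : 0 < ‖ζ i - ζ j‖ := by
        rw [norm_pos_iff, sub_ne_zero]
        exact fun h => (Finset.mem_erase.1 hj).1 (hζ h).symm
      rw [← mul_sub, norm_mul, Complex.norm_real, Real.norm_of_nonneg hr.le,
        Real.log_mul hr.ne' h3.ne']
    rw [Finset.sum_congr rfl h2, Finset.sum_add_distrib, Finset.sum_const, nsmul_eq_mul,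
      Finset.card_erase_of_mem (Finset.mem_univ i), Finset.card_univ, Fintype.card_fin]
    have h4 : 1 ≤ n := Nat.one_le_iff_ne_zero.2 (by rintro rfl; exact i.elim0)
    rw [Nat.cast_sub h4, Nat.cast_one]
  rw [Finset.sum_congr rfl fun i _ => h1 i, Finset.sum_add_distrib, Finset.sum_const,
    nsmul_eq_mul, Finset.card_univ, Fintype.card_fin]
  ring

theorem norm_eval {n : ℕ} (ζ : Fin n → ℂ) {r : ℝ} (hr : 0 < r) (x : ℂ) :
    ‖(rootPoly fun j => (r : ℂ) * ζ j).eval ((r : ℂ) * x)‖ = r ^ n * ∏ j, ‖x - ζ j‖ := by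
  unfold rootPoly
  rw [Polynomial.eval_prod, norm_prod]
  have h : ∀ j, ‖(Polynomial.X - Polynomial.C ((r : ℂ) * ζ j)).eval ((r : ℂ) * x)‖ =
      r * ‖x - ζ j‖ := by
    intro j
    rw [Polynomial.eval_sub, Polynomial.eval_X, Polynomial.eval_C, ← mul_sub, norm_mul,
      Complex.norm_real, Real.norm_of_nonneg hr.le]
  simp only [h, Finset.prod_mul_distrib, Finset.prod_const, Finset.card_univ, Fintype.card_fin]

theorem elem (A η W : ℝ) (hA : 0 < A) (hη : 0 < η) : ∀ᶠ r : ℝ in atTop,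
    Real.exp (-((W + 2) * r ^ 2)) < 3 / 4 * (Real.exp (-((W + 1 / 2) * r ^ 2)) /
      (Real.exp (1 / 2) * (A * r ^ 2 + 1) * (2 + η * r))) := by
  filter_upwards [eventually_ge_atTop (1 : ℝ),
    eventually_gt_atTop (32 * Real.exp (1 / 2) * (A + 1) * (2 + η))] with r hr1 hr2
  have hr0 : 0 < r := by linarith
  have hden : 0 < Real.exp (1 / 2) * (A * r ^ 2 + 1) * (2 + η * r) := by positivity
  have h1 : Real.exp (-((W + 1 / 2) * r ^ 2)) =
      Real.exp (-((W + 2) * r ^ 2)) * Real.exp (3 / 2 * r ^ 2) := by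
    rw [← Real.exp_add]
    congr 1
    ring
  have h2 : r ^ 4 / 24 ≤ Real.exp (3 / 2 * r ^ 2) := by
    have h3 := Real.pow_div_factorial_le_exp r hr0.le 4
    have h4 : ((4 : ℕ).factorial : ℝ) = 24 := by norm_num [Nat.factorial]
    rw [h4] at h3
    refine h3.trans (Real.exp_le_exp.2 ?_)
    nlinarith
  have h5 : Real.exp (1 / 2) * (A * r ^ 2 + 1) * (2 + η * r) ≤
      Real.exp (1 / 2) * ((A + 1) * r ^ 2) * ((2 + η) * r) := by
    have h6 : A * r ^ 2 + 1 ≤ (A + 1) * r ^ 2 := by nlinarith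
    have h7 : 2 + η * r ≤ (2 + η) * r := by nlinarith
    gcongr
  have h8 : Real.exp (1 / 2) * ((A + 1) * r ^ 2) * ((2 + η) * r) < 3 / 4 * (r ^ 4 / 24) := by
    have h9 : 32 * (Real.exp (1 / 2) * ((A + 1) * r ^ 2) * ((2 + η) * r)) < r ^ 3 * r := by
      calc 32 * (Real.exp (1 / 2) * ((A + 1) * r ^ 2) * ((2 + η) * r))
          = r ^ 3 * (32 * Real.exp (1 / 2) * (A + 1) * (2 + η)) := by ring
        _ < r ^ 3 * r := by
          apply mul_lt_mul_of_pos_left hr2
          positivity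
    have h10 : r ^ 3 * r = r ^ 4 := by ring
    rw [h10] at h9
    linarith
  rw [h1, mul_div_assoc', lt_div_iff₀ hden]
  have h11 : 0 < Real.exp (-((W + 2) * r ^ 2)) := Real.exp_pos _
  calc Real.exp (-((W + 2) * r ^ 2)) * (Real.exp (1 / 2) * (A * r ^ 2 + 1) * (2 + η * r))
      < Real.exp (-((W + 2) * r ^ 2)) * (3 / 4 * Real.exp (3 / 2 * r ^ 2)) := by
        apply mul_lt_mul_of_pos_left _ h11
        linarith
    _ = 3 / 4 * (Real.exp (-((W + 2) * r ^ 2)) * Real.exp (3 / 2 * r ^ 2)) := by ring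

theorem tendsto_floor {A : ℝ} (hA : 0 < A) : Tendsto (fun r : ℝ => ⌊A * r ^ 2⌋₊) atTop atTop := by
  refine tendsto_nat_floor_atTop.comp ?_
  exact (tendsto_pow_atTop (by norm_num)).const_mul_atTop hA

end AB

open AB in
/-- Admissible exponents give lower bounds for the hole probability. -/
theorem AB_thm (h1 : HOLEPT_Stmt.{u}) (h2 : SAMPB_Stmt) (h3 : ABD_Stmt) (h4 : ABN_Stmt)
    (h5 : TAILE_Stmt) (h6 : CAU_Stmt) (h7 : POT_Stmt) : AB_Stmt.{u} := by
  intro Ω _ P ξ hξ K E hK hKne hAdm ε hε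
  obtain ⟨σ, lam, R, B, η, D, hE⟩ := hAdm
  have hη := D.η_pos
  have hpi : (1 / Real.pi : ℝ) ≠ 0 := by positivity
  -- `K` and its neighbourhood lie in the disk of radius `R`
  have hnear : ∀ z, Metric.infDist z K < η → ‖z‖ ≤ R := by
    intro z hz
    by_contra hcon
    have h := D.lam_nice.supp z (not_le.1 hcon)
    rw [(D.hole z hz).2] at h
    exact hpi h
  have hKR : ∀ x ∈ K, ‖x‖ ≤ R := fun x hx => hnear x (by
    rw [Metric.infDist_zero_of_mem hx]; exact hη)
  obtain ⟨x0, hx0⟩ := hKne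
  have hR : 0 ≤ R := (norm_nonneg x0).trans (hKR x0 hx0)
  -- `w` is bounded
  have hwc : Continuous fun z => pot σ z - pot lam z :=
    ((h7.1 σ R B D.σ_nice).2.2).sub ((h7.1 lam R _ D.lam_nice).2.2)
  obtain ⟨W1, hW1⟩ := (isCompact_closedBall (0 : ℂ) R).exists_bound_of_continuousOn
    hwc.continuousOn
  obtain ⟨W0, hW00, hW0⟩ : ∃ W0 : ℝ, 0 ≤ W0 ∧ ∀ z, pot σ z - pot lam z ≤ W0 := by
    refine ⟨max W1 0, le_max_right _ _, fun z => ?_⟩
    rcases le_total R ‖z‖ with h | h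
    · rw [D.w_supp z h]
      exact le_max_right _ _
    · have := hW1 z (by simpa using h)
      exact ((Real.le_norm_self _).trans this).trans (le_max_left _ _)
  obtain ⟨A₀, hA₀, hT⟩ := h5 (R + 1) (W0 + 2) (by linarith) (by linarith)
  obtain ⟨A, hAA₀, hAR⟩ : ∃ A : ℝ, A₀ ≤ A ∧ (R + 1) ^ 2 ≤ A :=
    ⟨max A₀ ((R + 1) ^ 2), le_max_left _ _, le_max_right _ _⟩
  have hA1 : 1 ≤ A := hA₀.trans hAA₀
  have hA : 0 < A := by linarith
  have hsq : R + 1 ≤ Real.sqrt A := Real.le_sqrt_of_sq_le hAR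
  have hsqA : Real.sqrt A ^ 2 = A := Real.sq_sqrt hA.le
  have hRA : R < Real.sqrt A := by linarith
  obtain ⟨g, hgdef⟩ : ∃ g : ℂ → ℝ,
      g = fun z => (disc (Real.sqrt A) z + σ z - lam z) / A := ⟨_, rfl⟩
  obtain ⟨⟨B', hgN⟩, hg0, hg1, hgpot, hgen⟩ := h3 σ lam R B A D.σ_nice D.σ_nonneg D.lam_nice
    D.lam_nonneg D.mass hA hR hRA D.w_supp g hgdef
  have hgK : ∀ z, Metric.infDist z K < η → g z = 0 := by
    intro z hz
    have h8 : z ∈ Metric.closedBall (0 : ℂ) (Real.sqrt A) := by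
      rw [mem_closedBall_zero_iff]
      exact (hnear z hz).trans hRA.le
    rw [hgdef]
    simp only
    rw [(D.hole z hz).1, (D.hole z hz).2, disc, Set.indicator_of_mem h8]
    simp
  have hee : en g g ≤ 1 / 4 - Real.log A / 2 + E / A ^ 2 := by
    have h8 : en g g = 1 / 4 - Real.log A / 2 + Efun σ lam / A ^ 2 := by
      have h9 : A ^ 2 ≠ 0 := by positivity
      field_simp
      field_simp at hgen
      linarith
    rw [h8]
    gcongr
  -- the small parameter
  obtain ⟨e, he0, he1, he2⟩ : ∃ e : ℝ, 0 < e ∧ 4 * A ^ 2 * e ≤ ε ∧ A * e ≤ 1 / 4 := by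
    refine ⟨min (ε / (4 * A ^ 2)) (1 / (4 * A)), by positivity, ?_, ?_⟩
    · calc 4 * A ^ 2 * min (ε / (4 * A ^ 2)) (1 / (4 * A)) ≤ 4 * A ^ 2 * (ε / (4 * A ^ 2)) := by
            gcongr
            exact min_le_left _ _
        _ = ε := by field_simp
    · calc A * min (ε / (4 * A ^ 2)) (1 / (4 * A)) ≤ A * (1 / (4 * A)) := by
            gcongr
            exact min_le_right _ _
        _ = 1 / 4 := by field_simp
  have hfl := tendsto_floor hA
  have hS := hfl.eventually (h2 g (Real.sqrt A) B' hgN hg0 hg1 K η (Real.sqrt A) hK ⟨x0, hx0⟩ hη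
    hgK e he0)
  filter_upwards [hT A hAA₀, h4 A E η e hA hη he0, hS, eventually_gt_atTop (0 : ℝ),
    hfl.eventually_ge_atTop 1, elem A η W0 hA hη] with r ht hb hs hr hn1 hel
  obtain ⟨n, hn⟩ : ∃ n : ℕ, n = ⌊A * r ^ 2⌋₊ := ⟨_, rfl⟩
  rw [← hn] at hs hn1
  obtain ⟨ζ, hζi, hζg, hζE, hζup, hζlo⟩ := hs
  have hr' : (r : ℂ) ≠ 0 := by exact_mod_cast hr.ne'
  have hn0 : (0 : ℝ) ≤ n := Nat.cast_nonneg n
  have hnA : (n : ℝ) ≤ A * r ^ 2 := by
    rw [hn]
    exact Nat.floor_le (by positivity)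
  -- the constants
  obtain ⟨N, hN⟩ : ∃ N : ℝ, N = Real.exp 1 * ((n : ℝ) + 1) ^ 2 *
    Real.exp ((n : ℝ) * (2 * Real.log r + Real.log A - 1 + 2 * e)) := ⟨_, rfl⟩
  obtain ⟨a, ha⟩ : ∃ a : ℝ, a = 1 / (Real.sqrt N * (2 + η * r)) := ⟨_, rfl⟩
  have hNpos : 0 < N := by rw [hN]; positivity
  have hapos : 0 < a := by rw [ha]; positivity
  have hsqN : Real.sqrt N = Real.exp (1 / 2) * ((n : ℝ) + 1) *
      Real.exp ((n : ℝ) * (Real.log r + (Real.log A - 1) / 2 + e)) := by
    have h8 : N = (Real.exp (1 / 2) * ((n : ℝ) + 1) *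
        Real.exp ((n : ℝ) * (Real.log r + (Real.log A - 1) / 2 + e))) ^ 2 := by
      rw [hN, mul_pow, mul_pow, ← Real.exp_nat_mul, ← Real.exp_nat_mul]
      congr 2
      · norm_num
      · push_cast
        ring
    rw [h8]
    exact Real.sqrt_sq (by positivity)
  have hrn : r ^ n = Real.exp ((n : ℝ) * Real.log r) := by
    rw [Real.exp_nat_mul, Real.exp_log hr]
  -- the potential of `g`
  have hpg : ∀ z, ‖z‖ ≤ Real.sqrt A →
      -pot g z = (Real.log A - 1) / 2 + ‖z‖ ^ 2 / (2 * A) - (pot σ z - pot lam z) / A := by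
    intro z hz
    have h8 := hgpot z hz
    have h9 : pot g z = (A * pot g z) / A := by field_simp
    rw [h9, h8]
    field_simp
    ring
  -- the Fock norm
  have hfock : fock n (rootPoly fun j => (r : ℂ) * ζ j) ≤ N := by
    have h8 := h6 n (rootPoly fun j => (r : ℂ) * ζ j)
      ((n : ℝ) * (2 * Real.log r + Real.log A - 1 + 2 * e)) ?_
    · rw [hN]
      exact h8
    intro z hz
    obtain ⟨x, rfl⟩ : ∃ x : ℂ, z = (r : ℂ) * x := ⟨z / r, by field_simp⟩
    have h9 : ‖(r : ℂ) * x‖ = r * ‖x‖ := by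
      rw [norm_mul, Complex.norm_real, Real.norm_of_nonneg hr.le]
    rw [h9] at hz ⊢
    have hxA : ‖x‖ ^ 2 ≤ A := by
      have h10 : r ^ 2 * ‖x‖ ^ 2 ≤ r ^ 2 * A := by
        calc r ^ 2 * ‖x‖ ^ 2 = (r * ‖x‖) ^ 2 := by ring
          _ ≤ (n : ℝ) := hz
          _ ≤ A * r ^ 2 := hnA
          _ = r ^ 2 * A := by ring
      exact le_of_mul_le_mul_left h10 (by positivity)
    have hxs : ‖x‖ ≤ Real.sqrt A := Real.le_sqrt_of_sq_le hxA
    have h11 := hζup x hxs
    have h12 := hpg x hxs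
    have h13 := D.w_nonneg x
    rw [norm_eval ζ hr x, hrn]
    calc (Real.exp ((n : ℝ) * Real.log r) * ∏ j, ‖x - ζ j‖) ^ 2
        ≤ (Real.exp ((n : ℝ) * Real.log r) * Real.exp ((n : ℝ) * (-pot g x + e))) ^ 2 := by
          have : 0 ≤ ∏ j, ‖x - ζ j‖ := Finset.prod_nonneg fun _ _ => norm_nonneg _
          gcongr
      _ = Real.exp (2 * ((n : ℝ) * Real.log r + (n : ℝ) * (-pot g x + e))) := by
          rw [← Real.exp_add, ← Real.exp_nat_mul]
          norm_num
      _ ≤ Real.exp ((n : ℝ) * (2 * Real.log r + Real.log A - 1 + 2 * e) + (r * ‖x‖) ^ 2) := by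
          apply Real.exp_le_exp.2
          rw [h12]
          have h14 : 0 ≤ (n : ℝ) * ((pot σ x - pot lam x) / A) := by positivity
          have h15 : (n : ℝ) * (‖x‖ ^ 2 / A) ≤ (r * ‖x‖) ^ 2 := by
            calc (n : ℝ) * (‖x‖ ^ 2 / A) ≤ A * r ^ 2 * (‖x‖ ^ 2 / A) := by gcongr
              _ = (r * ‖x‖) ^ 2 := by field_simp
          have h16 : ‖x‖ ^ 2 / (2 * A) = ‖x‖ ^ 2 / A / 2 := by
            rw [mul_comm 2 A, div_div]
          rw [h16]
          linarith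
  -- the distance condition
  have hdist : ∀ j, ∀ x ∈ K, η * r ≤ ‖(r : ℂ) * x - (r : ℂ) * ζ j‖ := by
    intro j x hx
    have h8 : η ≤ Metric.infDist (ζ j) K := by
      by_contra hcon
      exact hζg j (hgK _ (not_le.1 hcon))
    have h9 : η ≤ ‖x - ζ j‖ := by
      have := Metric.infDist_le_dist_of_mem (x := ζ j) hx
      rw [dist_comm, dist_eq_norm] at this
      exact h8.trans this
    rw [← mul_sub, norm_mul, Complex.norm_real, Real.norm_of_nonneg hr.le, mul_comm η r]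
    gcongr
  -- the tail condition
  have htail : ∀ x ∈ K, (∑' k : ℕ, (if n < k then (k : ℝ) * (r * ‖x‖) ^ k /
      Real.sqrt (k.factorial : ℝ) else 0)) <
        3 / 4 * a * ‖(rootPoly fun j => (r : ℂ) * ζ j).eval ((r : ℂ) * x)‖ := by
    intro x hx
    have hxR := hKR x hx
    refine (ht n ‖x‖ hn (norm_nonneg x) (by linarith)).trans_lt (hel.trans_le ?_)
    rw [norm_eval ζ hr x, hrn, mul_assoc (3 / 4)]
    refine mul_le_mul_of_nonneg_left ?_ (by norm_num)
    have h11 := hζlo x hx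
    have h12 := hpg x (hxR.trans hRA.le)
    have h13 := hW0 x
    have h14 : 0 < 2 + η * r := by positivity
    rw [ha, hsqN]
    calc Real.exp (-((W0 + 1 / 2) * r ^ 2)) /
          (Real.exp (1 / 2) * (A * r ^ 2 + 1) * (2 + η * r))
        ≤ Real.exp ((n : ℝ) * (-(W0 / A) - 2 * e)) /
          (Real.exp (1 / 2) * ((n : ℝ) + 1) * (2 + η * r)) := by
          have h15 : -((W0 + 1 / 2) * r ^ 2) ≤ (n : ℝ) * (-(W0 / A) - 2 * e) := by
            have h16 : (n : ℝ) * (W0 / A + 2 * e) ≤ A * r ^ 2 * (W0 / A + 2 * e) := by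
              gcongr
            have h17 : A * r ^ 2 * (W0 / A + 2 * e) = (W0 + 2 * (A * e)) * r ^ 2 := by
              field_simp
            have h18 : (W0 + 2 * (A * e)) * r ^ 2 ≤ (W0 + 1 / 2) * r ^ 2 := by
              gcongr
              linarith
            linarith
          gcongr
      _ ≤ Real.exp ((n : ℝ) * (-pot g x - e) + (n : ℝ) * Real.log r -
            (n : ℝ) * (Real.log r + (Real.log A - 1) / 2 + e)) /
          (Real.exp (1 / 2) * ((n : ℝ) + 1) * (2 + η * r)) := by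
          have h15 : (n : ℝ) * (-(W0 / A) - 2 * e) ≤ (n : ℝ) * (-pot g x - e) +
              (n : ℝ) * Real.log r - (n : ℝ) * (Real.log r + (Real.log A - 1) / 2 + e) := by
            have h16 : -(W0 / A) - 2 * e ≤ -pot g x - (Real.log A - 1) / 2 - 2 * e := by
              rw [h12]
              have h17 : (pot σ x - pot lam x) / A ≤ W0 / A := by gcongr
              have h18 : 0 ≤ ‖x‖ ^ 2 / (2 * A) := by positivity
              linarith
            have h19 := mul_le_mul_of_nonneg_left h16 hn0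
            linarith
          gcongr
      _ = 1 / (Real.exp (1 / 2) * ((n : ℝ) + 1) *
            Real.exp ((n : ℝ) * (Real.log r + (Real.log A - 1) / 2 + e)) * (2 + η * r)) *
          (Real.exp ((n : ℝ) * Real.log r) * Real.exp ((n : ℝ) * (-pot g x - e))) := by
          rw [Real.exp_sub, Real.exp_add]
          have h15 := Real.exp_pos (1 / 2)
          have h16 := Real.exp_pos ((n : ℝ) * (Real.log r + (Real.log A - 1) / 2 + e))
          field_simp
      _ ≤ 1 / (Real.exp (1 / 2) * ((n : ℝ) + 1) *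
            Real.exp ((n : ℝ) * (Real.log r + (Real.log A - 1) / 2 + e)) * (2 + η * r)) *
          (Real.exp ((n : ℝ) * Real.log r) * ∏ j, ‖x - ζ j‖) := by
          gcongr
  -- the conclusion
  have hzi : Function.Injective fun j => (r : ℂ) * ζ j := fun i j h =>
    hζi (mul_left_cancel₀ hr' h)
  have hfin := h1 P ξ hξ K n (fun j => (r : ℂ) * ζ j) r η N a hK hn1 hzi hr hη hNpos hfock hdist
    ha htail
  refine le_trans ?_ hfin
  have hbn := hb n N a hn hN ha
  refine (Real.exp_le_exp.2 ?_).trans (hbn.trans ?_)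
  · have : (E + 4 * A ^ 2 * e) * r ^ 4 ≤ (E + ε) * r ^ 4 := by gcongr
    linarith
  · have hv : Real.exp ((n : ℝ) * ((n : ℝ) - 1) * Real.log r -
        (n : ℝ) ^ 2 * (1 / 4 - Real.log A / 2 + E / A ^ 2) - e * (n : ℝ) ^ 2) ≤
          (vdm fun j => (r : ℂ) * ζ j) ^ 2 := by
      rw [vdm_scale hζi hr]
      apply Real.exp_le_exp.2
      have h8 : (n : ℝ) ^ 2 * en g g ≤ (n : ℝ) ^ 2 * (1 / 4 - Real.log A / 2 + E / A ^ 2) := by
        gcongr
      linarith
    gcongr

end Pool.Agent.GH
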