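import Pool.Agent.GH.Stmts

/-!
ABD: the density of zeros `(1/pi on the disk of area pi A) + σ - lam`, normalised.
-/

namespace Pool.Agent.GH

open MeasureTheory ProbabilityTheory Filter Topology

namespace ABD

theorem nice_comb {f g : ℂ → ℝ} {R B R' B' T a b : ℝ} (hf : Nice f R B) (hg : Nice g R' B')
    (h1 : R ≤ T) (h2 : R' ≤ T) : Nice (fun z => a * f z + b * g z) T (|a| * B + |b| * B') where
  meas := (hf.meas.const_mul a).add (hg.meas.const_mul b)
  bdd z := by
    refine (abs_add_le _ _).trans ?_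
    rw [abs_mul, abs_mul]
    exact add_le_add (mul_le_mul_of_nonneg_left (hf.bdd z) (abs_nonneg a))
      (mul_le_mul_of_nonneg_left (hg.bdd z) (abs_nonneg b))
  supp z hz := by
    rw [hf.supp z (by linarith), hg.supp z (by linarith)]
    simp

theorem mono {f : ℂ → ℝ} {R B T : ℝ} (hf : Nice f R B) (h : R ≤ T) : Nice f T B where
  meas := hf.meas
  bdd := hf.bdd
  supp z hz := hf.supp z (by linarith)

end ABD

theorem ABD_thm (h1 : POT_Stmt) (h2 : SYM_Stmt) (h3 : DISC_Stmt) : ABD_Stmt := by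
  intro σ lam R B A hσ hσ0 hl hl0 hmass hA hR hRA hw g hg
  have hρ : 0 < Real.sqrt A := Real.sqrt_pos.2 hA
  have hρ2 : Real.sqrt A ^ 2 = A := Real.sq_sqrt hA.le
  have hρ4 : Real.sqrt A ^ 4 = A ^ 2 := by
    rw [show Real.sqrt A ^ 4 = (Real.sqrt A ^ 2) ^ 2 by ring, hρ2]
  obtain ⟨hD, hDm, hDin, -, hDe⟩ := h3 (Real.sqrt A) hρ
  set ρ := Real.sqrt A with hρdef
  rw [hρ2] at hDm hDe
  -- the neutral part
  have hτ : Nice (fun z => 1 * σ z + (-1) * lam z) R (|1| * B + |-1| * (1 / Real.pi)) :=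
    ABD.nice_comb hσ hl le_rfl le_rfl
  obtain ⟨τ, hτdef⟩ : ∃ τ : ℂ → ℝ, τ = fun z => 1 * σ z + (-1) * lam z := ⟨_, rfl⟩
  rw [← hτdef] at hτ
  have hτz : ∀ z, τ z = σ z - lam z := fun z => by rw [hτdef]; ring
  have hpτ : ∀ z, pot τ z = pot σ z - pot lam z := by
    intro z
    rw [hτdef, h1.2 σ lam R B R (1 / Real.pi) 1 (-1) hσ hl z]
    ring
  have hgc : g = fun z => (1 / A) * disc ρ z + (1 / A) * τ z := by
    rw [hg]
    funext z
    rw [hτz]
    field_simp
    ring
  have hgN : Nice g ρ (|1 / A| * (1 / Real.pi) + |1 / A| * (|1| * B + |-1| * (1 / Real.pi))) := by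
    rw [hgc]
    exact ABD.nice_comb hD hτ le_rfl hRA.le
  have hpg : ∀ z, pot g z = 1 / A * pot (disc ρ) z + 1 / A * pot τ z := by
    intro z
    rw [hgc, h1.2 (disc ρ) τ ρ (1 / Real.pi) R _ (1 / A) (1 / A) hD hτ z]
  have hIσ : Integrable σ := (h1.1 σ R B hσ).1
  have hIl : Integrable lam := (h1.1 lam R (1 / Real.pi) hl).1
  have hID : Integrable (disc ρ) := (h1.1 (disc ρ) ρ (1 / Real.pi) hD).1
  have hIτ : Integrable τ := (h1.1 τ R _ hτ).1
  have hτ0 : ∫ z, τ z = 0 := by
    simp only [hτz]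
    rw [integral_sub hIσ hIl, hmass, sub_self]
  refine ⟨⟨_, hgN⟩, ?_, ?_, ?_, ?_⟩
  · intro z
    rw [hg]
    show 0 ≤ (disc ρ z + σ z - lam z) / A
    refine div_nonneg ?_ hA.le
    by_cases hz : ‖z‖ ≤ ρ
    · have h4 : disc ρ z = 1 / Real.pi := by
        rw [disc, Set.indicator_of_mem (by simpa using hz)]
      have h5 : lam z ≤ 1 / Real.pi := (le_abs_self _).trans (hl.bdd z)
      rw [h4]
      linarith [hσ0 z]
    · push Not at hz
      rw [hD.supp z hz, hσ.supp z (by linarith), hl.supp z (by linarith)]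
      norm_num
  · rw [hgc, integral_add (hID.const_mul _) (hIτ.const_mul _), integral_const_mul,
      integral_const_mul, hτ0, hDm]
    field_simp
    ring
  · intro z hz
    rw [hpg, hDin z hz, hpτ, hρ2]
    field_simp
  · have hsym := (h2 τ (disc ρ) R _ ρ _ hτ hD)
    have hDτ := (h2 (disc ρ) τ ρ _ R _ hD hτ)
    have hττ := (h2 τ τ R _ R _ hτ hτ)
    have hDD := (h2 (disc ρ) (disc ρ) ρ _ ρ _ hD hD)
    have e1 : A ^ 2 * en g g =
        en (disc ρ) (disc ρ) + en (disc ρ) τ + (en τ (disc ρ) + en τ τ) := by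
      unfold en
      have i1 : Integrable fun z => pot (disc ρ) z * disc ρ z + pot (disc ρ) z * τ z :=
        hDD.1.add hDτ.1
      have i2 : Integrable fun z => pot τ z * disc ρ z + pot τ z * τ z := hsym.1.add hττ.1
      rw [← integral_add hDD.1 hDτ.1, ← integral_add hsym.1 hττ.1, ← integral_add i1 i2,
        ← integral_const_mul]
      refine integral_congr_ae (Eventually.of_forall fun z => ?_)
      show A ^ 2 * (pot g z * g z) = _
      rw [hpg z, hgc]
      show A ^ 2 * ((1 / A * pot (disc ρ) z + 1 / A * pot τ z) *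
        (1 / A * disc ρ z + 1 / A * τ z)) = pot (disc ρ) z * disc ρ z + pot (disc ρ) z * τ z +
          (pot τ z * disc ρ z + pot τ z * τ z)
      field_simp
    have e2 : en τ (disc ρ) = 1 / Real.pi * ∫ z, (pot σ z - pot lam z) := by
      unfold en
      rw [← integral_const_mul]
      refine integral_congr_ae (Eventually.of_forall fun z => ?_)
      show pot τ z * disc ρ z = 1 / Real.pi * (pot σ z - pot lam z)
      rw [hpτ]
      by_cases hz : ‖z‖ ≤ ρ
      · have h4 : disc ρ z = 1 / Real.pi := by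
          rw [disc, Set.indicator_of_mem (by simpa using hz)]
        rw [h4]
        ring
      · push Not at hz
        rw [hw z (by linarith)]
        ring
    have e3 : en τ τ = ∫ z, (pot σ z - pot lam z) * (σ z - lam z) := by
      unfold en
      refine integral_congr_ae (Eventually.of_forall fun z => ?_)
      show pot τ z * τ z = _
      rw [hpτ, hτz]
    have e4 : en (disc ρ) τ = en τ (disc ρ) := hDτ.2.2.2
    rw [e1, e4, e2, e3, hDe, Efun, hρ4]
    ring

end Pool.Agent.GH
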