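import Pool.Agent.GH.Stmts

/-!
Module GH_ABN: the asymptotic evaluation of the finite inequality.
-/

namespace Pool.Agent.GH.ABN

open Filter Topology

/-- The logarithm of the right-hand side. -/
lemma log_rhs (n : ℕ) (A E η ε r N a : ℝ) (hr : 0 < r) (hη : 0 < η) (hn : 1 ≤ n)
    (hN : N = Real.exp 1 * ((n : ℝ) + 1) ^ 2 *
      Real.exp ((n : ℝ) * (2 * Real.log r + Real.log A - 1 + 2 * ε)))
    (ha : a = 1 / (Real.sqrt N * (2 + η * r))) :
    0 < 1 / 2 * Real.exp (-1) * (a ^ (2 * (n + 1)) *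
        (∏ k ∈ Finset.range (n + 1), (k.factorial : ℝ)) *
        Real.exp ((n : ℝ) * ((n : ℝ) - 1) * Real.log r -
          (n : ℝ) ^ 2 * (1 / 4 - Real.log A / 2 + E / A ^ 2) - ε * (n : ℝ) ^ 2) *
        (1 / 64) * (η * r / (8 * n)) ^ (2 * n)) ∧
    Real.log (1 / 2 * Real.exp (-1) * (a ^ (2 * (n + 1)) *
        (∏ k ∈ Finset.range (n + 1), (k.factorial : ℝ)) *
        Real.exp ((n : ℝ) * ((n : ℝ) - 1) * Real.log r -
          (n : ℝ) ^ 2 * (1 / 4 - Real.log A / 2 + E / A ^ 2) - ε * (n : ℝ) ^ 2) *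
        (1 / 64) * (η * r / (8 * n)) ^ (2 * n))) =
      -Real.log 2 - 1 - ((n : ℝ) + 1) * (1 + 2 * Real.log ((n : ℝ) + 1) +
        (n : ℝ) * (2 * Real.log r + Real.log A - 1 + 2 * ε)) -
        2 * ((n : ℝ) + 1) * Real.log (2 + η * r) +
        ∑ k ∈ Finset.range (n + 1), Real.log (k.factorial : ℝ) +
        ((n : ℝ) * ((n : ℝ) - 1) * Real.log r -
          (n : ℝ) ^ 2 * (1 / 4 - Real.log A / 2 + E / A ^ 2) - ε * (n : ℝ) ^ 2) -
        Real.log 64 + 2 * (n : ℝ) * Real.log (η * r / (8 * n)) := by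
  have hn0 : (0 : ℝ) < n := by exact_mod_cast hn
  have hN0 : 0 < N := by rw [hN]; positivity
  have hsN : 0 < Real.sqrt N := Real.sqrt_pos.mpr hN0
  have h2 : 0 < 2 + η * r := by positivity
  have ha0 : 0 < a := by rw [ha]; positivity
  have hP : 0 < ∏ k ∈ Finset.range (n + 1), (k.factorial : ℝ) :=
    Finset.prod_pos fun k _ => by exact_mod_cast Nat.factorial_pos k
  have hq : 0 < η * r / (8 * (n : ℝ)) := by positivity
  have hlogN : Real.log N = 1 + 2 * Real.log ((n : ℝ) + 1) +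
      (n : ℝ) * (2 * Real.log r + Real.log A - 1 + 2 * ε) := by
    rw [hN, Real.log_mul (by positivity) (by positivity),
      Real.log_mul (by positivity) (by positivity), Real.log_exp, Real.log_exp, Real.log_pow]
    push_cast
    ring
  have hloga : Real.log a = -(1 / 2 * Real.log N) - Real.log (2 + η * r) := by
    rw [ha, one_div, Real.log_inv, Real.log_mul hsN.ne' h2.ne', Real.log_sqrt hN0.le]
    ring
  have hl2 : Real.log (1 / 2) = -Real.log 2 := by rw [one_div, Real.log_inv]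
  have hl64 : Real.log (1 / 64) = -Real.log 64 := by rw [one_div, Real.log_inv]
  refine ⟨by positivity, ?_⟩
  rw [Real.log_mul (by positivity) (by positivity), Real.log_mul (by positivity) (by positivity),
    Real.log_mul (by positivity) (by positivity), Real.log_mul (by positivity) (by positivity),
    Real.log_mul (by positivity) (by positivity), Real.log_mul (by positivity) (by positivity),
    Real.log_exp, Real.log_exp, Real.log_pow, Real.log_pow, hl2, hl64, Real.log_prod, hloga,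
    hlogN]
  · push_cast
    ring
  · intro k _
    exact_mod_cast Nat.factorial_ne_zero k

/-- The numerical estimate. -/
lemma estim (C A E η ε r n l p q s L S lA Er : ℝ) (hA : 0 < A) (hη : 0 < η) (hε : 0 < ε)
    (hr : 1 ≤ r) (hAr : 2 ≤ A * r ^ 2) (hn1 : 1 ≤ n) (hn : n ≤ A * r ^ 2)
    (hn' : A * r ^ 2 ≤ n + 1) (hL : L ≤ r) (hp : p ≤ (A + 3) * r) (hp0 : 0 ≤ p)
    (hq : q ≤ (2 + η) * r) (hq0 : 0 ≤ q) (hs : -(8 * A / η * r) ≤ s) (hl0 : 0 ≤ l)
    (hlp : l ≤ p) (hl : lA + 2 * L - 2 / (A * r ^ 2) ≤ l)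
    (hS : n ^ 2 / 2 * l - 3 / 4 * n ^ 2 - C * n * (1 + l) ≤ S)
    (hEr : Er = 129 + (A + 1) * (2 * A + 7) + 2 * (A + 1) * (2 + η) + 16 * A ^ 2 / η + A +
      |C| * A * (A + 4) + A * (3 + |lA| + 2 * ε) + 2 * |E| / A)
    (hr2 : Er ≤ A ^ 2 * ε * r) (c2 c64 : ℝ) (hc : c2 + c64 ≤ 128) :
    -((E + 4 * A ^ 2 * ε) * r ^ 4) ≤
      -c2 - 1 - (n + 1) * (1 + 2 * p + n * (2 * L + lA - 1 + 2 * ε)) - 2 * (n + 1) * q + S +
        (n * (n - 1) * L - n ^ 2 * (1 / 4 - lA / 2 + E / A ^ 2) - ε * n ^ 2) - c64 +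
        2 * n * s := by
  have hr0 : 0 < r := by linarith
  have hr3 : r ^ 2 ≤ r ^ 3 := by nlinarith [pow_pos hr0 2]
  have hr3' : 1 ≤ r ^ 3 := one_le_pow₀ hr
  have hr2' : 1 ≤ r ^ 2 := one_le_pow₀ hr
  have hrr : r ≤ r ^ 2 := by nlinarith
  have hn0 : 0 ≤ n := by linarith
  have hAr0 : 0 < A * r ^ 2 := by positivity
  have hn2 : n ^ 2 ≤ A ^ 2 * r ^ 4 := by nlinarith
  -- the term with the logarithm
  have e1 : n ^ 2 / 2 * (lA + 2 * L) - n ≤ n ^ 2 / 2 * l := by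
    have h1 : n ^ 2 / 2 * (lA + 2 * L - 2 / (A * r ^ 2)) ≤ n ^ 2 / 2 * l :=
      mul_le_mul_of_nonneg_left hl (by positivity)
    have h2 : n ^ 2 / 2 * (2 / (A * r ^ 2)) ≤ n := by
      have : n ^ 2 / 2 * (2 / (A * r ^ 2)) = n ^ 2 / (A * r ^ 2) := by field_simp
      rw [this, div_le_iff₀ hAr0]
      nlinarith
    nlinarith
  have hn1A : n + 1 ≤ (A + 1) * r ^ 2 := by nlinarith
  -- individual errors
  have e2 : (n + 1) * (1 + 2 * p) ≤ (A + 1) * (2 * A + 7) * r ^ 3 := by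
    have h1 : 1 + 2 * p ≤ (2 * A + 7) * r := by nlinarith
    calc (n + 1) * (1 + 2 * p) ≤ ((A + 1) * r ^ 2) * ((2 * A + 7) * r) :=
          mul_le_mul hn1A h1 (by positivity) (by positivity)
      _ = _ := by ring
  have e3 : 2 * (n + 1) * q ≤ 2 * (A + 1) * (2 + η) * r ^ 3 := by
    calc 2 * (n + 1) * q ≤ (2 * ((A + 1) * r ^ 2)) * ((2 + η) * r) :=
          mul_le_mul (by linarith) hq hq0 (by positivity)
      _ = _ := by ring
  have e4 : -(16 * A ^ 2 / η * r ^ 3) ≤ 2 * n * s := by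
    have h1 : 2 * n * (-(8 * A / η * r)) ≤ 2 * n * s :=
      mul_le_mul_of_nonneg_left hs (by positivity)
    have h2 : 2 * n * (8 * A / η * r) ≤ 2 * (A * r ^ 2) * (8 * A / η * r) :=
      mul_le_mul_of_nonneg_right (by linarith) (by positivity)
    have h3 : 2 * (A * r ^ 2) * (8 * A / η * r) = 16 * A ^ 2 / η * r ^ 3 := by
      field_simp
      ring
    nlinarith
  have e5 : n ≤ A * r ^ 3 := by nlinarith
  have e6 : C * n * (1 + l) ≤ |C| * A * (A + 4) * r ^ 3 := by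
    have h1 : 1 + l ≤ (A + 4) * r := by nlinarith
    have h2 : C * (n * (1 + l)) ≤ |C| * (n * (1 + l)) :=
      mul_le_mul_of_nonneg_right (le_abs_self C) (by positivity)
    have h3 : n * (1 + l) ≤ (A * r ^ 2) * ((A + 4) * r) :=
      mul_le_mul hn h1 (by positivity) (by positivity)
    calc C * n * (1 + l) = C * (n * (1 + l)) := by ring
      _ ≤ |C| * (n * (1 + l)) := h2
      _ ≤ |C| * ((A * r ^ 2) * ((A + 4) * r)) := mul_le_mul_of_nonneg_left h3 (abs_nonneg C)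
      _ = _ := by ring
  have e7 : n * (3 * L + lA - 1 + 2 * ε) ≤ A * (3 + |lA| + 2 * ε) * r ^ 3 := by
    have h0 : 3 * L + lA - 1 + 2 * ε ≤ (3 + |lA| + 2 * ε) * r := by
      have := le_abs_self lA
      have h5 : |lA| ≤ |lA| * r := by nlinarith [abs_nonneg lA]
      nlinarith
    calc n * (3 * L + lA - 1 + 2 * ε) ≤ n * ((3 + |lA| + 2 * ε) * r) :=
          mul_le_mul_of_nonneg_left h0 hn0
      _ ≤ (A * r ^ 2) * ((3 + |lA| + 2 * ε) * r) :=
          mul_le_mul_of_nonneg_right hn (by positivity)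
      _ = _ := by ring
  have e8 : n ^ 2 * (E / A ^ 2) ≤ E * r ^ 4 + 2 * |E| / A * r ^ 3 := by
    have h1 : n ^ 2 * (E / A ^ 2) - E * r ^ 4 = E / A ^ 2 * (n ^ 2 - A ^ 2 * r ^ 4) := by
      field_simp
    have h2 : |n ^ 2 - A ^ 2 * r ^ 4| ≤ 2 * (A * r ^ 2) := by
      rw [abs_le]
      constructor
      · nlinarith
      · nlinarith
    have h3 : E / A ^ 2 * (n ^ 2 - A ^ 2 * r ^ 4) ≤ |E| / A ^ 2 * (2 * (A * r ^ 2)) := by
      calc E / A ^ 2 * (n ^ 2 - A ^ 2 * r ^ 4) ≤ |E / A ^ 2 * (n ^ 2 - A ^ 2 * r ^ 4)| :=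
            le_abs_self _
        _ = |E| / A ^ 2 * |n ^ 2 - A ^ 2 * r ^ 4| := by
            rw [abs_mul, abs_div, abs_of_pos (by positivity : (0 : ℝ) < A ^ 2)]
        _ ≤ _ := mul_le_mul_of_nonneg_left h2 (by positivity)
    have h4 : |E| / A ^ 2 * (2 * (A * r ^ 2)) = 2 * |E| / A * r ^ 2 := by
      field_simp
    have h5 : 2 * |E| / A * r ^ 2 ≤ 2 * |E| / A * r ^ 3 :=
      mul_le_mul_of_nonneg_left hr3 (by positivity)
    linarith
  have e9 : Er * r ^ 3 ≤ A ^ 2 * ε * r ^ 4 := by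
    calc Er * r ^ 3 ≤ (A ^ 2 * ε * r) * r ^ 3 := mul_le_mul_of_nonneg_right hr2 (by positivity)
      _ = _ := by ring
  have e10 : c2 + c64 + 1 ≤ 129 * r ^ 3 := by linarith
  have e11 : Er * r ^ 3 = 129 * r ^ 3 + (A + 1) * (2 * A + 7) * r ^ 3 +
      2 * (A + 1) * (2 + η) * r ^ 3 + 16 * A ^ 2 / η * r ^ 3 + A * r ^ 3 +
      |C| * A * (A + 4) * r ^ 3 + A * (3 + |lA| + 2 * ε) * r ^ 3 + 2 * |E| / A * r ^ 3 := by
    rw [hEr]; ring
  have e12 : 3 * ε * n ^ 2 ≤ 3 * ε * (A ^ 2 * r ^ 4) :=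
    mul_le_mul_of_nonneg_left hn2 (by positivity)
  have key : -c2 - 1 - (n + 1) * (1 + 2 * p + n * (2 * L + lA - 1 + 2 * ε)) -
        2 * (n + 1) * q + S +
        (n * (n - 1) * L - n ^ 2 * (1 / 4 - lA / 2 + E / A ^ 2) - ε * n ^ 2) - c64 +
        2 * n * s =
      -(c2 + c64 + 1) - (n + 1) * (1 + 2 * p) - 2 * (n + 1) * q + 2 * n * s -
        n * (3 * L + lA - 1 + 2 * ε) - n ^ 2 * (E / A ^ 2) - 3 * ε * n ^ 2 +
        (S - (n ^ 2 / 2 * (lA + 2 * L) - 3 / 4 * n ^ 2)) := by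
    ring
  rw [key]
  linarith

end Pool.Agent.GH.ABN

namespace Pool.Agent.GH

open Filter Topology

/-- The asymptotic evaluation of the finite inequality. -/
theorem ABN_thm (h1 : FACT_Stmt) : ABN_Stmt := by
  obtain ⟨C, hC⟩ := h1
  intro A E η ε hA hη hε
  obtain ⟨Er, hEr⟩ : ∃ Er : ℝ, Er = 129 + (A + 1) * (2 * A + 7) + 2 * (A + 1) * (2 + η) +
      16 * A ^ 2 / η + A + |C| * A * (A + 4) + A * (3 + |Real.log A| + 2 * ε) +
      2 * |E| / A := ⟨_, rfl⟩
  have ev1 : ∀ᶠ r : ℝ in atTop, 1 ≤ r := eventually_ge_atTop 1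
  have ev2 : ∀ᶠ r : ℝ in atTop, 2 / A ≤ r := eventually_ge_atTop _
  have ev3 : ∀ᶠ r : ℝ in atTop, Er / (A ^ 2 * ε) ≤ r := eventually_ge_atTop _
  filter_upwards [ev1, ev2, ev3] with r hr hr2 hr3 n N a hn hN ha
  have hr0 : 0 < r := by linarith
  have hAr : 2 ≤ A * r ^ 2 := by
    rw [div_le_iff₀ hA] at hr2
    nlinarith
  have hAr0 : 0 < A * r ^ 2 := by positivity
  have hn1 : (n : ℝ) ≤ A * r ^ 2 := by rw [hn]; exact Nat.floor_le hAr0.le
  have hn2 : A * r ^ 2 < (n : ℝ) + 1 := by rw [hn]; exact Nat.lt_floor_add_one _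
  have hn3 : (1 : ℝ) ≤ n := by
    have : (1 : ℝ) < (n : ℝ) + 1 := by linarith
    have h5 : 0 < n := by
      have : (0 : ℝ) < n := by linarith
      exact_mod_cast this
    exact_mod_cast h5
  have hn4 : 1 ≤ n := by exact_mod_cast hn3
  obtain ⟨hpos, hlog⟩ := ABN.log_rhs n A E η ε r N a hr0 hη hn4 hN ha
  rw [← Real.le_log_iff_exp_le hpos, hlog]
  have hn0 : (0 : ℝ) < n := by linarith
  have hA1 : 0 < A + 1 := by linarith
  have hlogr : Real.log r ≤ r := by linarith [Real.log_le_sub_one_of_pos hr0]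
  have hlogr0 : 0 ≤ Real.log r := Real.log_nonneg hr
  refine ABN.estim C A E η ε r n (Real.log n) (Real.log ((n : ℝ) + 1)) (Real.log (2 + η * r))
    (Real.log (η * r / (8 * n))) (Real.log r) _ (Real.log A) Er hA hη hε hr hAr hn3 hn1 hn2.le
    hlogr ?_ ?_ ?_ ?_ ?_ ?_ ?_ ?_ (hC n hn4) hEr ?_ (Real.log 2) (Real.log 64) ?_
  · -- log (n+1)
    have h1 : (n : ℝ) + 1 ≤ (A + 1) * r ^ 2 := by nlinarith [one_le_pow₀ hr (n := 2)]
    have h2 : Real.log ((n : ℝ) + 1) ≤ Real.log ((A + 1) * r ^ 2) :=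
      Real.log_le_log (by linarith) h1
    rw [Real.log_mul hA1.ne' (by positivity), Real.log_pow] at h2
    push_cast at h2
    have h3 := Real.log_le_sub_one_of_pos hA1
    nlinarith
  · exact Real.log_nonneg (by linarith)
  · have h1 := Real.log_le_sub_one_of_pos (by positivity : 0 < 2 + η * r)
    nlinarith
  · exact Real.log_nonneg (by nlinarith)
  · have hq : 0 < η * r / (8 * (n : ℝ)) := by positivity
    have h1 := Real.one_sub_inv_le_log_of_pos hq
    have h2 : (η * r / (8 * (n : ℝ)))⁻¹ ≤ 8 * A / η * r := by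
      rw [inv_div, div_le_iff₀ (by positivity)]
      have : 8 * A / η * r * (η * r) = 8 * (A * r ^ 2) := by field_simp
      rw [this]
      linarith
    linarith
  · exact Real.log_nonneg hn3
  · exact Real.log_le_log hn0 (by linarith)
  · -- lower bound for log n
    have h1 : Real.log (A * r ^ 2) = Real.log A + 2 * Real.log r := by
      rw [Real.log_mul hA.ne' (by positivity), Real.log_pow]
      push_cast
      ring
    have h2 : 1 - ((n : ℝ) / (A * r ^ 2))⁻¹ ≤ Real.log ((n : ℝ) / (A * r ^ 2)) :=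
      Real.one_sub_inv_le_log_of_pos (by positivity)
    rw [Real.log_div hn0.ne' hAr0.ne', h1, inv_div] at h2
    have h3 : A * r ^ 2 / (n : ℝ) ≤ 1 + 2 / (A * r ^ 2) := by
      rw [div_le_iff₀ hn0]
      have h4 : A * r ^ 2 / 2 ≤ (n : ℝ) := by linarith
      have h5 : 1 ≤ 2 / (A * r ^ 2) * (n : ℝ) := by
        calc (1 : ℝ) = 2 / (A * r ^ 2) * (A * r ^ 2 / 2) := by field_simp
          _ ≤ _ := mul_le_mul_of_nonneg_left h4 (by positivity)
      linarith
    linarith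
  · rw [div_le_iff₀ (by positivity)] at hr3
    linarith
  · have h1 := Real.log_le_sub_one_of_pos (by norm_num : (0 : ℝ) < 2)
    have h2 := Real.log_le_sub_one_of_pos (by norm_num : (0 : ℝ) < 64)
    linarith

end Pool.Agent.GH
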