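import Pool.Agent.GH.Defs

/-!
Statements of the modules (see PAPER.md for the proofs).
-/

namespace Pool.Agent.GH

open MeasureTheory ProbabilityTheory Filter Topology

universe u

/-! ### Part P: probability -/

/-- Finite-dimensional Gaussian lower bound. -/
def GDENS_Stmt : Prop := ∀ {Ω : Type u} [MeasurableSpace Ω] (P : Measure Ω) (ξ : ℕ → Ω → ℂ),
  IsGauss P ξ → ∀ (n : ℕ) (S : Set (Fin (n + 1) → ℂ)), MeasurableSet S →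
    (∀ x ∈ S, ∑ k, ‖x k‖ ^ 2 ≤ 1) →
    Real.exp (-1) / Real.pi ^ (n + 1) * (volume S).toReal ≤
      (P {ω | (fun k : Fin (n + 1) => ξ (k : ℕ) ω) ∈ S}).toReal

/-- The tail event costs at most a factor two. -/
def INDT_Stmt : Prop := ∀ {Ω : Type u} [MeasurableSpace Ω] (P : Measure Ω) (ξ : ℕ → Ω → ℂ),
  IsGauss P ξ → ∀ (n : ℕ) (S : Set (Fin (n + 1) → ℂ)), MeasurableSet S →
    1 / 2 * (P {ω | (fun k : Fin (n + 1) => ξ (k : ℕ) ω) ∈ S}).toReal ≤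
      (P {ω | (fun k : Fin (n + 1) => ξ (k : ℕ) ω) ∈ S ∧
        ∀ k : ℕ, n < k → ‖ξ k ω‖ ≤ (k : ℝ)}).toReal

/-- The determinant of the basis `Q, L_0, ..., L_{n-1}`. -/
def VAND_Stmt : Prop := ∀ (n : ℕ) (z : Fin n → ℂ),
  ‖(Matrix.of fun (k j : Fin (n + 1)) =>
    ((Fin.cons (rootPoly z) (rootPolyErase z) : Fin (n + 1) → Polynomial ℂ) j).coeff
      (k : ℕ)).det‖ = vdm z

/-- The volume of `goodS`. -/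
def POLV_Stmt : Prop := ∀ (n : ℕ) (z : Fin n → ℂ) (a t : ℝ), 0 < a → 0 < t →
  MeasurableSet (goodS z a t) ∧
  (volume (goodS z a t)).toReal =
    a ^ (2 * (n + 1)) * (∏ k ∈ Finset.range (n + 1), (k.factorial : ℝ)) * (vdm z) ^ 2 *
      Real.pi ^ (n + 1) * (1 / 64) * t ^ (2 * n)

/-- Dividing by a linear factor does not increase the Fock norm. -/
def FOCK_Stmt : Prop := ∀ (n : ℕ) (α : ℂ) (L : Polynomial ℂ), L.natDegree + 1 ≤ n →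
  fock n L ≤ fock n ((Polynomial.X - Polynomial.C α) * L)

/-- Cauchy estimates on the circles of radius `√k`. -/
def CAU_Stmt : Prop := ∀ (n : ℕ) (Q : Polynomial ℂ) (Λ : ℝ),
  (∀ z : ℂ, ‖z‖ ^ 2 ≤ (n : ℝ) → ‖Q.eval z‖ ^ 2 ≤ Real.exp (Λ + ‖z‖ ^ 2)) →
  fock n Q ≤ Real.exp 1 * ((n : ℝ) + 1) ^ 2 * Real.exp Λ

/-- Product of factorials. -/
def FACT_Stmt : Prop := ∃ C : ℝ, ∀ n : ℕ, 1 ≤ n →
  (n : ℝ) ^ 2 / 2 * Real.log n - 3 / 4 * (n : ℝ) ^ 2 - C * n * (1 + Real.log n) ≤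
    ∑ k ∈ Finset.range (n + 1), Real.log (k.factorial : ℝ)

/-- The finite inequality for the hole probability. -/
def HOLEPT_Stmt : Prop := ∀ {Ω : Type u} [MeasurableSpace Ω] (P : Measure Ω) (ξ : ℕ → Ω → ℂ),
  IsGauss P ξ → ∀ (K : Set ℂ) (n : ℕ) (z : Fin n → ℂ) (r η N a : ℝ), IsCompact K → 1 ≤ n →
    Function.Injective z → 0 < r → 0 < η → 0 < N → fock n (rootPoly z) ≤ N →
    (∀ j, ∀ x ∈ K, η * r ≤ ‖(r : ℂ) * x - z j‖) →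
    a = 1 / (Real.sqrt N * (2 + η * r)) →
    (∀ x ∈ K, (∑' k : ℕ, (if n < k then (k : ℝ) * (r * ‖x‖) ^ k / Real.sqrt (k.factorial : ℝ)
      else 0)) < 3 / 4 * a * ‖(rootPoly z).eval ((r : ℂ) * x)‖) →
    1 / 2 * Real.exp (-1) * (a ^ (2 * (n + 1)) *
      (∏ k ∈ Finset.range (n + 1), (k.factorial : ℝ)) * (vdm z) ^ 2 * (1 / 64) *
      (η * r / (8 * n)) ^ (2 * n)) ≤ holeP P ξ K r

/-- Existence of good point configurations, part one: independent sampling. -/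
def SAMPA_Stmt : Prop := ∀ (g : ℂ → ℝ) (R B : ℝ), Nice g R B → (∀ z, 0 ≤ g z) →
  ∫ z, g z = 1 → ∀ (M : ℕ) (φ : Fin M → ℂ → ℝ) (C : ℝ), (∀ l, Measurable (φ l)) →
    (∀ l z, |φ l z| ≤ C) → ∀ ε : ℝ, 0 < ε → ∀ᶠ n : ℕ in atTop, ∃ ζ : Fin n → ℂ,
      Function.Injective ζ ∧ (∀ i, g (ζ i) ≠ 0) ∧
      -((n : ℝ) ^ 2 * en g g) - ε * (n : ℝ) ^ 2 ≤
        ∑ i, ∑ j ∈ Finset.univ.erase i, Real.log ‖ζ i - ζ j‖ ∧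
      ∀ l, |(∑ j, φ l (ζ j)) / (n : ℝ) - ∫ z, φ l z * g z| ≤ ε

/-- Existence of good point configurations, part two. -/
def SAMPB_Stmt : Prop := ∀ (g : ℂ → ℝ) (R B : ℝ), Nice g R B → (∀ z, 0 ≤ g z) →
  ∫ z, g z = 1 → ∀ (K : Set ℂ) (η T : ℝ), IsCompact K → K.Nonempty → 0 < η →
    (∀ z, Metric.infDist z K < η → g z = 0) → ∀ ε : ℝ, 0 < ε → ∀ᶠ n : ℕ in atTop,
      ∃ ζ : Fin n → ℂ, Function.Injective ζ ∧ (∀ i, g (ζ i) ≠ 0) ∧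
      -((n : ℝ) ^ 2 * en g g) - ε * (n : ℝ) ^ 2 ≤
        ∑ i, ∑ j ∈ Finset.univ.erase i, Real.log ‖ζ i - ζ j‖ ∧
      (∀ z, ‖z‖ ≤ T → ∏ j, ‖z - ζ j‖ ≤ Real.exp ((n : ℝ) * (-pot g z + ε))) ∧
      (∀ z ∈ K, Real.exp ((n : ℝ) * (-pot g z - ε)) ≤ ∏ j, ‖z - ζ j‖)

/-- The density of zeros `(1/pi on the disk of area pi A) + σ - lam`, normalised. -/
def ABD_Stmt : Prop := ∀ (σ lam : ℂ → ℝ) (R B A : ℝ), Nice σ R B → (∀ z, 0 ≤ σ z) →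
  Nice lam R (1 / Real.pi) → (∀ z, 0 ≤ lam z) → ∫ z, σ z = ∫ z, lam z → 0 < A → 0 ≤ R →
  R < Real.sqrt A → (∀ z, R ≤ ‖z‖ → pot σ z - pot lam z = 0) →
  ∀ g : ℂ → ℝ, g = (fun z => (disc (Real.sqrt A) z + σ z - lam z) / A) →
    (∃ B', Nice g (Real.sqrt A) B') ∧ (∀ z, 0 ≤ g z) ∧ ∫ z, g z = 1 ∧
    (∀ z, ‖z‖ ≤ Real.sqrt A →
      A * pot g z = A / 2 * (1 - Real.log A) - ‖z‖ ^ 2 / 2 + (pot σ z - pot lam z)) ∧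
    A ^ 2 * en g g = A ^ 2 * (1 / 4 - Real.log A / 2) + Efun σ lam

/-- The asymptotic evaluation of the finite inequality. -/
def ABN_Stmt : Prop := ∀ (A E η ε : ℝ), 0 < A → 0 < η → 0 < ε →
  ∀ᶠ r : ℝ in atTop, ∀ (n : ℕ) (N a : ℝ), n = ⌊A * r ^ 2⌋₊ →
    N = Real.exp 1 * ((n : ℝ) + 1) ^ 2 *
      Real.exp ((n : ℝ) * (2 * Real.log r + Real.log A - 1 + 2 * ε)) →
    a = 1 / (Real.sqrt N * (2 + η * r)) →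
    Real.exp (-((E + 4 * A ^ 2 * ε) * r ^ 4)) ≤
      1 / 2 * Real.exp (-1) * (a ^ (2 * (n + 1)) *
        (∏ k ∈ Finset.range (n + 1), (k.factorial : ℝ)) *
        Real.exp ((n : ℝ) * ((n : ℝ) - 1) * Real.log r -
          (n : ℝ) ^ 2 * (1 / 4 - Real.log A / 2 + E / A ^ 2) - ε * (n : ℝ) ^ 2) *
        (1 / 64) * (η * r / (8 * n)) ^ (2 * n))

/-- The deterministic tail estimate. -/
def TAILE_Stmt : Prop := ∀ (R W : ℝ), 0 < R → 0 < W → ∃ A₀ : ℝ, 1 ≤ A₀ ∧ ∀ A : ℝ, A₀ ≤ A →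
  ∀ᶠ r : ℝ in atTop, ∀ (n : ℕ) (t : ℝ), n = ⌊A * r ^ 2⌋₊ → 0 ≤ t → t ≤ R →
    (∑' k : ℕ, (if n < k then (k : ℝ) * (r * t) ^ k / Real.sqrt (k.factorial : ℝ) else 0)) ≤
      Real.exp (-(W * r ^ 2))

/-- Admissible exponents give lower bounds for the hole probability. -/
def AB_Stmt : Prop := ∀ {Ω : Type u} [MeasurableSpace Ω] (P : Measure Ω) (ξ : ℕ → Ω → ℂ),
  IsGauss P ξ → ∀ (K : Set ℂ) (E : ℝ), IsCompact K → K.Nonempty → Adm K E → HoleLB P ξ K E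

/-! ### Part L: logarithmic potentials -/

/-- Basic facts on potentials of bounded densities. -/
def POT_Stmt : Prop :=
  (∀ (f : ℂ → ℝ) (R B : ℝ), Nice f R B → Integrable f ∧
    (∀ z, Integrable (fun y => -Real.log ‖z - y‖ * f y)) ∧ Continuous (pot f)) ∧
  (∀ (f g : ℂ → ℝ) (R B R' B' a b : ℝ), Nice f R B → Nice g R' B' → ∀ z,
    pot (fun y => a * f y + b * g y) z = a * pot f z + b * pot g z)

/-- Symmetry and integrability of the mutual energy. -/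
def SYM_Stmt : Prop := ∀ (f g : ℂ → ℝ) (R B R' B' : ℝ), Nice f R B → Nice g R' B' →
  Integrable (fun z => pot f z * g z) ∧
  Integrable (fun p : ℂ × ℂ => -Real.log ‖p.1 - p.2‖ * (f p.1 * g p.2)) ∧
  ∫ p : ℂ × ℂ, -Real.log ‖p.1 - p.2‖ * (f p.1 * g p.2) = en f g ∧ en f g = en g f

/-- Circle averages of potentials. -/
def AVG_Stmt : Prop := ∀ (f : ℂ → ℝ) (R B : ℝ), Nice f R B → ∀ (x : ℂ) (ρ : ℝ), 0 < ρ →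
  Integrable (fun y => -Real.log (max ρ ‖x - y‖) * f y) ∧
  Real.circleAverage (pot f) x ρ = ∫ y, -Real.log (max ρ ‖x - y‖) * f y

/-- The kernel. -/
def KER_Stmt : Prop :=
  (∀ ρ : ℝ, 0 < ρ → Integrable (fun y : ℂ => Real.posLog (ρ / ‖y‖)) ∧
    ∫ y : ℂ, Real.posLog (ρ / ‖y‖) = Real.pi * ρ ^ 2 / 2) ∧
  (∀ h : ℝ, 0 < h → Integrable (ker h) ∧ ∫ x, ker h x = 1 ∧ (∀ x, 0 ≤ ker h x) ∧
    ∀ x, h ≤ ‖x‖ → ker h x = 0)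

/-- Averages minus values, and the nonlocal Laplacian of a potential. -/
def AVK_Stmt : Prop := ∀ (f : ℂ → ℝ) (R B : ℝ), Nice f R B →
  (∀ (x : ℂ) (ρ : ℝ), 0 < ρ → Integrable (fun y => Real.posLog (ρ / ‖x - y‖) * f y) ∧
    Real.circleAverage (pot f) x ρ - pot f x = -∫ y, Real.posLog (ρ / ‖x - y‖) * f y) ∧
  (∀ (h : ℝ) (z : ℂ), 0 < h → Ah h (pot f) z = -(2 * Real.pi) * ∫ y, ker h (z - y) * f y)

/-- Potentials of radial densities. -/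
def RAD_Stmt : Prop := ∀ (f : ℂ → ℝ) (R B : ℝ), Nice f R B →
  (∀ y y' : ℂ, ‖y‖ = ‖y'‖ → f y = f y') → ∀ z : ℂ, z ≠ 0 →
    pot f z = ∫ y, -Real.log (max ‖z‖ ‖y‖) * f y

/-- The uniform density on a disk. -/
def DISC_Stmt : Prop := ∀ R : ℝ, 0 < R → Nice (disc R) R (1 / Real.pi) ∧
  ∫ z, disc R z = R ^ 2 ∧
  (∀ z, ‖z‖ ≤ R → pot (disc R) z = R ^ 2 / 2 * (1 - Real.log (R ^ 2)) - ‖z‖ ^ 2 / 2) ∧
  (∀ z, R ≤ ‖z‖ → pot (disc R) z = -(R ^ 2) * Real.log ‖z‖) ∧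
  en (disc R) (disc R) = R ^ 4 * (1 / 4 - Real.log (R ^ 2) / 2)

/-- Positivity of the logarithmic energy of neutral densities. -/
def POS_Stmt : Prop := ∀ (f : ℂ → ℝ) (R B : ℝ), Nice f R B → ∫ z, f z = 0 → 0 ≤ en f f

/-- Rotation averaging. -/
def ROT_Stmt : Prop := ∀ (f : ℂ → ℝ) (R B : ℝ), Nice f R B → (∀ z, 0 ≤ f z) → ∀ x₀ : ℂ,
  (∫ z, (∫ y, -Real.log (max ‖z - x₀‖ ‖y - x₀‖) * f y) * f z) ≤ en f f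

/-- Layer cake formulas. -/
def LAY_Stmt : Prop := ∀ (lam : ℂ → ℝ) (R : ℝ), Nice lam R (1 / Real.pi) → (∀ z, 0 ≤ lam z) →
  ∀ (x₀ : ℂ) (m T : ℝ), m = ∫ z, lam z → 0 < m → R + ‖x₀‖ < T → Real.sqrt m ≤ T →
  ∀ M : ℝ → ℝ, (∀ s, M s = ∫ z in Metric.ball x₀ s, lam z) →
    Monotone M ∧ (∀ s, 0 ≤ M s) ∧ (∀ s, 0 ≤ s → M s ≤ s ^ 2) ∧ (∀ s, M s ≤ m) ∧
    (∀ s, T ≤ s → M s = m) ∧
    (∀ ρ, 0 < ρ → ρ ≤ T → pot lam x₀ =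
      -m * Real.log ρ + (∫ s in (0 : ℝ)..ρ, M s / s) - ∫ s in ρ..T, (m - M s) / s) ∧
    (∫ z, (∫ y, (Real.log (max ‖z - x₀‖ ‖y - x₀‖) - Real.log ‖y - x₀‖) * lam y) * lam z) =
      ∫ s in (0 : ℝ)..T, M s * (m - M s) / s

/-- The one-dimensional inequality. -/
def ONED_Stmt : Prop := ∀ (M : ℝ → ℝ) (m T U V : ℝ), 0 < m → Real.sqrt m ≤ T → Monotone M →
  (∀ s, 0 ≤ M s) → (∀ s, 0 ≤ s → M s ≤ s ^ 2) → (∀ s, M s ≤ m) → (∀ s, T ≤ s → M s = m) →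
  U = -m * Real.log (Real.sqrt m) + (∫ s in (0 : ℝ)..(Real.sqrt m), M s / s) -
    (∫ s in (Real.sqrt m)..T, (m - M s) / s) →
  V = ∫ s in (0 : ℝ)..T, M s * (m - M s) / s →
  V ≤ Real.exp 2 / 4 * Real.exp (-4 * U / m) - (m - M (Real.sqrt m)) ^ 3 / (8 * m) ∧
  U ≤ m / 2 * (1 - Real.log m)

/-- The star inequality. -/
def STAR_Stmt : Prop := ∀ (lam : ℂ → ℝ) (R : ℝ), Nice lam R (1 / Real.pi) →
  (∀ z, 0 ≤ lam z) → ∀ (x₀ : ℂ) (m q : ℝ), m = ∫ z, lam z → 0 < m →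
    q = m - ∫ z in Metric.ball x₀ (Real.sqrt m), lam z →
    0 ≤ q ∧ q ≤ m ∧ pot lam x₀ ≤ m / 2 * (1 - Real.log m) ∧
    m * pot lam x₀ - en lam lam ≤
      Real.exp 2 / 4 * Real.exp (-4 * pot lam x₀ / m) - q ^ 3 / (8 * m)

/-- Moments against the deficit. -/
def MOM_Stmt : Prop := ∀ (lam : ℂ → ℝ) (R : ℝ), Nice lam R (1 / Real.pi) →
  (∀ z, 0 ≤ lam z) → ∀ (x₀ : ℂ) (m q T : ℝ), m = ∫ z, lam z → 0 < m →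
    q = m - ∫ z in Metric.ball x₀ (Real.sqrt m), lam z → R ≤ T → ‖x₀‖ + Real.sqrt m ≤ T →
    ∀ (p : Polynomial ℂ) (C : ℝ), (∀ z, ‖z‖ ≤ T → ‖p.eval z‖ ≤ C) →
      ‖(∫ z, p.eval z * (lam z : ℂ)) - (m : ℂ) * p.eval x₀‖ ≤ 2 * q * C

/-! ### Part O: the odometer -/

/-- Radial barriers. -/
def BAR_Stmt : Prop := ∀ (ρ α W : ℝ), 0 < ρ → ∃ (R C : ℝ) (b : ℂ → ℝ), ρ < R ∧ Continuous b ∧
  (∀ z, 0 ≤ b z) ∧ (∀ z, b z ≤ C) ∧ (∀ z, R ≤ ‖z‖ → b z = 0) ∧ (∀ z, ‖z‖ ≤ ρ → W ≤ b z) ∧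
  (∀ (h : ℝ) (z : ℂ), 0 < h → Ah h b z ≤ 2) ∧
  (∀ (h : ℝ) (z : ℂ), 0 < h → ‖z‖ ≤ ρ - h → Ah h b z ≤ -α)

/-- Elementary properties of the iteration. -/
def ITER_Stmt : Prop := ∀ (h : ℝ) (s : ℂ → ℝ) (R S L : ℝ), 0 < h → Src s R S L →
  (∀ k, Continuous (odo h s k)) ∧ (∀ k z, 0 ≤ odo h s k z) ∧
  (∀ k z, odo h s k z ≤ odo h s (k + 1) z) ∧
  (∀ b : ℂ → ℝ, Continuous b → (∀ z, 0 ≤ b z) → (∀ z, Ah h b z ≤ 2 - s z) →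
    ∀ k z, odo h s k z ≤ b z) ∧
  (∀ (s' : ℂ → ℝ) (R' S' L' δ : ℝ) (ψ χ : ℂ → ℝ), Src s' R' S' L' → 0 ≤ δ → δ ≤ 1 →
    Continuous ψ → (∀ z, 0 ≤ ψ z) → (∀ z, s' z ≤ s z + δ * χ z) →
    (∀ z, Ah h ψ z ≤ 2 - s z - χ z) →
    ∀ k z, odo h s' k z ≤ (1 - δ) * odo h s k z + δ * ψ z) ∧
  (∀ (v : ℂ) (k : ℕ) (z : ℂ), odo h (fun y => s (y + v)) k z = odo h s k (z + v))

/-- Estimates for the iteration, uniform in the step and in the scale. -/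
def ODOA_Stmt : Prop := ∀ (R S L : ℝ), 0 < R → 0 < S → 0 < L → ∃ (R₁ W Λ : ℝ), R < R₁ ∧ 0 < W ∧
  0 < Λ ∧ ∀ (h : ℝ) (s : ℂ → ℝ), 0 < h → h ≤ 1 → Src s R S L →
    (∀ k z, odo h s k z ≤ W) ∧ (∀ k z, R₁ ≤ ‖z‖ → odo h s k z = 0) ∧
    (∀ k z z', |odo h s k z - odo h s k z'| ≤ Λ * ‖z - z'‖) ∧
    ∀ (s' : ℂ → ℝ) (δ : ℝ), Src s' R S L → 0 ≤ δ → (∀ z, |s z - s' z| ≤ δ) →
      ∀ k z, |odo h s k z - odo h s' k z| ≤ Λ * δ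

/-- The odometer: uniform bounds, uniform Lipschitz bounds, equation, dependence on the source. -/
def ODO_Stmt : Prop := ∀ (R S L : ℝ), 0 < R → 0 < S → 0 < L → ∃ (R₁ W Λ : ℝ), R < R₁ ∧ 0 < W ∧
  0 < Λ ∧ ∀ (h : ℝ) (s : ℂ → ℝ), 0 < h → h ≤ 1 → Src s R S L →
    IsOdo h s (Odo h s) R₁ Λ ∧ (∀ z, Odo h s z ≤ W) ∧ (∀ k z, odo h s k z ≤ Odo h s z) ∧
    (∀ z, Tendsto (fun k => odo h s k z) atTop (𝓝 (Odo h s z))) ∧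
    ∀ (s' : ℂ → ℝ) (δ : ℝ), Src s' R S L → 0 ≤ δ → (∀ z, |s z - s' z| ≤ δ) →
      ∀ z, |Odo h s z - Odo h s' z| ≤ Λ * δ

/-- Bounds for the target density. -/
def LAMA_Stmt : Prop := ∀ (h : ℝ) (s w : ℂ → ℝ) (R S L R₁ Λ : ℝ), 0 < h → Src s R S L →
  IsOdo h s w R₁ Λ → Continuous (lamOf h s w) ∧ (∀ z, 0 ≤ lamOf h s w z) ∧
    (∀ z, lamOf h s w z ≤ 1 / Real.pi) ∧ (∀ z, 0 < w z → lamOf h s w z = 1 / Real.pi) ∧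
    (∀ z, max R R₁ + h < ‖z‖ → lamOf h s w z = 0)

/-- The nonlocal Laplacian against potentials, constants and polynomials. -/
def CONV_Stmt : Prop := ∀ (h : ℝ) (w : ℂ → ℝ) (R : ℝ), 0 < h → Continuous w →
  (∀ z, R ≤ ‖z‖ → w z = 0) →
    (∀ z, pot (Ah h w) z = -(2 * Real.pi) * ∫ y, ker h (z - y) * w y) ∧
    ∫ z, Ah h w z = 0 ∧
    ∀ p : Polynomial ℂ, ∫ z, p.eval z * (Ah h w z : ℂ) = 0

/-- Smoothing with the kernel. -/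
def SMO_Stmt : Prop := ∀ (h : ℝ) (w : ℂ → ℝ) (R Λ : ℝ), 0 < h → 0 ≤ R → 0 ≤ Λ →
  (∀ z, 0 ≤ w z) → (∀ z z', |w z - w z'| ≤ Λ * ‖z - z'‖) → (∀ z, R ≤ ‖z‖ → w z = 0) →
  ∀ w' : ℂ → ℝ, (∀ z, w' z = ∫ y, ker h (z - y) * w y) →
    (∀ z, 0 ≤ w' z) ∧ (∀ z, |w' z - w z| ≤ Λ * h) ∧ (∀ z, R + h ≤ ‖z‖ → w' z = 0) ∧
    Integrable w ∧ Integrable w' ∧ ∫ z, w' z = ∫ z, w z

/-- The energy inequality. -/
def ENE_Stmt : Prop := ∀ (σ lam w : ℂ → ℝ) (R B κ : ℝ), Nice σ R B → (∀ z, 0 ≤ σ z) →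
  Nice lam R (1 / Real.pi) → (∀ z, 0 ≤ lam z) → (∀ z, 0 ≤ w z) → Integrable w →
  Continuous w → (∀ z, R ≤ ‖z‖ → w z = 0) → Integrable (fun z => pot σ z - pot lam z) →
  (∀ z, |pot σ z - pot lam z - w z| ≤ κ) → ∫ z, (pot σ z - pot lam z) = ∫ z, w z →
  (∀ z, 0 < w z → lam z = 1 / Real.pi) →
    Efun σ lam ≤ en σ σ - en lam lam + 2 * κ * ∫ z, lam z

/-- Uniform bound for the support of the odometer. -/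
def TAILW_Stmt : Prop := ∀ R₀ : ℝ, 0 < R₀ → ∃ R₂ : ℝ, R₀ < R₂ ∧
  ∀ (h : ℝ) (s : ℂ → ℝ) (S L R₁ Λ : ℝ) (x₀ : ℂ), 0 < h → h ≤ 1 → Λ * h ≤ 1 →
    Src s R₀ S L → IsOdo h s (Odo h s) R₁ Λ → (∀ k z, odo h s k z ≤ Odo h s z) →
    (∀ z, Tendsto (fun k => odo h s k z) atTop (𝓝 (Odo h s z))) → ‖x₀‖ ≤ R₀ →
    (∫ y, ker h (x₀ - y) * Odo h s y) ≤ 1 → ∀ z, R₂ ≤ ‖z‖ → Odo h s z = 0

/-- The intermediate value argument: a source mass for which the least value of the odometer on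
`K` is `ε`. -/
def MLA_Stmt : Prop := ∀ (R₀ ε : ℝ) (K : Set ℂ) (β : ℂ → ℝ), 0 < R₀ → 0 < ε → ε ≤ 1 →
  IsCompact K → K.Nonempty → Dens β R₀ →
  ∃ (m₁ R₁ Λ h₀ S L : ℝ), 0 < m₁ ∧ 0 < Λ ∧ 0 < h₀ ∧ h₀ ≤ 1 ∧ ∀ h : ℝ, 0 < h → h ≤ h₀ →
    ∃ (m : ℝ) (s : ℂ → ℝ), ∃ x₀ ∈ K, 0 < m ∧ m ≤ m₁ ∧ s = (fun z => 2 * Real.pi * m * β z) ∧
      Src s R₀ S L ∧ IsOdo h s (Odo h s) R₁ Λ ∧ (∀ k z, odo h s k z ≤ Odo h s z) ∧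
      (∀ z, Tendsto (fun k => odo h s k z) atTop (𝓝 (Odo h s z))) ∧
      (∀ x ∈ K, ε ≤ Odo h s x) ∧ Odo h s x₀ = ε

/-- Existence of the admissible data with a point of `K` where the potential is small. -/
def ML_Stmt : Prop := ∀ R₀ : ℝ, 0 < R₀ → ∃ R₂ : ℝ, R₀ < R₂ ∧
  ∀ (K : Set ℂ) (β : ℂ → ℝ) (η ε : ℝ), IsCompact K → K.Nonempty →
    K ⊆ Metric.closedBall 0 R₀ → Dens β R₀ → 0 < η → (∀ z, Metric.infDist z K < η → β z = 0) →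
    0 < ε → ∃ (m : ℝ) (lam : ℂ → ℝ) (x₀ : ℂ) (B η' : ℝ), 0 < m ∧ x₀ ∈ K ∧
      AdmData K (fun z => m * β z) lam R₂ B η' ∧ ∫ z, lam z = m ∧
      pot (fun z => m * β z) x₀ - pot lam x₀ ≤ ε ∧
      Efun (fun z => m * β z) lam ≤ m ^ 2 * en β β - en lam lam + ε ∧
      ∀ p : Polynomial ℂ, ∫ z, p.eval z * (lam z : ℂ) = (m : ℂ) * ∫ z, p.eval z * (β z : ℂ)

/-- The key inequality. -/
def KI_Stmt : Prop := ∀ R₀ : ℝ, 0 < R₀ → ∃ R₂ : ℝ, R₀ < R₂ ∧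
  ∀ (K : Set ℂ) (β : ℂ → ℝ) (η ε : ℝ), IsCompact K → K.Nonempty →
    K ⊆ Metric.closedBall 0 R₀ → 0 < (volume K).toReal → Dens β R₀ → 0 < η →
    (∀ z, Metric.infDist z K < η → β z = 0) → 0 < ε →
    ∃ x₀ ∈ K, ∃ m q : ℝ, (volume K).toReal / Real.pi ≤ m ∧ m ≤ R₂ ^ 2 ∧ 0 ≤ q ∧
      Adm K (m ^ 2 * (en β β - pot β x₀) + Real.exp 2 / 4 * Real.exp (-4 * pot β x₀) -
        q ^ 3 / (8 * m) + ε) ∧
      ∀ (p : Polynomial ℂ) (C : ℝ), (∀ z, ‖z‖ ≤ R₂ → ‖p.eval z‖ ≤ C) →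
        ‖(m : ℂ) * ((∫ z, p.eval z * (β z : ℂ)) - p.eval x₀)‖ ≤ 2 * q * C

/-! ### Part C: transfinite diameter -/

/-- The `n`-th diameters decrease to the capacity. -/
def CAPA_Stmt : Prop :=
  (∀ K : Set ℂ, IsCompact K → K.Nonempty → Tendsto (dn K) atTop (𝓝 (cap K)) ∧
    (∀ n, 2 ≤ n → cap K ≤ dn K n) ∧ (∀ n, 2 ≤ n → dn K (n + 1) ≤ dn K n) ∧ 0 ≤ cap K) ∧
  (∀ K K' : Set ℂ, IsCompact K → IsCompact K' → K.Nonempty → K ⊆ K' →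
    (∀ n, dn K n ≤ dn K' n) ∧ (∀ n, vmax K n ≤ vmax K' n) ∧ cap K ≤ cap K') ∧
  (∀ (K : Set ℂ) (z : ℂ) (ρ : ℝ), IsCompact K → 0 < ρ → Metric.closedBall z ρ ⊆ K → ρ ≤ cap K)

/-- Fekete tuples. -/
def FEK_Stmt : Prop := ∀ K : Set ℂ, IsCompact K → K.Nonempty →
  (∀ N : ℕ, ∃ a : Fin N → ℂ, IsFek K a) ∧
  (∀ (N : ℕ) (a : Fin N → ℂ), IsFek K a → vdm a = vmax K N) ∧
  (0 < cap K → ∀ (N : ℕ) (a : Fin N → ℂ), 2 ≤ N → IsFek K a → Function.Injective a ∧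
    0 < dn K N ∧
    ∑ i, ∑ j ∈ Finset.univ.erase i, Real.log ‖a i - a j‖ =
      (N : ℝ) * ((N : ℝ) - 1) * Real.log (dn K N) ∧
    ∀ z ∈ K, ∏ i, ‖z - a i‖ ≤ (dn K N) ^ N)

/-- Fekete points of a thickening are at the full distance. -/
def FEKB_Stmt : Prop := ∀ (K : Set ℂ) (δ : ℝ) (N : ℕ) (a : Fin N → ℂ), IsCompact K →
  K.Nonempty → 0 < δ → 2 ≤ N → IsFek (Metric.cthickening δ K) a →
    ∀ i, Metric.infDist (a i) K = δ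

/-- Lower bound for Fekete polynomials off the set, for infinitely many `N`. -/
def FLOW_Stmt : Prop := ∀ K : Set ℂ, IsCompact K → K.Nonempty → 0 < cap K → ∀ ε : ℝ, 0 < ε →
  ∀ N₀ : ℕ, ∃ N : ℕ, N₀ ≤ N ∧ 2 ≤ N ∧ ∀ a : Fin N → ℂ, IsFek K a → ∀ z : ℂ, z ∉ K →
    Metric.infDist z K * (cap K * Real.exp (-ε)) ^ (N - 1) / N ≤ ∏ i, ‖z - a i‖

/-- Outer continuity of the capacity. -/
def OUT_Stmt : Prop := ∀ K : Set ℂ, IsCompact K → K.Nonempty → ∀ ε : ℝ, 0 < ε →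
  ∃ (δ₀ : ℝ) (N₀ : ℕ), 0 < δ₀ ∧ ∀ (δ : ℝ) (N : ℕ), 0 < δ → δ ≤ δ₀ → N₀ ≤ N →
    dn (Metric.cthickening δ K) N ≤ cap K + ε

/-- The filled set has the same diameters. -/
def HULL_Stmt : Prop := ∀ K : Set ℂ, IsCompact K → K.Nonempty →
  IsCompact (outer K)ᶜ ∧ K ⊆ (outer K)ᶜ ∧ ∀ n, vmax (outer K)ᶜ n ≤ vmax K n

/-- Regular polygons. -/
def ROU_Stmt : Prop := ∀ (x : ℂ) (c : ℝ) (N : ℕ), 0 < c → 1 ≤ N → ∃ a : Fin N → ℂ,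
  Function.Injective a ∧ (∀ i, ‖a i - x‖ = c) ∧
  (∀ z : ℂ, ∏ i, (z - a i) = (z - x) ^ N - (c : ℂ) ^ N) ∧
  (vdm a) ^ 2 = ((N : ℝ) * c ^ (N - 1)) ^ N

/-- A set that contains a disk and reaches out of it at all distances. -/
def CFG_Stmt : Prop := ∀ (H : Set ℂ) (x : ℂ) (c τ : ℝ), IsCompact H → 0 < c → 0 < τ →
  Metric.closedBall x c ⊆ H → (∀ t, c ≤ t → t ≤ c + τ → ∃ y ∈ H, ‖y - x‖ = t) →
  ∃ γ : ℝ, 1 < γ ∧ ∀ N₀ : ℕ, ∃ n : ℕ, N₀ ≤ n ∧ c * γ ≤ dn H n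

/-- A continuum that contains the center of a disk inside its filled set and reaches out of the
disk has larger capacity. -/
def CBIG_Stmt : Prop := ∀ (K : Set ℂ) (x : ℂ) (c : ℝ), IsCompact K → IsConnected K → x ∈ K →
  0 < c → (∀ z, ‖z - x‖ < c → z ∉ outer K) → (∃ y ∈ K, c < ‖y - x‖) → c < cap K

/-- A smeared point mass. -/
def BUMP_Stmt : Prop := ∃ C : ℝ, ∀ (a : ℂ) (e : ℝ), 0 < e → ∃ b : ℂ → ℝ, (∀ z, 0 ≤ b z) ∧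
  (∃ L, ∀ z z', |b z - b z'| ≤ L * ‖z - z'‖) ∧
  (∀ z, e ≤ ‖z - a‖ → b z = 0 ∧ pot b z = -Real.log ‖z - a‖) ∧
  (∀ z, z ≠ a → pot b z ≤ -Real.log ‖z - a‖) ∧ ∫ z, b z = 1 ∧ en b b ≤ C - Real.log e ∧
  ∀ p : Polynomial ℂ, ∫ z, p.eval z * (b z : ℂ) = p.eval a

/-- Smeared point masses. -/
def BETA_Stmt : Prop := ∃ C : ℝ, ∀ (N : ℕ) (a : Fin N → ℂ) (e R : ℝ), 1 ≤ N →
  Function.Injective a → 0 < e → (∀ i, ‖a i‖ + e ≤ R) → ∃ β : ℂ → ℝ, Dens β R ∧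
    (∀ z, (∀ i, e ≤ ‖z - a i‖) → β z = 0 ∧
      pot β z = (1 / (N : ℝ)) * ∑ i, -Real.log ‖z - a i‖) ∧
    en β β ≤ (1 / (N : ℝ) ^ 2) * (∑ i, ∑ j ∈ Finset.univ.erase i, -Real.log ‖a i - a j‖) +
      (C - Real.log e) / N ∧
    ∀ p : Polynomial ℂ, ∫ z, p.eval z * (β z : ℂ) = (1 / (N : ℂ)) * ∑ i, p.eval (a i)

/-- Approximation by polynomials on a thickening. -/
def RUN_Stmt : Prop := ∀ (K : Set ℂ) (z : ℂ), IsCompact K → z ∈ outer K →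
  ∃ δ : ℝ, 0 < δ ∧ z ∉ Metric.cthickening δ K ∧ RunProp z (Metric.cthickening δ K)

/-- The moments of Fekete tuples stay away from those of point masses. -/
def SEP_Stmt : Prop := ∀ K : Set ℂ, IsCompact K → K.Nonempty → 0 < cap K →
  (∀ x ∈ K, ∃ z ∈ outer K, ‖z - x‖ < cap K) →
  ∃ (ε δ₀ : ℝ) (F : Set (Polynomial ℂ)), 0 < ε ∧ 0 < δ₀ ∧ F.Finite ∧
    ∀ δ : ℝ, 0 < δ → δ < δ₀ → ∀ N₀ : ℕ, ∃ N : ℕ, N₀ ≤ N ∧ 2 ≤ N ∧ ∀ a : Fin N → ℂ,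
      IsFek (Metric.cthickening δ K) a → ∀ x ∈ K, ∃ p ∈ F,
        ε ≤ ‖(1 / (N : ℂ)) * (∑ i, p.eval (a i)) - p.eval x‖

/-- Radial smear outside a disk. -/
def ANN_Stmt : Prop := ∀ (x : ℂ) (c e R : ℝ), 0 < c → 0 < e → ‖x‖ + c + 2 * e ≤ R →
  ∃ (β : ℂ → ℝ) (κ : ℝ), Dens β R ∧ (∀ z, ‖z - x‖ ≤ c + e → β z = 0 ∧ pot β z = κ) ∧
    -Real.log (c + 2 * e) ≤ κ ∧ κ ≤ -Real.log (c + e) ∧ en β β ≤ κ ∧
    ∫ z, z * (β z : ℂ) = x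

/-! ### Part T: theorems -/

/-- Upper bound of the exponent by the capacity, sets with interior. -/
def THA_Stmt : Prop := ∀ K : Set ℂ, IsCompact K → (interior K).Nonempty → ∀ ε : ℝ, 0 < ε →
  Adm K (Real.exp 2 / 4 * cap K ^ 4 + ε)

/-- Upper bound of the exponent by the capacity, all compact sets. -/
def THB_Stmt : Prop := ∀ K : Set ℂ, IsCompact K → K.Nonempty → ∀ ε : ℝ, 0 < ε →
  Adm K (Real.exp 2 / 4 * cap K ^ 4 + ε)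

/-- Strict inequality when the set lies in a disk of radius `cap K` about one of its points. -/
def CASA_Stmt : Prop := ∀ (K : Set ℂ) (x : ℂ), IsCompact K → (interior K).Nonempty → x ∈ K →
  K ⊆ Metric.closedBall x (cap K) → K ≠ Metric.closedBall x (cap K) →
  ∃ δ : ℝ, 0 < δ ∧ Adm K (Real.exp 2 / 4 * cap K ^ 4 - δ)

/-- Strict inequality when every point of the set is within `cap K` of the outer domain. -/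
def CASB_Stmt : Prop := ∀ K : Set ℂ, IsCompact K → (interior K).Nonempty →
  (∀ x ∈ K, ∃ z ∈ outer K, ‖z - x‖ < cap K) →
  ∃ δ : ℝ, 0 < δ ∧ Adm K (Real.exp 2 / 4 * cap K ^ 4 - δ)

/-- Strict inequality for every continuum with interior other than a closed disk. -/
def STRICT_Stmt : Prop := ∀ K : Set ℂ, IsCompact K → IsConnected K → (interior K).Nonempty →
  (¬ ∃ (z : ℂ) (ρ : ℝ), K = Metric.closedBall z ρ) →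
  ∃ δ : ℝ, 0 < δ ∧ Adm K (Real.exp 2 / 4 * cap K ^ 4 - δ)

end Pool.Agent.GH
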