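import Mathlib
import Pool.Agent.GH.Stmts

/-!
# ANN: radial smear outside a disk
-/

namespace Pool.Agent.GH

open MeasureTheory

namespace ANN

/-- A tent function. -/
noncomputable def T (c e t : ℝ) : ℝ := max 0 (min (t - (c + e)) (c + 2 * e - t))

theorem T_nonneg (c e t : ℝ) : 0 ≤ T c e t := le_max_left _ _

theorem T_left {c e t : ℝ} (h : t ≤ c + e) : T c e t = 0 := by
  apply max_eq_left
  exact (min_le_left _ _).trans (by linarith)

theorem T_right {c e t : ℝ} (h : c + 2 * e ≤ t) : T c e t = 0 := by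
  apply max_eq_left
  exact (min_le_right _ _).trans (by linarith)

theorem T_le {c e : ℝ} (he : 0 < e) (t : ℝ) : T c e t ≤ e := by
  apply max_le he.le
  rcases le_total t (c + 2 * e) with h | h
  · exact (min_le_left _ _).trans (by linarith)
  · exact (min_le_right _ _).trans (by linarith)

theorem T_lip (c e s t : ℝ) : |T c e s - T c e t| ≤ |s - t| := by
  have h1 := abs_max_sub_max_le_max (0 : ℝ) (min (s - (c + e)) (c + 2 * e - s)) 0
    (min (t - (c + e)) (c + 2 * e - t))
  have h2 := abs_min_sub_min_le_max (s - (c + e)) (c + 2 * e - s) (t - (c + e))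
    (c + 2 * e - t)
  have e1 : s - (c + e) - (t - (c + e)) = s - t := by ring
  have e2 : c + 2 * e - s - (c + 2 * e - t) = -(s - t) := by ring
  rw [e1, e2, abs_neg, max_self] at h2
  rw [sub_self, abs_zero] at h1
  exact h1.trans (max_le (abs_nonneg _) h2)

theorem T_cont (c e : ℝ) : Continuous (T c e) := by
  unfold T
  fun_prop

/-- The radial bump. -/
noncomputable def f (c e A : ℝ) (u : ℂ) : ℝ := A * T c e ‖u‖

theorem f_cont (c e A : ℝ) : Continuous (f c e A) := by
  have := T_cont c e
  unfold f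
  fun_prop

theorem f_nonneg {c e A : ℝ} (hA : 0 ≤ A) (u : ℂ) : 0 ≤ f c e A u :=
  mul_nonneg hA (T_nonneg _ _ _)

theorem f_left {c e A : ℝ} {u : ℂ} (h : ‖u‖ ≤ c + e) : f c e A u = 0 := by
  rw [f, T_left h, mul_zero]

theorem f_right {c e A : ℝ} {u : ℂ} (h : c + 2 * e ≤ ‖u‖) : f c e A u = 0 := by
  rw [f, T_right h, mul_zero]

theorem f_compact (c e A : ℝ) : HasCompactSupport (f c e A) := by
  apply HasCompactSupport.intro (isCompact_closedBall (0 : ℂ) (c + 2 * e))
  intro u hu
  apply f_right
  rw [Metric.mem_closedBall, dist_zero_right, not_le] at hu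
  exact hu.le

theorem f_nice {c e A : ℝ} (he : 0 < e) (hA : 0 ≤ A) :
    Nice (f c e A) (c + 2 * e) (A * e) := by
  refine ⟨(f_cont c e A).measurable, ?_, ?_⟩
  · intro z
    rw [abs_of_nonneg (f_nonneg hA z)]
    exact mul_le_mul_of_nonneg_left (T_le he _) hA
  · intro z hz
    exact f_right hz.le

theorem exists_A {c e : ℝ} (hc : 0 < c) (he : 0 < e) :
    ∃ A : ℝ, 0 < A ∧ ∫ u, f c e A u = 1 := by
  have h1 : 0 < ∫ u, f c e 1 u := by
    apply Continuous.integral_pos_of_hasCompactSupport_nonneg_nonzero (f_cont c e 1)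
      (f_compact c e 1) (f_nonneg zero_le_one) (x := ((c + 3 / 2 * e : ℝ) : ℂ))
    rw [f, one_mul, Complex.norm_real, Real.norm_of_nonneg (by positivity), T]
    apply ne_of_gt
    apply lt_max_of_lt_right
    apply lt_min <;> linarith
  refine ⟨(∫ u, f c e 1 u)⁻¹, inv_pos.mpr h1, ?_⟩
  have h2 : ∀ u, f c e (∫ u, f c e 1 u)⁻¹ u = (∫ u, f c e 1 u)⁻¹ * f c e 1 u := by
    intro u
    rw [f, f, one_mul]
  simp_rw [h2]
  rw [integral_const_mul, inv_mul_cancel₀ h1.ne']

end ANN

open ANN

theorem ANN_thm (h1 : RAD_Stmt) (h2 : POT_Stmt) : ANN_Stmt := by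
  intro x c e R hc he hR
  obtain ⟨A, hA, hmass⟩ := exists_A hc he
  have hnice := f_nice (c := c) he hA.le
  obtain ⟨hint, hlog, hpc⟩ := h2.1 (f c e A) _ _ hnice
  have hcont := f_cont c e A
  have hcomp := f_compact c e A
  have hf0 := f_nonneg (c := c) (e := e) hA.le
  have hrad : ∀ y y' : ℂ, ‖y‖ = ‖y'‖ → f c e A y = f c e A y' := by
    intro y y' h
    rw [f, f, h]
  have hlog0 : Integrable (fun y => -Real.log ‖y‖ * f c e A y) := by
    have := hlog 0
    simpa using this
  have hκ : pot (f c e A) 0 = ∫ y, -Real.log ‖y‖ * f c e A y := by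
    rw [pot]
    simp
  -- comparison with the value at the center
  have hmaxint : ∀ w : ℂ, w ≠ 0 → Integrable (fun y => -Real.log (max ‖w‖ ‖y‖) * f c e A y) := by
    intro w hw
    apply Continuous.integrable_of_hasCompactSupport
    · have h3 : Continuous fun y : ℂ => Real.log (max ‖w‖ ‖y‖) := by
        apply Continuous.log (by fun_prop)
        intro y
        exact (lt_max_of_lt_left (norm_pos_iff.mpr hw)).ne'
      exact h3.neg.mul hcont
    · exact hcomp.mul_left
  have hle : ∀ w, pot (f c e A) w ≤ pot (f c e A) 0 := by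
    intro w
    by_cases hw : w = 0
    · rw [hw]
    · rw [h1 _ _ _ hnice hrad w hw, hκ]
      apply integral_mono (hmaxint w hw) hlog0
      intro y
      by_cases hy : ‖y‖ ≤ c + e
      · simp only [f_left hy, mul_zero, le_refl]
      · rw [not_le] at hy
        have hy0 : 0 < ‖y‖ := by linarith
        apply mul_le_mul_of_nonneg_right _ (hf0 y)
        rw [neg_le_neg_iff]
        exact Real.log_le_log hy0 (le_max_right _ _)
  have heq : ∀ w : ℂ, ‖w‖ ≤ c + e → pot (f c e A) w = pot (f c e A) 0 := by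
    intro w hwn
    by_cases hw : w = 0
    · rw [hw]
    · rw [h1 _ _ _ hnice hrad w hw, hκ]
      congr 1
      ext y
      by_cases hy : ‖y‖ ≤ c + e
      · rw [f_left hy, mul_zero, mul_zero]
      · rw [max_eq_right (hwn.trans (not_le.mp hy).le)]
  have htr : ∀ z, pot (fun z => f c e A (z - x)) z = pot (f c e A) (z - x) := by
    intro z
    rw [pot, pot, ← integral_sub_right_eq_self (fun y => -Real.log ‖z - x - y‖ * f c e A y) x]
    congr 1
    ext y
    congr 4
    ring
  have hmass' : ∫ z, f c e A (z - x) = 1 := by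
    rw [integral_sub_right_eq_self (fun y => f c e A y) x, hmass]
  refine ⟨fun z => f c e A (z - x), pot (f c e A) 0, ⟨fun z => hf0 _, ?_, ?_, hmass'⟩, ?_, ?_, ?_,
    ?_, ?_⟩
  · refine ⟨A, fun z z' => ?_⟩
    rw [f, f, ← mul_sub, abs_mul, abs_of_pos hA]
    apply mul_le_mul_of_nonneg_left _ hA.le
    refine (T_lip _ _ _ _).trans ((abs_norm_sub_norm_le _ _).trans ?_)
    rw [sub_sub_sub_cancel_right]
  · intro z hz
    apply f_right
    have := norm_sub_norm_le z x
    linarith
  · intro z hz
    exact ⟨f_left hz, by rw [htr, heq _ hz]⟩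
  · rw [hκ]
    have h3 : ∫ y, -Real.log (c + 2 * e) * f c e A y = -Real.log (c + 2 * e) := by
      rw [integral_const_mul, hmass, mul_one]
    rw [← h3]
    apply integral_mono (hint.const_mul _) hlog0
    intro y
    by_cases hy : ‖y‖ ≤ c + e
    · simp only [f_left hy, mul_zero, le_refl]
    · rw [not_le] at hy
      have hy0 : 0 < ‖y‖ := by linarith
      by_cases hy' : c + 2 * e ≤ ‖y‖
      · simp only [f_right hy', mul_zero, le_refl]
      · apply mul_le_mul_of_nonneg_right _ (hf0 y)
        rw [neg_le_neg_iff]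
        exact Real.log_le_log hy0 (not_le.mp hy').le
  · rw [hκ]
    have h3 : ∫ y, -Real.log (c + e) * f c e A y = -Real.log (c + e) := by
      rw [integral_const_mul, hmass, mul_one]
    rw [← h3]
    apply integral_mono hlog0 (hint.const_mul _)
    intro y
    by_cases hy : ‖y‖ ≤ c + e
    · simp only [f_left hy, mul_zero, le_refl]
    · rw [not_le] at hy
      apply mul_le_mul_of_nonneg_right _ (hf0 y)
      rw [neg_le_neg_iff]
      exact Real.log_le_log (by linarith) hy.le
  · rw [en]
    have h3 : ∫ z, pot (f c e A) 0 * f c e A (z - x) = pot (f c e A) 0 := by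
      rw [integral_const_mul, hmass', mul_one]
    rw [← h3]
    simp_rw [htr]
    rw [integral_sub_right_eq_self (fun y => pot (f c e A) y * f c e A y) x,
      integral_sub_right_eq_self (fun y => pot (f c e A) 0 * f c e A y) x]
    apply integral_mono
    · exact (hpc.mul hcont).integrable_of_hasCompactSupport hcomp.mul_left
    · exact hint.const_mul _
    · intro y
      exact mul_le_mul_of_nonneg_right (hle y) (hf0 y)
  · have h3 : ∫ z, z * ((f c e A (z - x) : ℝ) : ℂ) = ∫ u, (u + x) * ((f c e A u : ℝ) : ℂ) := by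
      rw [← integral_sub_right_eq_self (fun u => (u + x) * ((f c e A u : ℝ) : ℂ)) x]
      congr 1
      ext z
      ring
    have hc1 : Continuous fun u : ℂ => ((f c e A u : ℝ) : ℂ) :=
      Complex.continuous_ofReal.comp hcont
    have hcomp1 : HasCompactSupport fun u : ℂ => ((f c e A u : ℝ) : ℂ) :=
      hcomp.comp_left (g := fun t : ℝ => (t : ℂ)) Complex.ofReal_zero
    have hi1 : Integrable fun u : ℂ => u * ((f c e A u : ℝ) : ℂ) :=
      (continuous_id.mul hc1).integrable_of_hasCompactSupport hcomp1.mul_left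
    have hi2 : Integrable fun u : ℂ => x * ((f c e A u : ℝ) : ℂ) :=
      (hc1.integrable_of_hasCompactSupport hcomp1).const_mul x
    have h4 : ∫ u : ℂ, u * ((f c e A u : ℝ) : ℂ) = 0 := by
      have h5 := integral_neg_eq_self (fun u : ℂ => u * ((f c e A u : ℝ) : ℂ)) volume
      have h6 : ∀ u : ℂ, f c e A (-u) = f c e A u := fun u => hrad _ _ (norm_neg u)
      simp only [h6, neg_mul] at h5
      rw [integral_neg] at h5
      have h7 : (2 : ℂ) * ∫ u : ℂ, u * ((f c e A u : ℝ) : ℂ) = 0 := by
        linear_combination -h5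
      simpa using h7
    have h8 : ∫ u : ℂ, x * ((f c e A u : ℝ) : ℂ) = x := by
      rw [integral_const_mul, integral_complex_ofReal, hmass, Complex.ofReal_one, mul_one]
    rw [h3]
    simp_rw [add_mul]
    rw [integral_add hi1 hi2, h4, h8, zero_add]

end Pool.Agent.GH
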