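import Pool.Agent.GH.Stmts

/-!
Circle averages of logarithmic potentials (MP_629fb1_pr, module AVG).
-/

namespace Pool.Agent.GH.AVG

open MeasureTheory Filter Topology

/-- Circle average of the logarithm. -/
lemma avg_log (x y : ℂ) {ρ : ℝ} (hρ : 0 < ρ) :
    Real.circleAverage (fun z => Real.log ‖z - y‖) x ρ = Real.log (max ρ ‖x - y‖) := by
  rw [circleAverage_log_norm_sub_const_eq_log_radius_add_posLog hρ.ne']
  rcases le_total ‖x - y‖ ρ with h | h
  · rw [max_eq_left h, Real.posLog_eq_zero_iff _ |>.mpr, add_zero]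
    rw [abs_mul, abs_inv, abs_of_pos hρ, abs_of_nonneg (norm_nonneg _), inv_mul_le_iff₀ hρ]
    linarith
  · have hxy : 0 < ‖x - y‖ := hρ.trans_le h
    rw [max_eq_right h, Real.posLog_eq_log, Real.log_mul (inv_ne_zero hρ.ne') hxy.ne',
      Real.log_inv]
    · ring
    · rw [abs_mul, abs_inv, abs_of_pos hρ, abs_of_nonneg (norm_nonneg _), le_inv_mul_iff₀ hρ]
      linarith

lemma abs_log_eq (t : ℝ) : |Real.log t| = -Real.log t + 2 * Real.posLog t := by
  rcases le_total 0 (Real.log t) with h | h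
  · rw [abs_of_nonneg h, Real.posLog, max_eq_right h]; ring
  · rw [abs_of_nonpos h, Real.posLog, max_eq_left h]; ring

lemma posLog_le_self {t : ℝ} (ht : 0 ≤ t) : Real.posLog t ≤ t := by
  rw [Real.posLog]
  exact max_le ht (Real.log_le_self ht)

lemma nice_abs {f : ℂ → ℝ} {R B : ℝ} (h : Nice f R B) : Nice (fun y => |f y|) R B where
  meas := h.meas.abs
  bdd z := by rw [abs_abs]; exact h.bdd z
  supp z hz := by simp [h.supp z hz]

lemma meas_F {f : ℂ → ℝ} (hf : Measurable f) (x : ℂ) (ρ : ℝ) :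
    Measurable (fun p : ℝ × ℂ => -Real.log ‖circleMap x ρ p.1 - p.2‖ * f p.2) := by
  have h1 : Measurable (fun p : ℝ × ℂ => circleMap x ρ p.1 - p.2) :=
    (((continuous_circleMap x ρ).comp continuous_fst).sub continuous_snd).measurable
  exact (Real.measurable_log.comp h1.norm).neg.mul (hf.comp measurable_snd)

/-- Uniform bound for the absolute integrals. -/
lemma abs_bound (h1 : POT_Stmt) {f : ℂ → ℝ} {R B : ℝ} (hf : Nice f R B) (x : ℂ) {ρ : ℝ}
    (hρ : 0 < ρ) : ∃ C : ℝ, ∀ θ : ℝ,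
      ∫ y, ‖-Real.log ‖circleMap x ρ θ - y‖ * f y‖ ≤ C := by
  have ha := nice_abs hf
  obtain ⟨hi, hpi, hc⟩ := h1.1 _ R B ha
  have hcont : Continuous (fun θ : ℝ => pot (fun y => |f y|) (circleMap x ρ θ)) :=
    hc.comp (continuous_circleMap x ρ)
  obtain ⟨C, hC⟩ : ∃ C : ℝ, ∀ z ∈ Metric.sphere x ρ, pot (fun y => |f y|) z ≤ C := by
    obtain ⟨C, hC⟩ := (isCompact_sphere x ρ).exists_bound_of_continuousOn hc.continuousOn
    exact ⟨C, fun z hz => (le_abs_self _).trans (hC z hz)⟩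
  refine ⟨C + 2 * (‖x‖ + ρ + R) * ∫ y, |f y|, fun θ => ?_⟩
  set z := circleMap x ρ θ with hz
  have hzs : z ∈ Metric.sphere x ρ := circleMap_mem_sphere x hρ.le θ
  have hzn : ‖z‖ ≤ ‖x‖ + ρ := by
    have : z = x + (z - x) := by ring
    rw [this]
    refine (norm_add_le _ _).trans ?_
    rw [mem_sphere_iff_norm] at hzs
    rw [hzs]
  have e1 : ∀ y, ‖-Real.log ‖z - y‖ * f y‖
      ≤ -Real.log ‖z - y‖ * |f y| + 2 * (‖x‖ + ρ + R) * |f y| := by
    intro y
    rw [Real.norm_eq_abs, abs_mul, abs_neg, abs_log_eq, add_mul]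
    have h2 : 2 * Real.posLog ‖z - y‖ * |f y| ≤ 2 * (‖x‖ + ρ + R) * |f y| := by
      by_cases hy : R < ‖y‖
      · rw [hf.supp y hy, abs_zero, mul_zero, mul_zero]
      · have h3 : Real.posLog ‖z - y‖ ≤ ‖x‖ + ρ + R := by
          refine (posLog_le_self (norm_nonneg _)).trans ((norm_sub_le _ _).trans ?_)
          linarith [not_lt.mp hy]
        have h4 := abs_nonneg (f y)
        have : 2 * Real.posLog ‖z - y‖ ≤ 2 * (‖x‖ + ρ + R) := by linarith
        exact mul_le_mul_of_nonneg_right this h4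
    linarith
  have i2 : Integrable (fun y => -Real.log ‖z - y‖ * |f y| + 2 * (‖x‖ + ρ + R) * |f y|) :=
    (hpi z).add (hi.const_mul _)
  calc ∫ y, ‖-Real.log ‖z - y‖ * f y‖
      ≤ ∫ y, (-Real.log ‖z - y‖ * |f y| + 2 * (‖x‖ + ρ + R) * |f y|) :=
        integral_mono_of_nonneg (Eventually.of_forall fun y => norm_nonneg _) i2
          (Eventually.of_forall e1)
    _ = pot (fun y => |f y|) z + 2 * (‖x‖ + ρ + R) * ∫ y, |f y| := by
        rw [integral_add (hpi z) (hi.const_mul _), integral_const_mul]; rfl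
    _ ≤ C + 2 * (‖x‖ + ρ + R) * ∫ y, |f y| := by
        have := hC z hzs
        linarith

lemma integrable_F (h1 : POT_Stmt) {f : ℂ → ℝ} {R B : ℝ} (hf : Nice f R B) (x : ℂ) {ρ : ℝ}
    (hρ : 0 < ρ) :
    Integrable (Function.uncurry fun (θ : ℝ) (y : ℂ) => -Real.log ‖circleMap x ρ θ - y‖ * f y)
      ((volume.restrict (Set.Ioc 0 (2 * Real.pi))).prod volume) := by
  obtain ⟨C, hC⟩ := abs_bound h1 hf x hρ
  have hm : AEStronglyMeasurable
      (Function.uncurry fun (θ : ℝ) (y : ℂ) => -Real.log ‖circleMap x ρ θ - y‖ * f y)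
      ((volume.restrict (Set.Ioc 0 (2 * Real.pi))).prod volume) :=
    (meas_F hf.meas x ρ).aestronglyMeasurable
  rw [integrable_prod_iff hm]
  refine ⟨Eventually.of_forall fun θ => ?_, ?_⟩
  · show Integrable (fun y => -Real.log ‖circleMap x ρ θ - y‖ * f y)
    exact (h1.1 f R B hf).2.1 _
  refine Integrable.mono' (g := fun _ => C) (integrable_const C) ?_ ?_
  · exact hm.norm.integral_prod_right'
  · refine Eventually.of_forall fun θ => ?_
    rw [Real.norm_eq_abs, abs_of_nonneg (integral_nonneg fun y => norm_nonneg _)]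
    exact hC θ

/-- Circle averages of potentials. -/
theorem AVG_thm' (h1 : POT_Stmt) {f : ℂ → ℝ} {R B : ℝ} (hf : Nice f R B) (x : ℂ) {ρ : ℝ}
    (hρ : 0 < ρ) : Real.circleAverage (pot f) x ρ = ∫ y, -Real.log (max ρ ‖x - y‖) * f y := by
  have hpi : (0 : ℝ) ≤ 2 * Real.pi := Real.two_pi_pos.le
  have hF := integrable_F h1 hf x hρ
  rw [Real.circleAverage_def, intervalIntegral.integral_of_le hpi]
  have h2 : ∫ θ in Set.Ioc 0 (2 * Real.pi), pot f (circleMap x ρ θ)
      = ∫ y, ∫ θ in Set.Ioc 0 (2 * Real.pi), -Real.log ‖circleMap x ρ θ - y‖ * f y :=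
    integral_integral_swap hF
  rw [h2, smul_eq_mul, ← integral_const_mul]
  refine integral_congr_ae (Eventually.of_forall fun y => ?_)
  show (2 * Real.pi)⁻¹ * (∫ θ in Set.Ioc 0 (2 * Real.pi), -Real.log ‖circleMap x ρ θ - y‖ * f y)
    = -Real.log (max ρ ‖x - y‖) * f y
  rw [integral_mul_const, integral_neg, ← avg_log x y hρ, Real.circleAverage_def,
    intervalIntegral.integral_of_le hpi, smul_eq_mul]
  ring

lemma integrable_max {f : ℂ → ℝ} {R B : ℝ} (hi : Integrable f) (hf : Nice f R B) (x : ℂ) {ρ : ℝ}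
    (hρ : 0 < ρ) : Integrable (fun y => -Real.log (max ρ ‖x - y‖) * f y) := by
  have hcont : Continuous (fun y : ℂ => -Real.log (max ρ ‖x - y‖)) := by
    refine (Continuous.log (by fun_prop) fun y => ?_).neg
    exact (hρ.trans_le (le_max_left _ _)).ne'
  obtain ⟨C, hC⟩ := (isCompact_closedBall (0 : ℂ) R).exists_bound_of_continuousOn
    hcont.continuousOn
  refine Integrable.mono' (hi.abs.const_mul C) (hcont.measurable.mul hf.meas).aestronglyMeasurable
    (Eventually.of_forall fun y => ?_)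
  rw [norm_mul, Real.norm_eq_abs (f y)]
  by_cases hy : R < ‖y‖
  · rw [hf.supp y hy, abs_zero, mul_zero, mul_zero]
  · refine mul_le_mul_of_nonneg_right (hC y ?_) (abs_nonneg _)
    simpa using not_lt.mp hy

end Pool.Agent.GH.AVG

namespace Pool.Agent.GH

theorem AVG_thm (h1 : POT_Stmt) : AVG_Stmt := fun f R B hf x _ hρ =>
  ⟨AVG.integrable_max (h1.1 f R B hf).1 hf x hρ, AVG.AVG_thm' h1 hf x hρ⟩

end Pool.Agent.GH
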