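import Pool.Agent.GH.Stmts

/-!
# Module AVK: averages minus values, and the nonlocal Laplacian of a potential
-/

namespace Pool.Agent.GH

open MeasureTheory ProbabilityTheory Filter Topology

namespace AVK

theorem log_max (ρ t : ℝ) (hρ : 0 < ρ) (ht : 0 < t) :
    Real.log (max ρ t) - Real.log t = Real.posLog (ρ / t) := by
  rw [Real.posLog, Real.log_div hρ.ne' ht.ne']
  rcases le_total ρ t with h | h
  · rw [max_eq_right h, sub_self, max_eq_left]
    linarith [Real.log_le_log hρ h]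
  · rw [max_eq_left h, max_eq_right]
    linarith [Real.log_le_log ht h]

theorem ae_eq (f : ℂ → ℝ) (x : ℂ) (ρ : ℝ) (hρ : 0 < ρ) :
    (fun y => Real.posLog (ρ / ‖x - y‖) * f y) =ᵐ[volume]
      fun y => -Real.log ‖x - y‖ * f y - -Real.log (max ρ ‖x - y‖) * f y := by
  have h : ∀ᵐ y : ℂ, y ≠ x := compl_mem_ae_iff.mpr (measure_singleton x)
  filter_upwards [h] with y hy
  have hpos : 0 < ‖x - y‖ := norm_pos_iff.mpr (sub_ne_zero.mpr (Ne.symm hy))
  rw [← log_max ρ _ hρ hpos]
  ring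

end AVK

/-- AVK: averages minus values, and the nonlocal Laplacian of a potential. -/
theorem AVK_thm (h1 : AVG_Stmt) (h2 : POT_Stmt) (_h3 : KER_Stmt) : AVK_Stmt := by
  intro f R B hf
  have part1 : ∀ (x : ℂ) (ρ : ℝ), 0 < ρ →
      Integrable (fun y => Real.posLog (ρ / ‖x - y‖) * f y) ∧
      Real.circleAverage (pot f) x ρ - pot f x =
        -∫ y, Real.posLog (ρ / ‖x - y‖) * f y := by
    intro x ρ hρ
    obtain ⟨a1, a2⟩ := h1 f R B hf x ρ hρ
    have b1 := (h2.1 f R B hf).2.1 x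
    have hae := AVK.ae_eq f x ρ hρ
    refine ⟨(b1.sub a1).congr hae.symm, ?_⟩
    rw [integral_congr_ae hae, integral_sub b1 a1, a2]
    unfold pot
    ring
  refine ⟨part1, fun h z hh => ?_⟩
  rw [Ah, (part1 z h hh).2]
  have : ∀ y, ker h (z - y) * f y =
      4 / h ^ 2 / (2 * Real.pi) * (Real.posLog (h / ‖z - y‖) * f y) := by
    intro y
    rw [ker]
    ring
  simp_rw [this]
  rw [integral_const_mul]
  have hpi : Real.pi ≠ 0 := Real.pi_ne_zero
  field_simp

end Pool.Agent.GH
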