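import Pool.Agent.GH.Stmts

/-!
Barriers for the obstacle problem.
-/

namespace Pool.Agent.GH

open MeasureTheory ProbabilityTheory Filter Topology

namespace BAR

/-- the density -/
noncomputable def fd (ρ R T : ℝ) : ℂ → ℝ := fun y => T * disc ρ y + (-1) * disc R y

theorem fd_nice {ρ R T : ℝ} (h2 : DISC_Stmt) (hρ : 0 < ρ) (hR : ρ < R) (hT : 0 ≤ T) :
    Nice (fd ρ R T) R (T * (1 / Real.pi) + 1 / Real.pi) := by
  obtain ⟨n1, -⟩ := h2 ρ hρ
  obtain ⟨n2, -⟩ := h2 R (hρ.trans hR)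
  refine ⟨(n1.meas.const_mul T).add (n2.meas.const_mul (-1)), fun z => ?_, fun z hz => ?_⟩
  · have e1 := n1.bdd z
    have e2 := n2.bdd z
    unfold fd
    refine (abs_add_le _ _).trans ?_
    rw [abs_mul, abs_mul, abs_of_nonneg hT, abs_neg, abs_one, one_mul]
    exact add_le_add (mul_le_mul_of_nonneg_left e1 hT) e2
  · unfold fd
    rw [n1.supp z (hR.trans hz), n2.supp z hz]
    ring

theorem fd_lower {ρ R T : ℝ} (hT : 0 ≤ T) (y : ℂ) : -(1 / Real.pi) ≤ fd ρ R T y := by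
  have hpi : 0 < 1 / Real.pi := by positivity
  have e1 : 0 ≤ disc ρ y := by
    unfold disc
    exact Set.indicator_nonneg (fun _ _ => hpi.le) y
  have e2 : disc R y ≤ 1 / Real.pi := by
    unfold disc
    exact Set.indicator_le_self' (fun _ _ => hpi.le) y
  unfold fd
  nlinarith [mul_nonneg hT e1]

theorem fd_in {ρ R T : ℝ} (hR : ρ < R) {y : ℂ} (hy : ‖y‖ ≤ ρ) :
    fd ρ R T y = (T - 1) / Real.pi := by
  unfold fd disc
  rw [Set.indicator_of_mem (by simpa using hy), Set.indicator_of_mem (by simpa using hy.trans hR.le)]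
  ring

end BAR

open BAR in
theorem BAR_thm (h1 : POT_Stmt) (h2 : DISC_Stmt) (h3 : AVK_Stmt) (h4 : KER_Stmt) : BAR_Stmt := by
  intro ρ α W hρ
  have hpi := Real.pi_pos
  obtain ⟨T, hT⟩ : ∃ T : ℝ, T = Real.exp 2 + 2 * |W| / ρ ^ 2 + |α| / 2 + 1 := ⟨_, rfl⟩
  have hW0 : 0 ≤ 2 * |W| / ρ ^ 2 := by positivity
  have hα0 : 0 ≤ |α| / 2 := by positivity
  have he0 : 0 < Real.exp 2 := Real.exp_pos 2
  have hT1 : 1 < T := by linarith
  have hTe : Real.exp 2 ≤ T := by linarith
  have hTW : 2 * |W| / ρ ^ 2 ≤ T := by linarith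
  have hTα : 1 + α / 2 ≤ T := by
    have := le_abs_self α
    linarith
  have hT0 : 0 < T := by linarith
  obtain ⟨R, hR⟩ : ∃ R : ℝ, R = ρ * Real.sqrt T := ⟨_, rfl⟩
  have hsq : 1 < Real.sqrt T := by
    rw [Real.lt_sqrt (by norm_num)]
    simpa using hT1
  have hρR : ρ < R := by
    rw [hR]
    nlinarith
  have hR0 : 0 < R := hρ.trans hρR
  have hR2 : R ^ 2 = T * ρ ^ 2 := by
    rw [hR, mul_pow, Real.sq_sqrt hT0.le]
    ring
  have hlogR : Real.log (R ^ 2) = Real.log T + Real.log (ρ ^ 2) := by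
    rw [hR2, Real.log_mul hT0.ne' (by positivity)]
  obtain ⟨n1, m1, i1, o1, -⟩ := h2 ρ hρ
  obtain ⟨n2, m2, i2, o2, -⟩ := h2 R hR0
  have hb : ∀ z, pot (fd ρ R T) z = T * pot (disc ρ) z + (-1) * pot (disc R) z :=
    fun z => h1.2 (disc ρ) (disc R) ρ (1 / Real.pi) R (1 / Real.pi) T (-1) n1 n2 z
  have hnice := fd_nice h2 hρ hρR hT0.le
  obtain ⟨hint, -, hcont⟩ := h1.1 _ _ _ hnice
  -- values outside
  have hout : ∀ z, R ≤ ‖z‖ → pot (fd ρ R T) z = 0 := by
    intro z hz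
    rw [hb, o1 z (hρR.le.trans hz), o2 z hz, hR2]
    ring
  -- values in the middle
  have hmid : ∀ z, ρ ≤ ‖z‖ → ‖z‖ ≤ R → 0 ≤ pot (fd ρ R T) z := by
    intro z hz hz'
    have hz0 : 0 < ‖z‖ := hρ.trans_le hz
    rw [hb, o1 z hz, i2 z hz']
    have hlog : Real.log (‖z‖ ^ 2 / R ^ 2) ≤ ‖z‖ ^ 2 / R ^ 2 - 1 :=
      Real.log_le_sub_one_of_pos (by positivity)
    rw [Real.log_div (by positivity) (by positivity)] at hlog
    have h5 : Real.log (‖z‖ ^ 2) = 2 * Real.log ‖z‖ := by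
      rw [Real.log_pow]
      push_cast
      ring
    rw [h5] at hlog
    have h6 : R ^ 2 * (2 * Real.log ‖z‖ - Real.log (R ^ 2)) ≤ ‖z‖ ^ 2 - R ^ 2 := by
      have := mul_le_mul_of_nonneg_left hlog (by positivity : (0 : ℝ) ≤ R ^ 2)
      have h7 : R ^ 2 * (‖z‖ ^ 2 / R ^ 2 - 1) = ‖z‖ ^ 2 - R ^ 2 := by
        field_simp
      linarith
    have h8 : T * (-(ρ ^ 2) * Real.log ‖z‖) = -(R ^ 2) * Real.log ‖z‖ := by
      rw [hR2]
      ring
    nlinarith
  -- values inside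
  have hin : ∀ z, ‖z‖ ≤ ρ → ρ ^ 2 / 2 * (T * Real.log T - T + 1) ≤ pot (fd ρ R T) z := by
    intro z hz
    rw [hb, i1 z hz, i2 z (hz.trans hρR.le), hlogR, hR2]
    have h9 : ‖z‖ ^ 2 ≤ ρ ^ 2 := by
      have := norm_nonneg z
      nlinarith
    nlinarith
  have hTlog : 2 ≤ Real.log T := by
    rw [Real.le_log_iff_exp_le hT0]
    exact hTe
  have hval : W ≤ ρ ^ 2 / 2 * (T * Real.log T - T + 1) := by
    have h10 : T ≤ T * Real.log T - T + 1 := by nlinarith
    have h11 : |W| ≤ ρ ^ 2 / 2 * T := by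
      have h12 : 2 * |W| ≤ T * ρ ^ 2 := by
        rwa [div_le_iff₀ (by positivity)] at hTW
      linarith
    have h13 : ρ ^ 2 / 2 * T ≤ ρ ^ 2 / 2 * (T * Real.log T - T + 1) :=
      mul_le_mul_of_nonneg_left h10 (by positivity)
    exact (le_abs_self W).trans (h11.trans h13)
  have hval0 : 0 ≤ ρ ^ 2 / 2 * (T * Real.log T - T + 1) := by
    have h10 : T ≤ T * Real.log T - T + 1 := by nlinarith
    have : 0 ≤ T * Real.log T - T + 1 := by linarith
    positivity
  obtain ⟨C, hC⟩ := (isCompact_closedBall (0 : ℂ) R).exists_bound_of_continuousOn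
    hcont.continuousOn
  -- the kernel
  have hker : ∀ (h : ℝ), 0 < h → ∀ z : ℂ, Integrable (fun y => ker h (z - y)) ∧
      ∫ y, ker h (z - y) = 1 := by
    intro h hh z
    obtain ⟨k1, k2, -, -⟩ := h4.2 h hh
    exact ⟨k1.comp_sub_left z, by rw [integral_sub_left_eq_self]; exact k2⟩
  have hprod : ∀ (h : ℝ), 0 < h → ∀ z : ℂ, Integrable (fun y => ker h (z - y) * fd ρ R T y) := by
    intro h hh z
    obtain ⟨k1, -⟩ := hker h hh z
    refine k1.mul_bdd (c := T * (1 / Real.pi) + 1 / Real.pi) hnice.meas.aestronglyMeasurable ?_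
    exact Eventually.of_forall fun y => by
      rw [Real.norm_eq_abs]
      exact hnice.bdd y
  refine ⟨R, max C 0, pot (fd ρ R T), hρR, hcont, ?_, ?_, hout, ?_, ?_, ?_⟩
  · intro z
    rcases le_total ‖z‖ ρ with hz | hz
    · exact hval0.trans (hin z hz)
    · rcases le_total ‖z‖ R with hz' | hz'
      · exact hmid z hz hz'
      · exact (hout z hz').ge
  · intro z
    rcases le_total ‖z‖ R with hz' | hz'
    · have := hC z (by simpa using hz')
      rw [Real.norm_eq_abs] at this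
      exact (le_abs_self _).trans (this.trans (le_max_left _ _))
    · rw [hout z hz']
      exact le_max_right _ _
  · intro z hz
    exact hval.trans (hin z hz)
  · intro h z hh
    rw [(h3 _ _ _ hnice).2 h z hh]
    obtain ⟨k1, k2⟩ := hker h hh z
    have hle : -(1 / Real.pi) ≤ ∫ y, ker h (z - y) * fd ρ R T y := by
      have e1 : ∫ y, ker h (z - y) * (-(1 / Real.pi)) = -(1 / Real.pi) := by
        rw [integral_mul_const, k2, one_mul]
      rw [← e1]
      refine integral_mono (k1.mul_const _) (hprod h hh z) fun y => ?_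
      exact mul_le_mul_of_nonneg_left (fd_lower hT0.le y) ((h4.2 h hh).2.2.1 _)
    have e2 : -(2 * Real.pi) * (-(1 / Real.pi)) = 2 := by
      field_simp
    nlinarith
  · intro h z hh hz
    rw [(h3 _ _ _ hnice).2 h z hh]
    obtain ⟨k1, k2⟩ := hker h hh z
    have heq : ∀ y, ker h (z - y) * fd ρ R T y = ker h (z - y) * ((T - 1) / Real.pi) := by
      intro y
      rcases lt_or_ge ‖z - y‖ h with hy | hy
      · rw [fd_in hρR]
        have : ‖y‖ ≤ ‖z‖ + ‖z - y‖ := by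
          have := norm_sub_le z (z - y)
          simpa using this
        linarith
      · rw [(h4.2 h hh).2.2.2 _ hy, zero_mul, zero_mul]
    simp_rw [heq]
    rw [integral_mul_const, k2, one_mul]
    have e3 : -(2 * Real.pi) * ((T - 1) / Real.pi) = -2 * (T - 1) := by
      field_simp
    rw [e3]
    linarith

end Pool.Agent.GH
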