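import Pool.Agent.GH.Stmts

/-!
Smeared point masses.
-/

namespace Pool.Agent.GH

open MeasureTheory ProbabilityTheory Filter Topology

namespace BETA

theorem cont {b : ℂ → ℝ} (h : ∃ L, ∀ z z', |b z - b z'| ≤ L * ‖z - z'‖) : Continuous b := by
  obtain ⟨L, hL⟩ := h
  refine (LipschitzWith.of_dist_le_mul (K := ⟨|L|, abs_nonneg L⟩) fun z z' => ?_).continuous
  rw [Real.dist_eq, dist_eq_norm]
  exact (hL z z').trans (mul_le_mul_of_nonneg_right (le_abs_self L) (norm_nonneg _))

theorem csupp {b : ℂ → ℝ} {a : ℂ} {e : ℝ} (h : ∀ z, e ≤ ‖z - a‖ → b z = 0) :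
    HasCompactSupport b := by
  refine HasCompactSupport.of_support_subset_isCompact (isCompact_closedBall a e) fun z hz => ?_
  rw [Metric.mem_closedBall, dist_eq_norm]
  by_contra h2
  exact hz (h z (not_le.1 h2).le)

theorem nice {b : ℂ → ℝ} {a : ℂ} {e R : ℝ} (he : 0 < e)
    (h : ∃ L, ∀ z z', |b z - b z'| ≤ L * ‖z - z'‖) (hs : ∀ z, e ≤ ‖z - a‖ → b z = 0)
    (hR : ‖a‖ + e ≤ R) : ∃ B, Nice b R B := by
  have hc := cont h
  obtain ⟨L, hL⟩ := h
  refine ⟨|L| * (2 * e), hc.measurable, fun z => ?_, fun z hz => hs z ?_⟩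
  · by_cases hz : e ≤ ‖z - a‖
    · rw [hs z hz, abs_zero]
      positivity
    · push Not at hz
      have h0 : b (a + e) = 0 := by
        apply hs
        rw [add_sub_cancel_left, Complex.norm_real, Real.norm_eq_abs, abs_of_pos he]
      have h1 := hL z (a + e)
      rw [h0, sub_zero] at h1
      refine h1.trans ?_
      have h2 : ‖z - (a + e)‖ ≤ 2 * e := by
        calc ‖z - (a + e)‖ = ‖(z - a) - (e : ℂ)‖ := by
              congr 1
              ring
          _ ≤ ‖z - a‖ + ‖(e : ℂ)‖ := norm_sub_le _ _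
          _ ≤ 2 * e := by
              rw [Complex.norm_real, Real.norm_eq_abs, abs_of_pos he]
              linarith
      calc L * ‖z - (a + e)‖ ≤ |L| * ‖z - (a + e)‖ :=
            mul_le_mul_of_nonneg_right (le_abs_self L) (norm_nonneg _)
        _ ≤ |L| * (2 * e) := mul_le_mul_of_nonneg_left h2 (abs_nonneg L)
  · have := norm_sub_norm_le z a
    linarith

end BETA

open BETA in
/-- BETA. -/
theorem BETA_thm (h1 : BUMP_Stmt) (h2 : POT_Stmt) (h3 : SYM_Stmt) : BETA_Stmt := by
  obtain ⟨C, hC⟩ := h1
  refine ⟨C, fun N a e R hN ha he hR => ?_⟩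
  choose b hb0 hbL hbs hble hbm hben hbp using fun i : Fin N => hC (a i) e he
  have hbs0 : ∀ i z, e ≤ ‖z - a i‖ → b i z = 0 := fun i z hz => (hbs i z hz).1
  have hN0 : (0 : ℝ) < N := by exact_mod_cast hN
  have hcont : ∀ i, Continuous (b i) := fun i => cont (hbL i)
  have hcs : ∀ i, HasCompactSupport (b i) := fun i => csupp (hbs0 i)
  choose B hB using fun i : Fin N => nice he (hbL i) (hbs0 i) (hR i)
  have hint : ∀ i, Integrable (b i) := fun i => (h2.1 _ _ _ (hB i)).1
  have hpint : ∀ i z, Integrable (fun y => -Real.log ‖z - y‖ * b i y) :=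
    fun i z => (h2.1 _ _ _ (hB i)).2.1 z
  have hpot : ∀ z, pot (fun z => (1 / (N : ℝ)) * ∑ i, b i z) z =
      (1 / (N : ℝ)) * ∑ i, pot (b i) z := by
    intro z
    unfold pot
    rw [← integral_finset_sum _ fun i _ => hpint i z, ← integral_const_mul]
    refine integral_congr_ae (Filter.Eventually.of_forall fun y => ?_)
    simp only
    rw [Finset.mul_sum, Finset.mul_sum, Finset.mul_sum]
    refine Finset.sum_congr rfl fun i _ => ?_
    ring
  refine ⟨fun z => (1 / (N : ℝ)) * ∑ i, b i z, ⟨?_, ?_, ?_, ?_⟩, ?_, ?_, ?_⟩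
  · intro z
    exact mul_nonneg (by positivity) (Finset.sum_nonneg fun i _ => hb0 i z)
  · choose L hL using hbL
    refine ⟨(1 / (N : ℝ)) * ∑ i, L i, fun z z' => ?_⟩
    rw [← mul_sub, ← Finset.sum_sub_distrib, abs_mul, abs_of_pos (by positivity), mul_assoc,
      Finset.sum_mul]
    refine mul_le_mul_of_nonneg_left ?_ (by positivity)
    exact (Finset.abs_sum_le_sum_abs _ _).trans (Finset.sum_le_sum fun i _ => hL i z z')
  · intro z hz
    have : ∀ i, b i z = 0 := fun i => (hB i).supp z hz
    simp [this]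
  · rw [integral_const_mul, integral_finset_sum _ fun i _ => hint i]
    simp only [hbm, Finset.sum_const, Finset.card_univ, Fintype.card_fin, nsmul_eq_mul, mul_one]
    field_simp
  · intro z hz
    constructor
    · have : ∀ i, b i z = 0 := fun i => hbs0 i z (hz i)
      simp [this]
    · rw [hpot]
      congr 1
      exact Finset.sum_congr rfl fun i _ => (hbs i z (hz i)).2
  · have hen : en (fun z => (1 / (N : ℝ)) * ∑ i, b i z) (fun z => (1 / (N : ℝ)) * ∑ i, b i z) =
        (1 / (N : ℝ) ^ 2) * ∑ i, ∑ j, en (b i) (b j) := by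
      have hi : ∀ i j, Integrable (fun z => pot (b i) z * b j z) := fun i j =>
        (h3 _ _ _ _ _ _ (hB i) (hB j)).1
      unfold en
      calc ∫ z, pot (fun z => (1 / (N : ℝ)) * ∑ i, b i z) z * ((1 / (N : ℝ)) * ∑ i, b i z)
          = ∫ z, (1 / (N : ℝ) ^ 2) * ∑ i, ∑ j, pot (b i) z * b j z := by
            refine integral_congr_ae (Filter.Eventually.of_forall fun z => ?_)
            simp only
            rw [hpot, ← Finset.sum_mul_sum]
            ring
        _ = (1 / (N : ℝ) ^ 2) * ∑ i, ∑ j, ∫ z, pot (b i) z * b j z := by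
            rw [integral_const_mul, integral_finset_sum _ fun i _ =>
              integrable_finset_sum _ fun j _ => hi i j]
            congr 1
            exact Finset.sum_congr rfl fun i _ => integral_finset_sum _ fun j _ => hi i j
    rw [hen]
    have hoff : ∀ i j, j ≠ i → en (b i) (b j) ≤ -Real.log ‖a i - a j‖ := by
      intro i j hij
      have hne : a i ≠ a j := fun h => hij (ha h).symm
      have hE : en (b i) (b j) ≤ pot (b j) (a i) := by
        unfold en
        rw [pot]
        refine integral_mono_ae (h3 _ _ _ _ _ _ (hB i) (hB j)).1 (hpint j (a i)) ?_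
        have hnull : ∀ᵐ z : ℂ, z ≠ a i := by
          rw [ae_iff]
          simp
        filter_upwards [hnull] with z hz
        rw [norm_sub_rev (a i) z]
        exact mul_le_mul_of_nonneg_right (hble i z hz) (hb0 j z)
      refine hE.trans ?_
      exact hble j (a i) hne
    have hsum : ∀ i, ∑ j, en (b i) (b j) ≤
        (∑ j ∈ Finset.univ.erase i, -Real.log ‖a i - a j‖) + (C - Real.log e) := by
      intro i
      rw [← Finset.sum_erase_add _ _ (Finset.mem_univ i)]
      exact add_le_add (Finset.sum_le_sum fun j hj => hoff i j (Finset.ne_of_mem_erase hj)) (hben i)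
    calc (1 / (N : ℝ) ^ 2) * ∑ i, ∑ j, en (b i) (b j)
        ≤ (1 / (N : ℝ) ^ 2) * ∑ i : Fin N,
            ((∑ j ∈ Finset.univ.erase i, -Real.log ‖a i - a j‖) + (C - Real.log e)) :=
          mul_le_mul_of_nonneg_left (Finset.sum_le_sum fun i _ => hsum i) (by positivity)
      _ = _ := by
          rw [Finset.sum_add_distrib, Finset.sum_const, Finset.card_univ, Fintype.card_fin,
            nsmul_eq_mul]
          field_simp
  · intro p
    have hi : ∀ i, Integrable (fun z : ℂ => p.eval z * (b i z : ℂ)) := by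
      intro i
      refine Continuous.integrable_of_hasCompactSupport ?_ ?_
      · exact p.continuous.mul (Complex.continuous_ofReal.comp (hcont i))
      · refine HasCompactSupport.mul_left (f := fun z : ℂ => p.eval z)
          (f' := fun z : ℂ => (b i z : ℂ)) ?_
        exact (hcs i).comp_left (g := fun x : ℝ => (x : ℂ)) Complex.ofReal_zero
    calc ∫ z, p.eval z * (((1 / (N : ℝ)) * ∑ i, b i z : ℝ) : ℂ)
        = ∫ z, (1 / (N : ℂ)) * ∑ i, p.eval z * (b i z : ℂ) := by
          refine integral_congr_ae (Filter.Eventually.of_forall fun z => ?_)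
          simp only
          push_cast
          rw [Finset.mul_sum, Finset.mul_sum, Finset.mul_sum]
          refine Finset.sum_congr rfl fun i _ => ?_
          ring
      _ = (1 / (N : ℂ)) * ∑ i, ∫ z, p.eval z * (b i z : ℂ) := by
          rw [integral_const_mul, integral_finset_sum _ fun i _ => hi i]
      _ = _ := by
          congr 1
          exact Finset.sum_congr rfl fun i _ => hbp i p

end Pool.Agent.GH
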