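import Pool.Agent.GH.Stmts

/-!
# Module GH_BUMP (MP_629fb1_pr): smeared point masses
-/

namespace Pool.Agent.GH

open MeasureTheory ProbabilityTheory Filter Topology

namespace BUMP

/-- The cone over the unit disk. -/
noncomputable def b0 (z : ℂ) : ℝ := max 0 (1 - ‖z‖)

theorem b0_nonneg (z : ℂ) : 0 ≤ b0 z := le_max_left _ _

theorem b0_le (z : ℂ) : b0 z ≤ 1 := by
  have := norm_nonneg z
  exact max_le zero_le_one (by linarith)

theorem b0_zero {z : ℂ} (h : 1 ≤ ‖z‖) : b0 z = 0 := max_eq_left (by linarith)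

theorem b0_cont : Continuous b0 := by
  unfold b0
  fun_prop

theorem b0_lip (z z' : ℂ) : |b0 z - b0 z'| ≤ ‖z - z'‖ := by
  have h1 := abs_max_sub_max_le_max (0 : ℝ) (1 - ‖z‖) 0 (1 - ‖z'‖)
  have h2 : |(1 - ‖z‖) - (1 - ‖z'‖)| ≤ ‖z - z'‖ := by
    have h3 := abs_norm_sub_norm_le z z'
    rwa [show (1 - ‖z‖) - (1 - ‖z'‖) = -(‖z‖ - ‖z'‖) by ring, abs_neg]
  refine h1.trans (max_le ?_ h2)
  simp

theorem b0_supp : HasCompactSupport b0 := by
  refine HasCompactSupport.of_support_subset_isCompact (isCompact_closedBall (0 : ℂ) 1) ?_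
  intro z hz
  rw [Metric.mem_closedBall, dist_zero_right]
  by_contra h
  push Not at h
  exact hz (b0_zero h.le)

theorem b0_int : Integrable b0 := b0_cont.integrable_of_hasCompactSupport b0_supp

theorem I_pos : 0 < ∫ z, b0 z := by
  refine b0_cont.integral_pos_of_hasCompactSupport_nonneg_nonzero b0_supp b0_nonneg (x := 0) ?_
  simp [b0]

/-- The unit bump. -/
noncomputable def b1 (z : ℂ) : ℝ := (∫ z, b0 z)⁻¹ * b0 z

theorem b1_nonneg (z : ℂ) : 0 ≤ b1 z := mul_nonneg (inv_nonneg.mpr I_pos.le) (b0_nonneg z)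

theorem b1_zero {z : ℂ} (h : 1 ≤ ‖z‖) : b1 z = 0 := by rw [b1, b0_zero h, mul_zero]

theorem b1_cont : Continuous b1 := continuous_const.mul b0_cont

theorem b1_supp : HasCompactSupport b1 := b0_supp.mul_left

theorem b1_int : ∫ z, b1 z = 1 := by
  unfold b1
  rw [integral_const_mul, inv_mul_cancel₀ I_pos.ne']

theorem b1_integrable : Integrable b1 := b0_int.const_mul _

theorem b1_nice : Nice b1 1 (∫ z, b0 z)⁻¹ where
  meas := b1_cont.measurable
  bdd z := by
    rw [abs_of_nonneg (b1_nonneg z)]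
    have h := inv_pos.mpr I_pos
    have := mul_le_mul_of_nonneg_left (b0_le z) h.le
    rw [mul_one] at this
    exact this
  supp z h := b1_zero h.le

theorem b1_rad (y y' : ℂ) (h : ‖y‖ = ‖y'‖) : b1 y = b1 y' := by
  simp only [b1, b0, h]

/-- The potential of the unit bump outside the unit disk. -/
theorem pot_out (h1 : RAD_Stmt) {z : ℂ} (hz : 1 ≤ ‖z‖) : pot b1 z = -Real.log ‖z‖ := by
  have hz0 : z ≠ 0 := by
    intro h
    rw [h, norm_zero] at hz
    linarith
  rw [h1 b1 1 _ b1_nice b1_rad z hz0]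
  have : ∀ y, -Real.log (max ‖z‖ ‖y‖) * b1 y = -Real.log ‖z‖ * b1 y := by
    intro y
    by_cases hy : 1 ≤ ‖y‖
    · rw [b1_zero hy, mul_zero, mul_zero]
    · push Not at hy
      rw [max_eq_left (hy.le.trans hz)]
  simp only [this]
  rw [integral_const_mul, b1_int, mul_one]

/-- The potential of the unit bump is at most that of the point mass. -/
theorem pot_le (h1 : RAD_Stmt) {z : ℂ} (hz : z ≠ 0) : pot b1 z ≤ -Real.log ‖z‖ := by
  have hz' : 0 < ‖z‖ := norm_pos_iff.mpr hz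
  rw [h1 b1 1 _ b1_nice b1_rad z hz]
  have hc : Continuous fun y : ℂ => -Real.log (max ‖z‖ ‖y‖) * b1 y := by
    refine Continuous.mul (Continuous.neg ?_) b1_cont
    refine Continuous.log (by fun_prop) fun y => ?_
    exact (lt_max_of_lt_left hz').ne'
  have hi : Integrable fun y : ℂ => -Real.log (max ‖z‖ ‖y‖) * b1 y :=
    hc.integrable_of_hasCompactSupport b1_supp.mul_left
  have h2 : ∫ y, -Real.log (max ‖z‖ ‖y‖) * b1 y ≤ ∫ y, -Real.log ‖z‖ * b1 y := by
    refine integral_mono hi (b1_integrable.const_mul _) fun y => ?_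
    refine mul_le_mul_of_nonneg_right ?_ (b1_nonneg y)
    exact neg_le_neg (Real.log_le_log hz' (le_max_left _ _))
  rwa [integral_const_mul, b1_int, mul_one] at h2

/-- Moments of the unit bump. -/
theorem moment {k : ℕ} (hk : k ≠ 0) : ∫ u : ℂ, u ^ k * (b1 u : ℂ) = 0 := by
  obtain ⟨c, hc⟩ : ∃ c : Circle, (c : ℂ) ^ k ≠ 1 := by
    refine ⟨Circle.exp (Real.pi / k), ?_⟩
    have hk' : (k : ℂ) ≠ 0 := by exact_mod_cast hk
    have h : ((Circle.exp (Real.pi / k) : Circle) : ℂ) ^ k = -1 := by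
      rw [Circle.coe_exp, ← Complex.exp_nat_mul, ← Complex.exp_pi_mul_I]
      congr 1
      push_cast
      field_simp
    rw [h]
    norm_num
  have h1 := (rotation c).measurePreserving.integral_comp
    (rotation c).toHomeomorph.measurableEmbedding (fun u : ℂ => u ^ k * (b1 u : ℂ))
  have h2 : ∀ u : ℂ, (rotation c u) ^ k * (b1 (rotation c u) : ℂ) =
      (c : ℂ) ^ k * (u ^ k * (b1 u : ℂ)) := by
    intro u
    have h3 : b1 (rotation c u) = b1 u := b1_rad _ _ (by
      rw [rotation_apply, norm_mul, Circle.norm_coe, one_mul])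
    rw [h3, rotation_apply]
    ring
  simp only [h2] at h1
  rw [integral_const_mul] at h1
  have h4 : ((c : ℂ) ^ k - 1) * ∫ u : ℂ, u ^ k * (b1 u : ℂ) = 0 := by
    rw [sub_mul, h1, one_mul, sub_self]
  rcases mul_eq_zero.mp h4 with h | h
  · exact absurd (sub_eq_zero.mp h) hc
  · exact h

theorem moments (q : Polynomial ℂ) : ∫ u : ℂ, q.eval u * (b1 u : ℂ) = q.eval 0 := by
  have hb : Continuous fun u : ℂ => (b1 u : ℂ) := Complex.continuous_ofReal.comp b1_cont
  have hs : HasCompactSupport fun u : ℂ => (b1 u : ℂ) :=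
    b1_supp.comp_left (g := Complex.ofReal) Complex.ofReal_zero
  have hint : ∀ k : ℕ, Integrable fun u : ℂ => u ^ k * (b1 u : ℂ) := fun k =>
    ((continuous_pow k).mul hb).integrable_of_hasCompactSupport hs.mul_left
  have h1 : ∀ u : ℂ, q.eval u * (b1 u : ℂ) =
      ∑ k ∈ Finset.range (q.natDegree + 1), q.coeff k * (u ^ k * (b1 u : ℂ)) := by
    intro u
    rw [Polynomial.eval_eq_sum_range, Finset.sum_mul]
    exact Finset.sum_congr rfl fun k _ => by ring
  simp only [h1]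
  rw [integral_finsetSum _ fun k _ => (hint k).const_mul _, Finset.sum_range_succ']
  have h2 : ∀ k ∈ Finset.range q.natDegree,
      ∫ u : ℂ, q.coeff (k + 1) * (u ^ (k + 1) * (b1 u : ℂ)) = 0 := by
    intro k _
    rw [integral_const_mul, moment (Nat.succ_ne_zero k), mul_zero]
  rw [Finset.sum_eq_zero h2, zero_add, integral_const_mul]
  have h3 : ∫ u : ℂ, u ^ 0 * (b1 u : ℂ) = 1 := by
    simp only [pow_zero, one_mul]
    rw [integral_complex_ofReal, b1_int, Complex.ofReal_one]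
  rw [h3, mul_one, Polynomial.coeff_zero_eq_eval_zero]

/-- Change of variables. -/
theorem cov {E : Type*} [NormedAddCommGroup E] [NormedSpace ℝ E] (g : ℂ → E) (a : ℂ) {e : ℝ}
    (he : 0 < e) : ∫ z, g (e⁻¹ • (z - a)) = e ^ 2 • ∫ u, g u := by
  rw [integral_sub_right_eq_self (fun z => g (e⁻¹ • z)) a, Measure.integral_comp_smul]
  congr 1
  rw [Complex.finrank_real_complex, abs_of_pos (by positivity)]
  rw [inv_pow, inv_inv]

/-- The bump. -/
noncomputable def bb (a : ℂ) (e : ℝ) (z : ℂ) : ℝ := (e ^ 2)⁻¹ * b1 (e⁻¹ • (z - a))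

theorem cov2 {E : Type*} [NormedAddCommGroup E] [NormedSpace ℝ E] (g : ℂ → E) (a : ℂ) {e : ℝ}
    (he : 0 < e) : ∫ z, bb a e z • g z = ∫ u : ℂ, b1 u • g (a + e • u) := by
  have h1 : ∀ z : ℂ, bb a e z • g z =
      (fun u : ℂ => (e ^ 2)⁻¹ • (b1 u • g (a + e • u))) (e⁻¹ • (z - a)) := by
    intro z
    have h2 : a + e • (e⁻¹ • (z - a)) = z := by
      rw [smul_smul, mul_inv_cancel₀ he.ne', one_smul]
      ring
    show bb a e z • g z = (e ^ 2)⁻¹ • (b1 (e⁻¹ • (z - a)) • g (a + e • (e⁻¹ • (z - a))))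
    rw [h2, smul_smul]
    rfl
  rw [integral_congr_ae (Eventually.of_forall h1),
    cov (fun u : ℂ => (e ^ 2)⁻¹ • (b1 u • g (a + e • u))) a he, integral_smul, smul_smul,
    mul_inv_cancel₀ (by positivity), one_smul]

/-- The potential of the bump. -/
theorem pot_bb (h2 : POT_Stmt) (a : ℂ) {e : ℝ} (he : 0 < e) (z : ℂ) :
    pot (bb a e) z = -Real.log e + pot b1 (e⁻¹ • (z - a)) := by
  have h3 : pot (bb a e) z = ∫ y, bb a e y • (-Real.log ‖z - y‖) := by
    unfold pot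
    exact integral_congr_ae (Eventually.of_forall fun y => mul_comm _ _)
  rw [h3, cov2 _ a he]
  have h4 := (h2.1 b1 1 _ b1_nice).2.1 (e⁻¹ • (z - a))
  have h5 : -Real.log e + pot b1 (e⁻¹ • (z - a)) =
      ∫ u, (-Real.log e * b1 u + -Real.log ‖e⁻¹ • (z - a) - u‖ * b1 u) := by
    rw [integral_add (b1_integrable.const_mul _) h4, integral_const_mul, b1_int, mul_one]
    rfl
  rw [h5]
  refine integral_congr_ae ?_
  have h6 : ∀ᵐ u : ℂ, u ≠ e⁻¹ • (z - a) := by
    rw [ae_iff]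
    simp
  filter_upwards [h6] with u hu
  have h7 : ‖z - (a + e • u)‖ = e * ‖e⁻¹ • (z - a) - u‖ := by
    have h8 : z - (a + e • u) = e • (e⁻¹ • (z - a) - u) := by
      rw [smul_sub, smul_smul, mul_inv_cancel₀ he.ne', one_smul]
      ring
    rw [h8, norm_smul, Real.norm_eq_abs, abs_of_pos he]
  have h9 : ‖e⁻¹ • (z - a) - u‖ ≠ 0 := by
    rw [norm_ne_zero_iff, sub_ne_zero]
    exact hu.symm
  show b1 u • (-Real.log ‖z - (a + e • u)‖) = _
  rw [h7, Real.log_mul he.ne' h9, smul_eq_mul]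
  ring

end BUMP

open BUMP in
/-- BUMP: a smeared point mass. -/
theorem BUMP_thm (h1 : RAD_Stmt) (h2 : POT_Stmt) (h3 : SYM_Stmt) : BUMP_Stmt := by
  refine ⟨en b1 b1, fun a e he => ⟨bb a e, fun z => ?_, ?_, fun z hz => ?_, fun z hz => ?_,
    ?_, ?_, fun p => ?_⟩⟩
  · exact mul_nonneg (by positivity) (b1_nonneg _)
  · refine ⟨(e ^ 2)⁻¹ * ((∫ z, b0 z)⁻¹ * e⁻¹), fun z z' => ?_⟩
    have h4 := b0_lip (e⁻¹ • (z - a)) (e⁻¹ • (z' - a))
    have h5 : e⁻¹ • (z - a) - e⁻¹ • (z' - a) = e⁻¹ • (z - z') := by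
      rw [← smul_sub]
      congr 1
      ring
    rw [h5, norm_smul, Real.norm_eq_abs, abs_of_pos (inv_pos.mpr he)] at h4
    have h6 : bb a e z - bb a e z' = ((e ^ 2)⁻¹ * (∫ z, b0 z)⁻¹) *
        (b0 (e⁻¹ • (z - a)) - b0 (e⁻¹ • (z' - a))) := by
      unfold bb b1
      ring
    have h7 : 0 ≤ (e ^ 2)⁻¹ * (∫ z, b0 z)⁻¹ :=
      mul_nonneg (by positivity) (inv_nonneg.mpr I_pos.le)
    rw [h6, abs_mul, abs_of_nonneg h7]
    calc ((e ^ 2)⁻¹ * (∫ z, b0 z)⁻¹) * |b0 (e⁻¹ • (z - a)) - b0 (e⁻¹ • (z' - a))|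
        ≤ ((e ^ 2)⁻¹ * (∫ z, b0 z)⁻¹) * (e⁻¹ * ‖z - z'‖) := mul_le_mul_of_nonneg_left h4 h7
      _ = (e ^ 2)⁻¹ * ((∫ z, b0 z)⁻¹ * e⁻¹) * ‖z - z'‖ := by ring
  · have h4 : ‖e⁻¹ • (z - a)‖ = ‖z - a‖ / e := by
      rw [norm_smul, Real.norm_eq_abs, abs_of_pos (inv_pos.mpr he), inv_mul_eq_div]
    have h5 : 1 ≤ ‖e⁻¹ • (z - a)‖ := by
      rw [h4, le_div_iff₀ he, one_mul]
      exact hz
    refine ⟨by rw [bb, b1_zero h5, mul_zero], ?_⟩
    rw [pot_bb h2 a he z, pot_out h1 h5, h4, Real.log_div (he.trans_le hz).ne' he.ne']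
    ring
  · have h4 : ‖e⁻¹ • (z - a)‖ = ‖z - a‖ / e := by
      rw [norm_smul, Real.norm_eq_abs, abs_of_pos (inv_pos.mpr he), inv_mul_eq_div]
    have h5 : z - a ≠ 0 := sub_ne_zero.mpr hz
    have h6 : e⁻¹ • (z - a) ≠ 0 := smul_ne_zero (inv_pos.mpr he).ne' h5
    have h7 := pot_le h1 h6
    rw [h4, Real.log_div (norm_ne_zero_iff.mpr h5) he.ne'] at h7
    rw [pot_bb h2 a he z]
    linarith
  · have h4 := cov2 (fun _ => (1 : ℝ)) a he
    simp only [smul_eq_mul, mul_one] at h4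
    rw [h4, b1_int]
  · have h4 : en (bb a e) (bb a e) = ∫ z, bb a e z • pot (bb a e) z := by
      unfold en
      exact integral_congr_ae (Eventually.of_forall fun y => mul_comm _ _)
    have h5 : ∀ u : ℂ, b1 u • pot (bb a e) (a + e • u) =
        -Real.log e * b1 u + pot b1 u * b1 u := by
      intro u
      have h6 : e⁻¹ • (a + e • u - a) = u := by
        rw [add_sub_cancel_left, smul_smul, inv_mul_cancel₀ he.ne', one_smul]
      rw [pot_bb h2 a he, h6, smul_eq_mul]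
      ring
    rw [h4, cov2 _ a he]
    simp only [h5]
    rw [integral_add (b1_integrable.const_mul _) (h3 b1 b1 1 _ 1 _ b1_nice b1_nice).1,
      integral_const_mul, b1_int, mul_one]
    have h7 : en b1 b1 = ∫ u, pot b1 u * b1 u := rfl
    rw [h7]
    linarith
  · have h4 : ∫ z, p.eval z * (bb a e z : ℂ) = ∫ z, bb a e z • p.eval z := by
      refine integral_congr_ae (Eventually.of_forall fun y => ?_)
      show p.eval y * (bb a e y : ℂ) = bb a e y • p.eval y
      rw [Complex.real_smul, mul_comm]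
    have h5 := moments (p.comp (Polynomial.C a + Polynomial.C (e : ℂ) * Polynomial.X))
    have h6 : ∀ u : ℂ, b1 u • p.eval (a + e • u) =
        (p.comp (Polynomial.C a + Polynomial.C (e : ℂ) * Polynomial.X)).eval u * (b1 u : ℂ) := by
      intro u
      rw [Polynomial.eval_comp, Complex.real_smul, Complex.real_smul]
      simp only [Polynomial.eval_add, Polynomial.eval_mul, Polynomial.eval_C, Polynomial.eval_X]
      ring
    rw [h4, cov2 _ a he]
    simp only [h6]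
    rw [h5, Polynomial.eval_comp]
    simp

end Pool.Agent.GH
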