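import Pool.Agent.GH.Stmts

/-!
# CAPA: the n-th diameters decrease to the capacity
-/

namespace Pool.Agent.GH.CAPA

open MeasureTheory Filter Topology

/-- The factor of a pair. -/
noncomputable def hh {n : ℕ} (z : Fin n → ℂ) (i j : Fin n) : ℝ :=
  if i < j then ‖z i - z j‖ else 1

theorem vdm_eq {n : ℕ} (z : Fin n → ℂ) : vdm z = ∏ i, ∏ j, hh z i j := by
  unfold vdm hh
  refine Finset.prod_congr rfl fun i _ => ?_
  rw [← Finset.prod_filter]
  refine Finset.prod_congr ?_ fun _ _ => rfl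
  ext j
  simp

theorem hh_self {n : ℕ} (z : Fin n → ℂ) (i : Fin n) : hh z i i = 1 := by
  simp [hh]

theorem hh_comp {n : ℕ} (z : Fin (n + 1) → ℂ) (k : Fin (n + 1)) (i j : Fin n) :
    hh z (k.succAbove i) (k.succAbove j) = hh (fun l => z (k.succAbove l)) i j := by
  simp only [hh, Fin.succAbove_lt_succAbove_iff]

theorem vdm_succ {n : ℕ} (z : Fin (n + 1) → ℂ) (k : Fin (n + 1)) :
    vdm z = (∏ j, hh z k j) * (∏ i, hh z i k) * vdm (fun l => z (k.succAbove l)) := by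
  rw [vdm_eq, vdm_eq, Fin.prod_univ_succAbove _ k]
  have h1 : ∏ i, hh z i k = ∏ i : Fin n, hh z (k.succAbove i) k := by
    rw [Fin.prod_univ_succAbove _ k, hh_self, one_mul]
  have h2 : ∀ i : Fin n, ∏ j, hh z (k.succAbove i) j
      = hh z (k.succAbove i) k * ∏ j, hh (fun l => z (k.succAbove l)) i j := by
    intro i
    rw [Fin.prod_univ_succAbove _ k]
    congr 1
    exact Finset.prod_congr rfl fun j _ => hh_comp z k i j
  rw [h1, Finset.prod_congr rfl fun i _ => h2 i, Finset.prod_mul_distrib, mul_assoc]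

theorem vdm_nonneg {n : ℕ} (z : Fin n → ℂ) : 0 ≤ vdm z :=
  Finset.prod_nonneg fun _ _ => Finset.prod_nonneg fun _ _ => norm_nonneg _

theorem vdm_pow {n : ℕ} (z : Fin (n + 1) → ℂ) :
    vdm z ^ (n + 1) = vdm z * vdm z * ∏ k : Fin (n + 1), vdm (fun l => z (k.succAbove l)) := by
  calc vdm z ^ (n + 1) = ∏ _k : Fin (n + 1), vdm z := by
        rw [Finset.prod_const, Finset.card_univ, Fintype.card_fin]
    _ = ∏ k : Fin (n + 1), ((∏ j, hh z k j) * (∏ i, hh z i k) *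
          vdm (fun l => z (k.succAbove l))) := Finset.prod_congr rfl fun k _ => vdm_succ z k
    _ = vdm z * vdm z * ∏ k : Fin (n + 1), vdm (fun l => z (k.succAbove l)) := by
        rw [Finset.prod_mul_distrib, Finset.prod_mul_distrib]
        congr 2
        · rw [vdm_eq]
        · rw [Finset.prod_comm, vdm_eq]

theorem vdm_pow_le {n : ℕ} (hn : 2 ≤ n) (z : Fin (n + 1) → ℂ) :
    vdm z ^ (n - 1) ≤ ∏ k : Fin (n + 1), vdm (fun l => z (k.succAbove l)) := by
  rcases (vdm_nonneg z).eq_or_lt with h | h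
  · rw [← h, zero_pow (by omega)]
    exact Finset.prod_nonneg fun _ _ => vdm_nonneg _
  · have h1 := vdm_pow z
    have h2 : vdm z ^ (n + 1) = vdm z * vdm z * vdm z ^ (n - 1) := by
      rw [← pow_two, ← pow_add]
      congr 1
      omega
    rw [h2] at h1
    exact (mul_left_cancel₀ (by positivity) h1).le

theorem bdd {K : Set ℂ} (hK : IsCompact K) (n : ℕ) :
    BddAbove (vdm '' {z : Fin n → ℂ | ∀ i, z i ∈ K}) := by
  obtain ⟨R, hR⟩ := hK.isBounded.exists_norm_le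
  have hR' : ∀ x ∈ K, ‖x‖ ≤ max R 0 := fun x hx => (hR x hx).trans (le_max_left _ _)
  refine ⟨∏ i : Fin n, ∏ j ∈ Finset.Ioi i, (max R 0 + max R 0), ?_⟩
  rintro _ ⟨z, hz, rfl⟩
  refine Finset.prod_le_prod (fun _ _ => Finset.prod_nonneg fun _ _ => norm_nonneg _) fun i _ =>
    Finset.prod_le_prod (fun _ _ => norm_nonneg _) fun j _ => ?_
  exact (norm_sub_le _ _).trans (add_le_add (hR' _ (hz i)) (hR' _ (hz j)))

theorem vdm_le_vmax {K : Set ℂ} (hK : IsCompact K) {n : ℕ} {z : Fin n → ℂ} (hz : ∀ i, z i ∈ K) :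
    vdm z ≤ vmax K n := le_csSup (bdd hK n) ⟨z, hz, rfl⟩

theorem ne {K : Set ℂ} (hK : K.Nonempty) (n : ℕ) :
    (vdm '' {z : Fin n → ℂ | ∀ i, z i ∈ K}).Nonempty := by
  obtain ⟨x, hx⟩ := hK
  exact ⟨_, ⟨fun _ => x, fun _ => hx, rfl⟩⟩

theorem vmax_nonneg (K : Set ℂ) (n : ℕ) : 0 ≤ vmax K n := by
  apply Real.sSup_nonneg
  rintro _ ⟨z, _, rfl⟩
  exact vdm_nonneg z

theorem vmax_mono {K K' : Set ℂ} (hK' : IsCompact K') (hne : K.Nonempty) (h : K ⊆ K') (n : ℕ) :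
    vmax K n ≤ vmax K' n := by
  refine csSup_le_csSup (bdd hK' n) (ne hne n) (Set.image_mono ?_)
  intro z hz i
  exact h (hz i)

theorem expo_nonneg (n : ℕ) : 0 ≤ 2 / ((n : ℝ) * ((n : ℝ) - 1)) := by
  rcases Nat.eq_zero_or_pos n with h | h
  · simp [h]
  · have : (1 : ℝ) ≤ n := by exact_mod_cast h
    have : 0 ≤ (n : ℝ) * ((n : ℝ) - 1) := by
      apply mul_nonneg <;> linarith
    positivity

theorem dn_nonneg (K : Set ℂ) (n : ℕ) : 0 ≤ dn K n := Real.rpow_nonneg (vmax_nonneg K n) _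

theorem dn_mono {K K' : Set ℂ} (hK' : IsCompact K') (hne : K.Nonempty) (h : K ⊆ K') (n : ℕ) :
    dn K n ≤ dn K' n :=
  Real.rpow_le_rpow (vmax_nonneg K n) (vmax_mono hK' hne h n) (expo_nonneg n)

theorem dn_succ_le {K : Set ℂ} (hK : IsCompact K) (hne : K.Nonempty) {n : ℕ} (hn : 2 ≤ n) :
    dn K (n + 1) ≤ dn K n := by
  have hn' : (2 : ℝ) ≤ n := by exact_mod_cast hn
  have h1 : vmax K (n + 1) ≤ (vmax K n) ^ (((n : ℝ) + 1) / ((n : ℝ) - 1)) := by
    refine csSup_le (ne hne _) ?_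
    rintro _ ⟨z, hz, rfl⟩
    have h2 : vdm z ^ (n - 1) ≤ vmax K n ^ (n + 1) := by
      refine (vdm_pow_le hn z).trans ?_
      calc ∏ k : Fin (n + 1), vdm (fun l => z (k.succAbove l))
          ≤ ∏ _k : Fin (n + 1), vmax K n :=
            Finset.prod_le_prod (fun _ _ => vdm_nonneg _) fun k _ =>
              vdm_le_vmax hK fun i => hz _
        _ = vmax K n ^ (n + 1) := by
            rw [Finset.prod_const, Finset.card_univ, Fintype.card_fin]
    have h3 : (vdm z ^ (n - 1)) ^ (1 / ((n : ℝ) - 1)) ≤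
        (vmax K n ^ (n + 1)) ^ (1 / ((n : ℝ) - 1)) :=
      Real.rpow_le_rpow (pow_nonneg (vdm_nonneg z) _) h2 (by
        apply div_nonneg <;> linarith)
    have h4 : (vdm z ^ (n - 1)) ^ (1 / ((n : ℝ) - 1)) = vdm z := by
      rw [← Real.rpow_natCast, ← Real.rpow_mul (vdm_nonneg z), Nat.cast_sub (by omega),
        Nat.cast_one, mul_one_div_cancel (by linarith), Real.rpow_one]
    have h5 : (vmax K n ^ (n + 1)) ^ (1 / ((n : ℝ) - 1))
        = (vmax K n) ^ (((n : ℝ) + 1) / ((n : ℝ) - 1)) := by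
      rw [← Real.rpow_natCast, ← Real.rpow_mul (vmax_nonneg K n)]
      congr 1
      push_cast
      ring
    rw [h4, h5] at h3
    exact h3
  unfold dn
  calc vmax K (n + 1) ^ (2 / (((n + 1 : ℕ) : ℝ) * (((n + 1 : ℕ) : ℝ) - 1)))
      ≤ ((vmax K n) ^ (((n : ℝ) + 1) / ((n : ℝ) - 1))) ^
          (2 / (((n + 1 : ℕ) : ℝ) * (((n + 1 : ℕ) : ℝ) - 1))) :=
        Real.rpow_le_rpow (vmax_nonneg K _) h1 (expo_nonneg _)
    _ = vmax K n ^ (2 / ((n : ℝ) * ((n : ℝ) - 1))) := by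
        rw [← Real.rpow_mul (vmax_nonneg K n)]
        congr 1
        have h6 : (n : ℝ) - 1 ≠ 0 := by linarith
        have h7 : (n : ℝ) + 1 ≠ 0 := by linarith
        have h8 : (n : ℝ) ≠ 0 := by linarith
        push_cast
        have h9 : (n : ℝ) + 1 - 1 = n := by ring
        rw [h9]
        field_simp

theorem exists_lim {K : Set ℂ} (hK : IsCompact K) (hne : K.Nonempty) :
    ∃ L, Tendsto (dn K) atTop (𝓝 L) ∧ (∀ n, 2 ≤ n → L ≤ dn K n) ∧ 0 ≤ L := by
  have hanti : Antitone (fun n => dn K (n + 2)) :=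
    antitone_nat_of_succ_le fun n => dn_succ_le hK hne (by omega)
  have hbdd : BddBelow (Set.range (fun n => dn K (n + 2))) :=
    ⟨0, by rintro _ ⟨n, rfl⟩; exact dn_nonneg K _⟩
  refine ⟨⨅ n, dn K (n + 2), ?_, ?_, le_ciInf fun n => dn_nonneg K _⟩
  · exact (tendsto_add_atTop_iff_nat 2).1 (tendsto_atTop_ciInf hanti hbdd)
  · intro n hn
    have := ciInf_le hbdd (n - 2)
    rwa [Nat.sub_add_cancel hn] at this

end Pool.Agent.GH.CAPA

namespace Pool.Agent.GH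

open MeasureTheory Filter Topology CAPA

theorem CAPA_thm (h1 : ROU_Stmt) : CAPA_Stmt := by
  have hA : ∀ K : Set ℂ, IsCompact K → K.Nonempty → Tendsto (dn K) atTop (𝓝 (cap K)) ∧
    (∀ n, 2 ≤ n → cap K ≤ dn K n) ∧ (∀ n, 2 ≤ n → dn K (n + 1) ≤ dn K n) ∧ 0 ≤ cap K := by
    intro K hK hne
    obtain ⟨L, hL, hL2, hL3⟩ := exists_lim hK hne
    have hcap : cap K = L := hL.limUnder_eq
    rw [hcap]
    exact ⟨hL, hL2, fun n hn => dn_succ_le hK hne hn, hL3⟩
  refine ⟨hA, ?_, ?_⟩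
  · intro K K' hK hK' hne hsub
    refine ⟨dn_mono hK' hne hsub, vmax_mono hK' hne hsub, ?_⟩
    exact le_of_tendsto_of_tendsto' (hA K hK hne).1 (hA K' hK' (hne.mono hsub)).1
      (dn_mono hK' hne hsub)
  · intro K z ρ hK hρ hball
    have hne : K.Nonempty := ⟨z, hball (Metric.mem_closedBall_self hρ.le)⟩
    refine ge_of_tendsto (hA K hK hne).1 ?_
    filter_upwards [eventually_ge_atTop 2] with N hN
    obtain ⟨a, -, ha2, -, ha4⟩ := h1 z ρ N hρ (by omega)
    have hN' : (2 : ℝ) ≤ N := by exact_mod_cast hN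
    have hmem : ∀ i, a i ∈ K := by
      intro i
      refine hball ?_
      rw [Metric.mem_closedBall, dist_eq_norm, ha2 i]
    have h2 := vdm_le_vmax hK hmem
    have h3 : (vdm a) ^ (2 / ((N : ℝ) * ((N : ℝ) - 1))) ≤ dn K N :=
      Real.rpow_le_rpow (vdm_nonneg a) h2 (expo_nonneg N)
    refine le_trans ?_ h3
    have h4 : (vdm a) ^ (2 / ((N : ℝ) * ((N : ℝ) - 1)))
        = ((vdm a) ^ 2) ^ (1 / ((N : ℝ) * ((N : ℝ) - 1))) := by
      rw [← Real.rpow_natCast (vdm a) 2, ← Real.rpow_mul (vdm_nonneg a)]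
      congr 1
      push_cast
      ring
    rw [h4, ha4]
    have hNc : (1 : ℝ) ≤ N := by linarith
    have h5 : (ρ ^ (N - 1)) ^ N ≤ ((N : ℝ) * ρ ^ (N - 1)) ^ N := by
      refine pow_le_pow_left₀ (by positivity) ?_ N
      have : 0 ≤ ρ ^ (N - 1) := by positivity
      nlinarith
    have h6 : ρ = ((ρ ^ (N - 1)) ^ N) ^ (1 / ((N : ℝ) * ((N : ℝ) - 1))) := by
      rw [← pow_mul, ← Real.rpow_natCast, ← Real.rpow_mul hρ.le, Nat.cast_mul,
        Nat.cast_sub (by omega), Nat.cast_one]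
      have : ((N : ℝ) - 1) * N * (1 / ((N : ℝ) * ((N : ℝ) - 1))) = 1 := by
        have h7 : (N : ℝ) - 1 ≠ 0 := by linarith
        have h8 : (N : ℝ) ≠ 0 := by linarith
        field_simp
      rw [this, Real.rpow_one]
    calc ρ = ((ρ ^ (N - 1)) ^ N) ^ (1 / ((N : ℝ) * ((N : ℝ) - 1))) := h6
      _ ≤ _ := Real.rpow_le_rpow (by positivity) h5 (by
          have : 0 ≤ (N : ℝ) * ((N : ℝ) - 1) := by
            apply mul_nonneg <;> linarith
          positivity)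

end Pool.Agent.GH
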