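import Pool.Agent.GH.Stmts

/-!
Module CASA: strict inequality when the set lies in a disk of radius `cap K` about one of its
points.
-/

namespace Pool.Agent.GH

open MeasureTheory Filter Topology

namespace CASA

theorem adm_mono {K : Set ℂ} {E E' : ℝ} (h : Adm K E) (hE : E ≤ E') : Adm K E' := by
  obtain ⟨σ, lam, R, B, η, hd, hE'⟩ := h
  exact ⟨σ, lam, R, B, η, hd, hE'.trans hE⟩

/-- Lipschitz functions with bounded support. -/
theorem nice_of {f : ℂ → ℝ} {L R : ℝ} (hL : ∀ z z', |f z - f z'| ≤ L * ‖z - z'‖)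
    (hs : ∀ z, R < ‖z‖ → f z = 0) : (∃ B, Nice f R B) ∧ Continuous f ∧ HasCompactSupport f := by
  have hc : Continuous f := by
    have h1 : LipschitzWith ⟨|L|, abs_nonneg L⟩ f := by
      apply LipschitzWith.of_dist_le_mul
      intro z z'
      rw [Real.dist_eq, dist_eq_norm]
      refine (hL z z').trans ?_
      exact mul_le_mul_of_nonneg_right (le_abs_self L) (norm_nonneg _)
    exact h1.continuous
  refine ⟨⟨|L| * (R + (|R| + 1)), hc.measurable, ?_, hs⟩, hc, ?_⟩
  · intro z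
    by_cases hz : R < ‖z‖
    · rw [hs z hz, abs_zero]
      have : -|R| ≤ R := neg_abs_le R
      have h2 : 0 ≤ R + (|R| + 1) := by linarith
      positivity
    · push Not at hz
      have h1 : f ((|R| + 1 : ℝ) : ℂ) = 0 := by
        apply hs
        rw [Complex.norm_real, Real.norm_eq_abs, abs_of_nonneg (by positivity)]
        linarith [le_abs_self R]
      have h2 := hL z ((|R| + 1 : ℝ) : ℂ)
      rw [h1, sub_zero] at h2
      refine h2.trans ?_
      have h3 : ‖z - ((|R| + 1 : ℝ) : ℂ)‖ ≤ R + (|R| + 1) := by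
        refine (norm_sub_le _ _).trans ?_
        rw [Complex.norm_real, Real.norm_eq_abs, abs_of_nonneg (by positivity : 0 ≤ |R| + 1)]
        linarith
      calc L * ‖z - ((|R| + 1 : ℝ) : ℂ)‖ ≤ |L| * ‖z - ((|R| + 1 : ℝ) : ℂ)‖ :=
            mul_le_mul_of_nonneg_right (le_abs_self L) (norm_nonneg _)
        _ ≤ |L| * (R + (|R| + 1)) := mul_le_mul_of_nonneg_left h3 (abs_nonneg L)
  · refine HasCompactSupport.intro (isCompact_closedBall (0 : ℂ) R) fun z hz => hs z ?_
    simpa [Metric.mem_closedBall, dist_eq_norm] using hz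

theorem integrable_id_mul {f : ℂ → ℝ} (hc : Continuous f) (hs : HasCompactSupport f) :
    Integrable (fun z => z * (f z : ℂ)) := by
  refine Continuous.integrable_of_hasCompactSupport (by fun_prop) ?_
  refine hs.mono' ?_
  intro z hz
  apply subset_tsupport
  intro h0
  apply hz
  simp only
  rw [h0, Complex.ofReal_zero, mul_zero]

end CASA

open CASA in
theorem CASA_thm (h1 : KI_Stmt) (h2 : ANN_Stmt) (h3 : BUMP_Stmt) (h4 : CAPA_Stmt)
    (h5 : POT_Stmt) (h6 : SYM_Stmt) : CASA_Stmt := by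
  intro K x hK hint hx hsub hne
  obtain ⟨C, hC⟩ := h3
  have hKne : K.Nonempty := ⟨x, hx⟩
  -- the capacity is positive
  have hc : 0 < cap K := by
    obtain ⟨y, hy⟩ := hint
    obtain ⟨ρ, hρ, hball⟩ := Metric.nhds_basis_closedBall.mem_iff.1 (mem_interior_iff_mem_nhds.1 hy)
    exact hρ.trans_le (h4.2.2 K y ρ hK hρ hball)
  -- the volume is positive
  have hvol : 0 < (volume K).toReal := by
    refine ENNReal.toReal_pos ?_ hK.measure_lt_top.ne
    have : 0 < volume (interior K) := isOpen_interior.measure_pos volume hint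
    exact (this.trans_le (measure_mono interior_subset)).ne'
  set c := cap K with hcdef
  -- a point `b`
  obtain ⟨b, hbx, hbK⟩ : ∃ b, ‖b - x‖ < c ∧ b ∉ K := by
    by_contra hcon
    push Not at hcon
    apply hne
    refine Set.Subset.antisymm hsub ?_
    rw [← closure_ball x hc.ne']
    refine closure_minimal ?_ hK.isClosed
    intro z hz
    exact hcon z (by rwa [Metric.mem_ball, dist_eq_norm] at hz)
  set D := Metric.infDist b K with hD
  have hDpos : 0 < D := (hK.isClosed.notMem_iff_infDist_pos hKne).1 hbK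
  have hKc : ∀ z ∈ K, ‖z - x‖ ≤ c := fun z hz => by
    have := hsub hz
    rwa [Metric.mem_closedBall, dist_eq_norm] at this
  have hKD : ∀ z ∈ K, D ≤ ‖z - b‖ := fun z hz => by
    rw [← dist_eq_norm, dist_comm]
    exact Metric.infDist_le_dist_of_mem hz
  -- constants
  set e1 := min D (c - ‖b - x‖) / 2 with he1
  have he1pos : 0 < e1 := by
    have : 0 < min D (c - ‖b - x‖) := lt_min hDpos (by linarith)
    positivity
  have he1D : e1 ≤ D / 2 := by
    have := min_le_left D (c - ‖b - x‖)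
    rw [he1]
    linarith
  have he1c : e1 ≤ (c - ‖b - x‖) / 2 := by
    have := min_le_right D (c - ‖b - x‖)
    rw [he1]
    linarith
  obtain ⟨bp, hb0, ⟨Lb, hLb⟩, hbout, -, hb1, hben, hbmom⟩ := hC b e1 he1pos
  set R₀ := ‖x‖ + c + 2 with hR₀
  have hR₀pos : 0 < R₀ := by
    have := norm_nonneg x
    linarith
  obtain ⟨R₂, hR₂, hKI⟩ := h1 R₀ hR₀pos
  have hR₂pos : 0 < R₂ := hR₀pos.trans hR₂
  set m0 := (volume K).toReal / Real.pi with hm0
  have hm0pos : 0 < m0 := div_pos hvol Real.pi_pos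
  set Cb := C - Real.log e1 with hCb
  set A := |Cb| + |Real.log c| + |Real.log (c + 2)| with hA
  have hA0 : 0 ≤ A := by positivity
  set r1 := (c + ‖b - x‖) / 2 with hr1
  set ρ0 := (c - ‖b - x‖) / 2 with hρ0
  have hρ0pos : 0 < ρ0 := by rw [hρ0]; linarith
  have hr1c : r1 < c := by rw [hr1]; linarith
  have hr1pos : 0 < r1 := by
    have := norm_nonneg (b - x)
    rw [hr1]
    linarith
  set ℓ0 := Real.log c - Real.log r1 with hℓ0
  have hℓ0pos : 0 < ℓ0 := by
    have := Real.log_lt_log hr1pos hr1c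
    rw [hℓ0]
    linarith
  set q0 := m0 * ρ0 / (4 * R₂) with hq0
  have hq0pos : 0 < q0 := by positivity
  set g := q0 ^ 3 / (8 * R₂ ^ 2) with hg
  have hgpos : 0 < g := by positivity
  set E4 := Real.exp 2 / 4 with hE4
  have hE4pos : 0 < E4 := by positivity
  -- choice of `t`
  obtain ⟨t, ht0, ht1, htA, htρ, htR, htE⟩ : ∃ t : ℝ, 0 < t ∧ t < 1 ∧ t * A < ℓ0 / 2 ∧
      t * c < ρ0 / 2 ∧ R₂ ^ 4 * (t ^ 2 * A + t) < g / 4 ∧
      E4 * (c + 2) ^ 4 * (Real.exp (4 * t) - 1) < g / 4 := by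
    have hev : ∀ (F : ℝ → ℝ) (M : ℝ), Continuous F → F 0 < M → ∀ᶠ t in 𝓝[>] (0 : ℝ), F t < M := by
      intro F M hF h0
      exact nhdsWithin_le_nhds ((hF.tendsto 0).eventually (gt_mem_nhds h0))
    have e0 : ∀ᶠ t in 𝓝[>] (0 : ℝ), 0 < t := self_mem_nhdsWithin
    have e1' := hev (fun t => t) 1 continuous_id one_pos
    have e2 := hev (fun t => t * A) (ℓ0 / 2) (by fun_prop) (by simpa using hℓ0pos)
    have e3 := hev (fun t => t * c) (ρ0 / 2) (by fun_prop) (by simpa using hρ0pos)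
    have e4 := hev (fun t => R₂ ^ 4 * (t ^ 2 * A + t)) (g / 4) (by fun_prop) (by simpa using hgpos)
    have e5 := hev (fun t => E4 * (c + 2) ^ 4 * (Real.exp (4 * t) - 1)) (g / 4) (by fun_prop)
      (by simpa using hgpos)
    obtain ⟨t, a0, a1, a2, a3, a4, a5⟩ :=
      (e0.and (e1'.and (e2.and (e3.and (e4.and e5))))).exists
    exact ⟨t, a0, a1, a2, a3, a4, a5⟩
  set δ0 := min (m0 ^ 2 * (t * ℓ0 / 2)) (g / 2) with hδ0
  have hδ0pos : 0 < δ0 := lt_min (by positivity) (by positivity)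
  -- choice of `s`
  obtain ⟨s, hs0, hs1, hsE⟩ : ∃ s : ℝ, 0 < s ∧ s < 1 ∧
      E4 * (c + 2 * s) ^ 4 < E4 * c ^ 4 + δ0 / 4 := by
    have hev : ∀ (F : ℝ → ℝ) (M : ℝ), Continuous F → F 0 < M → ∀ᶠ t in 𝓝[>] (0 : ℝ), F t < M := by
      intro F M hF h0
      exact nhdsWithin_le_nhds ((hF.tendsto 0).eventually (gt_mem_nhds h0))
    have e0 : ∀ᶠ t in 𝓝[>] (0 : ℝ), 0 < t := self_mem_nhdsWithin
    have e1' := hev (fun t => t) 1 continuous_id one_pos
    have e2 := hev (fun s => E4 * (c + 2 * s) ^ 4) (E4 * c ^ 4 + δ0 / 4) (by fun_prop) (by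
      simp only [mul_zero, add_zero]
      linarith)
    obtain ⟨t, a0, a1, a2⟩ := (e0.and (e1'.and e2)).exists
    exact ⟨t, a0, a1, a2⟩
  obtain ⟨an, κ, hand, hank, hκ1, hκ2, hanen, hanmom⟩ := h2 x c s R₀ hc hs0 (by rw [hR₀]; linarith)
  have hbsupp : ∀ z, R₀ < ‖z‖ → bp z = 0 := by
    intro z hz
    refine (hbout z ?_).1
    have e2 : ‖z‖ ≤ ‖z - b‖ + ‖b - x‖ + ‖x‖ := by
      have : z = (z - b) + (b - x) + x := by ring
      calc ‖z‖ = ‖(z - b) + (b - x) + x‖ := by rw [← this]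
        _ ≤ ‖(z - b) + (b - x)‖ + ‖x‖ := norm_add_le _ _
        _ ≤ ‖z - b‖ + ‖b - x‖ + ‖x‖ := by linarith [norm_add_le (z - b) (b - x)]
    rw [hR₀] at hz
    linarith
  obtain ⟨La, hLa⟩ := hand.lip
  obtain ⟨⟨Ba, hna⟩, hca, hcsa⟩ := nice_of hLa hand.supp
  obtain ⟨⟨Bb, hnb⟩, hcb, hcsb⟩ := nice_of hLb hbsupp
  let β : ℂ → ℝ := fun z => (1 - t) * an z + t * bp z
  have hβdef : ∀ z, β z = (1 - t) * an z + t * bp z := fun z => rfl
  have ht1' : 0 ≤ 1 - t := by linarith
  have hβL : ∀ z z', |β z - β z'| ≤ ((1 - t) * La + t * Lb) * ‖z - z'‖ := by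
    intro z z'
    have : β z - β z' = (1 - t) * (an z - an z') + t * (bp z - bp z') := by
      rw [hβdef, hβdef]
      ring
    rw [this]
    refine (abs_add_le _ _).trans ?_
    rw [abs_mul, abs_mul, abs_of_nonneg ht1', abs_of_pos ht0]
    have := mul_le_mul_of_nonneg_left (hLa z z') ht1'
    have := mul_le_mul_of_nonneg_left (hLb z z') ht0.le
    nlinarith
  have hβs : ∀ z, R₀ < ‖z‖ → β z = 0 := by
    intro z hz
    rw [hβdef, hand.supp z hz, hbsupp z hz]
    ring
  obtain ⟨⟨Bβ, hnβ⟩, hcβ, hcsβ⟩ := nice_of hβL hβs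
  have hia : Integrable an := (h5.1 an R₀ Ba hna).1
  have hib : Integrable bp := (h5.1 bp R₀ Bb hnb).1
  have hβmass : ∫ z, β z = 1 := by
    simp only [hβdef]
    rw [integral_add (hia.const_mul _) (hib.const_mul _), integral_const_mul, integral_const_mul,
      hand.mass, hb1]
    ring
  have hβdens : Dens β R₀ :=
    ⟨fun z => by
      rw [hβdef]
      exact add_nonneg (mul_nonneg ht1' (hand.nonneg z)) (mul_nonneg ht0.le (hb0 z)),
      ⟨_, hβL⟩, hβs, hβmass⟩
  have hKball : K ⊆ Metric.closedBall 0 R₀ := by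
    intro z hz
    rw [Metric.mem_closedBall, dist_zero_right]
    have e2 : ‖z‖ ≤ ‖z - x‖ + ‖x‖ := by
      have : z = (z - x) + x := by ring
      calc ‖z‖ = ‖(z - x) + x‖ := by rw [← this]
        _ ≤ _ := norm_add_le _ _
    have := hKc z hz
    rw [hR₀]
    linarith
  have hη : 0 < min s (D / 2) := lt_min hs0 (by positivity)
  have hβK : ∀ z, Metric.infDist z K < min s (D / 2) → β z = 0 := by
    intro z hz
    obtain ⟨k, hk, hzk⟩ := (Metric.infDist_lt_iff hKne).1 hz
    rw [dist_eq_norm] at hzk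
    have e1' : ‖z - x‖ ≤ c + s := by
      have e2 : ‖z - x‖ ≤ ‖z - k‖ + ‖k - x‖ := norm_sub_le_norm_sub_add_norm_sub _ _ _
      have := hKc k hk
      have := min_le_left s (D / 2)
      linarith
    have e2 : e1 ≤ ‖z - b‖ := by
      have e3 : ‖k - b‖ ≤ ‖k - z‖ + ‖z - b‖ := norm_sub_le_norm_sub_add_norm_sub _ _ _
      rw [norm_sub_rev k z] at e3
      have := hKD k hk
      have := min_le_right s (D / 2)
      linarith
    rw [hβdef, (hank z e1').1, (hbout z e2).1]
    ring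
  obtain ⟨x₀, hx₀, m, q, hm1, hm2, hq, hadm, hmom⟩ := hKI K β (min s (D / 2)) (δ0 / 4) hK hKne
    hKball hvol hβdens hη hβK (by positivity)
  have hmpos : 0 < m := hm0pos.trans_le hm1
  -- the potential at `x₀`
  have hx₀c : ‖x₀ - x‖ ≤ c := hKc x₀ hx₀
  have hx₀D : D ≤ ‖x₀ - b‖ := hKD x₀ hx₀
  have hx₀pos : 0 < ‖x₀ - b‖ := hDpos.trans_le hx₀D
  have hpot : pot β x₀ = κ - t * (κ + Real.log ‖x₀ - b‖) := by
    rw [h5.2 an bp R₀ Ba R₀ Bb (1 - t) t hna hnb x₀, (hank x₀ (by linarith)).2,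
      (hbout x₀ (by linarith)).2]
    ring
  -- the energy
  have hen : en β β ≤ κ + t ^ 2 * (Cb - κ) := by
    have iaa := (h6 an an R₀ Ba R₀ Ba hna hna).1
    have iab := (h6 an bp R₀ Ba R₀ Bb hna hnb).1
    have iba := (h6 bp an R₀ Bb R₀ Ba hnb hna).1
    have ibb := (h6 bp bp R₀ Bb R₀ Bb hnb hnb).1
    have hsym : en bp an = en an bp := (h6 bp an R₀ Bb R₀ Ba hnb hna).2.2.2
    have hab : en an bp = κ := by
      have e2 : ∀ z, pot an z * bp z = κ * bp z := by
        intro z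
        by_cases hz : e1 ≤ ‖z - b‖
        · rw [(hbout z hz).1, mul_zero, mul_zero]
        · push Not at hz
          rw [(hank z ?_).2]
          have : ‖z - x‖ ≤ ‖z - b‖ + ‖b - x‖ := norm_sub_le_norm_sub_add_norm_sub _ _ _
          linarith
      unfold en
      simp_rw [e2]
      rw [integral_const_mul, hb1, mul_one]
    have e1' : en β β = (1 - t) ^ 2 * en an an + (1 - t) * t * en an bp + t * (1 - t) * en bp an +
        t ^ 2 * en bp bp := by
      unfold en
      rw [← integral_const_mul, ← integral_const_mul, ← integral_const_mul, ← integral_const_mul]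
      have j1 : Integrable (fun z => (1 - t) ^ 2 * (pot an z * an z)) := iaa.const_mul _
      have j2 : Integrable (fun z => (1 - t) * t * (pot an z * bp z)) := iab.const_mul _
      have j3 : Integrable (fun z => t * (1 - t) * (pot bp z * an z)) := iba.const_mul _
      have j4 : Integrable (fun z => t ^ 2 * (pot bp z * bp z)) := ibb.const_mul _
      have j5 : Integrable (fun z => (1 - t) ^ 2 * (pot an z * an z) +
        (1 - t) * t * (pot an z * bp z)) := j1.add j2
      have j6 : Integrable (fun z => (1 - t) ^ 2 * (pot an z * an z) +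
        (1 - t) * t * (pot an z * bp z) + t * (1 - t) * (pot bp z * an z)) := j5.add j3
      rw [← integral_add j1 j2, ← integral_add j5 j3, ← integral_add j6 j4]
      refine integral_congr_ae (Filter.Eventually.of_forall fun z => ?_)
      simp only
      have hβz : β z = (1 - t) * an z + t * bp z := rfl
      rw [hβz]
      rw [h5.2 an bp R₀ Ba R₀ Bb (1 - t) t hna hnb z]
      ring
    rw [e1', hsym, hab]
    have e2 : (1 - t) ^ 2 * en an an ≤ (1 - t) ^ 2 * κ :=
      mul_le_mul_of_nonneg_left hanen (by positivity)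
    have e3 : t ^ 2 * en bp bp ≤ t ^ 2 * Cb := mul_le_mul_of_nonneg_left hben (by positivity)
    nlinarith
  -- bounds for `κ`
  have hκlo : -Real.log (c + 2 * s) ≤ κ := hκ1
  have hκhi : κ ≤ -Real.log c := by
    have := Real.log_le_log hc (by linarith : c ≤ c + s)
    linarith
  have hκlo' : -Real.log (c + 2) ≤ κ := by
    have := Real.log_le_log (by linarith : 0 < c + 2 * s) (by linarith : c + 2 * s ≤ c + 2)
    linarith
  have hCκ : Cb - κ ≤ A := by
    have := le_abs_self Cb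
    have := le_abs_self (Real.log (c + 2))
    have := abs_nonneg (Real.log c)
    rw [hA]
    linarith
  set v := κ + Real.log ‖x₀ - b‖ with hv
  have hdiff : en β β - pot β x₀ ≤ t ^ 2 * A + t * v := by
    rw [hpot]
    have : t ^ 2 * (Cb - κ) ≤ t ^ 2 * A := mul_le_mul_of_nonneg_left hCκ (by positivity)
    linarith
  have hvle : v ≤ Real.log ‖x₀ - b‖ - Real.log c := by rw [hv]; linarith
  have hexp : Real.exp (-4 * pot β x₀) ≤ (c + 2 * s) ^ 4 * Real.exp (4 * t * v) := by
    have e2 : Real.exp (-4 * pot β x₀) = Real.exp (-κ) ^ 4 * Real.exp (4 * t * v) := by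
      rw [hpot, ← Real.exp_nat_mul, ← Real.exp_add]
      congr 1
      push_cast
      ring
    rw [e2]
    have e3 : Real.exp (-κ) ≤ c + 2 * s := by
      rw [← Real.exp_log (by linarith : 0 < c + 2 * s)]
      exact Real.exp_le_exp.2 (by linarith)
    exact mul_le_mul_of_nonneg_right (pow_le_pow_left₀ (Real.exp_pos _).le e3 4)
      (Real.exp_pos _).le
  have hqm : 0 ≤ q ^ 3 / (8 * m) := by positivity
  refine ⟨δ0 / 2, by positivity, adm_mono hadm ?_⟩
  change m ^ 2 * (en β β - pot β x₀) + E4 * Real.exp (-4 * pot β x₀) - q ^ 3 / (8 * m) + δ0 / 4 ≤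
    E4 * c ^ 4 - δ0 / 2
  have hE4exp : E4 * Real.exp (-4 * pot β x₀) ≤ E4 * ((c + 2 * s) ^ 4 * Real.exp (4 * t * v)) :=
    mul_le_mul_of_nonneg_left hexp hE4pos.le
  by_cases hnear : ‖x₀ - x‖ ≤ ρ0
  · -- near
    have e2 : ‖x₀ - b‖ ≤ r1 := by
      have e3 : ‖x₀ - b‖ ≤ ‖x₀ - x‖ + ‖x - b‖ := norm_sub_le_norm_sub_add_norm_sub _ _ _
      rw [norm_sub_rev x b] at e3
      rw [hr1]
      rw [hρ0] at hnear
      linarith
    have hv1 : v ≤ -ℓ0 := by
      have := Real.log_le_log hx₀pos e2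
      rw [hℓ0]
      linarith
    have e3 : en β β - pot β x₀ ≤ -(t * ℓ0 / 2) := by
      have : t * v ≤ t * (-ℓ0) := mul_le_mul_of_nonneg_left hv1 ht0.le
      have : t * (t * A) ≤ t * (ℓ0 / 2) := mul_le_mul_of_nonneg_left htA.le ht0.le
      nlinarith
    have e4 : m ^ 2 * (en β β - pot β x₀) ≤ -(m0 ^ 2 * (t * ℓ0 / 2)) := by
      have e5 : m0 ^ 2 ≤ m ^ 2 := pow_le_pow_left₀ hm0pos.le hm1 2
      have e6 : m ^ 2 * (en β β - pot β x₀) ≤ m ^ 2 * (-(t * ℓ0 / 2)) :=
        mul_le_mul_of_nonneg_left e3 (by positivity)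
      have e7 : m0 ^ 2 * (t * ℓ0 / 2) ≤ m ^ 2 * (t * ℓ0 / 2) :=
        mul_le_mul_of_nonneg_right e5 (by positivity)
      linarith
    have e5 : Real.exp (4 * t * v) ≤ 1 := by
      rw [Real.exp_le_one_iff]
      nlinarith
    have e6 : E4 * ((c + 2 * s) ^ 4 * Real.exp (4 * t * v)) ≤ E4 * (c + 2 * s) ^ 4 := by
      refine mul_le_mul_of_nonneg_left ?_ hE4pos.le
      exact mul_le_of_le_one_right (by positivity) e5
    have e7 : δ0 ≤ m0 ^ 2 * (t * ℓ0 / 2) := min_le_left _ _
    linarith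
  · -- far
    push Not at hnear
    have hv1 : v ≤ 1 := by
      have e2 : ‖x₀ - b‖ ≤ 2 * c := by
        have e3 : ‖x₀ - b‖ ≤ ‖x₀ - x‖ + ‖x - b‖ := norm_sub_le_norm_sub_add_norm_sub _ _ _
        rw [norm_sub_rev x b] at e3
        linarith
      have e3 := Real.log_le_log hx₀pos e2
      rw [Real.log_mul two_ne_zero hc.ne'] at e3
      have := Real.log_two_lt_d9
      linarith
    have e3 : en β β - pot β x₀ ≤ t ^ 2 * A + t := by
      have : t * v ≤ t * 1 := mul_le_mul_of_nonneg_left hv1 ht0.le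
      linarith
    have e4 : m ^ 2 * (en β β - pot β x₀) ≤ g / 4 := by
      have e5 : m ^ 2 ≤ R₂ ^ 4 := by
        calc m ^ 2 ≤ (R₂ ^ 2) ^ 2 := pow_le_pow_left₀ hmpos.le hm2 2
          _ = R₂ ^ 4 := by ring
      have e6 : m ^ 2 * (en β β - pot β x₀) ≤ m ^ 2 * (t ^ 2 * A + t) :=
        mul_le_mul_of_nonneg_left e3 (by positivity)
      have e7 : m ^ 2 * (t ^ 2 * A + t) ≤ R₂ ^ 4 * (t ^ 2 * A + t) :=
        mul_le_mul_of_nonneg_right e5 (by positivity)
      linarith
    have e5 : E4 * ((c + 2 * s) ^ 4 * Real.exp (4 * t * v)) ≤ E4 * (c + 2 * s) ^ 4 + g / 4 := by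
      have e6 : Real.exp (4 * t * v) ≤ Real.exp (4 * t) :=
        Real.exp_le_exp.2 (by nlinarith)
      have e7 : 0 ≤ Real.exp (4 * t) - 1 := by
        have := Real.add_one_le_exp (4 * t)
        linarith
      have e8 : (c + 2 * s) ^ 4 ≤ (c + 2) ^ 4 := pow_le_pow_left₀ (by positivity) (by linarith) 4
      have e9 : E4 * (c + 2 * s) ^ 4 * (Real.exp (4 * t) - 1) ≤
          E4 * (c + 2) ^ 4 * (Real.exp (4 * t) - 1) :=
        mul_le_mul_of_nonneg_right (mul_le_mul_of_nonneg_left e8 hE4pos.le) e7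
      have e10 : E4 * ((c + 2 * s) ^ 4 * Real.exp (4 * t * v)) ≤
          E4 * ((c + 2 * s) ^ 4 * Real.exp (4 * t)) :=
        mul_le_mul_of_nonneg_left (mul_le_mul_of_nonneg_left e6 (by positivity)) hE4pos.le
      have e11 : E4 * ((c + 2 * s) ^ 4 * Real.exp (4 * t)) =
          E4 * (c + 2 * s) ^ 4 + E4 * (c + 2 * s) ^ 4 * (Real.exp (4 * t) - 1) := by ring
      linarith
    -- the moment inequality
    have hbary : ∫ z, (Polynomial.X : Polynomial ℂ).eval z * (β z : ℂ) = x + t * (b - x) := by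
      have e6 : ∀ z, (Polynomial.X : Polynomial ℂ).eval z * (β z : ℂ) =
          (1 - t : ℂ) * (z * (an z : ℂ)) + (t : ℂ) * (z * (bp z : ℂ)) := by
        intro z
        rw [Polynomial.eval_X, hβdef]
        push_cast
        ring
      simp_rw [e6]
      rw [integral_add ((integrable_id_mul hca hcsa).const_mul _)
        ((integrable_id_mul hcb hcsb).const_mul _), integral_const_mul, integral_const_mul, hanmom]
      have e7 := hbmom Polynomial.X
      simp only [Polynomial.eval_X] at e7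
      rw [e7]
      ring
    have hqlo : q0 ≤ q := by
      have e6 := hmom Polynomial.X R₂ (fun z hz => by rwa [Polynomial.eval_X])
      rw [hbary, Polynomial.eval_X, norm_mul, Complex.norm_real, Real.norm_eq_abs,
        abs_of_pos hmpos] at e6
      have e7 : ρ0 / 2 ≤ ‖x + t * (b - x) - x₀‖ := by
        have e8 : ‖x₀ - x‖ ≤ ‖x + t * (b - x) - x₀‖ + ‖(t : ℂ) * (b - x)‖ := by
          have : x₀ - x = -(x + t * (b - x) - x₀) + (t : ℂ) * (b - x) := by ring
          calc ‖x₀ - x‖ = ‖-(x + t * (b - x) - x₀) + (t : ℂ) * (b - x)‖ := by rw [← this]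
            _ ≤ ‖-(x + t * (b - x) - x₀)‖ + ‖(t : ℂ) * (b - x)‖ := norm_add_le _ _
            _ = _ := by rw [norm_neg]
        rw [norm_mul, Complex.norm_real, Real.norm_eq_abs, abs_of_pos ht0] at e8
        have e9 : t * ‖b - x‖ ≤ t * c := mul_le_mul_of_nonneg_left hbx.le ht0.le
        linarith
      have e8 : m0 * (ρ0 / 2) ≤ 2 * q * R₂ :=
        (mul_le_mul hm1 e7 (by positivity) hmpos.le).trans e6
      rw [hq0, div_le_iff₀ (by positivity)]
      linarith
    have e6 : g ≤ q ^ 3 / (8 * m) := by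
      rw [hg]
      have e7 : q0 ^ 3 ≤ q ^ 3 := pow_le_pow_left₀ hq0pos.le hqlo 3
      exact div_le_div₀ (by positivity) e7 (by positivity) (by linarith)
    have e7 : δ0 ≤ g / 2 := min_le_right _ _
    linarith

end Pool.Agent.GH
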