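import Pool.Agent.GH.Stmts

/-!
Cauchy estimates on the circles of radius `√k` (module CAU).
-/

namespace Pool.Agent.GH.CAU

open Polynomial Metric

theorem iteratedDeriv_eval (Q : Polynomial ℂ) (k : ℕ) :
    iteratedDeriv k (fun z => Q.eval z) = fun z => (derivative^[k] Q).eval z := by
  induction k with
  | zero => simp
  | succ k ih =>
    rw [iteratedDeriv_succ, ih, Function.iterate_succ_apply']
    funext z
    exact Polynomial.deriv _

theorem coeff_le (Q : Polynomial ℂ) (k : ℕ) (ρ M : ℝ) (hρ : 0 < ρ)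
    (h : ∀ z : ℂ, ‖z‖ = ρ → ‖Q.eval z‖ ≤ M) : ‖Q.coeff k‖ ≤ M / ρ ^ k := by
  have h1 := Complex.norm_iteratedDeriv_le_of_forall_mem_sphere_norm_le (F := ℂ) (c := 0) (R := ρ)
    (C := M) (f := fun z => Q.eval z) k hρ (Q.differentiable.diffContOnCl)
    (fun z hz => h z (by simpa using hz))
  rw [iteratedDeriv_eval] at h1
  have h2 : (derivative^[k] Q).eval 0 = (k.factorial : ℂ) * Q.coeff k := by
    rw [← coeff_zero_eq_eval_zero, coeff_iterate_derivative]
    simp [Nat.descFactorial_self]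
  simp only [h2, norm_mul, Complex.norm_natCast] at h1
  have h3 : (0 : ℝ) < k.factorial := by exact_mod_cast k.factorial_pos
  rw [mul_div_assoc] at h1
  exact le_of_mul_le_mul_left h1 h3

theorem fact_le (k : ℕ) (hk : 1 ≤ k) :
    (k.factorial : ℝ) * Real.exp k ≤ Real.exp 1 * (k : ℝ) ^ (k + 1) := by
  induction k, hk using Nat.le_induction with
  | base => simp
  | succ k hk ih =>
    have hk0 : (0 : ℝ) < k := by exact_mod_cast hk
    have hk1 : (0 : ℝ) < (k : ℝ) + 1 := by linarith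
    -- `e ≤ (1 + 1/k)^(k+1)`
    have h1 : Real.exp 1 * (k : ℝ) ^ (k + 1) ≤ ((k : ℝ) + 1) ^ (k + 1) := by
      have h2 : 1 - ((k : ℝ) + 1)⁻¹ * k ≤ Real.log (((k : ℝ) + 1) / k) := by
        have := Real.one_sub_inv_le_log_of_pos (div_pos hk1 hk0)
        rwa [inv_div, div_eq_inv_mul] at this
      have h3 : 1 ≤ ((k + 1 : ℕ) : ℝ) * Real.log (((k : ℝ) + 1) / k) := by
        have h4 : 1 - ((k : ℝ) + 1)⁻¹ * k = ((k : ℝ) + 1)⁻¹ := by
          field_simp
          ring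
        rw [h4] at h2
        push_cast
        calc (1 : ℝ) = ((k : ℝ) + 1) * ((k : ℝ) + 1)⁻¹ := (mul_inv_cancel₀ hk1.ne').symm
          _ ≤ _ := mul_le_mul_of_nonneg_left h2 hk1.le
      have h5 : Real.exp 1 ≤ (((k : ℝ) + 1) / k) ^ (k + 1) := by
        calc Real.exp 1 ≤ Real.exp (((k + 1 : ℕ) : ℝ) * Real.log (((k : ℝ) + 1) / k)) :=
              Real.exp_le_exp.2 h3
          _ = (((k : ℝ) + 1) / k) ^ (k + 1) := by
              rw [Real.exp_nat_mul, Real.exp_log (div_pos hk1 hk0)]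
      rw [div_pow, le_div_iff₀ (pow_pos hk0 _)] at h5
      exact h5
    have h6 : ((k + 1).factorial : ℝ) * Real.exp ((k + 1 : ℕ) : ℝ) =
        ((k : ℝ) + 1) * Real.exp 1 * ((k.factorial : ℝ) * Real.exp k) := by
      rw [Nat.factorial_succ]
      push_cast
      rw [Real.exp_add]
      ring
    rw [h6]
    calc ((k : ℝ) + 1) * Real.exp 1 * ((k.factorial : ℝ) * Real.exp k)
        ≤ ((k : ℝ) + 1) * Real.exp 1 * (Real.exp 1 * (k : ℝ) ^ (k + 1)) :=
          mul_le_mul_of_nonneg_left ih (by positivity)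
      _ ≤ ((k : ℝ) + 1) * Real.exp 1 * ((k : ℝ) + 1) ^ (k + 1) :=
          mul_le_mul_of_nonneg_left h1 (by positivity)
      _ = Real.exp 1 * (((k + 1 : ℕ) : ℝ)) ^ (k + 1 + 1) := by
          push_cast
          ring

theorem term_le (n : ℕ) (Q : Polynomial ℂ) (Λ : ℝ)
    (h : ∀ z : ℂ, ‖z‖ ^ 2 ≤ (n : ℝ) → ‖Q.eval z‖ ^ 2 ≤ Real.exp (Λ + ‖z‖ ^ 2)) (k : ℕ)
    (hk : k ≤ n) :
    (k.factorial : ℝ) * ‖Q.coeff k‖ ^ 2 ≤ Real.exp 1 * ((n : ℝ) + 1) * Real.exp Λ := by
  have hkn : (k : ℝ) ≤ n := by exact_mod_cast hk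
  rcases Nat.eq_zero_or_pos k with rfl | hk0
  · have h1 := h 0 (by simp)
    have h2 : Q.eval 0 = Q.coeff 0 := (coeff_zero_eq_eval_zero Q).symm
    rw [h2] at h1
    simp only [norm_zero, ne_eq, OfNat.ofNat_ne_zero, not_false_eq_true, zero_pow, add_zero] at h1
    simp only [Nat.factorial_zero, Nat.cast_one, one_mul]
    refine h1.trans ?_
    have h3 : (1 : ℝ) ≤ Real.exp 1 := Real.one_le_exp zero_le_one
    have h4 : (1 : ℝ) ≤ Real.exp 1 * ((n : ℝ) + 1) := by
      have : (0 : ℝ) ≤ n := Nat.cast_nonneg n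
      nlinarith
    exact le_mul_of_one_le_left (Real.exp_pos _).le h4
  · have hk' : (0 : ℝ) < k := by exact_mod_cast hk0
    have hs : 0 < Real.sqrt k := Real.sqrt_pos.2 hk'
    have h1 : ‖Q.coeff k‖ ≤ Real.sqrt (Real.exp (Λ + k)) / Real.sqrt k ^ k := by
      apply coeff_le Q k _ _ hs
      intro z hz
      have hz2 : ‖z‖ ^ 2 = k := by rw [hz, Real.sq_sqrt hk'.le]
      have := h z (by rw [hz2]; exact hkn)
      rw [hz2] at this
      exact Real.le_sqrt_of_sq_le this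
    have h2 : ‖Q.coeff k‖ ^ 2 ≤ Real.exp (Λ + k) / (k : ℝ) ^ k := by
      calc ‖Q.coeff k‖ ^ 2 ≤ (Real.sqrt (Real.exp (Λ + k)) / Real.sqrt k ^ k) ^ 2 :=
            pow_le_pow_left₀ (norm_nonneg _) h1 2
        _ = Real.exp (Λ + k) / (k : ℝ) ^ k := by
            rw [div_pow, Real.sq_sqrt (Real.exp_pos _).le, ← pow_mul, mul_comm k 2, pow_mul,
              Real.sq_sqrt hk'.le]
    have h3 := fact_le k hk0
    calc (k.factorial : ℝ) * ‖Q.coeff k‖ ^ 2
        ≤ (k.factorial : ℝ) * (Real.exp (Λ + k) / (k : ℝ) ^ k) :=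
          mul_le_mul_of_nonneg_left h2 (by positivity)
      _ = ((k.factorial : ℝ) * Real.exp k) / (k : ℝ) ^ k * Real.exp Λ := by
          rw [Real.exp_add]; ring
      _ ≤ (Real.exp 1 * (k : ℝ) ^ (k + 1)) / (k : ℝ) ^ k * Real.exp Λ := by
          gcongr
      _ = Real.exp 1 * k * Real.exp Λ := by
          rw [pow_succ]
          field_simp
      _ ≤ Real.exp 1 * ((n : ℝ) + 1) * Real.exp Λ := by
          gcongr
          linarith

end Pool.Agent.GH.CAU

namespace Pool.Agent.GH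

/-- Cauchy estimates on the circles of radius `√k`. -/
theorem CAU_thm : CAU_Stmt := by
  intro n Q Λ h
  unfold fock
  calc ∑ k ∈ Finset.range (n + 1), (k.factorial : ℝ) * ‖Q.coeff k‖ ^ 2
      ≤ ∑ _k ∈ Finset.range (n + 1), Real.exp 1 * ((n : ℝ) + 1) * Real.exp Λ :=
        Finset.sum_le_sum fun k hk => CAU.term_le n Q Λ h k (by
          rw [Finset.mem_range] at hk; omega)
    _ = Real.exp 1 * ((n : ℝ) + 1) ^ 2 * Real.exp Λ := by
        rw [Finset.sum_const, Finset.card_range, nsmul_eq_mul]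
        push_cast
        ring

end Pool.Agent.GH
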