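import Pool.Agent.GH.Stmts

/-!
A continuum that contains the center of a disk inside its filled set and reaches out of the disk
has larger capacity (module GH_CBIG).
-/

namespace Pool.Agent.GH

open MeasureTheory ProbabilityTheory Filter Topology

namespace CBIG

theorem vdm_nonneg {n : ℕ} (z : Fin n → ℂ) : 0 ≤ vdm z :=
  Finset.prod_nonneg fun _ _ => Finset.prod_nonneg fun _ _ => norm_nonneg _

theorem vmax_nonneg (K : Set ℂ) (n : ℕ) : 0 ≤ vmax K n := by
  refine Real.sSup_nonneg ?_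
  rintro _ ⟨z, -, rfl⟩
  exact vdm_nonneg z

theorem dn_mono {H K : Set ℂ} {n : ℕ} (h : vmax H n ≤ vmax K n) : dn H n ≤ dn K n := by
  unfold dn
  refine Real.rpow_le_rpow (vmax_nonneg H n) h ?_
  refine div_nonneg zero_le_two ?_
  rcases Nat.eq_zero_or_pos n with hn | hn
  · rw [hn]
    simp
  · have h1 : (1 : ℝ) ≤ n := by exact_mod_cast hn
    exact mul_nonneg (by linarith) (by linarith)

end CBIG

open CBIG in
theorem CBIG_thm (h1 : HULL_Stmt) (h2 : CFG_Stmt) (h3 : CAPA_Stmt) : CBIG_Stmt := by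
  intro K x c hK hconn hx hc hball hy
  obtain ⟨y, hyK, hy⟩ := hy
  obtain ⟨hHc, hKH, hv⟩ := h1 K hK ⟨x, hx⟩
  have hb : Metric.closedBall x c ⊆ (outer K)ᶜ := by
    rw [← closure_ball x hc.ne']
    refine closure_minimal ?_ hHc.isClosed
    intro z hz
    refine hball z ?_
    rwa [Metric.mem_ball, dist_eq_norm] at hz
  have hat : ∀ t : ℝ, c ≤ t → t ≤ c + (‖y - x‖ - c) → ∃ y ∈ (outer K)ᶜ, ‖y - x‖ = t := by
    intro t ht1 ht2
    have hcont : ContinuousOn (fun z : ℂ => ‖z - x‖) K := by fun_prop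
    have hiv := hconn.isPreconnected.intermediate_value hx hyK hcont
    have ht : t ∈ Set.Icc ‖x - x‖ ‖y - x‖ := by
      rw [sub_self, norm_zero]
      exact ⟨hc.le.trans ht1, by linarith⟩
    obtain ⟨z, hz, hzt⟩ := hiv ht
    exact ⟨z, hKH hz, hzt⟩
  obtain ⟨γ, hγ, hn⟩ := h2 _ x c (‖y - x‖ - c) hHc hc (by linarith) hb hat
  obtain ⟨ht, -⟩ := h3.1 K hK ⟨x, hx⟩
  have hcγ : c < c * γ := by nlinarith
  refine lt_of_lt_of_le hcγ ?_
  by_contra hlt
  rw [not_le] at hlt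
  obtain ⟨N₀, hN₀⟩ := eventually_atTop.1 (ht.eventually (Iio_mem_nhds hlt))
  obtain ⟨n, hn1, hn2⟩ := hn N₀
  have h4 := hN₀ n hn1
  exact absurd (hn2.trans (dn_mono (hv n))) (not_le.2 h4)

end Pool.Agent.GH
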