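import Pool.Agent.GH.Stmts

/-!
CFG: a compact set that contains a disk and reaches out of it at all distances has larger
diameters.
-/

namespace Pool.Agent.GH

open MeasureTheory ProbabilityTheory Filter Topology

namespace CFG

theorem vdm_ite {n : ℕ} (z : Fin n → ℂ) :
    vdm z = ∏ i : Fin n, ∏ j : Fin n, if i < j then ‖z i - z j‖ else 1 := by
  unfold vdm
  refine Finset.prod_congr rfl fun i _ => ?_
  rw [← Finset.prod_filter, Finset.filter_lt_eq_Ioi]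

theorem vdm_append {N k : ℕ} (a : Fin N → ℂ) (y : Fin k → ℂ) :
    vdm (Fin.append a y) = vdm a * (∏ j, ∏ i, ‖a i - y j‖) * vdm y := by
  have h1 : ∀ (i : Fin N) (j : Fin k), Fin.castAdd k i < Fin.natAdd N j := fun i j => by
    rw [Fin.lt_def]
    simp only [Fin.val_castAdd, Fin.val_natAdd]
    omega
  have h2 : ∀ (i : Fin N) (j : Fin k), ¬ Fin.natAdd N j < Fin.castAdd k i := fun i j =>
    not_lt.2 (h1 i j).le
  have h3 : ∀ (i j : Fin N), Fin.castAdd k i < Fin.castAdd k j ↔ i < j := fun i j => by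
    rw [Fin.lt_def, Fin.lt_def]
    simp
  have h4 : ∀ (i j : Fin k), Fin.natAdd N i < Fin.natAdd N j ↔ i < j := fun i j => by
    rw [Fin.lt_def, Fin.lt_def]
    simp
  rw [vdm_ite, vdm_ite, vdm_ite, Fin.prod_univ_add]
  simp only [Fin.prod_univ_add, Fin.append_left, Fin.append_right, h1, h2, h3, h4, if_true,
    if_false, Finset.prod_const_one, one_mul, Finset.prod_mul_distrib]
  rw [Finset.prod_comm (f := fun j i => ‖a i - y j‖)]

theorem vdm_nonneg {n : ℕ} (z : Fin n → ℂ) : 0 ≤ vdm z :=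
  Finset.prod_nonneg fun _ _ => Finset.prod_nonneg fun _ _ => norm_nonneg _

theorem continuous_vdm (n : ℕ) : Continuous (fun z : Fin n → ℂ => vdm z) := by
  unfold vdm
  fun_prop

theorem le_vmax {K : Set ℂ} (hK : IsCompact K) {n : ℕ} (z : Fin n → ℂ) (hz : ∀ i, z i ∈ K) :
    vdm z ≤ vmax K n := by
  refine le_csSup ?_ (Set.mem_image_of_mem _ hz)
  have h1 : IsCompact (Set.pi Set.univ fun _ : Fin n => K) := isCompact_univ_pi fun _ => hK
  have h2 := (h1.image (continuous_vdm n)).bddAbove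
  convert h2 using 2
  ext z
  simp

/-- The product over the pairs of an equally spaced configuration. -/
theorem prod_lt (k j : ℕ) (hj : j ≤ k) (g : ℕ → ℝ) :
    ∏ i : Fin k, (if (i : ℕ) < j then g i else 1) = ∏ i ∈ Finset.range j, g i := by
  rw [Fin.prod_univ_eq_prod_range (fun i => if i < j then g i else 1) k,
    ← Finset.prod_filter]
  refine Finset.prod_congr ?_ fun _ _ => rfl
  ext i
  simp
  omega

theorem prod_fac (j : ℕ) : ∏ i ∈ Finset.range j, ((j : ℝ) - i) = (j.factorial : ℝ) := by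
  rw [← Finset.prod_range_add_one_eq_factorial, ← Finset.prod_range_reflect]
  push_cast
  refine Finset.prod_congr rfl fun i hi => ?_
  rw [Finset.mem_range] at hi
  rw [Nat.cast_sub (by omega), Nat.cast_sub (by omega)]
  push_cast
  ring

/-- The lower bound for one row. -/
theorem row (k j : ℕ) (hj : j < k) (σ δ : ℝ) (hδ : 0 < δ) (hδ1 : δ ≤ 1) (hδσ : δ ≤ σ) :
    (δ / Real.exp 1) ^ k ≤ ∏ i ∈ Finset.range j, (σ * ((j : ℝ) - i) / k) := by
  have hk : (0 : ℝ) < k := by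
    have : 0 < k := by omega
    exact_mod_cast this
  have h1 : ∏ i ∈ Finset.range j, (σ * ((j : ℝ) - i) / k) =
      σ ^ j * ((j.factorial : ℝ) / (k : ℝ) ^ j) := by
    rw [← prod_fac, div_eq_mul_inv, ← inv_pow]
    simp only [div_eq_mul_inv, Finset.prod_mul_distrib, Finset.prod_const, Finset.card_range]
    ring
  rw [h1]
  have h2 : (k : ℝ) ^ j / j.factorial ≤ Real.exp k := Real.pow_div_factorial_le_exp _ hk.le _
  have hf : (0 : ℝ) < j.factorial := by exact_mod_cast Nat.factorial_pos j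
  have h3 : (Real.exp k)⁻¹ ≤ (j.factorial : ℝ) / (k : ℝ) ^ j := by
    rw [inv_le_comm₀ (Real.exp_pos _) (by positivity), inv_div]
    exact h2
  have h4 : δ ^ k ≤ σ ^ j := by
    calc δ ^ k ≤ δ ^ j := pow_le_pow_of_le_one hδ.le hδ1 hj.le
      _ ≤ σ ^ j := pow_le_pow_left₀ hδ.le hδσ j
  have h5 : (δ / Real.exp 1) ^ k = δ ^ k * (Real.exp k)⁻¹ := by
    rw [div_pow, ← Real.exp_nat_mul, mul_one, div_eq_mul_inv]
  rw [h5]
  exact mul_le_mul h4 h3 (by positivity) (by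
    have : 0 ≤ δ ^ k := by positivity
    linarith)

theorem vdm_ge {k : ℕ} (y : Fin k → ℂ) (σ δ : ℝ) (hδ : 0 < δ) (hδ1 : δ ≤ 1) (hδσ : δ ≤ σ)
    (hy : ∀ i j : Fin k, i < j → σ * ((j : ℝ) - i) / k ≤ ‖y i - y j‖) :
    ((δ / Real.exp 1) ^ k) ^ k ≤ vdm y := by
  rw [vdm_ite, Finset.prod_comm]
  have h1 : ((δ / Real.exp 1) ^ k) ^ k = ∏ _j : Fin k, (δ / Real.exp 1) ^ k := by
    rw [Finset.prod_const, Finset.card_univ, Fintype.card_fin]
  rw [h1]
  apply Finset.prod_le_prod (fun _ _ => by positivity)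
  intro j _
  have hσ : 0 < σ := by linarith
  have hk : (0 : ℝ) < k := by
    have : 0 < k := by
      have := j.2
      omega
    exact_mod_cast this
  refine (row k j j.2 σ δ hδ hδ1 hδσ).trans ?_
  rw [← prod_lt k j j.2.le (fun i => σ * (((j : ℕ) : ℝ) - i) / k)]
  apply Finset.prod_le_prod
  · intro i _
    split_ifs with h
    · have h2 : ((i : ℕ) : ℝ) ≤ ((j : ℕ) : ℝ) := by exact_mod_cast h.le
      have h3 : 0 ≤ ((j : ℕ) : ℝ) - i := by linarith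
      positivity
    · norm_num
  · intro i _
    have h0 : i < j ↔ (i : ℕ) < (j : ℕ) := Fin.lt_def
    by_cases h : i < j
    · rw [if_pos (h0.1 h), if_pos h]
      exact hy i j h
    · rw [if_neg (fun h' => h (h0.2 h')), if_neg h]

theorem dn_ge {K : Set ℂ} (hK : IsCompact K) {n : ℕ} (hn : 2 ≤ n) (z : Fin n → ℂ)
    (hz : ∀ i, z i ∈ K) (r : ℝ) (hr : 0 ≤ r) (h : r ^ (n * (n - 1)) ≤ (vdm z) ^ 2) :
    r ≤ dn K n := by
  have hM : n * (n - 1) ≠ 0 := by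
    apply mul_ne_zero
    · omega
    · omega
  have h1 := le_vmax hK z hz
  have h0 := vdm_nonneg z
  have h2 : r ^ (n * (n - 1)) ≤ (vmax K n) ^ 2 := h.trans (pow_le_pow_left₀ h0 h1 2)
  have h3 : r = (r ^ (n * (n - 1))) ^ (((n * (n - 1) : ℕ) : ℝ)⁻¹) :=
    (Real.pow_rpow_inv_natCast hr hM).symm
  have h4 : ((vmax K n) ^ 2) ^ (((n * (n - 1) : ℕ) : ℝ)⁻¹) = dn K n := by
    unfold dn
    rw [← Real.rpow_natCast, ← Real.rpow_mul (h0.trans h1)]
    congr 1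
    push_cast [Nat.cast_sub (by omega : 1 ≤ n)]
    rw [div_eq_mul_inv]
  rw [h3, ← h4]
  exact Real.rpow_le_rpow (by positivity) h2 (by positivity)

theorem final (N k m : ℕ) (hN : N = m * k) (hN4 : 4 ≤ N) (hkN : k ≤ N) (hk : 1 ≤ k)
    (c ρ e γ C : ℝ) (hc : 0 < c) (hρ : 0 < ρ) (he : 0 < e) (hγ : 1 ≤ γ) (hcC : c ≤ C)
    (hC1 : 1 ≤ C) (hm : 2 * C ≤ ρ ^ (2 * m) * e ^ 2) (hγ2 : γ ^ ((m + 1) ^ 2) = 2) :
    (c * γ) ^ ((N + k) * (N + k - 1)) ≤
      ((N : ℝ) * c ^ (N - 1)) ^ N * (((c * ρ) ^ N / 2) ^ k) ^ 2 * ((e ^ k) ^ k) ^ 2 := by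
  have hexp : (N + k) * (N + k - 1) = N * (N - 1) + 2 * (N * k) + k * (k - 1) := by
    obtain ⟨N', rfl⟩ : ∃ N', N = N' + 1 := ⟨N - 1, by omega⟩
    obtain ⟨k', rfl⟩ : ∃ k', k = k' + 1 := ⟨k - 1, by omega⟩
    have h1 : N' + 1 + (k' + 1) - 1 = N' + k' + 1 := by omega
    rw [h1, Nat.add_sub_cancel, Nat.add_sub_cancel]
    ring
  have h1 : c ^ (k * (k - 1)) ≤ C ^ (k * k) := by
    calc c ^ (k * (k - 1)) ≤ C ^ (k * (k - 1)) := pow_le_pow_left₀ hc.le hcC _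
      _ ≤ C ^ (k * k) := pow_le_pow_right₀ hC1 (Nat.mul_le_mul_left _ (Nat.sub_le _ _))
  have h2 : γ ^ ((N + k) * (N + k - 1)) ≤ 2 ^ (k * k) := by
    calc γ ^ ((N + k) * (N + k - 1)) ≤ γ ^ ((N + k) * (N + k)) :=
          pow_le_pow_right₀ hγ (Nat.mul_le_mul_left _ (Nat.sub_le _ _))
      _ = (γ ^ ((m + 1) ^ 2)) ^ (k * k) := by
          rw [← pow_mul]
          congr 1
          rw [hN]
          ring
      _ = 2 ^ (k * k) := by rw [hγ2]
  have h3 : (2 * C) ^ (k * k) ≤ (ρ ^ (2 * m) * e ^ 2) ^ (k * k) :=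
    pow_le_pow_left₀ (by positivity) hm _
  have h4 : (4 : ℝ) ^ k ≤ (N : ℝ) ^ N := by
    have h5 : (4 : ℝ) ≤ N := by exact_mod_cast hN4
    calc (4 : ℝ) ^ k ≤ 4 ^ N := pow_le_pow_right₀ (by norm_num) hkN
      _ ≤ (N : ℝ) ^ N := pow_le_pow_left₀ (by norm_num) h5 _
  have h5 : (ρ ^ (2 * m) * e ^ 2) ^ (k * k) = ρ ^ (2 * (N * k)) * e ^ (2 * (k * k)) := by
    rw [mul_pow, ← pow_mul, ← pow_mul, hN]
    congr 2
    ring
  calc (c * γ) ^ ((N + k) * (N + k - 1))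
      = c ^ (N * (N - 1) + 2 * (N * k)) * (c ^ (k * (k - 1)) * γ ^ ((N + k) * (N + k - 1))) := by
        rw [mul_pow, ← mul_assoc, ← pow_add, ← hexp]
    _ ≤ c ^ (N * (N - 1) + 2 * (N * k)) * (C ^ (k * k) * 2 ^ (k * k)) := by
        apply mul_le_mul_of_nonneg_left _ (by positivity)
        exact mul_le_mul h1 h2 (by positivity) (by positivity)
    _ = c ^ (N * (N - 1) + 2 * (N * k)) * (2 * C) ^ (k * k) := by
        rw [mul_pow, mul_comm (C ^ (k * k))]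
    _ ≤ c ^ (N * (N - 1) + 2 * (N * k)) * (ρ ^ (2 * (N * k)) * e ^ (2 * (k * k))) := by
        apply mul_le_mul_of_nonneg_left _ (by positivity)
        rw [← h5]
        exact h3
    _ = (4 : ℝ) ^ k * (c ^ (N * (N - 1) + 2 * (N * k)) *
          (ρ ^ (2 * (N * k)) * e ^ (2 * (k * k))) / 4 ^ k) := by
        field_simp
    _ ≤ (N : ℝ) ^ N * (c ^ (N * (N - 1) + 2 * (N * k)) *
          (ρ ^ (2 * (N * k)) * e ^ (2 * (k * k))) / 4 ^ k) :=
        mul_le_mul_of_nonneg_right h4 (by positivity)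
    _ = ((N : ℝ) * c ^ (N - 1)) ^ N * (((c * ρ) ^ N / 2) ^ k) ^ 2 * ((e ^ k) ^ k) ^ 2 := by
        have e1 : ((N : ℝ) * c ^ (N - 1)) ^ N = (N : ℝ) ^ N * c ^ (N * (N - 1)) := by
          rw [mul_pow, ← pow_mul, mul_comm (N - 1)]
        have e2 : (((c * ρ) ^ N / 2) ^ k) ^ 2 =
            c ^ (2 * (N * k)) * ρ ^ (2 * (N * k)) / 4 ^ k := by
          rw [← pow_mul, div_pow, ← pow_mul, ← mul_pow, show (4 : ℝ) = 2 ^ 2 by norm_num,
            ← pow_mul, mul_comm 2 k, show N * (k * 2) = 2 * (N * k) by ring]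
        have e3 : ((e ^ k) ^ k) ^ 2 = e ^ (2 * (k * k)) := by
          rw [← pow_mul, ← pow_mul, show k * (k * 2) = 2 * (k * k) by ring]
        rw [e1, e2, e3, pow_add]
        ring

end CFG

/-- CFG. -/
theorem CFG_thm (h1 : ROU_Stmt) : CFG_Stmt := by
  intro H x c τ hH hc hτ hball hreach
  -- the constants
  obtain ⟨ρ, hρd⟩ : ∃ ρ : ℝ, ρ = 1 + τ / (2 * c) := ⟨_, rfl⟩
  have hρ : 1 < ρ := by
    rw [hρd]
    have : 0 < τ / (2 * c) := by positivity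
    linarith
  have hcρ : c * ρ = c + τ / 2 := by
    rw [hρd]
    field_simp
  obtain ⟨δ, hδd⟩ : ∃ δ : ℝ, δ = min (τ / 2) 1 := ⟨_, rfl⟩
  have hδ : 0 < δ := by
    rw [hδd]
    exact lt_min (by positivity) one_pos
  have hδ1 : δ ≤ 1 := hδd ▸ min_le_right _ _
  have hδτ : δ ≤ τ / 2 := hδd ▸ min_le_left _ _
  obtain ⟨e, hed⟩ : ∃ e : ℝ, e = δ / Real.exp 1 := ⟨_, rfl⟩
  have he : 0 < e := by
    rw [hed]
    positivity
  obtain ⟨C, hCd⟩ : ∃ C : ℝ, C = max c 1 := ⟨_, rfl⟩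
  have hC1 : 1 ≤ C := hCd ▸ le_max_right _ _
  have hcC : c ≤ C := hCd ▸ le_max_left _ _
  -- the ratio of the numbers of points
  obtain ⟨m, hm⟩ : ∃ m : ℕ, 2 * C / e ^ 2 ≤ (ρ ^ 2) ^ m := by
    have hρ2 : 1 < ρ ^ 2 := by nlinarith
    obtain ⟨m, hm⟩ := pow_unbounded_of_one_lt (2 * C / e ^ 2) hρ2
    exact ⟨m, hm.le⟩
  obtain ⟨m, hm1, hm⟩ : ∃ m : ℕ, 1 ≤ m ∧ 2 * C / e ^ 2 ≤ (ρ ^ 2) ^ m :=
    ⟨m + 1, by omega, hm.trans (pow_le_pow_right₀ (by nlinarith) (Nat.le_succ m))⟩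
  have hmC : 2 * C ≤ ρ ^ (2 * m) * e ^ 2 := by
    rw [div_le_iff₀ (by positivity)] at hm
    rwa [pow_mul]
  obtain ⟨γ, hγd⟩ : ∃ γ : ℝ, γ = (2 : ℝ) ^ (((m + 1) ^ 2 : ℕ) : ℝ)⁻¹ := ⟨_, rfl⟩
  have hγ : 1 < γ := by
    rw [hγd]
    apply Real.one_lt_rpow (by norm_num)
    positivity
  have hγ2 : γ ^ ((m + 1) ^ 2) = 2 := by
    rw [hγd]
    exact Real.rpow_inv_natCast_pow (by norm_num) (by positivity)
  refine ⟨γ, hγ, fun N₀ => ?_⟩
  -- the number of points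
  obtain ⟨k₁, hk₁⟩ := pow_unbounded_of_one_lt 2 hρ
  obtain ⟨k, hk⟩ : ∃ k : ℕ, k = N₀ + k₁ + 4 := ⟨_, rfl⟩
  have hkpos : 0 < k := by omega
  have hN : 4 ≤ m * k := by nlinarith
  have hρN : 2 ≤ ρ ^ (m * k) :=
    hk₁.le.trans (pow_le_pow_right₀ hρ.le (by nlinarith))
  refine ⟨m * k + k, by omega, ?_⟩
  obtain ⟨a, -, ha1, ha2, ha3⟩ := h1 x c (m * k) hc (by omega)
  -- the other points
  have hkR : (0 : ℝ) < k := by exact_mod_cast hkpos
  have hy : ∀ j : Fin k, ∃ y ∈ H, ‖y - x‖ = c + τ / 2 + τ / 2 * j / k := by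
    intro j
    have h2 : ((j : ℕ) : ℝ) ≤ k := by exact_mod_cast j.2.le
    have h3 : τ / 2 * (j : ℕ) / k ≤ τ / 2 := by
      rw [div_le_iff₀ hkR]
      nlinarith
    have h4 : 0 ≤ τ / 2 * (j : ℕ) / k := by positivity
    exact hreach _ (by linarith) (by linarith)
  choose y hyH hyn using hy
  have hvy : (e ^ k) ^ k ≤ vdm y := by
    rw [hed]
    apply CFG.vdm_ge y (τ / 2) δ hδ hδ1 hδτ
    intro i j _
    have h2 : ‖y j - x‖ - ‖y i - x‖ ≤ ‖y i - y j‖ := by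
      have := norm_sub_norm_le (y j - x) (y i - x)
      rw [sub_sub_sub_cancel_right, norm_sub_rev (y j) (y i)] at this
      exact this
    rw [hyn, hyn] at h2
    refine le_trans (le_of_eq ?_) h2
    ring
  -- the product of the mixed distances
  have hmix : ∀ j, (c * ρ) ^ (m * k) / 2 ≤ ∏ i, ‖a i - y j‖ := by
    intro j
    have h2 : ∏ i, ‖a i - y j‖ = ‖(y j - x) ^ (m * k) - (c : ℂ) ^ (m * k)‖ := by
      rw [← ha2, norm_prod]
      exact Finset.prod_congr rfl fun i _ => norm_sub_rev _ _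
    rw [h2]
    have h3 := norm_sub_norm_le ((y j - x) ^ (m * k)) ((c : ℂ) ^ (m * k))
    rw [norm_pow, norm_pow, Complex.norm_real, Real.norm_of_nonneg hc.le] at h3
    have h4 : c * ρ ≤ ‖y j - x‖ := by
      rw [hyn, hcρ]
      have : 0 ≤ τ / 2 * ((j : ℕ) : ℝ) / k := by positivity
      linarith
    have h5 : (c * ρ) ^ (m * k) ≤ ‖y j - x‖ ^ (m * k) := pow_le_pow_left₀ (by positivity) h4 _
    have h6 : c ^ (m * k) * 2 ≤ (c * ρ) ^ (m * k) := by
      rw [mul_pow]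
      exact mul_le_mul_of_nonneg_left hρN (by positivity)
    linarith
  have hmix2 : ((c * ρ) ^ (m * k) / 2) ^ k ≤ ∏ j, ∏ i, ‖a i - y j‖ := by
    have h2 : ((c * ρ) ^ (m * k) / 2) ^ k = ∏ _j : Fin k, ((c * ρ) ^ (m * k) / 2) := by
      rw [Finset.prod_const, Finset.card_univ, Fintype.card_fin]
    rw [h2]
    exact Finset.prod_le_prod (fun _ _ => by positivity) fun j _ => hmix j
  -- the configuration
  apply CFG.dn_ge hH (by nlinarith) (Fin.append a y)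
  · intro i
    refine Fin.addCases (fun i => ?_) (fun i => ?_) i
    · rw [Fin.append_left]
      apply hball
      rw [Metric.mem_closedBall, dist_eq_norm, ha1]
    · rw [Fin.append_right]
      exact hyH i
  · positivity
  · rw [CFG.vdm_append, mul_pow (vdm a * _) (vdm y), mul_pow (vdm a), ha3]
    refine (CFG.final (m * k) k m rfl hN (by nlinarith) hkpos c ρ e γ C hc (by linarith) he hγ.le
      hcC hC1 hmC hγ2).trans ?_
    have h2 : 0 ≤ ((c * ρ) ^ (m * k) / 2) ^ k := by positivity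
    have h3 : 0 ≤ (e ^ k) ^ k := by positivity
    apply mul_le_mul _ (pow_le_pow_left₀ h3 hvy 2) (by positivity) (by positivity)
    exact mul_le_mul_of_nonneg_left (pow_le_pow_left₀ h2 hmix2 2) (by positivity)

end Pool.Agent.GH
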