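import Pool.Agent.GH.Stmts

/-!
# CONV: the nonlocal Laplacian commutes with potentials
-/

namespace Pool.Agent.GH

open MeasureTheory Filter Topology Metric

namespace CONV

/-- The circle average of a continuous function is continuous in the center. -/
theorem cont_avg (h : ℝ) (w : ℂ → ℝ) (hw : Continuous w) :
    Continuous (fun z => Real.circleAverage w z h) := by
  have h0 : (fun z => Real.circleAverage w z h) =
      fun z => (2 * Real.pi)⁻¹ * ∫ θ in (0 : ℝ)..2 * Real.pi, w (circleMap z h θ) := rfl
  rw [h0]
  refine continuous_const.mul ?_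
  refine intervalIntegral.continuous_parametric_intervalIntegral_of_continuous' ?_ _ _
  refine hw.comp ?_
  unfold circleMap
  fun_prop

theorem avg_eq_zero (h : ℝ) (w : ℂ → ℝ) (R : ℝ) (hs : ∀ z, R ≤ ‖z‖ → w z = 0) (z : ℂ)
    (hz : R + |h| ≤ ‖z‖) : Real.circleAverage w z h = 0 := by
  unfold Real.circleAverage
  have h0 : ∀ θ : ℝ, w (circleMap z h θ) = 0 := by
    intro θ
    apply hs
    have h1 : ‖circleMap z h θ - z‖ = |h| := by
      rw [circleMap_sub_center, norm_circleMap_zero]
    have h2 := norm_sub_norm_le z (z - circleMap z h θ)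
    rw [norm_sub_rev z, h1, sub_sub_cancel] at h2
    linarith
  simp [h0]

theorem avg_bdd (h : ℝ) (w : ℂ → ℝ) (C : ℝ) (hC : ∀ z, |w z| ≤ C) (z : ℂ) :
    |Real.circleAverage w z h| ≤ C := by
  unfold Real.circleAverage
  rw [smul_eq_mul, abs_mul]
  have h1 : |∫ θ in (0 : ℝ)..2 * Real.pi, w (circleMap z h θ)| ≤ C * |2 * Real.pi - 0| := by
    rw [← Real.norm_eq_abs]
    exact intervalIntegral.norm_integral_le_of_norm_le_const fun θ _ => hC _
  have h2 : (0 : ℝ) < 2 * Real.pi := by positivity
  rw [sub_zero, abs_of_pos h2] at h1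
  rw [abs_inv, abs_of_pos h2, inv_mul_le_iff₀ h2]
  linarith

variable {F : Type*} [NormedAddCommGroup F] [NormedSpace ℝ F] [CompleteSpace F]

omit [CompleteSpace F] in
/-- Fubini for the disk and the circle. -/
theorem swap_gen (G : ℂ × ℝ → F)
    (hG : Integrable G ((volume : Measure ℂ).prod (volume.restrict (Set.Ioc 0 (2 * Real.pi))))) :
    ∫ y : ℂ, (2 * Real.pi)⁻¹ • ∫ θ in (0 : ℝ)..2 * Real.pi, G (y, θ) =
      (2 * Real.pi)⁻¹ • ∫ θ in (0 : ℝ)..2 * Real.pi, ∫ y : ℂ, G (y, θ) := by
  have h2 : (0 : ℝ) ≤ 2 * Real.pi := by positivity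
  rw [integral_smul]
  congr 1
  simp only [intervalIntegral.integral_of_le h2]
  exact integral_integral_swap hG

theorem swap_one (h R C : ℝ) (w : ℂ → ℝ) (hw : Continuous w) (hs : ∀ z, R ≤ ‖z‖ → w z = 0)
    (hC : ∀ z, |w z| ≤ C) (k : ℂ → F) (hk : IntegrableOn k (closedBall 0 (R + |h|))) :
    ∫ y : ℂ, Real.circleAverage w y h • k y =
      (2 * Real.pi)⁻¹ • ∫ θ in (0 : ℝ)..2 * Real.pi, ∫ y : ℂ,
        w y • k (y - circleMap 0 h θ) := by
  set K : ℂ → F := (closedBall (0 : ℂ) (R + |h|)).indicator k with hK
  have hKi : Integrable K := (integrable_indicator_iff measurableSet_closedBall).2 hk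
  have hin : Integrable (fun p : ℂ × ℝ => w (circleMap p.1 h p.2) • K p.1)
      ((volume : Measure ℂ).prod (volume.restrict (Set.Ioc 0 (2 * Real.pi)))) := by
    have h1 : Integrable (fun p : ℂ × ℝ => C * ‖K p.1‖)
        ((volume : Measure ℂ).prod (volume.restrict (Set.Ioc 0 (2 * Real.pi)))) :=
      ((hKi.norm).comp_fst _).const_mul C
    refine h1.mono' ?_ (ae_of_all _ fun p => ?_)
    · refine AEStronglyMeasurable.smul ?_ (hKi.comp_fst _).aestronglyMeasurable
      refine Continuous.aestronglyMeasurable (hw.comp ?_)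
      unfold circleMap
      fun_prop
    · rw [norm_smul, Real.norm_eq_abs]
      exact mul_le_mul_of_nonneg_right (hC _) (norm_nonneg _)
  have e1 : ∀ y : ℂ, ∀ θ : ℝ, w (circleMap y h θ) • K y = w (circleMap y h θ) • k y := by
    intro y θ
    by_cases hy : y ∈ closedBall (0 : ℂ) (R + |h|)
    · rw [hK, Set.indicator_of_mem hy]
    · have h0 : w (circleMap y h θ) = 0 := by
        apply hs
        rw [mem_closedBall_zero_iff, not_le] at hy
        have h1 : ‖circleMap y h θ - y‖ = |h| := by
          rw [circleMap_sub_center, norm_circleMap_zero]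
        have h2 := norm_sub_norm_le y (y - circleMap y h θ)
        rw [norm_sub_rev y, h1, sub_sub_cancel] at h2
        linarith
      rw [h0, zero_smul, zero_smul]
  have e2 := swap_gen _ hin
  simp only [e1] at e2
  have e3 : ∀ y : ℂ, Real.circleAverage w y h • k y =
      (2 * Real.pi)⁻¹ • ∫ θ in (0 : ℝ)..2 * Real.pi, w (circleMap y h θ) • k y := by
    intro y
    rw [Real.circleAverage_def, intervalIntegral.integral_smul_const, smul_assoc]
  simp only [e3]
  rw [e2]
  congr 1
  refine intervalIntegral.integral_congr fun θ _ => ?_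
  show ∫ y : ℂ, w (circleMap y h θ) • k y = ∫ y : ℂ, w y • k (y - circleMap 0 h θ)
  rw [← integral_add_right_eq_self (fun y : ℂ => w y • k (y - circleMap 0 h θ))
    (circleMap 0 h θ)]
  refine integral_congr_ae (ae_of_all _ fun y => ?_)
  simp only [add_sub_cancel_right]
  congr 2
  simp [circleMap]

theorem swap_two (h R C : ℝ) (w : ℂ → ℝ) (hw : Continuous w) (hs : ∀ z, R ≤ ‖z‖ → w z = 0)
    (hwi : Integrable w) (p : ℂ → ℂ) (hp : Continuous p)
    (hC : ∀ z, ‖z‖ ≤ R + |h| → ‖p z‖ ≤ C) :
    ∫ y : ℂ, w y • Real.circleAverage p y h =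
      (2 * Real.pi)⁻¹ • ∫ θ in (0 : ℝ)..2 * Real.pi, ∫ y : ℂ,
        w y • p (circleMap y h θ) := by
  have hin : Integrable (fun q : ℂ × ℝ => w q.1 • p (circleMap q.1 h q.2))
      ((volume : Measure ℂ).prod (volume.restrict (Set.Ioc 0 (2 * Real.pi)))) := by
    have h1 : Integrable (fun q : ℂ × ℝ => ‖w q.1‖ * C)
        ((volume : Measure ℂ).prod (volume.restrict (Set.Ioc 0 (2 * Real.pi)))) :=
      ((hwi.norm).comp_fst _).mul_const C
    refine h1.mono' ?_ (ae_of_all _ fun q => ?_)
    · refine Continuous.aestronglyMeasurable ?_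
      refine (hw.comp continuous_fst).smul (hp.comp ?_)
      unfold circleMap
      fun_prop
    · rw [norm_smul]
      by_cases hq : R ≤ ‖q.1‖
      · rw [hs _ hq]
        simp
      · refine mul_le_mul_of_nonneg_left (hC _ ?_) (norm_nonneg _)
        have h1 : ‖circleMap q.1 h q.2 - q.1‖ = |h| := by
          rw [circleMap_sub_center, norm_circleMap_zero]
        have h2 := norm_add_le (circleMap q.1 h q.2 - q.1) q.1
        rw [sub_add_cancel, h1] at h2
        linarith
  rw [← swap_gen _ hin]
  refine integral_congr_ae (ae_of_all _ fun y => ?_)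
  show w y • Real.circleAverage p y h =
    (2 * Real.pi)⁻¹ • ∫ θ in (0 : ℝ)..2 * Real.pi, w y • p (circleMap y h θ)
  rw [Real.circleAverage_def, intervalIntegral.integral_smul, smul_comm]

end CONV

open CONV in
/-- CONV. -/
theorem CONV_thm (h1 : POT_Stmt) (_h2 : AVG_Stmt) (h3 : AVK_Stmt) : CONV_Stmt := by
  intro h w R hh hw hs
  have hcs : HasCompactSupport w := HasCompactSupport.intro (isCompact_closedBall (0 : ℂ) R)
    fun z hz => hs z (by
      rw [mem_closedBall_zero_iff, not_le] at hz
      exact hz.le)
  obtain ⟨C, hC⟩ := hw.bounded_above_of_compact_support hcs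
  have hC' : ∀ z, |w z| ≤ C := hC
  have hwi : Integrable w := hw.integrable_of_hasCompactSupport hcs
  have hnw : Nice w R C := ⟨hw.measurable, hC', fun z hz => hs z hz.le⟩
  have hnm : Nice (fun z => Real.circleAverage w z h) (R + |h|) C :=
    ⟨(cont_avg h w hw).measurable, avg_bdd h w C hC', fun z hz => avg_eq_zero h w R hs z hz.le⟩
  -- the third part
  have part3 : ∀ p : Polynomial ℂ, ∫ z, p.eval z * (Ah h w z : ℂ) = 0 := by
    intro p
    have hpc : Continuous (fun z : ℂ => p.eval z) := p.continuous
    obtain ⟨M, hM⟩ := (isCompact_closedBall (0 : ℂ) (R + |h|)).exists_bound_of_continuousOn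
      hpc.continuousOn
    have e1 := swap_one h R C w hw hs hC' (fun z : ℂ => p.eval z)
      (hpc.continuousOn.integrableOn_compact (isCompact_closedBall _ _))
    have e2 := swap_two (-h) R M w hw hs hwi (fun z : ℂ => p.eval z) hpc (fun z hz => hM z (by
      rw [abs_neg] at hz
      rwa [mem_closedBall_zero_iff]))
    have e3 : ∀ y : ℂ, ∀ θ : ℝ, y - circleMap 0 h θ = circleMap y (-h) θ := by
      intro y θ
      simp [circleMap, sub_eq_add_neg]
    simp only [e3] at e1
    rw [← e2] at e1
    have e4 : ∀ y : ℂ, Real.circleAverage (fun z : ℂ => p.eval z) y (-h) = p.eval y := by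
      intro y
      exact DiffContOnCl.circleAverage (p.differentiable.diffContOnCl)
    simp only [e4] at e1
    have i1 : Integrable (fun y : ℂ => Real.circleAverage w y h • p.eval y) := by
      refine Continuous.integrable_of_hasCompactSupport ((cont_avg h w hw).smul hpc) ?_
      refine HasCompactSupport.intro (isCompact_closedBall (0 : ℂ) (R + |h|)) fun z hz => ?_
      rw [mem_closedBall_zero_iff, not_le] at hz
      rw [avg_eq_zero h w R hs z hz.le, zero_smul]
    have i2 : Integrable (fun y : ℂ => w y • p.eval y) := by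
      refine Continuous.integrable_of_hasCompactSupport (hw.smul hpc) ?_
      refine HasCompactSupport.intro (isCompact_closedBall (0 : ℂ) R) fun z hz => ?_
      rw [mem_closedBall_zero_iff, not_le] at hz
      rw [hs z hz.le, zero_smul]
    have e5 : ∀ z : ℂ, p.eval z * (Ah h w z : ℂ) =
        (4 / h ^ 2 : ℝ) • (Real.circleAverage w z h • p.eval z - w z • p.eval z) := by
      intro z
      unfold Ah
      simp only [Complex.real_smul]
      push_cast
      ring
    simp only [e5]
    rw [integral_smul, integral_sub i1 i2, e1, sub_self, smul_zero]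
  refine ⟨fun z => ?_, ?_, part3⟩
  · -- the first part
    have hlog : Integrable (fun y => -Real.log ‖z - y‖ * w y) := (h1.1 w R C hnw).2.1 z
    have e1 : pot (fun x => Real.circleAverage w x h) z = Real.circleAverage (pot w) z h := by
      have hk : IntegrableOn (fun y : ℂ => -Real.log ‖z - y‖) (closedBall 0 (R + |h|)) := by
        have hone : Nice ((closedBall (0 : ℂ) (R + |h|)).indicator fun _ => (1 : ℝ))
            (R + |h|) 1 := by
          refine ⟨measurable_const.indicator measurableSet_closedBall, fun y => ?_, fun y hy => ?_⟩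
          · by_cases hy : y ∈ closedBall (0 : ℂ) (R + |h|)
            · rw [Set.indicator_of_mem hy, abs_one]
            · rw [Set.indicator_of_notMem hy, abs_zero]
              exact zero_le_one
          · refine Set.indicator_of_notMem (fun h' => ?_) _
            rw [mem_closedBall_zero_iff] at h'
            linarith
        have := (h1.1 _ _ _ hone).2.1 z
        rw [← integrable_indicator_iff measurableSet_closedBall]
        refine this.congr (ae_of_all _ fun y => ?_)
        by_cases hy : y ∈ closedBall (0 : ℂ) (R + |h|)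
        · simp only [Set.indicator_of_mem hy, mul_one]
        · simp only [Set.indicator_of_notMem hy, mul_zero]
      have e2 := swap_one h R C w hw hs hC' (fun y : ℂ => -Real.log ‖z - y‖) hk
      unfold pot
      rw [Real.circleAverage_def]
      simp only [smul_eq_mul] at e2 ⊢
      rw [show (∫ y : ℂ, -Real.log ‖z - y‖ * Real.circleAverage w y h) =
        ∫ y : ℂ, Real.circleAverage w y h * -Real.log ‖z - y‖ from
          integral_congr_ae (ae_of_all _ fun y => mul_comm _ _), e2]
      congr 1
      refine intervalIntegral.integral_congr fun θ _ => ?_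
      refine integral_congr_ae (ae_of_all _ fun y => ?_)
      show w y * -Real.log ‖z - (y - circleMap 0 h θ)‖ =
        -Real.log ‖circleMap z h θ - y‖ * w y
      have : z - (y - circleMap 0 h θ) = circleMap z h θ - y := by
        simp only [circleMap]
        ring
      rw [this, mul_comm]
    have e3 : pot (Ah h w) z =
        4 / h ^ 2 * pot (fun x => Real.circleAverage w x h) z + -(4 / h ^ 2) * pot w z := by
      rw [← h1.2 _ _ _ _ _ _ (4 / h ^ 2) (-(4 / h ^ 2)) hnm hnw z]
      congr 1
      funext y
      unfold Ah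
      ring
    rw [e3, e1, ← (h3 w R C hnw).2 h z hh]
    unfold Ah
    ring
  · have := part3 1
    simp only [Polynomial.eval_one, one_mul] at this
    rw [integral_complex_ofReal] at this
    exact_mod_cast this

end Pool.Agent.GH
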