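import Mathlib

/-!
Definitions used in the statements about the hole probability of the Gaussian entire function
(MP_629fb1_pr): the function, the hole probability, the transfinite diameter.
-/

namespace Pool.Agent.GH

open MeasureTheory ProbabilityTheory Filter Topology

universe u

/-! ### Probability -/

/-- The law of a standard complex Gaussian: density exp(-|w|^2)/pi with respect to Lebesgue
measure on the plane. -/
noncomputable def stdC : Measure ℂ :=
  volume.withDensity (fun w => ENNReal.ofReal (Real.exp (-‖w‖ ^ 2) / Real.pi))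

/-- An independent sequence of standard complex Gaussian random variables. -/
structure IsGauss {Ω : Type u} [MeasurableSpace Ω] (P : Measure Ω) (ξ : ℕ → Ω → ℂ) : Prop where
  prob : IsProbabilityMeasure P
  meas : ∀ n, Measurable (ξ n)
  indep : iIndepFun ξ P
  law : ∀ n, P.map (ξ n) = stdC

/-- The Gaussian entire function. -/
noncomputable def gef {Ω : Type u} (ξ : ℕ → Ω → ℂ) (ω : Ω) (z : ℂ) : ℂ :=
  ∑' n : ℕ, ξ n ω * z ^ n / (Real.sqrt (n.factorial : ℝ) : ℂ)

/-- The probability that the Gaussian entire function has no zero in `r K`. -/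
noncomputable def holeP {Ω : Type u} [MeasurableSpace Ω] (P : Measure Ω) (ξ : ℕ → Ω → ℂ)
    (K : Set ℂ) (r : ℝ) : ℝ :=
  (P {ω | ∀ z ∈ K, gef ξ ω ((r : ℂ) * z) ≠ 0}).toReal

/-! ### Transfinite diameter -/

/-- The product of all the distances `‖z i - z j‖`, `i < j`. -/
noncomputable def vdm {n : ℕ} (z : Fin n → ℂ) : ℝ :=
  ∏ i : Fin n, ∏ j ∈ Finset.Ioi i, ‖z i - z j‖

/-- The largest value of `vdm` on `n`-tuples of points of `K`. -/
noncomputable def vmax (K : Set ℂ) (n : ℕ) : ℝ :=
  sSup (vdm '' {z : Fin n → ℂ | ∀ i, z i ∈ K})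

/-- The `n`-th diameter of `K`: the largest geometric mean of the distances between `n` points
of `K`. -/
noncomputable def dn (K : Set ℂ) (n : ℕ) : ℝ :=
  (vmax K n) ^ (2 / ((n : ℝ) * ((n : ℝ) - 1)))

/-- Logarithmic capacity (transfinite diameter): the limit of the `n`-th diameters. -/
noncomputable def cap (K : Set ℂ) : ℝ := limUnder atTop (dn K)

end Pool.Agent.GH
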