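import Pool.Agent.GH.Stmts

/-!
# DISC: the uniform density on a disk
-/

namespace Pool.Agent.GH

open MeasureTheory ProbabilityTheory Filter Topology Set

namespace DISC

lemma disc_eq (R : ℝ) (y : ℂ) :
    disc R y = (Iic R).indicator (fun _ : ℝ => 1 / Real.pi) ‖y‖ := by
  unfold disc
  by_cases h : ‖y‖ ≤ R
  · rw [indicator_of_mem (by simpa using h), indicator_of_mem (by simpa using h)]
  · rw [indicator_of_notMem (by simpa using h), indicator_of_notMem (by simpa using h)]

lemma int_eq {R : ℝ} (hR : 0 < R) (G : ℝ → ℝ) :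
    ∫ y : ℂ, G ‖y‖ * disc R y = 2 * ∫ t in (0 : ℝ)..R, t * G t := by
  have h := integral_fun_norm_addHaar (volume : Measure ℂ)
    (fun t => G t * (Iic R).indicator (fun _ : ℝ => 1 / Real.pi) t)
  have hv : (volume : Measure ℂ).real (Metric.ball 0 1) = Real.pi := by
    unfold Measure.real
    rw [Complex.volume_ball]
    simp
  rw [hv, Complex.finrank_real_complex] at h
  simp only [disc_eq]
  rw [h]
  have e : ∀ y : ℝ, y ^ (2 - 1) • (G y * (Iic R).indicator (fun _ : ℝ => 1 / Real.pi) y) =
      (Iic R).indicator (fun y => y * G y * (1 / Real.pi)) y := by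
    intro y
    by_cases hy : y ∈ Iic R
    · rw [indicator_of_mem hy, indicator_of_mem hy, smul_eq_mul]
      ring
    · rw [indicator_of_notMem hy, indicator_of_notMem hy]
      simp
  simp only [e]
  rw [integral_indicator measurableSet_Iic, Measure.restrict_restrict measurableSet_Iic,
    show Iic R ∩ Ioi 0 = Ioc 0 R by
      ext x
      simp [and_comm], intervalIntegral.integral_of_le hR.le, integral_mul_const]
  have hpi := Real.pi_ne_zero
  simp only [nsmul_eq_mul, smul_eq_mul]
  push_cast
  field_simp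

lemma nice {R : ℝ} (_hR : 0 < R) : Nice (disc R) R (1 / Real.pi) := by
  refine ⟨?_, ?_, ?_⟩
  · exact measurable_const.indicator Metric.isClosed_closedBall.measurableSet
  · intro z
    unfold disc
    have hpi := Real.pi_pos
    by_cases h : z ∈ Metric.closedBall (0 : ℂ) R
    · rw [indicator_of_mem h, abs_of_pos (by positivity)]
    · rw [indicator_of_notMem h, abs_zero]
      positivity
  · intro z hz
    unfold disc
    rw [indicator_of_notMem]
    simpa using hz

lemma hasDeriv {t : ℝ} (ht : 0 < t) :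
    HasDerivAt (fun t : ℝ => t ^ 2 / 2 * Real.log t - t ^ 2 / 4) (t * Real.log t) t := by
  have h1 : HasDerivAt (fun t : ℝ => t ^ 2 / 2) t t := by
    have := (hasDerivAt_pow 2 t).div_const 2
    simpa using this
  have h2 := Real.hasDerivAt_log ht.ne'
  have h3 : HasDerivAt (fun t : ℝ => t ^ 2 / 4) (t / 2) t := by
    have h := (hasDerivAt_pow 2 t).div_const 4
    refine h.congr_deriv ?_
    push_cast
    ring
  have h4 := (h1.mul h2).sub h3
  refine h4.congr_deriv ?_
  have ht0 : t ≠ 0 := ht.ne'
  field_simp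
  ring

lemma int_log {ρ R : ℝ} (hρ : 0 < ρ) (hR : ρ ≤ R) :
    ∫ t in ρ..R, t * Real.log t =
      (R ^ 2 / 2 * Real.log R - R ^ 2 / 4) - (ρ ^ 2 / 2 * Real.log ρ - ρ ^ 2 / 4) := by
  refine intervalIntegral.integral_eq_sub_of_hasDerivAt
    (f := fun t : ℝ => t ^ 2 / 2 * Real.log t - t ^ 2 / 4) ?_ ?_
  · intro t ht
    rw [uIcc_of_le hR] at ht
    exact hasDeriv (hρ.trans_le ht.1)
  · refine ContinuousOn.intervalIntegrable ?_
    intro t ht
    rw [uIcc_of_le hR] at ht
    exact (continuousAt_id.mul (Real.continuousAt_log (hρ.trans_le ht.1).ne')).continuousWithinAt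

end DISC

open DISC

theorem DISC_thm (h1 : RAD_Stmt) (h2 : POT_Stmt) : DISC_Stmt := by
  intro R hR
  have hn := nice hR
  have hrad : ∀ y y' : ℂ, ‖y‖ = ‖y'‖ → disc R y = disc R y' := by
    intro y y' h
    rw [disc_eq, disc_eq, h]
  have hpot : ∀ z : ℂ, z ≠ 0 → pot (disc R) z =
      2 * ∫ t in (0 : ℝ)..R, t * -Real.log (max ‖z‖ t) := by
    intro z hz
    rw [h1 (disc R) R (1 / Real.pi) hn hrad z hz]
    exact int_eq hR (fun t => -Real.log (max ‖z‖ t))
  have hlog : Real.log (R ^ 2) = 2 * Real.log R := by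
    rw [Real.log_pow]
    norm_num
  have hin : ∀ z : ℂ, z ≠ 0 → ‖z‖ ≤ R →
      pot (disc R) z = R ^ 2 / 2 * (1 - Real.log (R ^ 2)) - ‖z‖ ^ 2 / 2 := by
    intro z hz hzR
    have hρ : 0 < ‖z‖ := norm_pos_iff.2 hz
    rw [hpot z hz, hlog]
    generalize ‖z‖ = ρ at hρ hzR
    have hc : Continuous fun t : ℝ => t * -Real.log (max ρ t) := by
      refine continuous_id.mul (Continuous.neg ?_)
      exact (continuous_const.max continuous_id).log
        (fun t => (lt_of_lt_of_le hρ (le_max_left _ _)).ne')
    rw [← intervalIntegral.integral_add_adjacent_intervals (b := ρ)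
      (hc.intervalIntegrable _ _) (hc.intervalIntegrable _ _)]
    have e1 : ∫ t in (0 : ℝ)..ρ, t * -Real.log (max ρ t) = -(ρ ^ 2 / 2 * Real.log ρ) := by
      have : ∫ t in (0 : ℝ)..ρ, t * -Real.log (max ρ t) =
          ∫ t in (0 : ℝ)..ρ, t * -Real.log ρ := by
        refine intervalIntegral.integral_congr fun t ht => ?_
        rw [uIcc_of_le hρ.le] at ht
        simp only [max_eq_left ht.2]
      rw [this, intervalIntegral.integral_mul_const, integral_id]
      ring
    have e2 : ∫ t in ρ..R, t * -Real.log (max ρ t) = -∫ t in ρ..R, t * Real.log t := by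
      rw [← intervalIntegral.integral_neg]
      refine intervalIntegral.integral_congr fun t ht => ?_
      rw [uIcc_of_le hzR] at ht
      simp only [max_eq_right ht.1, mul_neg]
    rw [e1, e2, int_log hρ hzR]
    ring
  refine ⟨hn, ?_, ?_, ?_, ?_⟩
  · have h := int_eq hR (fun _ => 1)
    simp only [one_mul, mul_one] at h
    rw [h, integral_id]
    ring
  · intro z hz
    by_cases hz0 : z = 0
    · subst hz0
      have hcont : Continuous (pot (disc R)) := (h2.1 (disc R) R (1 / Real.pi) hn).2.2
      have hcl : (0 : ℂ) ∈ closure {z : ℂ | z ≠ 0 ∧ ‖z‖ ≤ R} := by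
        rw [Metric.mem_closure_iff]
        intro ε hε
        refine ⟨((min (ε / 2) R : ℝ) : ℂ), ⟨?_, ?_⟩, ?_⟩
        · have : 0 < min (ε / 2) R := lt_min (half_pos hε) hR
          exact_mod_cast this.ne'
        · have : 0 < min (ε / 2) R := lt_min (half_pos hε) hR
          rw [Complex.norm_real, Real.norm_eq_abs, abs_of_pos this]
          exact min_le_right _ _
        · have : 0 < min (ε / 2) R := lt_min (half_pos hε) hR
          rw [dist_zero_left, Complex.norm_real, Real.norm_eq_abs, abs_of_pos this]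
          exact lt_of_le_of_lt (min_le_left _ _) (half_lt_self hε)
      have hclosed : IsClosed {z : ℂ | pot (disc R) z =
          R ^ 2 / 2 * (1 - Real.log (R ^ 2)) - ‖z‖ ^ 2 / 2} :=
        isClosed_eq hcont (by fun_prop)
      exact closure_minimal (fun z hz => hin z hz.1 hz.2) hclosed hcl
    · exact hin z hz0 hz
  · intro z hz
    have hz0 : z ≠ 0 := by
      rintro rfl
      rw [norm_zero] at hz
      linarith
    rw [hpot z hz0]
    have : ∫ t in (0 : ℝ)..R, t * -Real.log (max ‖z‖ t) =
        ∫ t in (0 : ℝ)..R, t * -Real.log ‖z‖ := by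
      refine intervalIntegral.integral_congr fun t ht => ?_
      rw [uIcc_of_le hR.le] at ht
      simp only [max_eq_left (ht.2.trans hz)]
    rw [this, intervalIntegral.integral_mul_const, integral_id]
    ring
  · have h0 : ∀ᵐ z : ℂ, z ≠ 0 := by
      have : ({0}ᶜ : Set ℂ) ∈ ae volume := compl_mem_ae_iff.2 (measure_singleton _)
      exact this
    have e : en (disc R) (disc R) =
        ∫ z : ℂ, (fun t => R ^ 2 / 2 * (1 - Real.log (R ^ 2)) - t ^ 2 / 2) ‖z‖ * disc R z := by
      unfold en
      refine integral_congr_ae ?_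
      filter_upwards [h0] with z hz
      by_cases h : ‖z‖ ≤ R
      · rw [hin z hz h]
      · have : disc R z = 0 := hn.supp z (not_le.1 h)
        rw [this, mul_zero, mul_zero]
    rw [e]
    refine (int_eq hR (fun t => R ^ 2 / 2 * (1 - Real.log (R ^ 2)) - t ^ 2 / 2)).trans ?_
    have hI : ∀ C : ℝ, ∫ t in (0 : ℝ)..R, t * (C - t ^ 2 / 2) = C * R ^ 2 / 2 - R ^ 4 / 8 := by
      intro C
      have hd : ∀ t ∈ uIcc 0 R, HasDerivAt (fun t : ℝ => C * t ^ 2 / 2 - t ^ 4 / 8)
          (t * (C - t ^ 2 / 2)) t := by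
        intro t _
        have h3 := (((hasDerivAt_pow 2 t).const_mul C).div_const 2).sub
          ((hasDerivAt_pow 4 t).div_const 8)
        refine h3.congr_deriv ?_
        push_cast
        ring
      rw [intervalIntegral.integral_eq_sub_of_hasDerivAt hd
        (Continuous.intervalIntegrable (by fun_prop) _ _)]
      ring
    rw [hI]
    ring

end Pool.Agent.GH
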