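import Pool.Agent.GH.Core

/-!
Auxiliary definitions for the hole probability of the Gaussian entire function (MP_629fb1_pr).
-/

namespace Pool.Agent.GH

open MeasureTheory ProbabilityTheory Filter Topology

universe u

/-- `exp(-(E + ε) r^4)` is a lower bound for the hole probability, for every `ε > 0` and all
large `r`. -/
def HoleLB {Ω : Type u} [MeasurableSpace Ω] (P : Measure Ω) (ξ : ℕ → Ω → ℂ)
    (K : Set ℂ) (E : ℝ) : Prop :=
  ∀ ε : ℝ, 0 < ε → ∀ᶠ r : ℝ in atTop, Real.exp (-((E + ε) * r ^ 4)) ≤ holeP P ξ K r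

/-- `a` is a Fekete tuple of `K`. -/
def IsFek (K : Set ℂ) {n : ℕ} (a : Fin n → ℂ) : Prop :=
  (∀ i, a i ∈ K) ∧ ∀ z : Fin n → ℂ, (∀ i, z i ∈ K) → vdm z ≤ vdm a

/-- The points of the plane that are joined to infinity outside `K`: the unbounded component(s) of
the complement. -/
def outer (K : Set ℂ) : Set ℂ :=
  {z | z ∉ K ∧ ¬ Bornology.IsBounded (connectedComponentIn Kᶜ z)}

/-! ### Logarithmic potentials of densities -/

/-- Bounded measurable function with bounded support. -/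
structure Nice (f : ℂ → ℝ) (R B : ℝ) : Prop where
  meas : Measurable f
  bdd : ∀ z, |f z| ≤ B
  supp : ∀ z, R < ‖z‖ → f z = 0

/-- Logarithmic potential. -/
noncomputable def pot (f : ℂ → ℝ) (z : ℂ) : ℝ := ∫ y, -Real.log ‖z - y‖ * f y

/-- Mutual logarithmic energy. -/
noncomputable def en (f g : ℂ → ℝ) : ℝ := ∫ z, pot f z * g z

/-- The nonlocal Laplacian: `4/h^2` times (circle average minus value). -/
noncomputable def Ah (h : ℝ) (f : ℂ → ℝ) (z : ℂ) : ℝ :=
  4 / h ^ 2 * (Real.circleAverage f z h - f z)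

/-- The kernel with `Ah h (pot f) = - 2 pi (ker h * f)`. It has total mass one. -/
noncomputable def ker (h : ℝ) (x : ℂ) : ℝ :=
  4 / h ^ 2 / (2 * Real.pi) * Real.posLog (h / ‖x‖)

/-- Uniform density `1/pi` on the closed disk of radius `R` about the origin. -/
noncomputable def disc (R : ℝ) : ℂ → ℝ :=
  Set.indicator (Metric.closedBall 0 R) (fun _ => 1 / Real.pi)

/-- The exponent attached to a source `σ` and a target `lam`. -/
noncomputable def Efun (σ lam : ℂ → ℝ) : ℝ :=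
  (∫ z, (pot σ z - pot lam z) * (σ z - lam z)) + 2 / Real.pi * ∫ z, (pot σ z - pot lam z)

/-- Admissible data for the lower bound of the hole probability in `K`. -/
structure AdmData (K : Set ℂ) (σ lam : ℂ → ℝ) (R B η : ℝ) : Prop where
  σ_nice : Nice σ R B
  σ_nonneg : ∀ z, 0 ≤ σ z
  lam_nice : Nice lam R (1 / Real.pi)
  lam_nonneg : ∀ z, 0 ≤ lam z
  mass : ∫ z, σ z = ∫ z, lam z
  η_pos : 0 < η
  hole : ∀ z, Metric.infDist z K < η → σ z = 0 ∧ lam z = 1 / Real.pi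
  w_nonneg : ∀ z, 0 ≤ pot σ z - pot lam z
  w_supp : ∀ z, R ≤ ‖z‖ → pot σ z - pot lam z = 0

/-- `E` is an admissible exponent for `K`. -/
def Adm (K : Set ℂ) (E : ℝ) : Prop :=
  ∃ (σ lam : ℂ → ℝ) (R B η : ℝ), AdmData K σ lam R B η ∧ Efun σ lam ≤ E

/-! ### The odometer -/

/-- The iteration for the obstacle problem. -/
noncomputable def odo (h : ℝ) (s : ℂ → ℝ) : ℕ → ℂ → ℝ
  | 0 => fun _ => 0
  | (k + 1) => fun z => max 0 (Real.circleAverage (odo h s k) z h + h ^ 2 / 4 * (s z - 2))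

/-- Its limit, the odometer. -/
noncomputable def Odo (h : ℝ) (s : ℂ → ℝ) (z : ℂ) : ℝ := ⨆ k : ℕ, odo h s k z

/-- Admissible sources. -/
structure Src (s : ℂ → ℝ) (R S L : ℝ) : Prop where
  nonneg : ∀ z, 0 ≤ s z
  le : ∀ z, s z ≤ S
  lip : ∀ z z', |s z - s z'| ≤ L * ‖z - z'‖
  supp : ∀ z, R < ‖z‖ → s z = 0

/-- The target density of the odometer `w` with source `s`. -/
noncomputable def lamOf (h : ℝ) (s w : ℂ → ℝ) (z : ℂ) : ℝ := (Ah h w z + s z) / (2 * Real.pi)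

/-- `w` solves the obstacle problem with source `s` at scale `h`. -/
structure IsOdo (h : ℝ) (s w : ℂ → ℝ) (R Λ : ℝ) : Prop where
  nonneg : ∀ z, 0 ≤ w z
  lip : ∀ z z', |w z - w z'| ≤ Λ * ‖z - z'‖
  supp : ∀ z, R ≤ ‖z‖ → w z = 0
  eqn : ∀ z, w z = max 0 (Real.circleAverage w z h + h ^ 2 / 4 * (s z - 2))

/-- Lipschitz probability densities supported in the closed disk of radius `R`. -/
structure Dens (β : ℂ → ℝ) (R : ℝ) : Prop where
  nonneg : ∀ z, 0 ≤ β z
  lip : ∃ L, ∀ z z', |β z - β z'| ≤ L * ‖z - z'‖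
  supp : ∀ z, R < ‖z‖ → β z = 0
  mass : ∫ z, β z = 1

/-! ### Polynomials -/

/-- Squared Fock norm of the part of degree at most `n` of a polynomial. -/
noncomputable def fock (n : ℕ) (p : Polynomial ℂ) : ℝ :=
  ∑ k ∈ Finset.range (n + 1), (k.factorial : ℝ) * ‖p.coeff k‖ ^ 2

/-- The monic polynomial with the given roots. -/
noncomputable def rootPoly {n : ℕ} (z : Fin n → ℂ) : Polynomial ℂ :=
  ∏ i : Fin n, (Polynomial.X - Polynomial.C (z i))

/-- The monic polynomial with the given roots, one of them left out. -/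
noncomputable def rootPolyErase {n : ℕ} (z : Fin n → ℂ) (j : Fin n) : Polynomial ℂ :=
  ∏ i ∈ Finset.univ.erase j, (Polynomial.X - Polynomial.C (z i))

/-- The set of the vectors `(ξ_0, ..., ξ_n)` whose polynomial is
`a ((1 + b) Q + ∑ β_j L_j)` with `|b| ≤ 1/8`, `|β_j| ≤ t`, `Q` the monic polynomial with roots
`z_j` and `L_j = Q / (X - z_j)`. -/
def goodS {n : ℕ} (z : Fin n → ℂ) (a t : ℝ) : Set (Fin (n + 1) → ℂ) :=
  {x | ∃ b : ℂ, ∃ β : Fin n → ℂ, ‖b‖ ≤ 1 / 8 ∧ (∀ j, ‖β j‖ ≤ t) ∧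
    ∀ k : Fin (n + 1), x k = (Real.sqrt ((k : ℕ).factorial : ℝ) : ℂ) * ((a : ℂ) *
      ((1 + b) * (rootPoly z).coeff k + ∑ j, β j * (rootPolyErase z j).coeff k))}

/-- The function `y ↦ log‖z - y‖` is on `T` within every `ε > 0` of the real part of a
polynomial, and so is `y ↦ 1/(z - y)` of a polynomial. -/
def RunProp (z : ℂ) (T : Set ℂ) : Prop :=
  (∀ ε : ℝ, 0 < ε → ∃ p : Polynomial ℂ, ∀ y ∈ T, |Real.log ‖z - y‖ - (p.eval y).re| < ε) ∧
  (∀ ε : ℝ, 0 < ε → ∃ p : Polynomial ℂ, ∀ y ∈ T, ‖(z - y)⁻¹ - p.eval y‖ < ε)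

end Pool.Agent.GH
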