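import Pool.Agent.GH.Stmts

/-!
Module ENE: the exponent of the odometer is at most the difference of the energies.
-/

namespace Pool.Agent.GH

open MeasureTheory

theorem ENE_thm (h1 : SYM_Stmt) (h2 : POT_Stmt) : ENE_Stmt := by
  intro σ lam w R B κ hσ hσ0 hl hl0 hw0 hwi hwc hws hpi hκ hint hpos
  have iσσ := (h1 σ σ R B R B hσ hσ).1
  have iσl := (h1 σ lam R B R (1 / Real.pi) hσ hl).1
  have ilσ := (h1 lam σ R (1 / Real.pi) R B hl hσ).1
  have ill := (h1 lam lam R (1 / Real.pi) R (1 / Real.pi) hl hl).1
  have hsym : ∫ z, pot σ z * lam z = ∫ z, pot lam z * σ z :=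
    (h1 σ lam R B R (1 / Real.pi) hσ hl).2.2.2
  have il : Integrable lam := (h2.1 lam R (1 / Real.pi) hl).1
  have hπ : (0 : ℝ) < Real.pi := Real.pi_pos
  -- `w lam = w / π`
  have hwl : ∀ z, w z * lam z = 1 / Real.pi * w z := by
    intro z
    rcases (hw0 z).lt_or_eq with h | h
    · rw [hpos z h, mul_comm]
    · rw [← h, zero_mul, mul_zero]
  have iwl : Integrable (fun z => w z * lam z) := by
    simp_rw [hwl]
    exact hwi.const_mul _
  have i1 : Integrable (fun z => (pot σ z - pot lam z) * lam z) := by
    have : (fun z => (pot σ z - pot lam z) * lam z) =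
        fun z => pot σ z * lam z - pot lam z * lam z := by
      funext z
      ring
    rw [this]
    exact iσl.sub ill
  have e1 : 2 / Real.pi * ∫ z, (pot σ z - pot lam z) = 2 * ∫ z, w z * lam z := by
    rw [hint]
    simp_rw [hwl]
    rw [integral_const_mul]
    ring
  have e2 : ∫ z, w z * lam z ≤ (∫ z, (pot σ z - pot lam z) * lam z) + κ * ∫ z, lam z := by
    rw [← integral_const_mul, ← integral_add i1 (il.const_mul κ)]
    refine integral_mono iwl (i1.add (il.const_mul κ)) fun z => ?_
    have h3 := abs_le.1 (hκ z)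
    have h4 : w z ≤ (pot σ z - pot lam z) + κ := by linarith [h3.1]
    calc w z * lam z ≤ ((pot σ z - pot lam z) + κ) * lam z :=
          mul_le_mul_of_nonneg_right h4 (hl0 z)
      _ = (pot σ z - pot lam z) * lam z + κ * lam z := by ring
  have e3 : ∫ z, (pot σ z - pot lam z) * (σ z - lam z) =
      (∫ z, pot σ z * σ z) - (∫ z, pot lam z * σ z) -
        ((∫ z, pot σ z * lam z) - ∫ z, pot lam z * lam z) := by
    have j1 : Integrable (fun z => pot σ z * σ z - pot lam z * σ z) := iσσ.sub ilσ
    have j2 : Integrable (fun z => pot σ z * lam z - pot lam z * lam z) := iσl.sub ill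
    rw [← integral_sub iσσ ilσ, ← integral_sub iσl ill, ← integral_sub j1 j2]
    refine integral_congr_ae (Filter.Eventually.of_forall fun z => ?_)
    dsimp only
    ring
  have e4 : ∫ z, (pot σ z - pot lam z) * lam z =
      (∫ z, pot σ z * lam z) - ∫ z, pot lam z * lam z := by
    rw [← integral_sub iσl ill]
    refine integral_congr_ae (Filter.Eventually.of_forall fun z => ?_)
    dsimp only
    ring
  have hen1 : en σ σ = ∫ z, pot σ z * σ z := rfl
  have hen2 : en lam lam = ∫ z, pot lam z * lam z := rfl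
  unfold Efun
  rw [e1, e3, hen1, hen2]
  rw [e4] at e2
  linarith

end Pool.Agent.GH
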