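import Pool.Agent.GH.Stmts

/-!
# FACT: product of factorials
-/

namespace Pool.Agent.GH

namespace FACT

theorem log_fact (k : ℕ) (hk : 1 ≤ k) :
    (k : ℝ) * Real.log k - k ≤ Real.log (k.factorial : ℝ) := by
  have h := Real.pow_div_factorial_le_exp (k : ℝ) (Nat.cast_nonneg k) k
  have hf : (0 : ℝ) < (k.factorial : ℝ) := by exact_mod_cast k.factorial_pos
  have hk0 : (0 : ℝ) < k := by exact_mod_cast hk
  have hp : (0 : ℝ) < (k : ℝ) ^ k := by positivity
  have h2 := Real.log_le_log (by positivity) h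
  rw [Real.log_exp, Real.log_div hp.ne' hf.ne', Real.log_pow] at h2
  linarith

theorem step (n : ℕ) (hn : 1 ≤ n) :
    ((n : ℝ) + 1) ^ 2 / 2 * Real.log ((n : ℝ) + 1) - 3 / 4 * ((n : ℝ) + 1) ^ 2 ≤
      ((n : ℝ) ^ 2 / 2 * Real.log n - 3 / 4 * (n : ℝ) ^ 2) +
        (((n : ℝ) + 1) * Real.log ((n : ℝ) + 1) - ((n : ℝ) + 1)) := by
  have hn1 : (1 : ℝ) ≤ n := by exact_mod_cast hn
  have hn0 : (0 : ℝ) < n := by linarith
  have h1 : Real.log ((n : ℝ) + 1) - Real.log n ≤ 1 / n := by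
    rw [← Real.log_div (by positivity) hn0.ne']
    refine (Real.log_le_sub_one_of_pos (by positivity)).trans ?_
    rw [add_div, div_self hn0.ne']
    linarith
  have h2 : 1 - 1 / (n : ℝ) ≤ Real.log n := by
    have := Real.one_sub_inv_le_log_of_pos hn0
    rwa [← one_div] at this
  have h3 : ((n : ℝ) ^ 2 - 1) / 2 * (Real.log ((n : ℝ) + 1) - Real.log n) ≤
      ((n : ℝ) ^ 2 - 1) / 2 * (1 / n) := by
    refine mul_le_mul_of_nonneg_left h1 ?_
    nlinarith
  have h4 : ((n : ℝ) ^ 2 - 1) / 2 * (1 / n) = n / 2 - 1 / 2 * (1 / n) := by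
    field_simp
  nlinarith [h3, h4, h2]

end FACT

open FACT in
/-- FACT. -/
theorem FACT_thm : FACT_Stmt := by
  refine ⟨0, fun n hn => ?_⟩
  rw [zero_mul, zero_mul, sub_zero]
  induction n, hn using Nat.le_induction with
  | base =>
    simp [Finset.sum_range_succ]
    norm_num
  | succ n hn ih =>
    rw [Finset.sum_range_succ]
    have h1 := step n hn
    have h2 := log_fact (n + 1) (by omega)
    push_cast at h2 ⊢
    linarith

end Pool.Agent.GH
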