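import Pool.Agent.GH.Stmts

/-!
FEK: existence and basic properties of Fekete tuples.
-/

namespace Pool.Agent.GH

open MeasureTheory ProbabilityTheory Filter Topology

namespace FEK

/-- The product over all ordered pairs of distinct indices. -/
noncomputable def pp {n : ℕ} (z : Fin n → ℂ) : ℝ :=
  ∏ i : Fin n, ∏ j ∈ Finset.univ.erase i, ‖z i - z j‖

theorem vdm_nonneg {n : ℕ} (z : Fin n → ℂ) : 0 ≤ vdm z :=
  Finset.prod_nonneg fun _ _ => Finset.prod_nonneg fun _ _ => norm_nonneg _

theorem vdm_sq {n : ℕ} (z : Fin n → ℂ) : vdm z ^ 2 = pp z := by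
  have h := Finset.prod_prod_Ioi_mul_eq_prod_prod_off_diag (fun i j : Fin n => ‖z j - z i‖)
  simp only [Finset.prod_mul_distrib] at h
  unfold vdm pp
  have e1 : ∀ i : Fin n, ∏ j ∈ Finset.univ.erase i, ‖z i - z j‖ = ∏ j ∈ {i}ᶜ, ‖z i - z j‖ := by
    intro i
    congr 1
    ext j
    simp
  simp only [e1]
  rw [sq, ← h]
  congr 1
  refine Finset.prod_congr rfl fun i _ => Finset.prod_congr rfl fun j _ => ?_
  rw [norm_sub_rev]

theorem continuous_vdm (n : ℕ) : Continuous (vdm : (Fin n → ℂ) → ℝ) := by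
  unfold vdm
  fun_prop

/-- The remaining factors, with one index left out. -/
noncomputable def rem {n : ℕ} (z : Fin n → ℂ) (i : Fin n) : ℝ :=
  ∏ k ∈ Finset.univ.erase i, ∏ j ∈ (Finset.univ.erase k).erase i, ‖z k - z j‖

theorem pp_eq {n : ℕ} (z : Fin n → ℂ) (i : Fin n) :
    pp z = (∏ j ∈ Finset.univ.erase i, ‖z i - z j‖) ^ 2 * rem z i := by
  unfold pp rem
  rw [← Finset.mul_prod_erase Finset.univ _ (Finset.mem_univ i), sq, mul_assoc]
  congr 1
  have : ∀ k ∈ Finset.univ.erase i, ∏ j ∈ Finset.univ.erase k, ‖z k - z j‖ =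
      ‖z i - z k‖ * ∏ j ∈ (Finset.univ.erase k).erase i, ‖z k - z j‖ := by
    intro k hk
    have hik : i ∈ Finset.univ.erase k := by
      rw [Finset.mem_erase] at hk ⊢
      exact ⟨fun h => hk.1 h.symm, Finset.mem_univ _⟩
    rw [← Finset.mul_prod_erase _ _ hik, norm_sub_rev]
  rw [Finset.prod_congr rfl this, Finset.prod_mul_distrib]

theorem rem_nonneg {n : ℕ} (z : Fin n → ℂ) (i : Fin n) : 0 ≤ rem z i :=
  Finset.prod_nonneg fun _ _ => Finset.prod_nonneg fun _ _ => norm_nonneg _

theorem rem_update {n : ℕ} (z : Fin n → ℂ) (i : Fin n) (x : ℂ) :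
    rem (Function.update z i x) i = rem z i := by
  unfold rem
  refine Finset.prod_congr rfl fun k hk => Finset.prod_congr rfl fun j hj => ?_
  rw [Function.update_of_ne (Finset.ne_of_mem_erase hk),
    Function.update_of_ne (Finset.ne_of_mem_erase hj)]

/-- The product with one point moved. -/
theorem prod_update {n : ℕ} (z : Fin n → ℂ) (i : Fin n) (x : ℂ) :
    ∏ j ∈ Finset.univ.erase i, ‖Function.update z i x i - Function.update z i x j‖ =
      ∏ j ∈ Finset.univ.erase i, ‖x - z j‖ := by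
  refine Finset.prod_congr rfl fun j hj => ?_
  rw [Function.update_self, Function.update_of_ne (Finset.ne_of_mem_erase hj)]

theorem exists_isFek {K : Set ℂ} (hK : IsCompact K) (hne : K.Nonempty) (N : ℕ) :
    ∃ a : Fin N → ℂ, IsFek K a := by
  have hc : IsCompact (Set.pi Set.univ (fun _ : Fin N => K)) :=
    isCompact_univ_pi fun _ => hK
  have hn : (Set.pi Set.univ (fun _ : Fin N => K)).Nonempty :=
    Set.univ_pi_nonempty_iff.2 fun _ => hne
  obtain ⟨a, ha, hmax⟩ := hc.exists_isMaxOn hn (continuous_vdm N).continuousOn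
  refine ⟨a, fun i => ha i (Set.mem_univ i), fun z hz => ?_⟩
  exact hmax (fun i _ => hz i)

theorem vdm_eq_vmax {K : Set ℂ} {N : ℕ} {a : Fin N → ℂ} (ha : IsFek K a) : vdm a = vmax K N := by
  unfold vmax
  have h : IsGreatest (vdm '' {z : Fin N → ℂ | ∀ i, z i ∈ K}) (vdm a) := by
    refine ⟨⟨a, ha.1, rfl⟩, ?_⟩
    rintro _ ⟨z, hz, rfl⟩
    exact ha.2 z hz
  exact h.csSup_eq.symm

theorem prod_le {K : Set ℂ} {N : ℕ} {a : Fin N → ℂ} (ha : IsFek K a) (hpos : 0 < vdm a)
    (i : Fin N) {z : ℂ} (hz : z ∈ K) :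
    ∏ j ∈ Finset.univ.erase i, ‖z - a j‖ ≤ ∏ j ∈ Finset.univ.erase i, ‖a i - a j‖ := by
  have h1 : vdm (Function.update a i z) ≤ vdm a := by
    apply ha.2
    intro k
    by_cases hk : k = i
    · subst hk; rw [Function.update_self]; exact hz
    · rw [Function.update_of_ne hk]; exact ha.1 k
  have h2 : pp (Function.update a i z) ≤ pp a := by
    rw [← vdm_sq, ← vdm_sq]
    exact pow_le_pow_left₀ (vdm_nonneg _) h1 2
  rw [pp_eq _ i, pp_eq a i, rem_update, prod_update] at h2
  have h3 : 0 < rem a i := by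
    have : 0 < pp a := by rw [← vdm_sq]; positivity
    rw [pp_eq a i] at this
    rcases (rem_nonneg a i).lt_or_eq with h | h
    · exact h
    · rw [← h] at this; simp at this
  have h4 := le_of_mul_le_mul_right h2 h3
  exact (pow_le_pow_iff_left₀ (Finset.prod_nonneg fun _ _ => norm_nonneg _)
    (Finset.prod_nonneg fun _ _ => norm_nonneg _) (by norm_num)).1 h4

/-- All the products with one factor left out. -/
theorem prod_prod_erase {N : ℕ} (f : Fin N → ℝ) :
    ∏ i : Fin N, ∏ j ∈ Finset.univ.erase i, f j = (∏ j, f j) ^ (N - 1) := by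
  have : ∏ i : Fin N, ∏ j ∈ Finset.univ.erase i, f j =
      ∏ j : Fin N, ∏ i ∈ Finset.univ.erase j, f j := by
    refine Finset.prod_comm' ?_
    intro x y
    simp only [Finset.mem_univ, Finset.mem_erase, ne_eq, and_true, true_and]
    exact ⟨fun h h' => h h'.symm, fun h h' => h h'.symm⟩
  rw [this, ← Finset.prod_pow]
  refine Finset.prod_congr rfl fun j _ => ?_
  rw [Finset.prod_const, Finset.card_erase_of_mem (Finset.mem_univ j), Finset.card_univ,
    Fintype.card_fin]

end FEK

open FEK in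
theorem FEK_thm (h1 : CAPA_Stmt) : FEK_Stmt := by
  intro K hK hne
  refine ⟨fun N => exists_isFek hK hne N, fun N a ha => vdm_eq_vmax ha, ?_⟩
  intro hcap N a hN ha
  have hdn : 0 < dn K N := lt_of_lt_of_le hcap ((h1.1 K hK hne).2.1 N hN)
  have hv : vdm a = vmax K N := vdm_eq_vmax ha
  have hN1 : (2 : ℝ) ≤ N := by exact_mod_cast hN
  have hexp : (0 : ℝ) < (N : ℝ) * ((N : ℝ) - 1) := by nlinarith
  have hpos : 0 < vdm a := by
    rcases (vdm_nonneg a).lt_or_eq with h | h
    · exact h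
    · exfalso
      unfold dn at hdn
      rw [← hv, ← h, Real.zero_rpow (by positivity)] at hdn
      exact lt_irrefl _ hdn
  have hinj : Function.Injective a := by
    have key : ∀ i j : Fin N, i < j → a i ≠ a j := by
      intro i j hij h
      have : vdm a = 0 := by
        unfold vdm
        refine Finset.prod_eq_zero (Finset.mem_univ i) (Finset.prod_eq_zero (Finset.mem_Ioi.2 hij) ?_)
        rw [h]; simp
      exact hpos.ne' this
    intro i j h
    rcases lt_trichotomy i j with hij | hij | hij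
    · exact absurd h (key i j hij)
    · exact hij
    · exact absurd h.symm (key j i hij)
  have hlogdn : (N : ℝ) * ((N : ℝ) - 1) * Real.log (dn K N) = 2 * Real.log (vdm a) := by
    unfold dn
    rw [← hv, Real.log_rpow hpos]
    have h0 : (N : ℝ) * ((N : ℝ) - 1) ≠ 0 := hexp.ne'
    rw [← mul_assoc, mul_div_cancel₀ _ h0]
  have hlog : ∑ i, ∑ j ∈ Finset.univ.erase i, Real.log ‖a i - a j‖ = 2 * Real.log (vdm a) := by
    have hne0 : ∀ i j : Fin N, j ∈ Finset.univ.erase i → ‖a i - a j‖ ≠ 0 := by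
      intro i j hj
      rw [Finset.mem_erase] at hj
      rw [norm_ne_zero_iff, sub_ne_zero]
      exact fun h => hj.1 (hinj h).symm
    have e : Real.log (vdm a ^ 2) = 2 * Real.log (vdm a) := by
      rw [Real.log_pow]; norm_num
    rw [← e, vdm_sq]
    unfold pp
    rw [Real.log_prod fun i _ => Finset.prod_ne_zero_iff.2 fun j hj => hne0 i j hj]
    refine Finset.sum_congr rfl fun i _ => ?_
    rw [Real.log_prod fun j hj => hne0 i j hj]
  refine ⟨hinj, hdn, by rw [hlog, hlogdn], ?_⟩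
  intro z hz
  have h2 : (∏ j, ‖z - a j‖) ^ (N - 1) ≤ ((dn K N) ^ N) ^ (N - 1) := by
    rw [← prod_prod_erase]
    have h3 : ∏ i : Fin N, ∏ j ∈ Finset.univ.erase i, ‖z - a j‖ ≤ pp a :=
      Finset.prod_le_prod (fun _ _ => Finset.prod_nonneg fun _ _ => norm_nonneg _)
        fun i _ => prod_le ha hpos i hz
    refine h3.trans (le_of_eq ?_)
    rw [← vdm_sq]
    have h4 : (0 : ℝ) < ((dn K N) ^ N) ^ (N - 1) := by positivity
    refine Real.log_injOn_pos (Set.mem_Ioi.2 (by positivity)) (Set.mem_Ioi.2 h4) ?_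
    rw [Real.log_pow, Real.log_pow, Real.log_pow]
    have h5 : ((N - 1 : ℕ) : ℝ) = (N : ℝ) - 1 := by
      rw [Nat.cast_sub (by omega)]; simp
    rw [h5]
    push_cast
    linarith
  exact (pow_le_pow_iff_left₀ (Finset.prod_nonneg fun _ _ => norm_nonneg _) (by positivity)
    (by omega)).1 h2

end Pool.Agent.GH
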