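import Pool.Agent.GH.Stmts

/-!
FEKB: the Fekete points of a thickening are at the full distance.
-/

namespace Pool.Agent.GH

open MeasureTheory ProbabilityTheory Filter Topology

namespace FEKB

/-- The product of the differences with one variable point. -/
noncomputable def G {N : ℕ} (a : Fin N → ℂ) (i0 : Fin N) (w : ℂ) : ℂ :=
  ∏ i : Fin N, ∏ j ∈ Finset.Ioi i, (Function.update a i0 w i - Function.update a i0 w j)

theorem norm_G {N : ℕ} (a : Fin N → ℂ) (i0 : Fin N) (w : ℂ) :
    ‖G a i0 w‖ = vdm (Function.update a i0 w) := by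
  unfold G vdm
  rw [norm_prod]
  exact Finset.prod_congr rfl fun i _ => norm_prod _ _

theorem diff_upd {N : ℕ} (a : Fin N → ℂ) (i0 i : Fin N) :
    Differentiable ℂ fun w => Function.update a i0 w i := by
  by_cases h : i = i0
  · subst h
    simp only [Function.update_self]
    exact differentiable_id
  · simp only [Function.update_of_ne h]
    exact differentiable_const _

theorem diff_G {N : ℕ} (a : Fin N → ℂ) (i0 : Fin N) : Differentiable ℂ (G a i0) := by
  unfold G
  refine Differentiable.fun_finsetProd fun i _ => ?_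
  refine Differentiable.fun_finsetProd fun j _ => ?_
  exact (diff_upd a i0 i).sub (diff_upd a i0 j)

theorem vdm_zero {N : ℕ} (z : Fin N → ℂ) {i j : Fin N} (hij : i ≠ j) (h : z i = z j) :
    vdm z = 0 := by
  rcases lt_or_gt_of_ne hij with h1 | h1
  · exact Finset.prod_eq_zero (Finset.mem_univ i)
      (Finset.prod_eq_zero (Finset.mem_Ioi.mpr h1) (by rw [h, sub_self, norm_zero]))
  · exact Finset.prod_eq_zero (Finset.mem_univ j)
      (Finset.prod_eq_zero (Finset.mem_Ioi.mpr h1) (by rw [h, sub_self, norm_zero]))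

theorem vdm_pos {N : ℕ} (z : Fin N → ℂ) (h : Function.Injective z) : 0 < vdm z := by
  refine Finset.prod_pos fun i _ => Finset.prod_pos fun j hj => ?_
  rw [norm_pos_iff, sub_ne_zero]
  intro h1
  exact (Finset.mem_Ioi.mp hj).ne (h h1)

theorem fek_pos {K : Set ℂ} {δ : ℝ} {N : ℕ} {a : Fin N → ℂ} (hne : K.Nonempty) (hδ : 0 < δ)
    (ha : IsFek (Metric.cthickening δ K) a) : 0 < vdm a := by
  obtain ⟨x, hx⟩ := hne
  rcases Nat.eq_zero_or_pos N with h0 | h0
  · subst h0
    exact vdm_pos a fun i => i.elim0
  have hN : (0 : ℝ) < N := by exact_mod_cast h0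
  let z : Fin N → ℂ := fun k => x + ((δ * ((k : ℕ) : ℝ) / N : ℝ) : ℂ)
  have hz : Function.Injective z := by
    intro k l hkl
    have h1 : (((δ * ((k : ℕ) : ℝ) / N : ℝ) : ℂ)) = ((δ * ((l : ℕ) : ℝ) / N : ℝ) : ℂ) :=
      add_left_cancel hkl
    have h2 : δ * ((k : ℕ) : ℝ) / N = δ * ((l : ℕ) : ℝ) / N := by exact_mod_cast h1
    rw [div_left_inj' hN.ne'] at h2
    have h3 : ((k : ℕ) : ℝ) = ((l : ℕ) : ℝ) := mul_left_cancel₀ hδ.ne' h2
    exact Fin.ext (by exact_mod_cast h3)
  have hmem : ∀ k, z k ∈ Metric.cthickening δ K := by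
    intro k
    apply Metric.closedBall_subset_cthickening hx
    rw [Metric.mem_closedBall, dist_eq_norm]
    have h1 : z k - x = ((δ * ((k : ℕ) : ℝ) / N : ℝ) : ℂ) := by simp [z]
    rw [h1, Complex.norm_real, Real.norm_eq_abs, abs_of_nonneg (by positivity)]
    rw [div_le_iff₀ hN]
    have h2 : ((k : ℕ) : ℝ) ≤ N := by exact_mod_cast k.2.le
    nlinarith
  exact lt_of_lt_of_le (vdm_pos z hz) (ha.2 z hmem)

theorem main (K : Set ℂ) (δ : ℝ) (N : ℕ) (a : Fin N → ℂ) (hne : K.Nonempty) (hδ : 0 < δ)
    (hN : 2 ≤ N) (ha : IsFek (Metric.cthickening δ K) a) (i : Fin N) :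
    Metric.infDist (a i) K = δ := by
  have hpos := fek_pos hne hδ ha
  refine le_antisymm ?_ ?_
  · have h1 := Metric.mem_cthickening_iff.mp (ha.1 i)
    exact ENNReal.toReal_le_of_le_ofReal hδ.le h1
  · by_contra hlt
    push Not at hlt
    have hth : a i ∈ Metric.thickening δ K :=
      (Metric.mem_thickening_iff_infDist_lt hne).mpr hlt
    have hnhds : Metric.cthickening δ K ∈ 𝓝 (a i) :=
      Filter.mem_of_superset (Metric.isOpen_thickening.mem_nhds hth)
        (Metric.thickening_subset_cthickening δ K)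
    have hupd : Function.update a i (a i) = a := Function.update_eq_self i a
    have hmax : IsLocalMax (norm ∘ G a i) (a i) := by
      filter_upwards [hnhds] with w hw
      rw [Function.comp_apply, Function.comp_apply, norm_G, norm_G, hupd]
      apply ha.2
      intro j
      by_cases hj : j = i
      · subst hj
        rw [Function.update_self]
        exact hw
      · rw [Function.update_of_ne hj]
        exact ha.1 j
    have hev := Complex.eventually_eq_of_isLocalMax_norm
      (Filter.Eventually.of_forall fun z => (diff_G a i) z) hmax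
    have hG : G a i = fun _ => G a i (a i) :=
      AnalyticOnNhd.eq_of_eventuallyEq
        (Complex.analyticOnNhd_univ_iff_differentiable.mpr (diff_G a i))
        (Complex.analyticOnNhd_univ_iff_differentiable.mpr (differentiable_const _)) hev
    have : Nontrivial (Fin N) := Fin.nontrivial_iff_two_le.mpr hN
    obtain ⟨j, hj⟩ := exists_ne i
    have h1 : ‖G a i (a j)‖ = 0 := by
      rw [norm_G]
      refine vdm_zero _ hj ?_
      rw [Function.update_of_ne hj, Function.update_self]
    have h2 : ‖G a i (a j)‖ = vdm a := by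
      rw [congrFun hG (a j), norm_G, hupd]
    rw [h2] at h1
    exact hpos.ne' h1

end FEKB

/-- FEKB (no hypothesis is needed; the two hypotheses are kept as in the specification). -/
theorem FEKB_thm (_h1 : CAPA_Stmt) (_h2 : FEK_Stmt) : FEKB_Stmt :=
  fun K δ N a _ hne hδ hN ha i => FEKB.main K δ N a hne hδ hN ha i

end Pool.Agent.GH
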