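import Mathlib
import Pool.Agent.GH.Stmts

/-!
# Lower bound for Fekete polynomials off the set
-/

namespace Pool.Agent.GH

open MeasureTheory ProbabilityTheory Filter Topology

namespace FLOW

/-- The product over one point left out. -/
theorem vdm_sq {n : ℕ} (z : Fin n → ℂ) :
    vdm z ^ 2 = ∏ i, ∏ j, if j = i then 1 else ‖z j - z i‖ := by
  have h1 : vdm z ^ 2 = ∏ i, ∏ j ∈ Finset.Ioi i, ‖z j - z i‖ * ‖z i - z j‖ := by
    rw [vdm, ← Finset.prod_pow]
    refine Finset.prod_congr rfl fun i _ => ?_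
    rw [← Finset.prod_pow]
    refine Finset.prod_congr rfl fun j _ => ?_
    rw [norm_sub_rev (z j) (z i), sq]
  rw [h1, Finset.prod_prod_Ioi_mul_eq_prod_prod_off_diag (fun j i => ‖z j - z i‖)]
  refine Finset.prod_congr rfl fun i _ => ?_
  rw [← Finset.prod_subset (Finset.subset_univ ({i}ᶜ : Finset (Fin n)))]
  · refine Finset.prod_congr rfl fun j hj => ?_
    rw [if_neg (by simpa using hj)]
  · intro j _ hj
    rw [if_pos (by simpa using hj)]

theorem vdm_nonneg {n : ℕ} (z : Fin n → ℂ) : 0 ≤ vdm z :=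
  Finset.prod_nonneg fun _ _ => Finset.prod_nonneg fun _ _ => norm_nonneg _

/-- Removing one point. -/
theorem vdm_succAbove {n : ℕ} (z : Fin (n + 1) → ℂ) (p : Fin (n + 1)) :
    vdm z = (∏ k, ‖z p - z (p.succAbove k)‖) * vdm (fun k => z (p.succAbove k)) := by
  have h0 : 0 ≤ (∏ k, ‖z p - z (p.succAbove k)‖) * vdm (fun k => z (p.succAbove k)) :=
    mul_nonneg (Finset.prod_nonneg fun _ _ => norm_nonneg _) (vdm_nonneg _)
  rw [← sq_eq_sq₀ (vdm_nonneg z) h0, mul_pow, vdm_sq, vdm_sq, Fin.prod_univ_succAbove _ p]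
  have h1 : (∏ j, if j = p then (1 : ℝ) else ‖z j - z p‖) =
      ∏ k, ‖z p - z (p.succAbove k)‖ := by
    rw [Fin.prod_univ_succAbove _ p, if_pos rfl, one_mul]
    refine Finset.prod_congr rfl fun k _ => ?_
    rw [if_neg (Fin.succAbove_ne p k), norm_sub_rev]
  have h2 : (∏ i, ∏ j, if j = p.succAbove i then (1 : ℝ) else ‖z j - z (p.succAbove i)‖) =
      (∏ k, ‖z p - z (p.succAbove k)‖) *
        ∏ i, ∏ j, if j = i then (1 : ℝ) else ‖z (p.succAbove j) - z (p.succAbove i)‖ := by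
    rw [← Finset.prod_mul_distrib]
    refine Finset.prod_congr rfl fun i _ => ?_
    rw [Fin.prod_univ_succAbove _ p, if_neg (Fin.succAbove_ne p i).symm]
    congr 1
    refine Finset.prod_congr rfl fun j _ => ?_
    simp only [Fin.succAbove_right_inj]
  rw [h1, h2, sq, mul_assoc]

/-- Lagrange interpolation of the constant `1`: a lower bound for a monic polynomial. -/
theorem lagrange_bound {n : ℕ} (a : Fin (n + 1) → ℂ) (ha : Function.Injective a) (z : ℂ)
    (δ q : ℝ) (hδ : 0 < δ) (hq : 0 < q) (hz : ∀ i, δ ≤ ‖z - a i‖)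
    (hd : ∀ p : Fin (n + 1), q ≤ ∏ k, ‖a p - a (p.succAbove k)‖) :
    δ * q / ((n + 1 : ℕ) : ℝ) ≤ ∏ i, ‖z - a i‖ := by
  have h1 := Lagrange.sum_basis (s := (Finset.univ : Finset (Fin (n + 1)))) (v := a)
    (ha.injOn) Finset.univ_nonempty
  have h2 : (1 : ℂ) = ∑ j, (Lagrange.basis Finset.univ a j).eval z := by
    rw [← Polynomial.eval_finsetSum, h1, Polynomial.eval_one]
  have h3 : ∀ j : Fin (n + 1), ‖(Lagrange.basis Finset.univ a j).eval z‖ ≤
      (∏ i, ‖z - a i‖) / (δ * q) := by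
    intro j
    have h4 : ‖(Lagrange.basis Finset.univ a j).eval z‖ =
        (∏ k, ‖z - a (j.succAbove k)‖) / ∏ k, ‖a j - a (j.succAbove k)‖ := by
      rw [Lagrange.basis, Polynomial.eval_prod, norm_prod]
      have h5 : (Finset.univ.erase j : Finset (Fin (n + 1))) =
          Finset.univ.image j.succAbove := by
        ext i
        simp only [Finset.mem_erase, Finset.mem_univ, and_true, Finset.mem_image, true_and]
        constructor
        · intro hi
          exact Fin.exists_succAbove_eq hi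
        · rintro ⟨k, rfl⟩
          exact Fin.succAbove_ne j k
      rw [h5, Finset.prod_image (Fin.succAbove_right_injective.injOn), ← Finset.prod_div_distrib]
      refine Finset.prod_congr rfl fun k _ => ?_
      rw [Lagrange.basisDivisor, Polynomial.eval_mul, Polynomial.eval_C, Polynomial.eval_sub,
        Polynomial.eval_X, Polynomial.eval_C, norm_mul, norm_inv, div_eq_mul_inv, mul_comm]
    have h6 : ∏ i, ‖z - a i‖ = ‖z - a j‖ * ∏ k, ‖z - a (j.succAbove k)‖ :=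
      Fin.prod_univ_succAbove _ j
    have h7 : 0 ≤ ∏ k, ‖z - a (j.succAbove k)‖ := Finset.prod_nonneg fun _ _ => norm_nonneg _
    rw [h4, h6]
    rw [div_le_div_iff₀ (lt_of_lt_of_le hq (hd j)) (mul_pos hδ hq)]
    calc (∏ k, ‖z - a (j.succAbove k)‖) * (δ * q)
        = (δ * ∏ k, ‖z - a (j.succAbove k)‖) * q := by ring
      _ ≤ (‖z - a j‖ * ∏ k, ‖z - a (j.succAbove k)‖) * ∏ k, ‖a j - a (j.succAbove k)‖ :=
          mul_le_mul (mul_le_mul_of_nonneg_right (hz j) h7) (hd j) hq.le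
            (mul_nonneg (norm_nonneg _) h7)
  have h8 : (1 : ℝ) ≤ ((n + 1 : ℕ) : ℝ) * ((∏ i, ‖z - a i‖) / (δ * q)) := by
    calc (1 : ℝ) = ‖(1 : ℂ)‖ := by simp
      _ = ‖∑ j, (Lagrange.basis Finset.univ a j).eval z‖ := by rw [← h2]
      _ ≤ ∑ j, ‖(Lagrange.basis Finset.univ a j).eval z‖ := norm_sum_le _ _
      _ ≤ ∑ _j : Fin (n + 1), (∏ i, ‖z - a i‖) / (δ * q) := Finset.sum_le_sum fun j _ => h3 j
      _ = ((n + 1 : ℕ) : ℝ) * ((∏ i, ‖z - a i‖) / (δ * q)) := by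
          rw [Finset.sum_const, Finset.card_univ, Fintype.card_fin, nsmul_eq_mul]
  have h9 : (0 : ℝ) < ((n + 1 : ℕ) : ℝ) := by positivity
  rw [div_le_iff₀ h9]
  have h10 : 0 < δ * q := mul_pos hδ hq
  rw [← mul_div_assoc, le_div_iff₀ h10, one_mul] at h8
  linarith

/-- For infinitely many `N` the quotient of two consecutive maxima is large. -/
theorem exists_good (L : ℕ → ℝ) (c ε : ℝ) (hε : 0 < ε)
    (hL : ∀ n : ℕ, 2 ≤ n → (n : ℝ) * ((n : ℝ) - 1) / 2 * c ≤ L n) (N₁ : ℕ) (hN₁ : 2 ≤ N₁) :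
    ∃ M : ℕ, N₁ ≤ M ∧ L M + (M : ℝ) * (c - ε) ≤ L (M + 1) := by
  by_contra hcon
  push Not at hcon
  have h1 : ∀ k : ℕ, L (N₁ + k) - ((N₁ + k : ℕ) : ℝ) * (((N₁ + k : ℕ) : ℝ) - 1) / 2 * (c - ε) ≤
      L N₁ - (N₁ : ℝ) * ((N₁ : ℝ) - 1) / 2 * (c - ε) := by
    intro k
    induction k with
    | zero => simp
    | succ k ih =>
      have h2 := hcon (N₁ + k) (by omega)
      have h3 : N₁ + (k + 1) = N₁ + k + 1 := by omega
      rw [h3]
      push_cast at h2 ih ⊢
      nlinarith [h2, ih]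
  obtain ⟨m, hm⟩ := exists_nat_gt
    ((L N₁ - (N₁ : ℝ) * ((N₁ : ℝ) - 1) / 2 * (c - ε)) / ε)
  have h2 := h1 m
  have h3 := hL (N₁ + m) (by omega)
  rw [div_lt_iff₀ hε] at hm
  have h4 : (m : ℝ) ≤ ((N₁ + m : ℕ) : ℝ) * (((N₁ + m : ℕ) : ℝ) - 1) / 2 := by
    have h5 : (2 : ℝ) ≤ (N₁ : ℝ) := by exact_mod_cast hN₁
    have h6 : (0 : ℝ) ≤ (m : ℝ) := Nat.cast_nonneg m
    push_cast
    nlinarith
  nlinarith [mul_le_mul_of_nonneg_right h4 hε.le]

end FLOW

open FLOW in
theorem FLOW_thm (h1 : CAPA_Stmt) (h2 : FEK_Stmt) : FLOW_Stmt := by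
  intro K hK hne hcap ε hε N₀
  obtain ⟨hfe, hfv, hf⟩ := h2 K hK hne
  obtain ⟨-, hdn, -, -⟩ := h1.1 K hK hne
  have hle : ∀ (N : ℕ) (b : Fin N → ℂ), (∀ i, b i ∈ K) → vdm b ≤ vmax K N := by
    intro N b hb
    obtain ⟨a, ha⟩ := hfe N
    rw [← hfv N a ha]
    exact ha.2 b hb
  have hv0 : ∀ N, 0 ≤ vmax K N := by
    intro N
    obtain ⟨a, ha⟩ := hfe N
    rw [← hfv N a ha]
    exact vdm_nonneg a
  have hexp : ∀ N : ℕ, 2 ≤ N → 0 < (N : ℝ) * ((N : ℝ) - 1) := by
    intro N hN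
    have : (2 : ℝ) ≤ (N : ℝ) := by exact_mod_cast hN
    nlinarith
  have hvpos : ∀ N, 2 ≤ N → 0 < vmax K N := by
    intro N hN
    rcases (hv0 N).lt_or_eq with h | h
    · exact h
    · exfalso
      have h3 := hdn N hN
      rw [dn, ← h, Real.zero_rpow (by have := hexp N hN; positivity)] at h3
      linarith
  have hlog : ∀ N : ℕ, 2 ≤ N → (N : ℝ) * ((N : ℝ) - 1) / 2 * Real.log (cap K) ≤
      Real.log (vmax K N) := by
    intro N hN
    have h3 := Real.log_le_log hcap (hdn N hN)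
    rw [dn, Real.log_rpow (hvpos N hN)] at h3
    have h4 := hexp N hN
    calc (N : ℝ) * ((N : ℝ) - 1) / 2 * Real.log (cap K)
        ≤ (N : ℝ) * ((N : ℝ) - 1) / 2 * (2 / ((N : ℝ) * ((N : ℝ) - 1)) * Real.log (vmax K N)) :=
          mul_le_mul_of_nonneg_left h3 (by linarith)
      _ = Real.log (vmax K N) := by
          generalize hw : (N : ℝ) * ((N : ℝ) - 1) = w at h4 ⊢
          field_simp
  obtain ⟨M, hM, hMlog⟩ := exists_good (fun n => Real.log (vmax K n)) (Real.log (cap K)) ε hε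
    hlog (max N₀ 2) (le_max_right _ _)
  have hM0 : N₀ ≤ M := le_trans (le_max_left _ _) hM
  have hM2 : 2 ≤ M := le_trans (le_max_right _ _) hM
  refine ⟨M + 1, by omega, by omega, ?_⟩
  intro a ha z hz
  have hinj := (hf hcap (M + 1) a (by omega) ha).1
  have hq : 0 < (cap K * Real.exp (-ε)) ^ M := by positivity
  have hmul : vmax K M * (cap K * Real.exp (-ε)) ^ M ≤ vmax K (M + 1) := by
    have h3 : Real.log (vmax K M * (cap K * Real.exp (-ε)) ^ M) ≤
        Real.log (vmax K (M + 1)) := by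
      rw [Real.log_mul (hvpos M hM2).ne' hq.ne', Real.log_pow,
        Real.log_mul hcap.ne' (Real.exp_pos _).ne', Real.log_exp]
      exact hMlog
    exact (Real.log_le_log_iff (mul_pos (hvpos M hM2) hq) (hvpos (M + 1) (by omega))).1 h3
  have hd : ∀ p : Fin (M + 1), (cap K * Real.exp (-ε)) ^ M ≤
      ∏ k, ‖a p - a (p.succAbove k)‖ := by
    intro p
    have h3 := vdm_succAbove a p
    have h4 : vdm (fun k => a (p.succAbove k)) ≤ vmax K M :=
      hle M _ fun k => ha.1 _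
    have h5 : 0 ≤ ∏ k, ‖a p - a (p.succAbove k)‖ := Finset.prod_nonneg fun _ _ => norm_nonneg _
    have h6 : vmax K M * (cap K * Real.exp (-ε)) ^ M ≤
        vmax K M * ∏ k, ‖a p - a (p.succAbove k)‖ := by
      calc vmax K M * (cap K * Real.exp (-ε)) ^ M ≤ vmax K (M + 1) := hmul
        _ = vdm a := (hfv (M + 1) a ha).symm
        _ = (∏ k, ‖a p - a (p.succAbove k)‖) * vdm (fun k => a (p.succAbove k)) := h3
        _ ≤ (∏ k, ‖a p - a (p.succAbove k)‖) * vmax K M := mul_le_mul_of_nonneg_left h4 h5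
        _ = vmax K M * ∏ k, ‖a p - a (p.succAbove k)‖ := mul_comm _ _
    exact le_of_mul_le_mul_left h6 (hvpos M hM2)
  have hdist : 0 < Metric.infDist z K := (hK.isClosed.notMem_iff_infDist_pos hne).1 hz
  have hzi : ∀ i, Metric.infDist z K ≤ ‖z - a i‖ := by
    intro i
    rw [← dist_eq_norm]
    exact Metric.infDist_le_dist_of_mem (ha.1 i)
  have := lagrange_bound a hinj z (Metric.infDist z K) _ hdist hq hzi hd
  simpa using this

end Pool.Agent.GH
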