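import Pool.Agent.GH.Stmts

/-!
# FOCK: dividing by a linear factor does not increase the Fock norm
-/

namespace Pool.Agent.GH

namespace FOCK

/-- The coefficients of `X * L`. -/
noncomputable def gm (g : ℕ → ℂ) : ℕ → ℂ
  | 0 => 0
  | k + 1 => g k

/-- The telescoping quantity. -/
noncomputable def T (α : ℂ) (g : ℕ → ℂ) (k : ℕ) : ℝ :=
  (k.factorial : ℝ) * (‖gm g k‖ ^ 2 - 2 * (gm g k * (starRingEnd ℂ) (α * g k)).re +
    k * ‖g k‖ ^ 2)

lemma step (α : ℂ) (g : ℕ → ℂ) (k : ℕ) :
    (k.factorial : ℝ) * ‖gm g k - α * g k‖ ^ 2 -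
      (k.factorial : ℝ) * ‖((k : ℂ) + 1) * g (k + 1) - (starRingEnd ℂ) α * g k‖ ^ 2 -
      (k.factorial : ℝ) * ‖g k‖ ^ 2 = T α g k - T α g (k + 1) := by
  unfold T
  have h1 : gm g (k + 1) = g k := rfl
  have hf : (((k + 1).factorial : ℕ) : ℝ) = (k.factorial : ℝ) * ((k : ℝ) + 1) := by
    rw [Nat.factorial_succ]
    push_cast
    ring
  rw [h1, hf]
  simp only [← Complex.normSq_eq_norm_sq]
  simp only [Complex.normSq_apply, Complex.sub_re, Complex.sub_im, Complex.mul_re,
    Complex.mul_im, Complex.conj_re, Complex.conj_im, Complex.add_re, Complex.add_im,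
    Complex.natCast_re, Complex.natCast_im, Complex.one_re, Complex.one_im, map_mul]
  push_cast
  ring

end FOCK

open FOCK in
/-- Dividing by a linear factor does not increase the Fock norm. -/
theorem FOCK_thm : FOCK_Stmt := by
  intro n α L hL
  set g : ℕ → ℂ := fun k => L.coeff k with hg
  have hz : ∀ k, n ≤ k → g k = 0 := fun k hk =>
    Polynomial.coeff_eq_zero_of_natDegree_lt (by omega)
  have hc : ∀ k, ((Polynomial.X - Polynomial.C α) * L).coeff k = gm g k - α * g k := by
    intro k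
    rw [sub_mul, Polynomial.coeff_sub, Polynomial.coeff_C_mul]
    cases k with
    | zero => simp [gm, hg]
    | succ k => rw [Polynomial.coeff_X_mul]; rfl
  have hs : ∑ k ∈ Finset.range (n + 1), (T α g k - T α g (k + 1)) = 0 := by
    rw [Finset.sum_range_sub']
    have h0 : T α g 0 = 0 := by simp [T, gm]
    have h1 : T α g (n + 1) = 0 := by
      have h2 : gm g (n + 1) = 0 := hz n le_rfl
      have h3 : g (n + 1) = 0 := hz (n + 1) (by omega)
      simp [T, h2, h3]
    rw [h0, h1, sub_zero]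
  rw [← Finset.sum_congr rfl (fun k _ => step α g k)] at hs
  rw [Finset.sum_sub_distrib, Finset.sum_sub_distrib] at hs
  have hfock : fock n ((Polynomial.X - Polynomial.C α) * L) =
      ∑ k ∈ Finset.range (n + 1), (k.factorial : ℝ) * ‖gm g k - α * g k‖ ^ 2 := by
    unfold fock
    exact Finset.sum_congr rfl fun k _ => by rw [hc k]
  have hfock' : fock n L = ∑ k ∈ Finset.range (n + 1), (k.factorial : ℝ) * ‖g k‖ ^ 2 := rfl
  rw [hfock, hfock']
  have hpos : 0 ≤ ∑ k ∈ Finset.range (n + 1), (k.factorial : ℝ) *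
      ‖((k : ℂ) + 1) * g (k + 1) - (starRingEnd ℂ) α * g k‖ ^ 2 :=
    Finset.sum_nonneg fun k _ => by positivity
  linarith

end Pool.Agent.GH
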