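import Pool.Agent.GH.Stmts

/-!
HOLEPT: the finite inequality for the hole probability.
-/

namespace Pool.Agent.GH

open MeasureTheory ProbabilityTheory Filter Topology

universe u

namespace HOLEPT

/-! ### The Fock norm -/

/-- The vector of the scaled coefficients of a polynomial. -/
noncomputable def vec (n : ℕ) (p : Polynomial ℂ) : EuclideanSpace ℂ (Fin (n + 1)) :=
  WithLp.toLp 2 (fun k : Fin (n + 1) =>
    (Real.sqrt ((k : ℕ).factorial : ℝ) : ℂ) * p.coeff (k : ℕ))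

lemma vec_apply (n : ℕ) (p : Polynomial ℂ) (k : Fin (n + 1)) :
    vec n p k = (Real.sqrt ((k : ℕ).factorial : ℝ) : ℂ) * p.coeff (k : ℕ) := rfl

lemma vec_norm_sq (n : ℕ) (p : Polynomial ℂ) : ‖vec n p‖ ^ 2 = fock n p := by
  rw [EuclideanSpace.norm_sq_eq]
  unfold fock
  rw [Finset.sum_range]
  refine Finset.sum_congr rfl fun k _ => ?_
  rw [vec_apply, norm_mul, Complex.norm_real, Real.norm_of_nonneg (Real.sqrt_nonneg _), mul_pow,
    Real.sq_sqrt (by positivity)]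

lemma vec_norm_le {n : ℕ} {p : Polynomial ℂ} {N : ℝ} (h : fock n p ≤ N) :
    ‖vec n p‖ ≤ Real.sqrt N := by
  apply Real.le_sqrt_of_sq_le
  rw [vec_norm_sq]
  exact h

/-! ### Polynomials -/

lemma mul_erase {n : ℕ} (z : Fin n → ℂ) (j : Fin n) :
    (Polynomial.X - Polynomial.C (z j)) * rootPolyErase z j = rootPoly z := by
  unfold rootPoly rootPolyErase
  exact Finset.mul_prod_erase Finset.univ (fun i => (Polynomial.X - Polynomial.C (z i)))
    (Finset.mem_univ j)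

lemma natDegree_root {n : ℕ} (z : Fin n → ℂ) : (rootPoly z).natDegree = n := by
  unfold rootPoly
  rw [Polynomial.natDegree_prod_of_monic _ _ (fun i _ => Polynomial.monic_X_sub_C (z i))]
  simp

lemma natDegree_erase {n : ℕ} (z : Fin n → ℂ) (j : Fin n) :
    (rootPolyErase z j).natDegree = n - 1 := by
  unfold rootPolyErase
  rw [Polynomial.natDegree_prod_of_monic _ _ (fun i _ => Polynomial.monic_X_sub_C (z i))]
  simp

lemma fock_erase (h4 : FOCK_Stmt) {n : ℕ} (hn : 1 ≤ n) (z : Fin n → ℂ) (j : Fin n) :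
    fock n (rootPolyErase z j) ≤ fock n (rootPoly z) := by
  rw [← mul_erase z j]
  exact h4 n (z j) (rootPolyErase z j) (by rw [natDegree_erase]; omega)

/-- the points of `goodS` lie in the unit ball -/
lemma sum_le_one (h4 : FOCK_Stmt) {n : ℕ} (hn : 1 ≤ n) (z : Fin n → ℂ) {N a t s : ℝ}
    (ha : 0 ≤ a) (ht : 0 ≤ t) (hN : fock n (rootPoly z) ≤ N) (hs : s = (n : ℝ) * t)
    (hle : a * (Real.sqrt N * (9 / 8 + s)) ≤ 1) {x : Fin (n + 1) → ℂ} (hx : x ∈ goodS z a t) :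
    ∑ k, ‖x k‖ ^ 2 ≤ 1 := by
  obtain ⟨b, β, hb, hβ, hx⟩ := hx
  have e1 : (WithLp.toLp 2 x : EuclideanSpace ℂ (Fin (n + 1))) =
      (a : ℂ) • ((1 + b) • vec n (rootPoly z) + ∑ j, β j • vec n (rootPolyErase z j)) := by
    ext k
    have h1 : (∑ j, β j • vec n (rootPolyErase z j)) k =
        ∑ j, β j * ((Real.sqrt ((k : ℕ).factorial : ℝ) : ℂ) *
          (rootPolyErase z j).coeff (k : ℕ)) := by
      rw [WithLp.ofLp_sum, Finset.sum_apply]
      rfl
    show x k = (a : ℂ) * ((1 + b) * ((Real.sqrt ((k : ℕ).factorial : ℝ) : ℂ) *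
      (rootPoly z).coeff (k : ℕ)) + (∑ j, β j • vec n (rootPolyErase z j)) k)
    rw [h1, hx k]
    have h2 : ∑ j, β j * ((Real.sqrt ((k : ℕ).factorial : ℝ) : ℂ) *
          (rootPolyErase z j).coeff (k : ℕ)) =
        (Real.sqrt ((k : ℕ).factorial : ℝ) : ℂ) *
          ∑ j, β j * (rootPolyErase z j).coeff (k : ℕ) := by
      rw [Finset.mul_sum]
      refine Finset.sum_congr rfl fun j _ => ?_
      ring
    rw [h2]
    ring
  have hS := Real.sqrt_nonneg N
  have e2 : ‖(1 + b) • vec n (rootPoly z)‖ ≤ 9 / 8 * Real.sqrt N := by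
    rw [norm_smul]
    have h1 : ‖(1 : ℂ) + b‖ ≤ 9 / 8 := by
      calc ‖(1 : ℂ) + b‖ ≤ ‖(1 : ℂ)‖ + ‖b‖ := norm_add_le _ _
        _ ≤ 9 / 8 := by
          rw [norm_one]
          linarith
    exact mul_le_mul h1 (vec_norm_le hN) (norm_nonneg _) (by norm_num)
  have e3 : ‖∑ j, β j • vec n (rootPolyErase z j)‖ ≤ s * Real.sqrt N := by
    calc ‖∑ j, β j • vec n (rootPolyErase z j)‖ ≤ ∑ j, ‖β j • vec n (rootPolyErase z j)‖ :=
          norm_sum_le _ _
      _ ≤ ∑ _j : Fin n, t * Real.sqrt N := by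
          refine Finset.sum_le_sum fun j _ => ?_
          rw [norm_smul]
          exact mul_le_mul (hβ j) (vec_norm_le ((fock_erase h4 hn z j).trans hN))
            (norm_nonneg _) ht
      _ = s * Real.sqrt N := by
          rw [Finset.sum_const, Finset.card_univ, Fintype.card_fin, nsmul_eq_mul, hs]
          ring
  have e4 : ‖(WithLp.toLp 2 x : EuclideanSpace ℂ (Fin (n + 1)))‖ ≤ 1 := by
    rw [e1, norm_smul, Complex.norm_real, Real.norm_of_nonneg ha]
    refine le_trans (mul_le_mul_of_nonneg_left ((norm_add_le _ _).trans (add_le_add e2 e3)) ha) ?_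
    refine le_trans (le_of_eq ?_) hle
    ring
  have e5 : ‖(WithLp.toLp 2 x : EuclideanSpace ℂ (Fin (n + 1)))‖ ^ 2 = ∑ k, ‖x k‖ ^ 2 := by
    rw [EuclideanSpace.norm_sq_eq]
  rw [← e5]
  exact pow_le_one₀ (norm_nonneg _) e4

/-! ### The series -/

lemma summable_bound (R : ℝ) (hR : 0 ≤ R) :
    Summable fun k : ℕ => (k : ℝ) * R ^ k / Real.sqrt (k.factorial : ℝ) := by
  have h1 : Summable fun k : ℕ => (k : ℝ) ^ 2 * (1 / 4 : ℝ) ^ k :=
    summable_pow_mul_geometric_of_norm_lt_one 2 (by norm_num)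
  have h2 : Summable fun k : ℕ => (4 * R ^ 2) ^ k / (k.factorial : ℝ) :=
    Real.summable_pow_div_factorial (4 * R ^ 2)
  refine Summable.of_nonneg_of_le (fun k => by positivity) (fun k => ?_)
    ((h1.add h2).mul_left (1 / 2))
  have hf : 0 < Real.sqrt (k.factorial : ℝ) := Real.sqrt_pos.2 (by positivity)
  have e1 : (k : ℝ) * R ^ k / Real.sqrt (k.factorial : ℝ) =
      ((k : ℝ) * (1 / 2) ^ k) * ((2 * R) ^ k / Real.sqrt (k.factorial : ℝ)) := by
    rw [mul_pow, mul_div_assoc, mul_div_assoc]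
    have : ((1 : ℝ) / 2) ^ k * 2 ^ k = 1 := by
      rw [← mul_pow]
      norm_num
    linear_combination (-(k : ℝ) * (R ^ k / Real.sqrt (k.factorial : ℝ))) * this
  have e2 : ((k : ℝ) * (1 / 2) ^ k) ^ 2 = (k : ℝ) ^ 2 * (1 / 4 : ℝ) ^ k := by
    rw [mul_pow, ← pow_mul, mul_comm k 2, pow_mul]
    norm_num
  have e3 : ((2 * R) ^ k / Real.sqrt (k.factorial : ℝ)) ^ 2 =
      (4 * R ^ 2) ^ k / (k.factorial : ℝ) := by
    rw [div_pow, Real.sq_sqrt (by positivity), ← pow_mul, mul_comm k 2, pow_mul, mul_pow]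
    norm_num
  rw [e1, ← e2, ← e3]
  nlinarith [sq_nonneg ((k : ℝ) * (1 / 2) ^ k - (2 * R) ^ k / Real.sqrt (k.factorial : ℝ))]

/-- the value of the polynomial part -/
lemma poly_part {n : ℕ} (hn : 1 ≤ n) (z : Fin n → ℂ) {a : ℝ} {b : ℂ} {β : Fin n → ℂ}
    {x : Fin (n + 1) → ℂ}
    (hx : ∀ k : Fin (n + 1), x k = (Real.sqrt ((k : ℕ).factorial : ℝ) : ℂ) * ((a : ℂ) *
      ((1 + b) * (rootPoly z).coeff k + ∑ j, β j * (rootPolyErase z j).coeff k))) (w : ℂ) :
    ∑ k : Fin (n + 1), x k * w ^ (k : ℕ) / (Real.sqrt ((k : ℕ).factorial : ℝ) : ℂ) =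
      (a : ℂ) * ((1 + b) * (rootPoly z).eval w + ∑ j, β j * (rootPolyErase z j).eval w) := by
  have h1 : (rootPoly z).eval w = ∑ k : Fin (n + 1), (rootPoly z).coeff k * w ^ (k : ℕ) := by
    rw [Polynomial.eval_eq_sum_range' (n := n + 1) (by rw [natDegree_root]; omega),
      Finset.sum_range]
  have h2 : ∀ j, (rootPolyErase z j).eval w =
      ∑ k : Fin (n + 1), (rootPolyErase z j).coeff k * w ^ (k : ℕ) := by
    intro j
    rw [Polynomial.eval_eq_sum_range' (n := n + 1) (by rw [natDegree_erase]; omega),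
      Finset.sum_range]
  have h3 : ∑ j, β j * (rootPolyErase z j).eval w =
      ∑ k : Fin (n + 1), (∑ j, β j * (rootPolyErase z j).coeff k) * w ^ (k : ℕ) := by
    simp only [h2, Finset.mul_sum, Finset.sum_mul]
    rw [Finset.sum_comm]
    refine Finset.sum_congr rfl fun k _ => Finset.sum_congr rfl fun j _ => ?_
    ring
  rw [h1, h3, Finset.mul_sum, ← Finset.sum_add_distrib, Finset.mul_sum]
  refine Finset.sum_congr rfl fun k _ => ?_
  have hf : (Real.sqrt ((k : ℕ).factorial : ℝ) : ℂ) ≠ 0 := by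
    rw [Ne, Complex.ofReal_eq_zero]
    exact (Real.sqrt_pos.2 (by positivity)).ne'
  rw [hx k]
  field_simp

/-- the polynomial part is large -/
lemma poly_large {n : ℕ} (hn : 1 ≤ n) (z : Fin n → ℂ) {a t d : ℝ} (ha : 0 ≤ a) (hd : 0 < d)
    (ht : t = d / (8 * n)) {b : ℂ} {β : Fin n → ℂ} (hb : ‖b‖ ≤ 1 / 8) (hβ : ∀ j, ‖β j‖ ≤ t)
    {w : ℂ} (hw : ∀ j, d ≤ ‖w - z j‖) :
    3 / 4 * a * ‖(rootPoly z).eval w‖ ≤
      ‖(a : ℂ) * ((1 + b) * (rootPoly z).eval w + ∑ j, β j * (rootPolyErase z j).eval w)‖ := by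
  have hn' : (0 : ℝ) < n := by exact_mod_cast hn
  have ht0 : 0 ≤ t := by rw [ht]; positivity
  have h1 : ∀ j, ‖(rootPolyErase z j).eval w‖ ≤ ‖(rootPoly z).eval w‖ / d := by
    intro j
    rw [le_div_iff₀ hd]
    have e : (rootPoly z).eval w = (w - z j) * (rootPolyErase z j).eval w := by
      rw [← mul_erase z j]
      simp
    rw [e, norm_mul, mul_comm]
    exact mul_le_mul_of_nonneg_right (hw j) (norm_nonneg _)
  have h2 : ‖∑ j, β j * (rootPolyErase z j).eval w‖ ≤ 1 / 8 * ‖(rootPoly z).eval w‖ := by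
    calc ‖∑ j, β j * (rootPolyErase z j).eval w‖
        ≤ ∑ j, ‖β j * (rootPolyErase z j).eval w‖ := norm_sum_le _ _
      _ ≤ ∑ _j : Fin n, t * (‖(rootPoly z).eval w‖ / d) := by
          refine Finset.sum_le_sum fun j _ => ?_
          rw [norm_mul]
          exact mul_le_mul (hβ j) (h1 j) (norm_nonneg _) ht0
      _ = 1 / 8 * ‖(rootPoly z).eval w‖ := by
          rw [Finset.sum_const, Finset.card_univ, Fintype.card_fin, nsmul_eq_mul, ht]
          field_simp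
  have h3 : 7 / 8 * ‖(rootPoly z).eval w‖ ≤ ‖(1 + b) * (rootPoly z).eval w‖ := by
    rw [norm_mul]
    refine mul_le_mul_of_nonneg_right ?_ (norm_nonneg _)
    have : ‖(1 : ℂ)‖ - ‖b‖ ≤ ‖(1 : ℂ) + b‖ := by
      have := norm_sub_norm_le (1 : ℂ) (-b)
      rwa [norm_neg, sub_neg_eq_add] at this
    rw [norm_one] at this
    linarith
  have h4 : ‖(1 + b) * (rootPoly z).eval w‖ - ‖∑ j, β j * (rootPolyErase z j).eval w‖ ≤
      ‖(1 + b) * (rootPoly z).eval w + ∑ j, β j * (rootPolyErase z j).eval w‖ := by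
    have := norm_sub_norm_le ((1 + b) * (rootPoly z).eval w)
      (-(∑ j, β j * (rootPolyErase z j).eval w))
    rwa [norm_neg, sub_neg_eq_add] at this
  rw [norm_mul, Complex.norm_real, Real.norm_of_nonneg ha]
  have h5 : 3 / 4 * ‖(rootPoly z).eval w‖ ≤
      ‖(1 + b) * (rootPoly z).eval w + ∑ j, β j * (rootPolyErase z j).eval w‖ := by
    linarith
  calc 3 / 4 * a * ‖(rootPoly z).eval w‖ = a * (3 / 4 * ‖(rootPoly z).eval w‖) := by ring
    _ ≤ _ := mul_le_mul_of_nonneg_left h5 ha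

/-- the series has no zero -/
lemma ne_zero {n : ℕ} {ζ : ℕ → ℂ} {w : ℂ} {c : ℝ} (htail : ∀ k, n < k → ‖ζ k‖ ≤ (k : ℝ))
    (h1 : (∑' k : ℕ, (if n < k then (k : ℝ) * ‖w‖ ^ k / Real.sqrt (k.factorial : ℝ) else 0)) < c)
    (h2 : c ≤ ‖∑ k : Fin (n + 1), ζ k * w ^ (k : ℕ) / (Real.sqrt ((k : ℕ).factorial : ℝ) : ℂ)‖) :
    ∑' k : ℕ, ζ k * w ^ k / (Real.sqrt (k.factorial : ℝ) : ℂ) ≠ 0 := by
  obtain ⟨g, hg⟩ : ∃ g : ℕ → ℂ, g = fun k => ζ k * w ^ k / (Real.sqrt (k.factorial : ℝ) : ℂ) :=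
    ⟨_, rfl⟩
  obtain ⟨B, hB⟩ : ∃ B : ℕ → ℝ, B = fun k : ℕ =>
    if n < k then (k : ℝ) * ‖w‖ ^ k / Real.sqrt (k.factorial : ℝ) else 0 := ⟨_, rfl⟩
  have hBs : Summable B := by
    refine Summable.of_nonneg_of_le (fun k => ?_) (fun k => ?_)
      (summable_bound ‖w‖ (norm_nonneg w))
    · rw [hB]
      show 0 ≤ if n < k then _ else _
      split_ifs
      · positivity
      · exact le_refl 0
    · rw [hB]
      show (if n < k then _ else _) ≤ _
      split_ifs
      · exact le_refl _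
      · positivity
  have hgB : ∀ k, ‖(if n < k then g k else 0)‖ ≤ B k := by
    intro k
    rw [hB]
    show _ ≤ if n < k then _ else _
    split_ifs with hk
    · rw [hg]
      show ‖ζ k * w ^ k / (Real.sqrt (k.factorial : ℝ) : ℂ)‖ ≤ _
      rw [norm_div, norm_mul, norm_pow, Complex.norm_real,
        Real.norm_of_nonneg (Real.sqrt_nonneg _)]
      have hs : 0 ≤ Real.sqrt (k.factorial : ℝ) := Real.sqrt_nonneg _
      exact div_le_div_of_nonneg_right
        (mul_le_mul_of_nonneg_right (htail k hk) (by positivity)) hs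
    · rw [norm_zero]
  have htS : Summable fun k => if n < k then g k else 0 := Summable.of_norm_bounded hBs hgB
  have htl : ‖∑' k, (if n < k then g k else 0)‖ ≤ ∑' k, B k :=
    tsum_of_norm_bounded hBs.hasSum hgB
  have hfin : Summable fun k => if n < k then 0 else g k := by
    refine summable_of_ne_finset_zero (s := Finset.range (n + 1)) fun k hk => ?_
    rw [Finset.mem_range, not_lt] at hk
    rw [if_pos (by omega)]
  have hsplit : ∑' k, g k = (∑' k, if n < k then 0 else g k) +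
      ∑' k, (if n < k then g k else 0) := by
    rw [← hfin.tsum_add htS]
    refine tsum_congr fun k => ?_
    split_ifs <;> simp
  have hhead : (∑' k, if n < k then 0 else g k) = ∑ k : Fin (n + 1), g k := by
    rw [tsum_eq_sum (s := Finset.range (n + 1)) (fun k hk => by
      rw [Finset.mem_range, not_lt] at hk
      rw [if_pos (by omega)]), ← Finset.sum_range (fun k => g k)]
    refine Finset.sum_congr rfl fun k hk => ?_
    rw [Finset.mem_range] at hk
    rw [if_neg (by omega)]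
  have h3 : (∑' k, B k) < ‖∑ k : Fin (n + 1), g k‖ := by
    rw [hB, hg]
    exact lt_of_lt_of_le h1 h2
  have h4 : ∑' k : ℕ, ζ k * w ^ k / (Real.sqrt (k.factorial : ℝ) : ℂ) = ∑' k, g k := by
    rw [hg]
  rw [h4, hsplit, hhead]
  intro h0
  have h5 : ∑ k : Fin (n + 1), g k = -∑' k, (if n < k then g k else 0) := eq_neg_of_add_eq_zero_left h0
  rw [h5, norm_neg] at h3
  linarith

end HOLEPT

open HOLEPT in
/-- **(HOLEPT)** -/
theorem HOLEPT_thm (h1 : GDENS_Stmt.{u}) (h2 : INDT_Stmt.{u}) (h3 : POLV_Stmt)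
    (h4 : FOCK_Stmt) : HOLEPT_Stmt.{u} := by
  intro Ω _ P ξ hG K n z r η N a _ hn _ hr hη hN hfN hdist ha htail
  have hprob : IsProbabilityMeasure P := hG.prob
  have hn' : (0 : ℝ) < n := by exact_mod_cast hn
  have hsN : 0 < Real.sqrt N := Real.sqrt_pos.2 hN
  have hηr : 0 < η * r := mul_pos hη hr
  have ha0 : 0 < a := by
    rw [ha]
    positivity
  obtain ⟨t, ht⟩ : ∃ t, t = η * r / (8 * n) := ⟨_, rfl⟩
  have ht0 : 0 < t := by
    rw [ht]
    positivity
  obtain ⟨hmeas, hvol⟩ := h3 n z a t ha0 ht0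
  have hone : ∀ x ∈ goodS z a t, ∑ k, ‖x k‖ ^ 2 ≤ 1 := by
    intro x hx
    refine sum_le_one h4 hn z ha0.le ht0.le hfN (s := η * r / 8) ?_ ?_ hx
    · rw [ht]
      field_simp
    · rw [ha]
      rw [div_mul_eq_mul_div, one_mul, div_le_one (by positivity)]
      refine mul_le_mul_of_nonneg_left ?_ hsN.le
      linarith
  have hd := h1 P ξ hG n (goodS z a t) hmeas hone
  have hi := h2 P ξ hG n (goodS z a t) hmeas
  have hsub : {ω | (fun k : Fin (n + 1) => ξ (k : ℕ) ω) ∈ goodS z a t ∧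
      ∀ k : ℕ, n < k → ‖ξ k ω‖ ≤ (k : ℝ)} ⊆ {ω | ∀ x ∈ K, gef ξ ω ((r : ℂ) * x) ≠ 0} := by
    rintro ω ⟨hω, hωt⟩ x hx
    obtain ⟨b, β, hb, hβ, hxk⟩ := hω
    have hnw : ‖(r : ℂ) * x‖ = r * ‖x‖ := by
      rw [norm_mul, Complex.norm_real, Real.norm_of_nonneg hr.le]
    unfold gef
    refine ne_zero (n := n) (ζ := fun k => ξ k ω) (w := (r : ℂ) * x)
      (c := 3 / 4 * a * ‖(rootPoly z).eval ((r : ℂ) * x)‖) hωt ?_ ?_
    · rw [hnw]
      exact htail x hx
    · have e := poly_part hn z hxk ((r : ℂ) * x)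
      rw [e]
      exact poly_large hn z ha0.le hηr ht hb hβ (fun j => hdist j x hx)
  have hmono : (P {ω | (fun k : Fin (n + 1) => ξ (k : ℕ) ω) ∈ goodS z a t ∧
      ∀ k : ℕ, n < k → ‖ξ k ω‖ ≤ (k : ℝ)}).toReal ≤ holeP P ξ K r :=
    ENNReal.toReal_mono (measure_ne_top P _) (measure_mono hsub)
  refine le_trans ?_ hmono
  refine le_trans ?_ hi
  have hhalf : 1 / 2 * (Real.exp (-1) / Real.pi ^ (n + 1) * (volume (goodS z a t)).toReal) ≤
      1 / 2 * (P {ω | (fun k : Fin (n + 1) => ξ (k : ℕ) ω) ∈ goodS z a t}).toReal :=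
    mul_le_mul_of_nonneg_left hd (by norm_num)
  refine le_trans (le_of_eq ?_) hhalf
  rw [hvol, ← ht]
  have hpi : Real.pi ^ (n + 1) ≠ 0 := (pow_pos Real.pi_pos _).ne'
  field_simp

end Pool.Agent.GH
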