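import Pool.Agent.GH.Stmts

/-!
HULL: the filled set of a compact set has the same diameters.
-/

namespace Pool.Agent.GH

open MeasureTheory ProbabilityTheory Filter Topology

namespace HULL

theorem comp_eq {K : Set ℂ} {z w : ℂ} (h : w ∈ connectedComponentIn Kᶜ z) :
    connectedComponentIn Kᶜ w = connectedComponentIn Kᶜ z := (connectedComponentIn_eq h).symm

theorem isOpen_outer {K : Set ℂ} (hK : IsCompact K) : IsOpen (outer K) := by
  rw [isOpen_iff_mem_nhds]
  rintro z ⟨hz, hb⟩
  have h1 : IsOpen (connectedComponentIn Kᶜ z) := hK.isClosed.isOpen_compl.connectedComponentIn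
  refine mem_of_superset (h1.mem_nhds (mem_connectedComponentIn hz)) fun w hw => ?_
  exact ⟨connectedComponentIn_subset _ _ hw, by rwa [comp_eq hw]⟩

theorem isOpen_bdd {K : Set ℂ} (hK : IsCompact K) : IsOpen ((outer K)ᶜ ∩ Kᶜ) := by
  rw [isOpen_iff_mem_nhds]
  rintro z ⟨hz, hzK⟩
  have h1 : IsOpen (connectedComponentIn Kᶜ z) := hK.isClosed.isOpen_compl.connectedComponentIn
  refine mem_of_superset (h1.mem_nhds (mem_connectedComponentIn hzK)) fun w hw => ?_
  refine ⟨fun hw' => hz ⟨hzK, ?_⟩, connectedComponentIn_subset _ _ hw⟩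
  have h2 := hw'.2
  rwa [comp_eq hw] at h2

/-- The ray from `z` away from the origin. -/
def ray (z : ℂ) : Set ℂ := (fun t : ℝ => (t : ℂ) * z) '' Set.Ici 1

theorem mem_outer {K : Set ℂ} {R : ℝ} (hR : 0 ≤ R) (hKR : K ⊆ Metric.closedBall 0 R) {z : ℂ}
    (hz : R < ‖z‖) : z ∈ outer K := by
  have hz0 : 0 < ‖z‖ := lt_of_le_of_lt hR hz
  have hray : ray z ⊆ Kᶜ := by
    rintro _ ⟨t, ht, rfl⟩ hK
    have h1 := hKR hK
    rw [mem_closedBall_zero_iff, norm_mul, Complex.norm_real, Real.norm_eq_abs] at h1
    have ht' : (1 : ℝ) ≤ t := ht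
    rw [abs_of_nonneg (by linarith)] at h1
    nlinarith
  have hzray : z ∈ ray z := ⟨1, Set.mem_Ici.2 le_rfl, by simp⟩
  have hconn : IsPreconnected (ray z) := by
    refine (isPreconnected_Ici).image _ ?_
    exact (Complex.continuous_ofReal.mul continuous_const).continuousOn
  have hsub : ray z ⊆ connectedComponentIn Kᶜ z := hconn.subset_connectedComponentIn hzray hray
  refine ⟨hray hzray, fun hb => ?_⟩
  obtain ⟨C, hC⟩ := (hb.subset hsub).exists_norm_le
  have h2 := hC (((|C| / ‖z‖ + 1 : ℝ) : ℂ) * z)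
    ⟨|C| / ‖z‖ + 1, Set.mem_Ici.2 (by
      have : 0 ≤ |C| / ‖z‖ := by positivity
      linarith), rfl⟩
  rw [norm_mul, Complex.norm_real, Real.norm_eq_abs, abs_of_nonneg (by positivity), add_mul,
    div_mul_cancel₀ _ hz0.ne'] at h2
  linarith [le_abs_self C]

theorem isCompact_hull {K : Set ℂ} (hK : IsCompact K) : IsCompact (outer K)ᶜ := by
  obtain ⟨R, hR⟩ := hK.isBounded.subset_closedBall 0
  refine Metric.isCompact_of_isClosed_isBounded (isOpen_outer hK).isClosed_compl ?_
  refine (Metric.isBounded_closedBall (x := (0 : ℂ)) (r := max R 0)).subset fun z hz => ?_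
  by_contra h
  rw [mem_closedBall_zero_iff, not_le] at h
  exact hz (mem_outer (le_max_right _ _)
    (hR.trans (Metric.closedBall_subset_closedBall (le_max_left _ _))) h)

theorem subset_hull (K : Set ℂ) : K ⊆ (outer K)ᶜ := fun _ hz h => h.1 hz

/-- The maximum principle for the filled set. -/
theorem max_principle {K : Set ℂ} (hK : IsCompact K) (hne : K.Nonempty) {f : ℂ → ℂ}
    (hf : Differentiable ℂ f) : ∃ w ∈ K, ∀ z ∈ (outer K)ᶜ, ‖f z‖ ≤ ‖f w‖ := by
  obtain ⟨w, hw, hmax⟩ := hK.exists_isMaxOn hne (f := fun z => ‖f z‖)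
    hf.continuous.norm.continuousOn
  refine ⟨w, hw, fun z hz => ?_⟩
  by_cases hzK : z ∈ K
  · exact hmax hzK
  · have hU : Bornology.IsBounded ((outer K)ᶜ ∩ Kᶜ) :=
      (isCompact_hull hK).isBounded.subset Set.inter_subset_left
    refine Complex.norm_le_of_forall_mem_frontier_norm_le hU hf.diffContOnCl ?_
      (subset_closure ⟨hz, hzK⟩)
    intro y hy
    rw [frontier, (isOpen_bdd hK).interior_eq] at hy
    have h1 : y ∈ (outer K)ᶜ := by
      have : closure ((outer K)ᶜ ∩ Kᶜ) ⊆ (outer K)ᶜ :=
        closure_minimal Set.inter_subset_left (isOpen_outer hK).isClosed_compl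
      exact this hy.1
    have h2 : y ∈ K := by
      by_contra h
      exact hy.2 ⟨h1, h⟩
    exact hmax h2

theorem vdm_continuous (n : ℕ) : Continuous (vdm : (Fin n → ℂ) → ℝ) := by
  unfold vdm
  fun_prop

/-- The product of the differences. -/
noncomputable def vprod {n : ℕ} (z : Fin n → ℂ) : ℂ :=
  ∏ i : Fin n, ∏ j ∈ Finset.Ioi i, (z i - z j)

theorem norm_vprod {n : ℕ} (z : Fin n → ℂ) : ‖vprod z‖ = vdm z := by
  unfold vprod vdm
  simp only [norm_prod]

theorem differentiable_coord {n : ℕ} (z : Fin n → ℂ) (a i : Fin n) :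
    Differentiable ℂ fun w => Function.update z a w i := by
  by_cases h : i = a
  · subst h
    simp only [Function.update_self]
    exact differentiable_id
  · simp only [Function.update_of_ne h]
    exact differentiable_const _

theorem differentiable_vprod {n : ℕ} (z : Fin n → ℂ) (a : Fin n) :
    Differentiable ℂ fun w => vprod (Function.update z a w) := by
  unfold vprod
  refine Differentiable.fun_finsetProd fun i _ => Differentiable.fun_finsetProd fun j _ => ?_
  exact (differentiable_coord z a i).sub (differentiable_coord z a j)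

theorem step {K : Set ℂ} (hK : IsCompact K) (hne : K.Nonempty) {n : ℕ} (z : Fin n → ℂ)
    (hz : ∀ i, z i ∈ (outer K)ᶜ) (s : Finset (Fin n)) :
    ∃ z' : Fin n → ℂ, (∀ i, z' i ∈ (outer K)ᶜ) ∧ (∀ i ∈ s, z' i ∈ K) ∧ vdm z ≤ vdm z' := by
  classical
  induction s using Finset.induction_on with
  | empty => exact ⟨z, hz, by simp, le_rfl⟩
  | insert a s _ ih =>
    obtain ⟨z', h1, h2, h3⟩ := ih
    obtain ⟨w, hw, hmax⟩ := max_principle hK hne (differentiable_vprod z' a)
    refine ⟨Function.update z' a w, fun i => ?_, fun i hi => ?_, h3.trans ?_⟩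
    · by_cases h : i = a
      · subst h
        rw [Function.update_self]
        exact subset_hull K hw
      · rw [Function.update_of_ne h]
        exact h1 i
    · by_cases h : i = a
      · subst h
        rw [Function.update_self]
        exact hw
      · rw [Function.update_of_ne h]
        exact h2 i ((Finset.mem_insert.1 hi).resolve_left h)
    · have h4 := hmax (z' a) (h1 a)
      rwa [Function.update_eq_self, norm_vprod, norm_vprod] at h4

end HULL

theorem HULL_thm : HULL_Stmt := by
  intro K hK hne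
  refine ⟨HULL.isCompact_hull hK, HULL.subset_hull K, fun n => ?_⟩
  unfold vmax
  refine csSup_le ?_ ?_
  · obtain ⟨x, hx⟩ := hne
    exact ⟨_, fun _ => x, fun _ => HULL.subset_hull K hx, rfl⟩
  · rintro _ ⟨z, hz, rfl⟩
    obtain ⟨z', -, h2, h3⟩ := HULL.step hK hne z hz Finset.univ
    refine h3.trans (le_csSup ?_ ⟨z', fun i => h2 i (Finset.mem_univ i), rfl⟩)
    have hc : IsCompact {z : Fin n → ℂ | ∀ i, z i ∈ K} := by
      have := isCompact_univ_pi (s := fun _ : Fin n => K) fun _ => hK
      convert this using 1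
      ext y
      simp
    exact hc.bddAbove_image (HULL.vdm_continuous n).continuousOn

end Pool.Agent.GH
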