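import Pool.Agent.GH.Stmts

/-!
# Module INDT: independence of the first coefficients and the tail event
-/

namespace Pool.Agent.GH

open MeasureTheory ProbabilityTheory Filter Topology Set

namespace INDT

theorem hasDerivAt_aux (x : ℝ) :
    HasDerivAt (fun y : ℝ => -(Real.exp (-y ^ 2)) / 2) (x * Real.exp (-x ^ 2)) x := by
  have h := ((((hasDerivAt_pow 2 x).neg).exp).neg).div_const 2
  refine h.congr_deriv ?_
  norm_num
  ring

theorem tendsto_aux : Tendsto (fun y : ℝ => -(Real.exp (-y ^ 2)) / 2) atTop (𝓝 0) := by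
  have h1 : Tendsto (fun y : ℝ => y ^ 2) atTop atTop := tendsto_pow_atTop two_ne_zero
  have h2 : Tendsto (fun y : ℝ => Real.exp (-y ^ 2)) atTop (𝓝 0) :=
    Real.tendsto_exp_neg_atTop_nhds_zero.comp h1
  have h3 := h2.neg.div_const 2
  simpa using h3

theorem int_tail {k : ℝ} (hk : 0 ≤ k) :
    ∫ y in Ioi k, y * Real.exp (-y ^ 2) = Real.exp (-k ^ 2) / 2 := by
  rw [integral_Ioi_of_hasDerivAt_of_nonneg' (fun x _ => hasDerivAt_aux x) ?_ tendsto_aux]
  · ring
  · intro x hx
    have : 0 < x := lt_of_le_of_lt hk hx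
    positivity

theorem integrable_tail {k : ℝ} (hk : 0 ≤ k) :
    IntegrableOn (fun y : ℝ => y * Real.exp (-y ^ 2)) (Ioi k) := by
  refine integrableOn_Ioi_deriv_of_nonneg' (fun x _ => hasDerivAt_aux x) ?_ tendsto_aux
  intro x hx
  have : 0 < x := lt_of_le_of_lt hk hx
  positivity

/-- The tail of the standard complex Gaussian. -/
theorem stdC_tail {k : ℝ} (hk : 0 ≤ k) :
    stdC {w : ℂ | k < ‖w‖} = ENNReal.ofReal (Real.exp (-k ^ 2)) := by
  have hms : MeasurableSet {w : ℂ | k < ‖w‖} := measurableSet_lt measurable_const measurable_norm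
  unfold stdC
  rw [withDensity_apply _ hms, ← lintegral_indicator hms]
  let F : ℝ → ℝ := (Ioi k).indicator fun y => Real.exp (-y ^ 2) / Real.pi
  have hF0 : ∀ y, 0 ≤ F y := by
    intro y
    refine indicator_nonneg (fun y _ => ?_) y
    positivity
  have e1 : (fun w : ℂ => ({w : ℂ | k < ‖w‖}.indicator
      (fun w => ENNReal.ofReal (Real.exp (-‖w‖ ^ 2) / Real.pi)) w)) =
      fun w : ℂ => ENNReal.ofReal (F ‖w‖) := by
    funext w
    by_cases hw : k < ‖w‖
    · simp [F, indicator, hw]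
    · simp [F, indicator, hw]
  have e2 : ∀ y ∈ Ioi (0 : ℝ), y ^ (Module.finrank ℝ ℂ - 1) • F y =
      (Ioi k).indicator (fun y => y * Real.exp (-y ^ 2) / Real.pi) y := by
    intro y hy
    rw [Complex.finrank_real_complex]
    by_cases hyk : k < y
    · simp [F, indicator, hyk]
      ring
    · simp [F, indicator, hyk]
  have hsub : Ioi k ⊆ Ioi (0 : ℝ) := fun y hy => lt_of_le_of_lt hk hy
  have hi : IntegrableOn (fun y : ℝ => y * Real.exp (-y ^ 2) / Real.pi) (Ioi k) :=
    (integrable_tail hk).div_const _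
  have hint : Integrable (fun w : ℂ => F ‖w‖) := by
    rw [integrable_fun_norm_addHaar, integrableOn_congr_fun e2 measurableSet_Ioi]
    exact ((integrable_indicator_iff measurableSet_Ioi).mpr hi).integrableOn
  rw [e1, ← ofReal_integral_eq_lintegral_ofReal hint (ae_of_all _ fun w => hF0 _)]
  congr 1
  rw [integral_fun_norm_addHaar, setIntegral_congr_fun measurableSet_Ioi e2,
    setIntegral_indicator measurableSet_Ioi, inter_eq_self_of_subset_right hsub,
    integral_div, int_tail hk, Complex.finrank_real_complex]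
  have : (volume : Measure ℂ).real (Metric.ball 0 1) = Real.pi := by
    rw [Measure.real, Complex.volume_ball]
    simp
  rw [this]
  have := Real.pi_pos
  simp
  field_simp

theorem exp_bound : Real.exp (-1) * (1 - Real.exp (-3))⁻¹ ≤ 1 / 2 := by
  have h1 : Real.exp (-1) ≤ 0.37 := by
    rw [Real.exp_neg]
    have := Real.exp_one_gt_d9
    rw [inv_le_comm₀ (Real.exp_pos 1) (by norm_num)]
    refine le_trans ?_ this.le
    norm_num
  have h0 := Real.exp_pos (-1)
  have h3 : Real.exp (-3) = Real.exp (-1) ^ 3 := by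
    rw [← Real.exp_nat_mul]; norm_num
  have h4 : Real.exp (-3) ≤ 0.06 := by
    rw [h3]
    calc Real.exp (-1) ^ 3 ≤ 0.37 ^ 3 := pow_le_pow_left₀ h0.le h1 3
      _ ≤ 0.06 := by norm_num
  have h5 : (1 - Real.exp (-3))⁻¹ ≤ (0.94)⁻¹ := by
    apply inv_anti₀ (by norm_num)
    linarith
  calc Real.exp (-1) * (1 - Real.exp (-3))⁻¹ ≤ 0.37 * (0.94)⁻¹ := by
        apply mul_le_mul h1 h5 _ (by norm_num)
        apply inv_nonneg.mpr
        linarith
    _ ≤ 1 / 2 := by norm_num

theorem sum_bound : ∑' j : ℕ, ENNReal.ofReal (Real.exp (-((j : ℝ) + 1) ^ 2)) ≤ 1 / 2 := by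
  have h3 : Real.exp (-3) < 1 := by
    rw [Real.exp_lt_one_iff]; norm_num
  have hs : Summable fun j : ℕ => Real.exp (-1) * Real.exp (-3) ^ j :=
    (summable_geometric_of_lt_one (Real.exp_pos _).le h3).mul_left _
  calc ∑' j : ℕ, ENNReal.ofReal (Real.exp (-((j : ℝ) + 1) ^ 2))
      ≤ ∑' j : ℕ, ENNReal.ofReal (Real.exp (-1) * Real.exp (-3) ^ j) := by
        refine ENNReal.tsum_le_tsum fun j => ENNReal.ofReal_le_ofReal ?_
        rw [← Real.exp_nat_mul, ← Real.exp_add]
        apply Real.exp_le_exp.mpr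
        have : (0 : ℝ) ≤ (j : ℝ) * ((j : ℝ) - 1) := by
          rcases Nat.eq_zero_or_pos j with h | h
          · simp [h]
          · have : (1 : ℝ) ≤ j := by exact_mod_cast h
            exact mul_nonneg (by linarith) (by linarith)
        nlinarith
    _ = ENNReal.ofReal (∑' j : ℕ, Real.exp (-1) * Real.exp (-3) ^ j) := by
        rw [ENNReal.ofReal_tsum_of_nonneg (fun j => by positivity) hs]
    _ ≤ ENNReal.ofReal (1 / 2) := by
        apply ENNReal.ofReal_le_ofReal
        rw [tsum_mul_left, tsum_geometric_of_lt_one (Real.exp_pos _).le h3]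
        exact exp_bound
    _ = 1 / 2 := by
        rw [ENNReal.ofReal_div_of_pos (by norm_num)]
        simp

end INDT

universe u

open INDT in
theorem INDT_thm : INDT_Stmt.{u} := by
  intro Ω _ P ξ h n S hS
  have := h.prob
  let m : ℕ → MeasurableSpace Ω := fun k => MeasurableSpace.comap (ξ k) inferInstance
  have hm : ∀ k, m k ≤ (inferInstance : MeasurableSpace Ω) := fun k => (h.meas k).comap_le
  have hi : iIndep m P := (iIndepFun_iff_iIndep _ _ _).mp h.indep
  have hd : Disjoint (Iic n) (Ioi n) := by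
    rw [Set.disjoint_left]
    intro x hx hx2
    rw [Set.mem_Iic] at hx
    rw [Set.mem_Ioi] at hx2
    omega
  have hI := indep_iSup_of_disjoint hm hi hd
  rw [Indep_iff] at hI
  set A : Set Ω := {ω | (fun k : Fin (n + 1) => ξ (k : ℕ) ω) ∈ S} with hA
  set T : Set Ω := {ω | ∀ k : ℕ, n < k → ‖ξ k ω‖ ≤ (k : ℝ)} with hT
  have hAm : MeasurableSet[⨆ i ∈ Iic n, m i] A := by
    have h1 : Measurable[⨆ i ∈ Iic n, m i] (fun ω => fun k : Fin (n + 1) => ξ (k : ℕ) ω) := by
      refine @measurable_pi_lambda Ω (Fin (n + 1)) (fun _ => ℂ) (⨆ i ∈ Iic n, m i) _ _ fun k => ?_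
      refine Measurable.mono (comap_measurable (ξ (k : ℕ))) ?_ le_rfl
      exact le_iSup₂_of_le (k : ℕ) (Nat.lt_succ_iff.mp k.2) le_rfl
    exact h1 hS
  have hTm : MeasurableSet[⨆ i ∈ Ioi n, m i] T := by
    have h1 : T = ⋂ k ∈ Ioi n, ξ k ⁻¹' {w : ℂ | ‖w‖ ≤ (k : ℝ)} := by
      ext ω
      simp [hT]
    rw [h1]
    refine @MeasurableSet.biInter Ω ℕ (⨆ i ∈ Ioi n, m i) _ _ (Set.to_countable _) fun k hk => ?_
    have h2 : MeasurableSet[m k] (ξ k ⁻¹' {w : ℂ | ‖w‖ ≤ (k : ℝ)}) :=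
      ⟨_, measurableSet_le measurable_norm measurable_const, rfl⟩
    exact (le_iSup₂_of_le k hk le_rfl : m k ≤ ⨆ i ∈ Ioi n, m i) _ h2
  have hmul := hI A T hAm hTm
  have hTm' : MeasurableSet T := (iSup₂_le fun k _ => hm k : (⨆ i ∈ Ioi n, m i) ≤ _) _ hTm
  have hTc : P Tᶜ ≤ 1 / 2 := by
    have hsub : Tᶜ ⊆ ⋃ j : ℕ, {ω | ((j : ℝ) + 1) < ‖ξ (j + 1) ω‖} := by
      intro ω hω
      simp only [hT, mem_compl_iff, mem_ofPred_eq, not_forall, not_le] at hω
      obtain ⟨k, hk, hk2⟩ := hω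
      rw [mem_iUnion]
      refine ⟨k - 1, ?_⟩
      have h1 : k - 1 + 1 = k := by omega
      have h2 : (((k - 1 : ℕ) : ℝ) + 1) = (k : ℝ) := by
        exact_mod_cast h1
      rw [mem_ofPred_eq, h1, h2]
      exact hk2
    calc P Tᶜ ≤ P (⋃ j : ℕ, {ω | ((j : ℝ) + 1) < ‖ξ (j + 1) ω‖}) := measure_mono hsub
      _ ≤ ∑' j : ℕ, P {ω | ((j : ℝ) + 1) < ‖ξ (j + 1) ω‖} := measure_iUnion_le _
      _ = ∑' j : ℕ, ENNReal.ofReal (Real.exp (-((j : ℝ) + 1) ^ 2)) := by
          refine tsum_congr fun j => ?_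
          have hms : MeasurableSet {w : ℂ | ((j : ℝ) + 1) < ‖w‖} :=
            measurableSet_lt measurable_const measurable_norm
          have h1 : P {ω | ((j : ℝ) + 1) < ‖ξ (j + 1) ω‖} =
              P.map (ξ (j + 1)) {w : ℂ | ((j : ℝ) + 1) < ‖w‖} := by
            rw [Measure.map_apply (h.meas _) hms]
            rfl
          rw [h1, h.law, stdC_tail (by positivity)]
      _ ≤ 1 / 2 := sum_bound
  have hTge : (1 / 2 : ℝ) ≤ (P T).toReal := by
    have h1 : P.real Tᶜ = 1 - P.real T := probReal_compl_eq_one_sub hTm'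
    have h2 : P.real Tᶜ ≤ 1 / 2 := by
      have := ENNReal.toReal_mono (by simp) hTc
      simpa [Measure.real] using this
    have h3 : P.real T = (P T).toReal := rfl
    linarith
  have hset : {ω | (fun k : Fin (n + 1) => ξ (k : ℕ) ω) ∈ S ∧
      ∀ k : ℕ, n < k → ‖ξ k ω‖ ≤ (k : ℝ)} = A ∩ T := rfl
  rw [hset, hmul, ENNReal.toReal_mul, mul_comm]
  exact mul_le_mul_of_nonneg_left hTge ENNReal.toReal_nonneg

end Pool.Agent.GH
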