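import Mathlib
import Pool.Agent.GH.Stmts

/-!
# ITER: elementary properties of the iteration
-/

namespace Pool.Agent.GH

open MeasureTheory

namespace ITER

theorem ci {f : ℂ → ℝ} (hf : Continuous f) (c : ℂ) (R : ℝ) : CircleIntegrable f c R :=
  hf.continuousOn.circleIntegrable'

theorem continuous_avg {f : ℂ → ℝ} (hf : Continuous f) (h : ℝ) :
    Continuous fun z => Real.circleAverage f z h := by
  have h1 : Continuous fun z : ℂ => ∫ θ in (0 : ℝ)..2 * Real.pi, f (circleMap z h θ) := by
    apply intervalIntegral.continuous_parametric_intervalIntegral_of_continuous'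
    change Continuous fun p : ℂ × ℝ => f (circleMap p.1 h p.2)
    unfold circleMap
    fun_prop
  exact (continuous_const (y := (2 * Real.pi)⁻¹)).smul h1

theorem avg_mono {f g : ℂ → ℝ} (hf : Continuous f) (hg : Continuous g) (h : ∀ z, f z ≤ g z)
    (c : ℂ) (R : ℝ) : Real.circleAverage f c R ≤ Real.circleAverage g c R :=
  Real.circleAverage_mono (ci hf c R) (ci hg c R) fun x _ => h x

theorem Src.continuous {s : ℂ → ℝ} {R S L : ℝ} (hs : Src s R S L) : Continuous s := by
  have hL : 0 ≤ L := by
    have h1 := hs.lip 1 0
    have h2 := abs_nonneg (s 1 - s 0)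
    simp at h1
    linarith
  apply LipschitzWith.continuous (K := ⟨L, hL⟩)
  apply LipschitzWith.of_dist_le_mul
  intro x y
  rw [Real.dist_eq, dist_eq_norm]
  exact hs.lip x y

theorem avg_of_Ah {h : ℝ} (hh : 0 < h) {f : ℂ → ℝ} {z : ℂ} {c : ℝ} (h1 : Ah h f z ≤ c) :
    Real.circleAverage f z h ≤ f z + h ^ 2 / 4 * c := by
  have h2 : Real.circleAverage f z h - f z = h ^ 2 / 4 * Ah h f z := by
    rw [Ah]
    field_simp
  have h3 : h ^ 2 / 4 * Ah h f z ≤ h ^ 2 / 4 * c :=
    mul_le_mul_of_nonneg_left h1 (by positivity)
  linarith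

theorem odo_cont (h : ℝ) {s : ℂ → ℝ} (hs : Continuous s) (k : ℕ) : Continuous (odo h s k) := by
  induction k with
  | zero => exact continuous_const
  | succ k ih =>
    change Continuous fun z => max 0 (Real.circleAverage (odo h s k) z h + h ^ 2 / 4 * (s z - 2))
    have := continuous_avg ih h
    fun_prop

theorem odo_nonneg (h : ℝ) (s : ℂ → ℝ) (k : ℕ) (z : ℂ) : 0 ≤ odo h s k z := by
  cases k with
  | zero => exact le_rfl
  | succ k => exact le_max_left _ _

theorem odo_succ (h : ℝ) (s : ℂ → ℝ) (k : ℕ) (z : ℂ) :
    odo h s (k + 1) z = max 0 (Real.circleAverage (odo h s k) z h + h ^ 2 / 4 * (s z - 2)) := rfl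

end ITER

open ITER

theorem ITER_thm : ITER_Stmt := by
  intro h s R S L hh hs
  have hsc := ITER.Src.continuous hs
  refine ⟨odo_cont h hsc, odo_nonneg h s, ?_, ?_, ?_, ?_⟩
  · intro k
    induction k with
    | zero =>
      intro z
      exact odo_nonneg h s 1 z
    | succ k ih =>
      intro z
      rw [odo_succ, odo_succ h s (k + 1)]
      apply max_le_max le_rfl
      have := avg_mono (odo_cont h hsc k) (odo_cont h hsc (k + 1)) ih z h
      linarith
  · intro b hb hb0 hA k
    induction k with
    | zero =>
      intro z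
      exact hb0 z
    | succ k ih =>
      intro z
      rw [odo_succ]
      apply max_le (hb0 z)
      have h1 := avg_mono (odo_cont h hsc k) hb ih z h
      have h2 := avg_of_Ah hh (hA z)
      linarith
  · intro s' R' S' L' δ ψ χ hs' hδ hδ1 hψ hψ0 hle hA k
    have hsc' := ITER.Src.continuous hs'
    induction k with
    | zero =>
      intro z
      change (0 : ℝ) ≤ (1 - δ) * 0 + δ * ψ z
      have := mul_nonneg hδ (hψ0 z)
      linarith
    | succ k ih =>
      intro z
      rw [odo_succ h s' k]
      have h0 : 0 ≤ (1 - δ) * odo h s (k + 1) z + δ * ψ z := by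
        have h1 := mul_nonneg hδ (hψ0 z)
        have h2 := mul_nonneg (sub_nonneg.mpr hδ1) (odo_nonneg h s (k + 1) z)
        linarith
      apply max_le h0
      have hc := odo_cont h hsc k
      have h1 := avg_mono (odo_cont h hsc' k)
        (g := fun z => (1 - δ) * odo h s k z + δ * ψ z) (by fun_prop) ih z h
      have h2 : Real.circleAverage (fun z => (1 - δ) * odo h s k z + δ * ψ z) z h =
          (1 - δ) * Real.circleAverage (odo h s k) z h + δ * Real.circleAverage ψ z h := by
        rw [Real.circleAverage_fun_add (ci (by fun_prop) z h) (ci (by fun_prop) z h)]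
        have e1 := Real.circleAverage_fun_smul (𝕜 := ℝ) (a := 1 - δ) (f := odo h s k) (c := z)
          (R := h)
        have e2 := Real.circleAverage_fun_smul (𝕜 := ℝ) (a := δ) (f := ψ) (c := z) (R := h)
        simp only [smul_eq_mul] at e1 e2
        rw [e1, e2]
      have h3 := avg_of_Ah hh (hA z)
      have h4 := mul_le_mul_of_nonneg_left h3 hδ
      have h5 : Real.circleAverage (odo h s k) z h + h ^ 2 / 4 * (s z - 2) ≤
          odo h s (k + 1) z := le_max_right _ _
      have h6 := mul_le_mul_of_nonneg_left h5 (sub_nonneg.mpr hδ1)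
      have h7 := mul_le_mul_of_nonneg_left (hle z) (show 0 ≤ h ^ 2 / 4 by positivity)
      rw [h2] at h1
      nlinarith [h1, h4, h6, h7]
  · intro v k
    induction k with
    | zero =>
      intro z
      rfl
    | succ k ih =>
      intro z
      rw [odo_succ, odo_succ]
      have h1 : Real.circleAverage (odo h (fun y => s (y + v)) k) z h =
          Real.circleAverage (odo h s k) (z + v) h := by
        unfold Real.circleAverage
        congr 2
        ext θ
        rw [ih]
        congr 1
        unfold circleMap
        ring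
      rw [h1]

end Pool.Agent.GH
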