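import Pool.Agent.GH.Stmts

/-!
# Hole probability of the Gaussian entire function: the kernel
-/

namespace Pool.Agent.GH

open MeasureTheory Set Filter Topology

namespace KER

/-- The radial integrand. -/
theorem rad_eq {ρ : ℝ} (hρ : 0 < ρ) {t : ℝ} (ht : t ∈ Ioc 0 ρ) :
    t * Real.posLog (ρ / t) = t * Real.log ρ - t * Real.log t := by
  have h1 : 1 ≤ |ρ / t| := by
    rw [abs_of_pos (div_pos hρ ht.1), le_div_iff₀ ht.1]
    linarith [ht.2]
  rw [Real.posLog_eq_log h1, Real.log_div hρ.ne' ht.1.ne']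
  ring

theorem rad_zero {ρ : ℝ} (hρ : 0 < ρ) {t : ℝ} (ht : ρ ≤ t) : Real.posLog (ρ / t) = 0 := by
  have ht0 : 0 < t := hρ.trans_le ht
  rw [Real.posLog_eq_zero_iff, abs_of_pos (div_pos hρ ht0), div_le_one ht0]
  exact ht

theorem cont (ρ : ℝ) : Continuous fun t : ℝ => t * Real.log ρ - t * Real.log t :=
  (continuous_id.mul continuous_const).sub Real.continuous_mul_log

theorem intervalInt {ρ : ℝ} (hρ : 0 < ρ) :
    ∫ t in (0 : ℝ)..ρ, (t * Real.log ρ - t * Real.log t) = ρ ^ 2 / 4 := by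
  have hF : ContinuousOn (fun t : ℝ => t ^ 2 / 2 * Real.log ρ - t * (t * Real.log t) / 2 + t ^ 2 / 4)
      (Icc 0 ρ) := by
    have h1 : Continuous fun t : ℝ => t * Real.log t := Real.continuous_mul_log
    have : Continuous (fun t : ℝ => t ^ 2 / 2 * Real.log ρ - t * (t * Real.log t) / 2 + t ^ 2 / 4) := by
      fun_prop
    exact this.continuousOn
  rw [intervalIntegral.integral_eq_sub_of_hasDerivAt_of_le hρ.le hF (fun t ht => ?_)
    ((cont ρ).intervalIntegrable 0 ρ)]
  · ring
  · have ht0 : t ≠ 0 := ht.1.ne'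
    have h1 : HasDerivAt (fun t : ℝ => t * Real.log t) (Real.log t + 1) t :=
      Real.hasDerivAt_mul_log ht0
    have h2 := ((((hasDerivAt_pow 2 t).div_const 2).mul_const (Real.log ρ)).sub
      (((hasDerivAt_id t).mul h1).div_const 2)).add ((hasDerivAt_pow 2 t).div_const 4)
    refine HasDerivAt.congr_deriv (f' := _) (show HasDerivAt (fun t : ℝ =>
      t ^ 2 / 2 * Real.log ρ - t * (t * Real.log t) / 2 + t ^ 2 / 4) _ t from h2) ?_
    simp only [Nat.cast_ofNat, id_eq]
    ring

theorem integrableOn {ρ : ℝ} (hρ : 0 < ρ) :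
    IntegrableOn (fun t : ℝ => t * Real.posLog (ρ / t)) (Ioi 0) := by
  rw [← Ioc_union_Ioi_eq_Ioi hρ.le]
  refine IntegrableOn.union ?_ ?_
  · refine IntegrableOn.congr_fun (f := fun t : ℝ => t * Real.log ρ - t * Real.log t) ?_
      (fun t ht => (rad_eq hρ ht).symm) measurableSet_Ioc
    exact ((cont ρ).integrableOn_Icc (a := 0) (b := ρ)).mono_set Ioc_subset_Icc_self
  · refine IntegrableOn.congr_fun (f := fun _ => (0 : ℝ)) integrableOn_zero
      (fun t ht => ?_) measurableSet_Ioi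
    rw [rad_zero hρ (le_of_lt ht), mul_zero]

theorem integralIoi {ρ : ℝ} (hρ : 0 < ρ) :
    ∫ t in Ioi (0 : ℝ), t * Real.posLog (ρ / t) = ρ ^ 2 / 4 := by
  have hi := integrableOn hρ
  rw [← Ioc_union_Ioi_eq_Ioi hρ.le] at hi ⊢
  rw [setIntegral_union (Ioc_disjoint_Ioi le_rfl) measurableSet_Ioi
    (hi.mono_set subset_union_left) (hi.mono_set subset_union_right)]
  rw [setIntegral_congr_fun measurableSet_Ioc (fun t ht => rad_eq hρ ht),
    setIntegral_congr_fun (g := fun _ => (0 : ℝ)) measurableSet_Ioi (fun t ht => by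
      rw [rad_zero hρ (le_of_lt ht), mul_zero]), integral_zero, add_zero,
    ← intervalIntegral.integral_of_le hρ.le, intervalInt hρ]

end KER

theorem KER_thm : KER_Stmt := by
  have hA : ∀ ρ : ℝ, 0 < ρ → Integrable (fun y : ℂ => Real.posLog (ρ / ‖y‖)) ∧
      ∫ y : ℂ, Real.posLog (ρ / ‖y‖) = Real.pi * ρ ^ 2 / 2 := by
    intro ρ hρ
    have hvol : (volume : Measure ℂ).real (Metric.ball 0 1) = Real.pi := by
      rw [Measure.real, Complex.volume_ball]
      simp
    refine ⟨?_, ?_⟩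
    · rw [integrable_fun_norm_addHaar (volume : Measure ℂ) (f := fun t => Real.posLog (ρ / t)),
        Complex.finrank_real_complex]
      refine (KER.integrableOn hρ).congr_fun (fun t _ => ?_) measurableSet_Ioi
      simp
    · rw [integral_fun_norm_addHaar (volume : Measure ℂ) (fun t => Real.posLog (ρ / t)),
        Complex.finrank_real_complex, hvol]
      have : ∫ y in Ioi (0 : ℝ), y ^ (2 - 1) • Real.posLog (ρ / y) = ρ ^ 2 / 4 := by
        rw [← KER.integralIoi hρ]
        refine setIntegral_congr_fun measurableSet_Ioi fun t _ => ?_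
        simp
      rw [this]
      simp
      ring
  refine ⟨hA, fun h hh => ?_⟩
  obtain ⟨h1, h2⟩ := hA h hh
  refine ⟨h1.const_mul _, ?_, fun x => ?_, fun x hx => ?_⟩
  · have : ∫ x, ker h x = 4 / h ^ 2 / (2 * Real.pi) * ∫ x : ℂ, Real.posLog (h / ‖x‖) := by
      rw [← integral_const_mul]
      rfl
    rw [this, h2]
    have hpi := Real.pi_ne_zero
    field_simp
    norm_num
  · have := Real.posLog_nonneg (x := h / ‖x‖)
    unfold ker
    positivity
  · unfold ker
    rw [KER.rad_zero hh hx, mul_zero]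

end Pool.Agent.GH
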