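import Pool.Agent.GH.Stmts

/-!
# KI: the key inequality
-/

open MeasureTheory ProbabilityTheory Filter Topology

namespace Pool.Agent.GH

namespace KI

theorem nice_of_dens {β : ℂ → ℝ} {R : ℝ} (hR : 0 < R) (h : Dens β R) : ∃ B, Nice β R B := by
  obtain ⟨L, hL⟩ := h.lip
  have hc : Continuous β := by
    have h1 : LipschitzWith (Real.toNNReal L) β := by
      apply LipschitzWith.of_dist_le_mul
      intro x y
      rw [Real.dist_eq, dist_eq_norm]
      refine (hL x y).trans ?_
      gcongr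
      exact Real.le_coe_toNNReal L
    exact h1.continuous
  have hz1 : β ((R + 1 : ℝ) : ℂ) = 0 := by
    apply h.supp
    rw [Complex.norm_real, Real.norm_eq_abs, abs_of_pos (by linarith)]
    linarith
  have hL0 : 0 ≤ |L| * (2 * R + 1) := by positivity
  refine ⟨|L| * (2 * R + 1), hc.measurable, ?_, h.supp⟩
  intro z
  rcases le_or_gt ‖z‖ R with hz | hz
  · have h1 := hL z ((R + 1 : ℝ) : ℂ)
    rw [hz1, sub_zero] at h1
    refine h1.trans ?_
    have h2 : ‖z - ((R + 1 : ℝ) : ℂ)‖ ≤ 2 * R + 1 := by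
      refine (norm_sub_le _ _).trans ?_
      rw [Complex.norm_real, Real.norm_eq_abs, abs_of_pos (by linarith)]
      linarith
    calc L * ‖z - ((R + 1 : ℝ) : ℂ)‖ ≤ |L| * ‖z - ((R + 1 : ℝ) : ℂ)‖ := by
          gcongr; exact le_abs_self L
      _ ≤ |L| * (2 * R + 1) := by gcongr
  · rw [h.supp z hz, abs_zero]; exact hL0

theorem mass_le {lam : ℂ → ℝ} {R : ℝ} (hR : 0 ≤ R) (h : Nice lam R (1 / Real.pi))
    (hint : Integrable lam) : ∫ z, lam z ≤ R ^ 2 := by
  have hb : (volume (Metric.closedBall (0 : ℂ) R)).toReal = Real.pi * R ^ 2 := by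
    rw [Complex.volume_closedBall, ENNReal.toReal_mul, ENNReal.toReal_pow,
      ENNReal.toReal_ofReal hR]
    simp only [ENNReal.coe_toReal, NNReal.coe_real_pi]
    ring
  have hbi : Integrable (Set.indicator (Metric.closedBall (0 : ℂ) R) fun _ => 1 / Real.pi) := by
    apply (integrable_indicator_iff Metric.isClosed_closedBall.measurableSet).2
    exact integrableOn_const (isCompact_closedBall _ _).measure_lt_top.ne
  have h1 : ∫ z, lam z
      ≤ ∫ z, Set.indicator (Metric.closedBall (0 : ℂ) R) (fun _ => 1 / Real.pi) z := by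
    apply integral_mono hint hbi
    intro z
    by_cases hz : z ∈ Metric.closedBall (0 : ℂ) R
    · rw [Set.indicator_of_mem hz]
      exact (le_abs_self _).trans (h.bdd z)
    · rw [Set.indicator_of_notMem hz]
      rw [Metric.mem_closedBall, dist_zero_right, not_le] at hz
      exact (h.supp z hz).le
  refine h1.trans ?_
  rw [integral_indicator Metric.isClosed_closedBall.measurableSet, setIntegral_const,
    smul_eq_mul, Measure.real, hb]
  have := Real.pi_pos
  apply le_of_eq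
  field_simp

theorem mass_ge {lam : ℂ → ℝ} {K : Set ℂ} (hK : IsCompact K) (hint : Integrable lam)
    (h0 : ∀ z, 0 ≤ lam z) (h1 : ∀ z ∈ K, lam z = 1 / Real.pi) :
    (volume K).toReal / Real.pi ≤ ∫ z, lam z := by
  have h2 : ∫ z in K, lam z ≤ ∫ z, lam z :=
    setIntegral_le_integral hint (Eventually.of_forall h0)
  refine le_trans (le_of_eq ?_) h2
  rw [setIntegral_congr_fun hK.measurableSet (g := fun _ => 1 / Real.pi) (fun z hz => h1 z hz),
    setIntegral_const, smul_eq_mul, Measure.real]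
  ring

end KI

open KI in
/-- The key inequality. -/
theorem KI_thm (h1 : ML_Stmt) (h2 : STAR_Stmt) (h3 : MOM_Stmt) (h4 : POT_Stmt) : KI_Stmt := by
  intro R₀ hR₀
  obtain ⟨R₂, hR₂, HML⟩ := h1 R₀ hR₀
  have hR20 : 0 < R₂ := hR₀.trans hR₂
  refine ⟨R₀ + R₂, by linarith, ?_⟩
  intro K β η ε hKc hKn hKb hKv hβ hη hβη hε
  obtain ⟨B, hBn⟩ := nice_of_dens hR₀ hβ
  have hpc : Continuous (pot β) := (h4.1 β R₀ B hBn).2.2
  obtain ⟨y0, hy0, hmin⟩ := hKc.exists_isMinOn hKn hpc.continuousOn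
  set v0 := (volume K).toReal / Real.pi with hv0
  have hπ := Real.pi_pos
  have hv0p : 0 < v0 := div_pos hKv hπ
  set Eb := Real.exp 2 / 4 * Real.exp (-4 * pot β y0) with hEb
  -- the choice of the small parameter
  have hcont : ContinuousAt (fun e : ℝ => R₂ ^ 2 * e + Eb * (Real.exp (4 * e / v0) - 1) + e) 0 := by
    fun_prop
  have hlim : ∀ᶠ e in 𝓝 (0 : ℝ),
      R₂ ^ 2 * e + Eb * (Real.exp (4 * e / v0) - 1) + e < ε := by
    apply hcont.eventually_lt continuousAt_const
    simpa using hε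
  have hlim2 : ∀ᶠ e in 𝓝[>] (0 : ℝ),
      R₂ ^ 2 * e + Eb * (Real.exp (4 * e / v0) - 1) + e < ε := hlim.filter_mono nhdsWithin_le_nhds
  obtain ⟨ε₁, hε₁, hε₁0⟩ := (hlim2.and self_mem_nhdsWithin).exists
  obtain ⟨m, lam, x₀, B', η', hm, hx₀, hadm, hmass, hw, hEf, hmom⟩ :=
    HML K β η ε₁ hKc hKn hKb hβ hη hβη hε₁0
  have hlint : Integrable lam := (h4.1 lam R₂ _ hadm.lam_nice).1
  have hmge : v0 ≤ m := by
    rw [← hmass]
    apply mass_ge hKc hlint hadm.lam_nonneg
    intro z hz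
    exact (hadm.hole z (by rw [Metric.infDist_zero_of_mem hz]; exact hadm.η_pos)).2
  have hmle : m ≤ R₂ ^ 2 := by
    rw [← hmass]
    exact mass_le hR20.le hadm.lam_nice hlint
  obtain ⟨q, hq⟩ : ∃ q, q = m - ∫ z in Metric.ball x₀ (Real.sqrt m), lam z := ⟨_, rfl⟩
  obtain ⟨hq0, -, -, hstar⟩ := h2 lam R₂ hadm.lam_nice hadm.lam_nonneg x₀ m q hmass.symm hm hq
  refine ⟨x₀, hx₀, m, q, hmge, ?_, hq0, ?_, ?_⟩
  · nlinarith
  · refine ⟨fun z => m * β z, lam, R₂, B', η', hadm, ?_⟩
    have hpm : pot (fun z => m * β z) x₀ = m * pot β x₀ := by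
      have := h4.2 β β R₀ B R₀ B m 0 hBn hBn x₀
      simpa using this
    have hw0 := hadm.w_nonneg x₀
    rw [hpm] at hw hw0
    obtain ⟨w, hwd⟩ : ∃ w, w = m * pot β x₀ - pot lam x₀ := ⟨_, rfl⟩
    have hpl : pot lam x₀ = m * pot β x₀ - w := by rw [hwd]; ring
    rw [hpl] at hstar
    rw [← hwd] at hw hw0
    have hexp : Real.exp (-4 * (m * pot β x₀ - w) / m)
        = Real.exp (-4 * pot β x₀) * Real.exp (4 * w / m) := by
      rw [← Real.exp_add]
      congr 1
      field_simp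
      ring
    rw [hexp] at hstar
    have hE1 : Real.exp (4 * w / m) ≤ Real.exp (4 * ε₁ / v0) := by
      apply Real.exp_le_exp.2
      apply div_le_div₀ (by positivity) (by linarith) hv0p hmge
    have hE2 : Real.exp (-4 * pot β x₀) ≤ Real.exp (-4 * pot β y0) := by
      apply Real.exp_le_exp.2
      have : pot β y0 ≤ pot β x₀ := hmin hx₀
      linarith
    have hE3 : 1 ≤ Real.exp (4 * ε₁ / v0) := Real.one_le_exp (by positivity)
    have hE4 : Real.exp 2 / 4 * (Real.exp (-4 * pot β x₀) * (Real.exp (4 * w / m) - 1))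
        ≤ Eb * (Real.exp (4 * ε₁ / v0) - 1) := by
      rw [hEb, mul_assoc]
      apply mul_le_mul_of_nonneg_left _ (by positivity)
      apply mul_le_mul hE2 (by linarith) _ (Real.exp_pos _).le
      have : 1 ≤ Real.exp (4 * w / m) := Real.one_le_exp (by positivity)
      linarith
    have hmw : m * w ≤ R₂ ^ 2 * ε₁ := by
      apply mul_le_mul hmle hw hw0 (by positivity)
    have e1 : Real.exp 2 / 4 * (Real.exp (-4 * pot β x₀) * Real.exp (4 * w / m))
        = Real.exp 2 / 4 * Real.exp (-4 * pot β x₀)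
          + Real.exp 2 / 4 * (Real.exp (-4 * pot β x₀) * (Real.exp (4 * w / m) - 1)) := by ring
    rw [e1] at hstar
    have e2 : m * (m * pot β x₀ - w) = m ^ 2 * pot β x₀ - m * w := by ring
    rw [e2] at hstar
    have e3 : m ^ 2 * (en β β - pot β x₀) = m ^ 2 * en β β - m ^ 2 * pot β x₀ := by ring
    rw [e3]
    linarith
  · intro p C hp
    have h5 := h3 lam R₂ hadm.lam_nice hadm.lam_nonneg x₀ m q (R₀ + R₂) hmass.symm hm hq
      (by linarith) (by
        have h6 : ‖x₀‖ ≤ R₀ := by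
          have := hKb hx₀
          rwa [Metric.mem_closedBall, dist_zero_right] at this
        have h7 : Real.sqrt m ≤ R₂ := Real.sqrt_le_iff.2 ⟨hR20.le, hmle⟩
        linarith) p C hp
    rw [hmom p, ← mul_sub] at h5
    exact h5

end Pool.Agent.GH
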