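import Pool.Agent.GH.Stmts

/-!
LAMA: bounds for the target density of the odometer.
-/

namespace Pool.Agent.GH

open MeasureTheory ProbabilityTheory Filter Topology

namespace LAMA

theorem continuous_of_lip {w : ℂ → ℝ} {Λ : ℝ} (h : ∀ z z', |w z - w z'| ≤ Λ * ‖z - z'‖) :
    Continuous w := by
  have h2 : LipschitzWith (Real.toNNReal Λ) w := by
    apply LipschitzWith.of_dist_le_mul
    intro z z'
    rw [Real.dist_eq, dist_eq_norm]
    exact (h z z').trans (mul_le_mul_of_nonneg_right (Real.le_coe_toNNReal Λ) (norm_nonneg _))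
  exact h2.continuous

theorem continuous_avg {w : ℂ → ℝ} (hw : Continuous w) (h : ℝ) :
    Continuous fun z => Real.circleAverage w z h := by
  unfold Real.circleAverage
  refine Continuous.fun_const_smul ?_ _
  apply intervalIntegral.continuous_parametric_intervalIntegral_of_continuous'
  apply hw.comp
  show Continuous fun p : ℂ × ℝ => circleMap p.1 h p.2
  unfold circleMap
  fun_prop

theorem avg_nonneg {w : ℂ → ℝ} (h : ∀ z, 0 ≤ w z) (z : ℂ) (r : ℝ) :
    0 ≤ Real.circleAverage w z r := by
  unfold Real.circleAverage
  apply smul_nonneg (by positivity)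
  apply intervalIntegral.integral_nonneg (by positivity)
  intro θ _
  exact h _

theorem avg_zero {w : ℂ → ℝ} {z : ℂ} {r R : ℝ} (hr : 0 ≤ r) (h : ∀ z, R ≤ ‖z‖ → w z = 0)
    (hz : R + r < ‖z‖) : Real.circleAverage w z r = 0 := by
  unfold Real.circleAverage
  have : (fun θ => w (circleMap z r θ)) = fun _ => 0 := by
    funext θ
    apply h
    have h1 : ‖circleMap z r θ - z‖ = r := by
      simp [circleMap, abs_of_nonneg hr]
    have h2 : ‖z‖ ≤ ‖circleMap z r θ‖ + ‖circleMap z r θ - z‖ := by
      have h3 := norm_sub_le (circleMap z r θ) (circleMap z r θ - z)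
      rwa [sub_sub_cancel] at h3
    linarith
  rw [this]
  simp

end LAMA

open LAMA in
/-- Bounds for the target density. -/
theorem LAMA_thm : LAMA_Stmt := by
  intro h s w R S L R₁ Λ hh hs hw
  have hc : Continuous w := continuous_of_lip hw.lip
  have hcs : Continuous s := continuous_of_lip hs.lip
  have hpi := Real.pi_pos
  have hpos : ∀ z, 0 < w z → lamOf h s w z = 1 / Real.pi := by
    intro z hz
    have h1 := hw.eqn z
    have h2 : w z = Real.circleAverage w z h + h ^ 2 / 4 * (s z - 2) := by
      rcases le_total (Real.circleAverage w z h + h ^ 2 / 4 * (s z - 2)) 0 with h3 | h3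
      · rw [max_eq_left h3] at h1
        linarith
      · rw [max_eq_right h3] at h1
        exact h1
    unfold lamOf Ah
    rw [h2]
    field_simp
    ring
  have hzero : ∀ z, w z = 0 → lamOf h s w z =
      (4 / h ^ 2 * Real.circleAverage w z h + s z) / (2 * Real.pi) := by
    intro z hz
    unfold lamOf Ah
    rw [hz, sub_zero]
  refine ⟨?_, ?_, ?_, hpos, ?_⟩
  · unfold lamOf Ah
    have h1 := continuous_avg hc h
    fun_prop
  · intro z
    rcases eq_or_lt_of_le (hw.nonneg z) with h1 | h1
    · rw [hzero z h1.symm]
      have h2 := avg_nonneg hw.nonneg z h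
      have h3 := hs.nonneg z
      positivity
    · rw [hpos z h1]
      positivity
  · intro z
    rcases eq_or_lt_of_le (hw.nonneg z) with h1 | h1
    · rw [hzero z h1.symm]
      have h2 := hw.eqn z
      rw [← h1] at h2
      have h3 : Real.circleAverage w z h + h ^ 2 / 4 * (s z - 2) ≤ 0 := by
        rw [h2]
        exact le_max_right _ _
      have h4 : 4 / h ^ 2 * Real.circleAverage w z h + s z ≤ 2 := by
        have h5 : 4 / h ^ 2 * (Real.circleAverage w z h + h ^ 2 / 4 * (s z - 2)) ≤ 0 :=
          mul_nonpos_of_nonneg_of_nonpos (by positivity) h3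
        have h6 : 4 / h ^ 2 * (Real.circleAverage w z h + h ^ 2 / 4 * (s z - 2)) =
            4 / h ^ 2 * Real.circleAverage w z h + (s z - 2) := by
          field_simp
        linarith
      rw [div_le_div_iff₀ (by positivity) hpi]
      nlinarith
    · exact (hpos z h1).le
  · intro z hz
    have h1 : R₁ + h < ‖z‖ := lt_of_le_of_lt (by gcongr; exact le_max_right _ _) hz
    have h2 : R < ‖z‖ := by
      have := le_max_left R R₁
      linarith
    rw [hzero z (hw.supp z (by linarith)), avg_zero hh.le hw.supp h1, hs.supp z h2]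
    simp

end Pool.Agent.GH
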