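import Pool.Agent.GH.Stmts

/-!
Layer cake formulas for the potential and the energy of a density.
-/

namespace Pool.Agent.GH.LAY

open MeasureTheory Filter Topology

section

variable {lam : ℂ → ℝ} {x₀ : ℂ}

/-- The kernel `(s, y) ↦ 1_{‖y - x₀‖ < s} lam y / s`. -/
noncomputable def kk (lam : ℂ → ℝ) (x₀ : ℂ) (s : ℝ) (y : ℂ) : ℝ :=
  (Metric.ball x₀ s).indicator lam y / s

theorem meas_kk (hm : Measurable lam) : Measurable (Function.uncurry (kk lam x₀)) := by
  have h : Function.uncurry (kk lam x₀) =
      fun p : ℝ × ℂ => (if ‖p.2 - x₀‖ < p.1 then lam p.2 else 0) / p.1 := by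
    funext p
    simp only [Function.uncurry, kk, Set.indicator, Metric.mem_ball, dist_eq_norm]
  rw [h]
  refine Measurable.div ?_ measurable_fst
  refine Measurable.ite ?_ (hm.comp measurable_snd) measurable_const
  exact measurableSet_lt ((measurable_snd.sub measurable_const).norm) measurable_fst

theorem int_kk (s : ℝ) : ∫ y, kk lam x₀ s y = (∫ z in Metric.ball x₀ s, lam z) / s := by
  unfold kk
  rw [integral_div, integral_indicator Metric.isOpen_ball.measurableSet]

theorem kk_eq (s : ℝ) (y : ℂ) :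
    kk lam x₀ s y = (Set.Ioi ‖y - x₀‖).indicator (fun s => 1 / s) s * lam y := by
  unfold kk
  simp only [Set.indicator, Metric.mem_ball, dist_eq_norm, Set.mem_Ioi]
  split_ifs
  · ring
  · simp

theorem int_kk_s {ρ : ℝ} (hρ : 0 < ρ) {y : ℂ} (hy : y ≠ x₀) :
    ∫ s in Set.Ioc 0 ρ, kk lam x₀ s y =
      (Real.log (max ρ ‖y - x₀‖) - Real.log ‖y - x₀‖) * lam y := by
  have hr : 0 < ‖y - x₀‖ := norm_pos_iff.mpr (sub_ne_zero.mpr hy)
  simp_rw [kk_eq]
  rw [integral_mul_const]
  congr 1
  rw [setIntegral_indicator measurableSet_Ioi, Set.Ioc_inter_Ioi, max_eq_right hr.le]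
  rcases le_or_gt ρ ‖y - x₀‖ with h | h
  · rw [Set.Ioc_eq_empty (not_lt.mpr h), max_eq_right h]
    simp
  · rw [max_eq_left h.le, ← intervalIntegral.integral_of_le h.le,
      integral_one_div_of_pos hr hρ, Real.log_div hρ.ne' hr.ne']

theorem integrable_kk (hm : Measurable lam) (hi : Integrable lam) (h0 : ∀ z, 0 ≤ lam z)
    {M : ℝ → ℝ} (hM : ∀ s, M s = ∫ z in Metric.ball x₀ s, lam z) (hmon : Monotone M)
    (hM0 : ∀ s, 0 ≤ M s) (hM2 : ∀ s, 0 ≤ s → M s ≤ s ^ 2) {ρ : ℝ} :
    Integrable (Function.uncurry (kk lam x₀)) ((volume.restrict (Set.Ioc 0 ρ)).prod volume) := by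
  rw [integrable_prod_iff (meas_kk hm).aestronglyMeasurable]
  constructor
  · refine Eventually.of_forall fun s => ?_
    exact (hi.indicator Metric.isOpen_ball.measurableSet).div_const s
  · have h : ∀ s ∈ Set.Ioc 0 ρ, ∫ y, ‖Function.uncurry (kk lam x₀) (s, y)‖ = M s / s := by
      intro s hs
      rw [hM, ← int_kk]
      refine integral_congr_ae (Eventually.of_forall fun y => ?_)
      show ‖kk lam x₀ s y‖ = kk lam x₀ s y
      rw [Real.norm_eq_abs, abs_of_nonneg]
      exact div_nonneg (Set.indicator_nonneg (fun z _ => h0 z) y) hs.1.le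
    have hb : IntegrableOn (fun s => M s / s) (Set.Ioc 0 ρ) := by
      refine Measure.integrableOn_of_bounded (M := |ρ|) (by simp) ?_ ?_
      · exact (hmon.measurable.div measurable_id).aestronglyMeasurable
      · rw [ae_restrict_iff' measurableSet_Ioc]
        refine Eventually.of_forall fun s hs => ?_
        rw [Real.norm_eq_abs, abs_of_nonneg (div_nonneg (hM0 s) hs.1.le), div_le_iff₀ hs.1]
        have h1 := hM2 s hs.1.le
        have h2 : s ≤ |ρ| := hs.2.trans (le_abs_self ρ)
        nlinarith [hs.1]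
    refine (integrableOn_congr_fun h measurableSet_Ioc).mpr hb

/-- The first formula. -/
theorem inner_formula (hm : Measurable lam) (hi : Integrable lam) (h0 : ∀ z, 0 ≤ lam z)
    {M : ℝ → ℝ} (hM : ∀ s, M s = ∫ z in Metric.ball x₀ s, lam z) (hmon : Monotone M)
    (hM0 : ∀ s, 0 ≤ M s) (hM2 : ∀ s, 0 ≤ s → M s ≤ s ^ 2) {ρ : ℝ} (hρ : 0 ≤ ρ) :
    Integrable (fun y => (Real.log (max ρ ‖y - x₀‖) - Real.log ‖y - x₀‖) * lam y) ∧
    ∫ y, (Real.log (max ρ ‖y - x₀‖) - Real.log ‖y - x₀‖) * lam y =
      ∫ s in Set.Ioc 0 ρ, M s / s := by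
  rcases hρ.eq_or_lt with rfl | hρ
  · have h : (fun y => (Real.log (max 0 ‖y - x₀‖) - Real.log ‖y - x₀‖) * lam y) = fun _ => 0 := by
      funext y
      rw [max_eq_right (norm_nonneg _)]
      simp
    constructor
    · rw [h]; exact integrable_zero _ _ _
    · rw [h]; simp
  have hI := integrable_kk (ρ := ρ) hm hi h0 hM hmon hM0 hM2
  have hae : ∀ᵐ y : ℂ, y ≠ x₀ := by
    rw [ae_iff]
    simp
  have he : (fun y => ∫ s in Set.Ioc 0 ρ, kk lam x₀ s y) =ᵐ[volume]
      fun y => (Real.log (max ρ ‖y - x₀‖) - Real.log ‖y - x₀‖) * lam y := by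
    filter_upwards [hae] with y hy
    exact int_kk_s hρ hy
  constructor
  · exact (hI.integral_prod_right).congr he
  · rw [← integral_congr_ae he]
    have h := integral_integral_swap hI
    rw [← h]
    refine integral_congr_ae (Eventually.of_forall fun s => ?_)
    show ∫ y, kk lam x₀ s y = M s / s
    rw [int_kk, hM]

/-- The second formula. -/
theorem outer_formula (hm : Measurable lam) (hi : Integrable lam)
    {M : ℝ → ℝ} (hM : ∀ s, M s = ∫ z in Metric.ball x₀ s, lam z) {m : ℝ} (hmm : m = ∫ z, lam z)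
    {a T : ℝ} {g : ℝ → ℝ} (hg : IntegrableOn g (Set.Ioc a T)) (hgm : Measurable g) :
    Integrable (fun z => (∫ s in Set.Ioc a T, (Set.Iic ‖z - x₀‖).indicator g s) * lam z) ∧
    ∫ z, (∫ s in Set.Ioc a T, (Set.Iic ‖z - x₀‖).indicator g s) * lam z =
      ∫ s in Set.Ioc a T, g s * (m - M s) := by
  set F : ℝ → ℂ → ℝ := fun s z => (Set.Iic ‖z - x₀‖).indicator g s * lam z with hF
  have hFm : Measurable (Function.uncurry F) := by
    have h : Function.uncurry F =
        fun p : ℝ × ℂ => (if p.1 ≤ ‖p.2 - x₀‖ then g p.1 else 0) * lam p.2 := by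
      funext p
      simp only [Function.uncurry, hF, Set.indicator, Set.mem_Iic]
    rw [h]
    refine Measurable.mul ?_ (hm.comp measurable_snd)
    refine Measurable.ite ?_ (hgm.comp measurable_fst) measurable_const
    exact measurableSet_le measurable_fst ((measurable_snd.sub measurable_const).norm)
  have hFi : Integrable (Function.uncurry F) ((volume.restrict (Set.Ioc a T)).prod volume) := by
    have h1 : Integrable (fun p : ℝ × ℂ => g p.1 * lam p.2)
        ((volume.restrict (Set.Ioc a T)).prod volume) := Integrable.mul_prod hg hi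
    refine h1.mono hFm.aestronglyMeasurable (Eventually.of_forall fun p => ?_)
    show ‖(Set.Iic ‖p.2 - x₀‖).indicator g p.1 * lam p.2‖ ≤ ‖g p.1 * lam p.2‖
    rw [norm_mul, norm_mul]
    exact mul_le_mul_of_nonneg_right (norm_indicator_le_norm_self _ _) (norm_nonneg _)
  have he : ∀ z, (∫ s in Set.Ioc a T, (Set.Iic ‖z - x₀‖).indicator g s) * lam z =
      ∫ s in Set.Ioc a T, F s z := by
    intro z
    rw [← integral_mul_const]
  constructor
  · simp_rw [he]
    exact hFi.integral_prod_right
  · simp_rw [he]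
    rw [← integral_integral_swap hFi]
    refine integral_congr_ae (Eventually.of_forall fun s => ?_)
    show ∫ z, F s z = g s * (m - M s)
    have h2 : (fun z => F s z) = fun z => g s * (lam z - (Metric.ball x₀ s).indicator lam z) := by
      funext z
      simp only [hF, Set.indicator, Metric.mem_ball, dist_eq_norm, Set.mem_Iic]
      rcases le_or_gt s ‖z - x₀‖ with h | h
      · rw [if_pos h, if_neg (not_lt.mpr h), sub_zero]
      · rw [if_neg (not_le.mpr h), if_pos h, sub_self, mul_zero, zero_mul]
    rw [h2, integral_const_mul,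
      integral_sub hi (hi.indicator Metric.isOpen_ball.measurableSet),
      integral_indicator Metric.isOpen_ball.measurableSet, hM, hmm]

end

end LAY

open MeasureTheory Filter Topology in
theorem LAY_thm (h1 : POT_Stmt) : LAY_Stmt := by
  intro lam R hlam h0 x₀ m T hmm hm0 hT hmT M hM
  have hi : Integrable lam := (h1.1 lam R _ hlam).1
  have hm := hlam.meas
  have hT0 : 0 < T := (Real.sqrt_pos.mpr hm0).trans_le hmT
  have hmon : Monotone M := by
    intro s t hst
    rw [hM, hM]
    exact setIntegral_mono_set hi.integrableOn (Eventually.of_forall fun z => h0 z)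
      (LE.le.eventuallyLE (Metric.ball_subset_ball hst))
  have hM0 : ∀ s, 0 ≤ M s := by
    intro s
    rw [hM]
    exact integral_nonneg fun z => h0 z
  have hM2 : ∀ s, 0 ≤ s → M s ≤ s ^ 2 := by
    intro s hs
    rw [hM]
    have hfin : (volume : Measure ℂ) (Metric.ball x₀ s) ≠ ⊤ := by
      rw [Complex.volume_ball]
      exact ENNReal.mul_ne_top (ENNReal.pow_ne_top ENNReal.ofReal_ne_top) ENNReal.coe_ne_top
    calc ∫ z in Metric.ball x₀ s, lam z ≤ ∫ z in Metric.ball x₀ s, (1 / Real.pi : ℝ) := by
          refine integral_mono hi.integrableOn (integrableOn_const hfin) fun z => ?_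
          exact (le_abs_self _).trans (hlam.bdd z)
      _ = s ^ 2 := by
          rw [setIntegral_const, measureReal_def, Complex.volume_ball]
          rw [ENNReal.toReal_mul, ENNReal.toReal_pow, ENNReal.toReal_ofReal hs]
          simp only [smul_eq_mul, ENNReal.coe_toReal, NNReal.coe_real_pi]
          field_simp
  have hMm : ∀ s, M s ≤ m := by
    intro s
    rw [hM, hmm]
    exact setIntegral_le_integral hi (Eventually.of_forall fun z => h0 z)
  have hlt : ∀ z, lam z ≠ 0 → ‖z - x₀‖ < T := by
    intro z hz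
    have h : ‖z‖ ≤ R := by
      by_contra h
      exact hz (hlam.supp z (not_le.mp h))
    calc ‖z - x₀‖ ≤ ‖z‖ + ‖x₀‖ := norm_sub_le _ _
      _ ≤ R + ‖x₀‖ := by linarith
      _ < T := hT
  have hMT : ∀ s, T ≤ s → M s = m := by
    intro s hs
    rw [hM, hmm]
    refine setIntegral_eq_integral_of_forall_compl_eq_zero fun z hz => ?_
    by_contra hne
    exact hz (by rw [Metric.mem_ball, dist_eq_norm]; exact (hlt z hne).trans_le hs)
  refine ⟨hmon, hM0, hM2, hMm, hMT, ?_, ?_⟩
  · intro ρ hρ hρT
    obtain ⟨i1, e1⟩ := LAY.inner_formula hm hi h0 hM hmon hM0 hM2 hρ.le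
    have hg : IntegrableOn (fun s : ℝ => 1 / s) (Set.Ioc ρ T) := by
      have h : IntervalIntegrable (fun s : ℝ => 1 / s) volume ρ T :=
        intervalIntegral.intervalIntegrable_one_div (fun x hx => by
          rw [Set.uIcc_of_le hρT] at hx
          exact (hρ.trans_le hx.1).ne') continuousOn_id
      exact (intervalIntegrable_iff_integrableOn_Ioc_of_le hρT).mp h
    obtain ⟨i2, e2⟩ := LAY.outer_formula (a := ρ) (T := T) hm hi hM hmm hg
      (measurable_const.div measurable_id)
    have h3 : ∀ z, (∫ s in Set.Ioc ρ T, (Set.Iic ‖z - x₀‖).indicator (fun s : ℝ => 1 / s) s) *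
        lam z = (Real.log (max ρ ‖z - x₀‖) - Real.log ρ) * lam z := by
      intro z
      by_cases hz : lam z = 0
      · rw [hz, mul_zero, mul_zero]
      congr 1
      rw [setIntegral_indicator measurableSet_Iic, Set.Ioc_inter_Iic, min_eq_right (hlt z hz).le]
      rcases le_or_gt ‖z - x₀‖ ρ with h | h
      · rw [Set.Ioc_eq_empty (not_lt.mpr h), max_eq_left h]
        simp
      · rw [max_eq_right h.le, ← intervalIntegral.integral_of_le h.le,
          integral_one_div_of_pos hρ (hρ.trans h), Real.log_div (hρ.trans h).ne' hρ.ne']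
    simp_rw [h3] at i2 e2
    have h4 : (∫ y, -(Real.log ρ) * lam y) = -m * Real.log ρ := by
      rw [integral_const_mul, ← hmm]; ring
    have h5 : pot lam x₀ = ∫ y, (-(Real.log ρ) * lam y +
        (Real.log (max ρ ‖y - x₀‖) - Real.log ‖y - x₀‖) * lam y -
        (Real.log (max ρ ‖y - x₀‖) - Real.log ρ) * lam y) := by
      unfold pot
      refine integral_congr_ae (Eventually.of_forall fun y => ?_)
      show -Real.log ‖x₀ - y‖ * lam y = _
      rw [norm_sub_rev]
      ring
    have i3 : Integrable (fun y => -(Real.log ρ) * lam y +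
        (Real.log (max ρ ‖y - x₀‖) - Real.log ‖y - x₀‖) * lam y) := (hi.const_mul _).add i1
    rw [h5, integral_sub i3 i2, integral_add (hi.const_mul _) i1, h4, e1,
      e2, intervalIntegral.integral_of_le hρ.le, intervalIntegral.integral_of_le hρT]
    congr 1
    refine integral_congr_ae (Eventually.of_forall fun s => ?_)
    show 1 / s * (m - M s) = (m - M s) / s
    ring
  · have hgm : Measurable fun s => M s / s := hmon.measurable.div measurable_id
    have hg : IntegrableOn (fun s => M s / s) (Set.Ioc 0 T) := by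
      refine Measure.integrableOn_of_bounded (M := T) (by simp) hgm.aestronglyMeasurable ?_
      rw [ae_restrict_iff' measurableSet_Ioc]
      refine Eventually.of_forall fun s hs => ?_
      rw [Real.norm_eq_abs, abs_of_nonneg (div_nonneg (hM0 s) hs.1.le), div_le_iff₀ hs.1]
      have h1 := hM2 s hs.1.le
      nlinarith [hs.1, hs.2]
    obtain ⟨i2, e2⟩ := LAY.outer_formula (a := 0) (T := T) hm hi hM hmm hg hgm
    have h3 : ∀ z, (∫ y, (Real.log (max ‖z - x₀‖ ‖y - x₀‖) - Real.log ‖y - x₀‖) * lam y) * lam z =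
        (∫ s in Set.Ioc 0 T, (Set.Iic ‖z - x₀‖).indicator (fun s => M s / s) s) * lam z := by
      intro z
      by_cases hz : lam z = 0
      · rw [hz, mul_zero, mul_zero]
      congr 1
      rw [(LAY.inner_formula hm hi h0 hM hmon hM0 hM2 (norm_nonneg (z - x₀))).2,
        setIntegral_indicator measurableSet_Iic, Set.Ioc_inter_Iic, min_eq_right (hlt z hz).le]
    simp_rw [h3]
    rw [e2, intervalIntegral.integral_of_le hT0.le]
    refine integral_congr_ae (Eventually.of_forall fun s => ?_)
    show M s / s * (m - M s) = M s * (m - M s) / s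
    ring

end Pool.Agent.GH
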