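import Pool.Agent.GH.Stmts

/-!
# GH, module ML: existence of the admissible data with a point of `K` where the potential is small
-/

namespace Pool.Agent.GH

open MeasureTheory ProbabilityTheory Filter Topology

namespace ML

theorem cont_of_lip {f : ℂ → ℝ} {L : ℝ} (h : ∀ z z', |f z - f z'| ≤ L * ‖z - z'‖) :
    Continuous f := by
  have hL : LipschitzWith (Real.toNNReal L) f := by
    apply LipschitzWith.of_dist_le_mul
    intro z z'
    rw [Real.dist_eq, dist_eq_norm]
    refine (h z z').trans ?_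
    exact mul_le_mul_of_nonneg_right (Real.le_coe_toNNReal L) (norm_nonneg _)
  exact hL.continuous

theorem pot_smul (m : ℝ) (β : ℂ → ℝ) (z : ℂ) :
    pot (fun y => m * β y) z = m * pot β z := by
  unfold pot
  rw [← integral_const_mul]
  congr 1
  ext y
  ring

theorem en_smul (m : ℝ) (β : ℂ → ℝ) :
    en (fun y => m * β y) (fun y => m * β y) = m ^ 2 * en β β := by
  unfold en
  rw [← integral_const_mul]
  congr 1
  ext z
  rw [pot_smul]
  ring

theorem integrable_poly {f : ℂ → ℝ} {R : ℝ} (hf : Continuous f) (hs : ∀ z, R < ‖z‖ → f z = 0)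
    (p : Polynomial ℂ) : Integrable (fun z : ℂ => p.eval z * (f z : ℂ)) := by
  apply Continuous.integrable_of_hasCompactSupport
  · exact (Polynomial.continuous p).mul (Complex.continuous_ofReal.comp hf)
  · refine HasCompactSupport.intro (isCompact_closedBall (0 : ℂ) R) ?_
    intro z hz
    have hz' : R < ‖z‖ := by
      by_contra hcon
      exact hz (by simpa [Metric.mem_closedBall, dist_zero_right] using not_lt.mp hcon)
    simp [hs z hz']

end ML

open ML

theorem ML_thm (h1 : MLA_Stmt) (h2 : TAILW_Stmt) (h3 : LAMA_Stmt) (h4 : CONV_Stmt)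
    (h5 : SMO_Stmt) (h6 : ENE_Stmt) (_h7 : KER_Stmt) (h8 : POT_Stmt) : ML_Stmt := by
  intro R₀ hR₀
  obtain ⟨R₂', hR₂', hT⟩ := h2 R₀ hR₀
  refine ⟨R₂' + 1, by linarith, ?_⟩
  intro K β η ε hK hKne hKR hβ hη hβη hε
  -- the level
  set ε0 : ℝ := min ε 1 / 4 with hε0
  have hmin : 0 < min ε 1 := lt_min hε one_pos
  have hε0pos : 0 < ε0 := by positivity
  have hε0a : 4 * ε0 ≤ ε := by
    have := min_le_left ε 1
    rw [hε0]; linarith
  have hε0b : 4 * ε0 ≤ 1 := by
    have := min_le_right ε 1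
    rw [hε0]; linarith
  obtain ⟨m₁, R₁, Λ, h₀, S, L, hm₁, hΛ, hh₀, hh₀1, hM⟩ :=
    h1 R₀ ε0 K β hR₀ hε0pos (by linarith) hK hKne hβ
  -- the scale
  set h : ℝ := min h₀ (min (ε0 / Λ) (ε / (2 * Λ * m₁))) with hh
  have hhpos : 0 < h := by
    refine lt_min hh₀ (lt_min ?_ ?_) <;> positivity
  have hhh₀ : h ≤ h₀ := min_le_left _ _
  have hh1 : h ≤ 1 := hhh₀.trans hh₀1
  have hhΛ : Λ * h ≤ ε0 := by
    have : h ≤ ε0 / Λ := (min_le_right _ _).trans (min_le_left _ _)
    rw [le_div_iff₀ hΛ] at this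
    linarith
  have hhm : 2 * (Λ * h) * m₁ ≤ ε := by
    have : h ≤ ε / (2 * Λ * m₁) := (min_le_right _ _).trans (min_le_right _ _)
    rw [le_div_iff₀ (by positivity)] at this
    linarith
  obtain ⟨m, s, x₀, hx₀, hm, hmm₁, hs, hSrc, hOdo, hle, htend, hKle, hx₀e⟩ := hM h hhpos hhh₀
  set w : ℂ → ℝ := Odo h s with hw
  set w' : ℂ → ℝ := fun z => ∫ y, ker h (z - y) * w y with hw'
  have hwc : Continuous w := cont_of_lip hOdo.lip
  -- first use of the smoothing
  have hsmo0 := h5 h w (max R₁ 0) Λ hhpos (le_max_right _ _) hΛ.le hOdo.nonneg hOdo.lip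
    (fun z hz => hOdo.supp z ((le_max_left _ _).trans hz)) w' (fun z => rfl)
  have hw'x₀ : w' x₀ ≤ ε0 + Λ * h := by
    have := (abs_le.mp (hsmo0.2.1 x₀)).2
    rw [hx₀e] at this
    linarith
  have hx₀R : ‖x₀‖ ≤ R₀ := by
    have := hKR hx₀
    simpa [Metric.mem_closedBall, dist_zero_right] using this
  have htail := hT h s S L R₁ Λ x₀ hhpos hh1 (by linarith) hSrc hOdo hle htend hx₀R
    (by
      have : w' x₀ ≤ 1 := by linarith
      exact this)
  have hOdo' : IsOdo h s w R₂' Λ :=
    { nonneg := hOdo.nonneg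
      lip := hOdo.lip
      supp := htail
      eqn := hOdo.eqn }
  have hR₂'pos : 0 < R₂' := hR₀.trans hR₂'
  obtain ⟨hw'0, hw'w, hw'supp, hwint, hw'int, hw'eq⟩ :=
    h5 h w R₂' Λ hhpos hR₂'pos.le hΛ.le hOdo'.nonneg hOdo'.lip hOdo'.supp w' (fun z => rfl)
  obtain ⟨hlc, hl0, hl1, hlpos, hlsupp⟩ := h3 h s w R₀ S L R₂' Λ hhpos hSrc hOdo'
  set lam : ℂ → ℝ := lamOf h s w with hlam
  set σ : ℂ → ℝ := fun z => m * β z with hσ
  have hπ : 0 < Real.pi := Real.pi_pos
  have hsσ : ∀ z, s z = 2 * Real.pi * σ z := by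
    intro z
    rw [hs, hσ]
    ring
  obtain ⟨Lβ, hLβ⟩ := hβ.lip
  have hβc : Continuous β := cont_of_lip hLβ
  have hσc : Continuous σ := continuous_const.mul hβc
  have hsc : Continuous s := cont_of_lip hSrc.lip
  have hlsupp' : ∀ z, R₂' + 1 < ‖z‖ → lam z = 0 := by
    intro z hz
    apply hlsupp z
    rw [max_eq_right hR₂'.le]
    linarith
  have hσsupp : ∀ z, R₂' + 1 < ‖z‖ → σ z = 0 := by
    intro z hz
    rw [hσ]
    simp only
    rw [hβ.supp z (by linarith), mul_zero]
  have hσS : ∀ z, |σ z| ≤ S / (2 * Real.pi) := by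
    intro z
    rw [abs_of_nonneg (mul_nonneg hm.le (hβ.nonneg z)), le_div_iff₀ (by positivity)]
    have := hSrc.le z
    rw [hsσ z] at this
    linarith
  have hσnice : Nice σ (R₂' + 1) (S / (2 * Real.pi)) :=
    { meas := hσc.measurable
      bdd := hσS
      supp := hσsupp }
  have hlnice : Nice lam (R₂' + 1) (1 / Real.pi) :=
    { meas := hlc.measurable
      bdd := fun z => by rw [abs_of_nonneg (hl0 z)]; exact hl1 z
      supp := hlsupp' }
  -- the nonlocal Laplacian of the odometer
  have hA : ∀ z, Ah h w z = 2 * Real.pi * lam z - s z := by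
    intro z
    rw [hlam]
    unfold lamOf
    field_simp
    ring
  have hAfun : Ah h w = fun z => 2 * Real.pi * lam z - s z := funext hA
  have hAc : Continuous (Ah h w) := by
    rw [hAfun]
    exact (continuous_const.mul hlc).sub hsc
  have hAsupp : ∀ z, R₂' + 1 < ‖z‖ → Ah h w z = 0 := by
    intro z hz
    rw [hA z, hlsupp' z hz, hsσ z, hσsupp z hz]
    ring
  have hAnice : Nice (Ah h w) (R₂' + 1) (2 + S) :=
    { meas := hAc.measurable
      bdd := fun z => by
        rw [hA z, abs_le]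
        have e1 := hl0 z
        have e2 := hl1 z
        have e3 := hSrc.nonneg z
        have e4 := hSrc.le z
        have e5 : 2 * Real.pi * lam z ≤ 2 := by
          rw [le_div_iff₀ hπ] at e2
          nlinarith
        have e6 : 0 ≤ 2 * Real.pi * lam z := by positivity
        constructor <;> linarith
      supp := hAsupp }
  have hlamσ : ∀ z, lam z = 1 * σ z + 1 / (2 * Real.pi) * Ah h w z := by
    intro z
    rw [hA z, hsσ z]
    field_simp
    ring
  have hlamfun : lam = fun z => 1 * σ z + 1 / (2 * Real.pi) * Ah h w z := funext hlamσ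
  obtain ⟨hc1, hc2, hc3⟩ := h4 h w R₂' hhpos hwc hOdo'.supp
  have hpot : ∀ z, pot σ z - pot lam z = w' z := by
    intro z
    have e1 := h8.2 σ (Ah h w) _ _ _ _ 1 (1 / (2 * Real.pi)) hσnice hAnice z
    have e2 : pot lam z = 1 * pot σ z + 1 / (2 * Real.pi) * pot (Ah h w) z := by
      rw [← e1, ← hlamfun]
    rw [e2, hc1 z]
    have e3 : w' z = ∫ y, ker h (z - y) * w y := rfl
    rw [e3]
    field_simp
    ring
  have hσint : Integrable σ := (h8.1 σ _ _ hσnice).1
  have hAint : Integrable (Ah h w) := (h8.1 _ _ _ hAnice).1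
  have hσmass : ∫ z, σ z = m := by
    rw [hσ]
    simp only
    rw [integral_const_mul, hβ.mass, mul_one]
  have hlmass : ∫ z, lam z = m := by
    have e1 : ∫ z, lam z = ∫ z, (σ z + 1 / (2 * Real.pi) * Ah h w z) := by
      congr 1
      ext z
      rw [hlamσ z, one_mul]
    have e2 : ∫ z, 1 / (2 * Real.pi) * Ah h w z = 0 := by
      rw [integral_const_mul, hc2, mul_zero]
    rw [e1, integral_add hσint (hAint.const_mul _), e2, hσmass, add_zero]
  have hpotfun : (fun z => pot σ z - pot lam z) = w' := funext hpot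
  have hη' : 0 < min η (ε0 / Λ) := lt_min hη (by positivity)
  refine ⟨m, lam, x₀, S / (2 * Real.pi), min η (ε0 / Λ), hm, hx₀, ?_, hlmass, ?_, ?_, ?_⟩
  · refine
      { σ_nice := hσnice
        σ_nonneg := fun z => mul_nonneg hm.le (hβ.nonneg z)
        lam_nice := hlnice
        lam_nonneg := hl0
        mass := by rw [hlmass]; exact hσmass
        η_pos := hη'
        hole := ?_
        w_nonneg := fun z => by rw [hpot z]; exact hw'0 z
        w_supp := fun z hz => by
          rw [hpot z]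
          exact hw'supp z (by linarith) }
    intro z hz
    refine ⟨?_, ?_⟩
    · have : β z = 0 := hβη z (hz.trans_le (min_le_left _ _))
      change m * β z = 0
      rw [this, mul_zero]
    · apply hlpos z
      have hz' : Metric.infDist z K < ε0 / Λ := hz.trans_le (min_le_right _ _)
      obtain ⟨x, hx, hxz⟩ := (Metric.infDist_lt_iff hKne).mp hz'
      have e1 := hKle x hx
      have e2 := (abs_le.mp (hOdo'.lip x z)).2
      rw [dist_eq_norm, norm_sub_rev, lt_div_iff₀ hΛ] at hxz
      have e3 : w x = Odo h s x := rfl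
      linarith
  · have e1 := hpot x₀
    have e2 : pot (fun z => m * β z) x₀ - pot lam x₀ = w' x₀ := e1
    rw [e2]
    linarith
  · have e1 := h6 σ lam w (R₂' + 1) (S / (2 * Real.pi)) (Λ * h) hσnice
      (fun z => mul_nonneg hm.le (hβ.nonneg z)) hlnice hl0 hOdo'.nonneg hwint hwc
      (fun z hz => hOdo'.supp z (by linarith)) (by rw [hpotfun]; exact hw'int)
      (fun z => by rw [hpot z]; exact hw'w z)
      (by rw [hpotfun]; exact hw'eq) hlpos
    have e2 : en σ σ = m ^ 2 * en β β := en_smul m β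
    rw [e2, hlmass] at e1
    have e3 : 2 * (Λ * h) * m ≤ 2 * (Λ * h) * m₁ := by
      apply mul_le_mul_of_nonneg_left hmm₁
      positivity
    change Efun σ lam ≤ _
    linarith
  · intro p
    have i1 : Integrable (fun z : ℂ => p.eval z * (σ z : ℂ)) := integrable_poly hσc hσsupp p
    have i2 : Integrable (fun z : ℂ => p.eval z * (Ah h w z : ℂ)) := integrable_poly hAc hAsupp p
    have e1 : ∫ z, p.eval z * (lam z : ℂ) =
        ∫ z, (p.eval z * (σ z : ℂ) + (1 / (2 * Real.pi) : ℂ) * (p.eval z * (Ah h w z : ℂ))) := by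
      congr 1
      ext z
      rw [hlamσ z]
      push_cast
      ring
    rw [e1, integral_add i1 (i2.const_mul _), integral_const_mul, hc3 p, mul_zero, add_zero]
    have e2 : ∀ z : ℂ, p.eval z * (σ z : ℂ) = (m : ℂ) * (p.eval z * (β z : ℂ)) := by
      intro z
      change p.eval z * ((m * β z : ℝ) : ℂ) = _
      push_cast
      ring
    simp_rw [e2]
    rw [integral_const_mul]

end Pool.Agent.GH
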