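import Pool.Agent.GH.Stmts

/-!
# MLA: the intermediate value argument
-/

namespace Pool.Agent.GH

open MeasureTheory ProbabilityTheory Filter Topology

namespace MLA

/-- A density is bounded. -/
theorem dens_bdd {β : ℂ → ℝ} {R₀ : ℝ} (hR : 0 < R₀) (hβ : Dens β R₀) :
    ∃ B L : ℝ, 0 < B ∧ 0 < L ∧ (∀ z, β z ≤ B) ∧ (∀ z z', |β z - β z'| ≤ L * ‖z - z'‖) := by
  obtain ⟨L, hL⟩ := hβ.lip
  have hL' : ∀ z z', |β z - β z'| ≤ (|L| + 1) * ‖z - z'‖ := by
    intro z z'
    refine (hL z z').trans ?_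
    have h1 := le_abs_self L
    exact mul_le_mul_of_nonneg_right (by linarith) (norm_nonneg _)
  have hLp : 0 < |L| + 1 := by positivity
  refine ⟨(|L| + 1) * (2 * R₀ + 1), |L| + 1, by positivity, hLp, ?_, hL'⟩
  intro z
  by_cases hz : R₀ < ‖z‖
  · rw [hβ.supp z hz]
    positivity
  · push Not at hz
    have hz' : R₀ < ‖((R₀ + 1 : ℝ) : ℂ)‖ := by
      rw [Complex.norm_real, Real.norm_eq_abs, abs_of_pos (by linarith)]
      linarith
    have h1 := hL' z ((R₀ + 1 : ℝ) : ℂ)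
    rw [hβ.supp _ hz', sub_zero, abs_of_nonneg (hβ.nonneg z)] at h1
    refine h1.trans (mul_le_mul_of_nonneg_left ?_ hLp.le)
    refine (norm_sub_le _ _).trans ?_
    rw [Complex.norm_real, Real.norm_eq_abs, abs_of_pos (by linarith : (0 : ℝ) < R₀ + 1)]
    linarith

/-- A function with a Lipschitz estimate is continuous. -/
theorem cont_of_lip {w : ℂ → ℝ} {Λ : ℝ} (h : ∀ z z', |w z - w z'| ≤ Λ * ‖z - z'‖) :
    Continuous w := by
  have h2 : LipschitzWith (Real.toNNReal Λ) w := by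
    refine LipschitzWith.of_dist_le_mul fun z z' => ?_
    rw [Real.dist_eq, dist_eq_norm]
    refine (h z z').trans (mul_le_mul_of_nonneg_right (Real.le_coe_toNNReal Λ) (norm_nonneg _))
  exact h2.continuous

/-- The potential difference of a source and its target. -/
theorem target {h : ℝ} {β : ℂ → ℝ} {R₀ S L R₁ Λ m B : ℝ} {w : ℂ → ℝ} (hh : 0 < h) (hm : 0 < m)
    (hβ : Dens β R₀) (hβN : Nice β R₀ B)
    (hs : Src (fun z => 2 * Real.pi * m * β z) R₀ S L)
    (hw : IsOdo h (fun z => 2 * Real.pi * m * β z) w R₁ Λ)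
    (h3 : LAMA_Stmt) (h4 : CONV_Stmt) (h6 : STAR_Stmt) (h7 : POT_Stmt) (z : ℂ) :
    m * pot β z - m / 2 * (1 - Real.log m) ≤ ∫ y, ker h (z - y) * w y := by
  have hpi := Real.pi_pos
  obtain ⟨hc, h0, h1, -, hsupp⟩ := h3 h _ w R₀ S L R₁ Λ hh hs hw
  set s : ℂ → ℝ := fun z => 2 * Real.pi * m * β z with hsdef
  set lam := lamOf h s w with hlam
  have hlN : Nice lam (max R₀ R₁ + h) (1 / Real.pi) := by
    refine ⟨hc.measurable, fun z => ?_, fun z hz => hsupp z hz⟩
    rw [abs_of_nonneg (h0 z)]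
    exact h1 z
  have hwc : Continuous w := cont_of_lip hw.lip
  obtain ⟨hpA, hmA, -⟩ := h4 h w R₁ hh hwc hw.supp
  have hA : Ah h w = fun y => (2 * Real.pi) * lam y + (-(2 * Real.pi * m)) * β y := by
    funext y
    rw [hlam]
    unfold lamOf
    rw [hsdef]
    field_simp
    ring
  have hpot : pot (Ah h w) z = (2 * Real.pi) * pot lam z + (-(2 * Real.pi * m)) * pot β z := by
    rw [hA]
    exact h7.2 lam β _ _ _ _ _ _ hlN hβN z
  have hintL : Integrable lam := (h7.1 lam _ _ hlN).1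
  have hintβ : Integrable β := (h7.1 β _ _ hβN).1
  have hmass : ∫ z, lam z = m := by
    have e1 : ∫ z, Ah h w z = (2 * Real.pi) * (∫ z, lam z) + (-(2 * Real.pi * m)) * ∫ z, β z := by
      rw [hA, integral_add (hintL.const_mul _) (hintβ.const_mul _), integral_const_mul,
        integral_const_mul]
    rw [hmA, hβ.mass] at e1
    have h2pi : (2 * Real.pi) ≠ 0 := by positivity
    have e2 : (2 * Real.pi) * (∫ z, lam z) = (2 * Real.pi) * m := by linarith
    exact mul_left_cancel₀ h2pi e2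
  have hstar := (h6 lam _ hlN h0 z m _ hmass.symm hm rfl).2.2.1
  have e3 := hpA z
  rw [hpot] at e3
  have e4 : ∫ y, ker h (z - y) * w y = m * pot β z - pot lam z := by
    have h2pi : (2 * Real.pi) ≠ 0 := by positivity
    have : (2 * Real.pi) * (∫ y, ker h (z - y) * w y) = (2 * Real.pi) * (m * pot β z - pot lam z) := by
      linarith
    exact mul_left_cancel₀ h2pi this
  rw [e4]
  linarith

end MLA

open MLA in
theorem MLA_thm (h1 : ODO_Stmt) (h2 : ITER_Stmt) (h3 : LAMA_Stmt) (h4 : CONV_Stmt)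
    (h5 : SMO_Stmt) (h6 : STAR_Stmt) (h7 : POT_Stmt) (_h8 : KER_Stmt) : MLA_Stmt := by
  intro R₀ ε K β hR hε hε1 hK hKne hβ
  have hpi := Real.pi_pos
  obtain ⟨B, Lβ, hB, hLβ, hβB, hβL⟩ := dens_bdd hR hβ
  have hβc : Continuous β := cont_of_lip hβL
  have hβN : Nice β R₀ B := by
    refine ⟨hβc.measurable, fun z => ?_, fun z hz => hβ.supp z hz⟩
    rw [abs_of_nonneg (hβ.nonneg z)]
    exact hβB z
  have hpc : Continuous (pot β) := (h7.1 β _ _ hβN).2.2
  obtain ⟨xm, hxm, hmin⟩ := hK.exists_isMinOn hKne hpc.continuousOn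
  set c₀ := pot β xm with hc₀
  have hc₀' : ∀ x ∈ K, c₀ ≤ pot β x := fun x hx => hmin hx
  set m₁ := Real.exp (2 * (|c₀| + 5 / 2)) with hm₁
  have hm₁1 : 1 ≤ m₁ := by
    rw [hm₁]
    apply Real.one_le_exp
    positivity
  have hm₁0 : 0 < m₁ := by linarith
  have hlog : Real.log m₁ = 2 * (|c₀| + 5 / 2) := by rw [hm₁, Real.log_exp]
  have hbig : ∀ x ∈ K, 2 ≤ m₁ * pot β x - m₁ / 2 * (1 - Real.log m₁) := by
    intro x hx
    rw [hlog]
    have e1 := hc₀' x hx
    have e2 := neg_abs_le c₀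
    have e3 : 2 ≤ pot β x - 1 / 2 * (1 - 2 * (|c₀| + 5 / 2)) := by linarith
    calc (2 : ℝ) ≤ m₁ * 2 := by linarith
      _ ≤ m₁ * (pot β x - 1 / 2 * (1 - 2 * (|c₀| + 5 / 2))) :=
          mul_le_mul_of_nonneg_left e3 hm₁0.le
      _ = _ := by ring
  set S := 2 * Real.pi * m₁ * B with hS
  set L := 2 * Real.pi * m₁ * Lβ with hL
  have hS0 : 0 < S := by positivity
  have hL0 : 0 < L := by positivity
  obtain ⟨R₁, W, Λ, hRR, hW, hΛ, hodo⟩ := h1 R₀ S L hR hS0 hL0
  have hsrc : ∀ m : ℝ, 0 ≤ m → m ≤ m₁ → Src (fun z => 2 * Real.pi * m * β z) R₀ S L := by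
    intro m hm hmm
    refine ⟨fun z => ?_, fun z => ?_, fun z z' => ?_, fun z hz => ?_⟩
    · have := hβ.nonneg z
      positivity
    · rw [hS]
      have e1 : 2 * Real.pi * m ≤ 2 * Real.pi * m₁ := mul_le_mul_of_nonneg_left hmm (by positivity)
      exact mul_le_mul e1 (hβB z) (hβ.nonneg z) (by positivity)
    · show |2 * Real.pi * m * β z - 2 * Real.pi * m * β z'| ≤ L * ‖z - z'‖
      rw [← mul_sub, abs_mul, abs_of_nonneg (by positivity : 0 ≤ 2 * Real.pi * m), hL, mul_assoc _ Lβ]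
      have e1 : 2 * Real.pi * m ≤ 2 * Real.pi * m₁ := mul_le_mul_of_nonneg_left hmm (by positivity)
      exact mul_le_mul e1 (hβL z z') (abs_nonneg _) (by positivity)
    · show 2 * Real.pi * m * β z = 0
      rw [hβ.supp z hz, mul_zero]
  refine ⟨m₁, R₁, Λ, min 1 (1 / Λ), S, L, hm₁0, hΛ, by positivity, min_le_left _ _, ?_⟩
  intro h hh hhh
  have hh1 : h ≤ 1 := hhh.trans (min_le_left _ _)
  have hhΛ : Λ * h ≤ 1 := by
    have := hhh.trans (min_le_right _ _)
    rw [le_div_iff₀ hΛ] at this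
    linarith
  set f : ℝ → ℂ → ℝ := fun m => Odo h (fun z => 2 * Real.pi * m * β z) with hf
  -- dependence on `m`
  set C := Λ * (2 * Real.pi * B) with hC
  have hC0 : 0 ≤ C := by positivity
  have hdep : ∀ m m' : ℝ, 0 ≤ m → m ≤ m₁ → 0 ≤ m' → m' ≤ m₁ → ∀ z, |f m z - f m' z| ≤
      C * |m - m'| := by
    intro m m' hm hmm hm' hmm' z
    have := (hodo h _ hh hh1 (hsrc m hm hmm)).2.2.2.2 _ (2 * Real.pi * B * |m - m'|)
      (hsrc m' hm' hmm') (by positivity) (by
        intro y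
        show |2 * Real.pi * m * β y - 2 * Real.pi * m' * β y| ≤ _
        have e1 : 2 * Real.pi * m * β y - 2 * Real.pi * m' * β y =
            (2 * Real.pi) * (β y) * (m - m') := by ring
        rw [e1, abs_mul, abs_of_nonneg (mul_nonneg (by positivity) (hβ.nonneg y) :
          0 ≤ (2 * Real.pi) * β y)]
        exact mul_le_mul_of_nonneg_right (mul_le_mul_of_nonneg_left (hβB y) (by positivity))
          (abs_nonneg _)) z
    rw [hC, mul_assoc Λ]
    exact this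
  -- the minimisers
  have hex : ∀ m : ℝ, ∃ x ∈ K, 0 ≤ m → m ≤ m₁ → ∀ y ∈ K, f m x ≤ f m y := by
    intro m
    by_cases hm : 0 ≤ m ∧ m ≤ m₁
    · have hcont : Continuous (f m) :=
        cont_of_lip (hodo h _ hh hh1 (hsrc m hm.1 hm.2)).1.lip
      obtain ⟨x, hx, hx'⟩ := hK.exists_isMinOn hKne hcont.continuousOn
      exact ⟨x, hx, fun _ _ y hy => hx' hy⟩
    · obtain ⟨x, hx⟩ := hKne
      exact ⟨x, hx, fun h1 h2 => (hm ⟨h1, h2⟩).elim⟩
  choose x hxK hxmin using hex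
  have hφle : ∀ m m' : ℝ, 0 ≤ m → m ≤ m₁ → 0 ≤ m' → m' ≤ m₁ →
      f m (x m) - f m' (x m') ≤ C * |m - m'| := by
    intro m m' hm hmm hm' hmm'
    have e1 := hxmin m hm hmm (x m') (hxK m')
    have e2 := (abs_le.mp (hdep m m' hm hmm hm' hmm' (x m'))).2
    linarith
  have hcont : ContinuousOn (fun m => f m (x m)) (Set.Icc 0 m₁) := by
    have h2 : LipschitzOnWith (Real.toNNReal C) (fun m => f m (x m)) (Set.Icc 0 m₁) := by
      refine LipschitzOnWith.of_dist_le_mul fun m hm m' hm' => ?_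
      rw [Real.dist_eq, Real.dist_eq, Real.coe_toNNReal _ hC0]
      rw [abs_le]
      constructor
      · have := hφle m' m hm'.1 hm'.2 hm.1 hm.2
        rw [abs_sub_comm] at this
        linarith
      · exact hφle m m' hm.1 hm.2 hm'.1 hm'.2
    exact h2.continuousOn
  have hzero : ∀ z, f 0 z ≤ 0 := by
    intro z
    have hs0 := hsrc 0 le_rfl hm₁0.le
    have e1 := (hodo h _ hh hh1 hs0).2.2.2.1 z
    refine le_of_tendsto' e1 fun k => ?_
    refine (h2 h _ R₀ S L hh hs0).2.2.2.1 (fun _ => 0) continuous_const (fun _ => le_rfl) ?_ k z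
    intro y
    unfold Ah
    rw [Real.circleAverage_const]
    simp
  have htop : ε ≤ f m₁ (x m₁) := by
    have hs1 := hsrc m₁ hm₁0.le le_rfl
    have ho := (hodo h _ hh hh1 hs1).1
    have e1 := target hh hm₁0 hβ hβN hs1 ho h3 h4 h6 h7 (x m₁)
    have e2 := hbig (x m₁) (hxK m₁)
    have e3 := (h5 h (f m₁) R₁ Λ hh (by linarith) hΛ.le ho.nonneg ho.lip ho.supp
      (fun z => ∫ y, ker h (z - y) * f m₁ y) (fun _ => rfl)).2.1 (x m₁)
    have e4 := (abs_le.mp e3).2
    have e5 : 2 ≤ ∫ y, ker h (x m₁ - y) * f m₁ y := e2.trans e1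
    have e6 : (fun z => ∫ y, ker h (z - y) * f m₁ y) (x m₁) =
      ∫ y, ker h (x m₁ - y) * f m₁ y := rfl
    linarith
  obtain ⟨m, hm, hmε⟩ := intermediate_value_Icc hm₁0.le hcont
    (show ε ∈ Set.Icc (f 0 (x 0)) (f m₁ (x m₁)) from
      ⟨(hzero _).trans hε.le, htop⟩)
  have hmε' : f m (x m) = ε := hmε
  have hm0 : 0 < m := by
    rcases eq_or_lt_of_le hm.1 with h0 | h0
    · rw [← h0] at hmε'
      have := hzero (x 0)
      linarith
    · exact h0
  obtain ⟨g1, -, g3, g4, -⟩ := hodo h _ hh hh1 (hsrc m hm.1 hm.2)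
  refine ⟨m, _, x m, hxK m, hm0, hm.2, rfl, hsrc m hm.1 hm.2, g1, g3, g4, ?_, hmε'⟩
  intro y hy
  rw [← hmε']
  exact hxmin m hm.1 hm.2 y hy

end Pool.Agent.GH
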