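import Pool.Agent.GH.Stmts

/-!
Module MOM: moments.
-/

namespace Pool.Agent.GH

open MeasureTheory ProbabilityTheory Filter Topology

namespace MOM

theorem intOn (p : Polynomial ℂ) (x : ℂ) (r : ℝ) :
    IntegrableOn (fun z => p.eval z) (Metric.ball x r) :=
  (p.continuous.continuousOn.integrableOn_compact (isCompact_closedBall x r)).mono_set
    Metric.ball_subset_closedBall

theorem pow_zero_int (n : ℕ) (hn : n ≠ 0) (r : ℝ) :
    ∫ z in Metric.ball (0 : ℂ) r, z ^ n = 0 := by
  have hn' : (n : ℝ) ≠ 0 := by exact_mod_cast hn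
  set a : Circle := Circle.exp (Real.pi / n) with ha
  have h1 : (a : ℂ) ^ n = -1 := by
    rw [ha, Circle.coe_exp, ← Complex.exp_nat_mul]
    rw [← Complex.exp_pi_mul_I]
    congr 1
    push_cast
    have : (n : ℂ) ≠ 0 := by exact_mod_cast hn
    field_simp
  have h2 := (LinearIsometryEquiv.measurePreserving (rotation a)).setIntegral_preimage_emb
    (rotation a).toHomeomorph.measurableEmbedding (fun z : ℂ => z ^ n) (Metric.ball 0 r)
  have h3 : (rotation a) ⁻¹' (Metric.ball (0 : ℂ) r) = Metric.ball 0 r := by
    ext z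
    simp only [Set.mem_preimage, Metric.mem_ball, dist_zero_right, LinearIsometryEquiv.norm_map]
  rw [h3] at h2
  have h4 : ∀ z : ℂ, (rotation a z) ^ n = -(z ^ n) := by
    intro z
    rw [rotation_apply, mul_pow, h1]
    ring
  simp only [h4] at h2
  rw [integral_neg] at h2
  have h5 : (2 : ℂ) * ∫ z in Metric.ball (0 : ℂ) r, z ^ n = 0 := by
    linear_combination -h2
  exact (mul_eq_zero.mp h5).resolve_left two_ne_zero

theorem vol_ball (x : ℂ) {r : ℝ} (hr : 0 ≤ r) :
    (volume (Metric.ball x r)).toReal = Real.pi * r ^ 2 := by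
  rw [Complex.volume_ball]
  rw [ENNReal.toReal_mul, ENNReal.toReal_pow, ENNReal.toReal_ofReal hr]
  simp [mul_comm]

theorem ball_int (r : ℝ) (hr : 0 ≤ r) (p : Polynomial ℂ) :
    ∫ z in Metric.ball (0 : ℂ) r, p.eval z = ((Real.pi * r ^ 2 : ℝ) : ℂ) * p.coeff 0 := by
  induction p using Polynomial.induction_on' with
  | add p q hp hq =>
    simp only [Polynomial.eval_add, Polynomial.coeff_add]
    rw [integral_add (intOn p 0 r) (intOn q 0 r), hp, hq]
    ring
  | monomial n a =>
    simp only [Polynomial.eval_monomial, Polynomial.coeff_monomial]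
    rw [integral_const_mul]
    by_cases hn : n = 0
    · subst hn
      simp only [pow_zero, if_true]
      rw [setIntegral_const, Measure.real, vol_ball 0 hr]
      simp [mul_comm]
    · rw [pow_zero_int n hn r, if_neg hn]
      simp

theorem ball_int' (x : ℂ) (r : ℝ) (hr : 0 ≤ r) (p : Polynomial ℂ) :
    ∫ z in Metric.ball x r, p.eval z = ((Real.pi * r ^ 2 : ℝ) : ℂ) * p.eval x := by
  have h1 := (measurePreserving_add_right (volume : Measure ℂ) x).setIntegral_preimage_emb
    (MeasurableEquiv.addRight x).measurableEmbedding (fun z : ℂ => p.eval z) (Metric.ball x r)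
  have h2 : (fun z => z + x) ⁻¹' (Metric.ball x r) = Metric.ball (0 : ℂ) r := by
    ext z
    simp [Metric.mem_ball, dist_eq_norm]
  rw [h2] at h1
  rw [← h1]
  have h3 : ∀ z : ℂ, p.eval (z + x) = (Polynomial.taylor x p).eval z := by
    intro z
    rw [Polynomial.taylor_eval]
  simp only [h3]
  rw [ball_int r hr, Polynomial.taylor_coeff_zero]

end MOM

theorem MOM_thm : MOM_Stmt := by
  intro lam R hN hnn x₀ m q T hm hm0 hq hRT hT p C hC
  set r : ℝ := Real.sqrt m with hr
  have hr0 : 0 ≤ r := Real.sqrt_nonneg _
  have hr2 : r ^ 2 = m := Real.sq_sqrt hm0.le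
  have hT0 : 0 ≤ T := (add_nonneg (norm_nonneg x₀) hr0).trans hT
  have hC0 : 0 ≤ C := (norm_nonneg _).trans (hC 0 (by simpa using hT0))
  set B : Set ℂ := Metric.ball x₀ r with hB
  have hBm : MeasurableSet B := Metric.isOpen_ball.measurableSet
  have hle : ∀ z, lam z ≤ 1 / Real.pi := fun z => (le_abs_self _).trans (hN.bdd z)
  -- integrability
  have hlamInt : Integrable lam := by
    have h1 : IntegrableOn lam (Metric.closedBall 0 R) := by
      refine Integrable.mono' (g := fun _ => 1 / Real.pi) ?_ hN.meas.aestronglyMeasurable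
        (Filter.Eventually.of_forall hN.bdd)
      exact integrableOn_const (measure_closedBall_lt_top).ne
    rw [← integrableOn_univ]
    refine h1.of_forall_sdiff_eq_zero MeasurableSet.univ ?_
    intro z hz
    apply hN.supp
    have := hz.2
    rw [Metric.mem_closedBall, dist_zero_right, not_le] at this
    exact this
  set I : ℂ → ℝ := B.indicator (fun _ => 1 / Real.pi) with hI
  have hIInt : Integrable I := by
    rw [hI, integrable_indicator_iff hBm]
    exact integrableOn_const (Metric.isBounded_ball.measure_lt_top).ne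
  have hvol : (volume B).toReal = Real.pi * m := by rw [hB, MOM.vol_ball x₀ hr0, hr2]
  have hIval : ∫ z, I z = m := by
    rw [hI, integral_indicator hBm, setIntegral_const, Measure.real, hvol]
    have := Real.pi_pos.ne'
    simp only [smul_eq_mul]
    field_simp
  -- the supports
  have hBT : ∀ z ∈ B, ‖z‖ ≤ T := by
    intro z hz
    rw [hB, Metric.mem_ball, dist_eq_norm] at hz
    calc ‖z‖ = ‖(z - x₀) + x₀‖ := by ring_nf
      _ ≤ ‖z - x₀‖ + ‖x₀‖ := norm_add_le _ _
      _ ≤ T := by linarith
  have hz0 : ∀ z, T < ‖z‖ → lam z = 0 ∧ I z = 0 := by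
    intro z hz
    refine ⟨hN.supp z (lt_of_le_of_lt hRT hz), ?_⟩
    rw [hI, Set.indicator_of_notMem]
    intro hzB
    exact absurd (hBT z hzB) (not_le.mpr hz)
  have hbd : ∀ z (t : ℝ), (T < ‖z‖ → t = 0) → ‖p.eval z * (t : ℂ)‖ ≤ C * |t| := by
    intro z t ht
    rw [norm_mul, Complex.norm_real, Real.norm_eq_abs]
    by_cases hz : ‖z‖ ≤ T
    · exact mul_le_mul_of_nonneg_right (hC z hz) (abs_nonneg _)
    · rw [ht (not_le.mp hz)]
      simp
  have hInt1 : Integrable (fun z => p.eval z * (lam z : ℂ)) := by
    refine Integrable.mono' (g := fun z => C * |lam z|) (hlamInt.abs.const_mul C) ?_ ?_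
    · exact (p.continuous.measurable.mul
        (Complex.measurable_ofReal.comp hN.meas)).aestronglyMeasurable
    · exact Filter.Eventually.of_forall fun z => hbd z _ fun h => (hz0 z h).1
  have hInt2 : Integrable (fun z => p.eval z * (I z : ℂ)) := by
    refine Integrable.mono' (g := fun z => C * |I z|) (hIInt.abs.const_mul C) ?_ ?_
    · refine (p.continuous.measurable.mul
        (Complex.measurable_ofReal.comp ?_)).aestronglyMeasurable
      exact measurable_const.indicator hBm
    · exact Filter.Eventually.of_forall fun z => hbd z _ fun h => (hz0 z h).2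
  have hIp : ∫ z, p.eval z * (I z : ℂ) = (m : ℂ) * p.eval x₀ := by
    have h1 : (fun z => p.eval z * (I z : ℂ)) =
        B.indicator (fun z => ((1 / Real.pi : ℝ) : ℂ) * p.eval z) := by
      funext z
      by_cases hz : z ∈ B
      · rw [hI, Set.indicator_of_mem hz, Set.indicator_of_mem hz]; ring
      · rw [hI, Set.indicator_of_notMem hz, Set.indicator_of_notMem hz]; simp
    rw [h1, integral_indicator hBm, integral_const_mul, hB, MOM.ball_int' x₀ r hr0, hr2]
    have hpi : (Real.pi : ℂ) ≠ 0 := by exact_mod_cast Real.pi_pos.ne'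
    push_cast
    field_simp
  rw [← hIp, ← integral_sub hInt1 hInt2]
  have h2 : ‖∫ z, (p.eval z * (lam z : ℂ) - p.eval z * (I z : ℂ))‖ ≤
      ∫ z, C * |lam z - I z| := by
    refine norm_integral_le_of_norm_le ((hlamInt.sub hIInt).abs.const_mul C) ?_
    refine Filter.Eventually.of_forall fun z => ?_
    have := hbd z (lam z - I z) fun h => by rw [(hz0 z h).1, (hz0 z h).2, sub_zero]
    rw [← mul_sub]
    push_cast at this
    exact this
  refine h2.trans ?_
  rw [integral_const_mul]
  -- the total variation
  have h3 : ∀ z, |lam z - I z| = (lam z - I z) + 2 * (B.indicator (fun z => 1 / Real.pi - lam z) z) := by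
    intro z
    by_cases hz : z ∈ B
    · rw [hI, Set.indicator_of_mem hz, Set.indicator_of_mem hz, abs_of_nonpos (by linarith [hle z])]
      ring
    · rw [hI, Set.indicator_of_notMem hz, Set.indicator_of_notMem hz,
        abs_of_nonneg (by linarith [hnn z])]
      ring
  have hIntB : Integrable (B.indicator (fun z => 1 / Real.pi - lam z)) := by
    rw [integrable_indicator_iff hBm]
    exact (integrableOn_const (Metric.isBounded_ball.measure_lt_top).ne).sub
      hlamInt.integrableOn
  have h4 : ∫ z, |lam z - I z| = 2 * q := by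
    have hs : Integrable (fun z => lam z - I z) := hlamInt.sub hIInt
    have hc : IntegrableOn (fun _ : ℂ => 1 / Real.pi) B :=
      integrableOn_const (Metric.isBounded_ball.measure_lt_top).ne
    rw [integral_congr_ae (Filter.Eventually.of_forall h3),
      integral_add hs (hIntB.const_mul 2), integral_const_mul,
      integral_indicator hBm,
      integral_sub hc hlamInt.integrableOn,
      setIntegral_const, Measure.real, hvol]
    rw [integral_sub hlamInt hIInt, hIval, ← hm, hq]
    have := Real.pi_pos.ne'
    simp only [smul_eq_mul]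
    field_simp
    ring
  rw [h4]
  linarith [mul_comm (2 * q) C]

end Pool.Agent.GH
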