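import Pool.Agent.GH.Stmts

/-!
# Module ODO: the odometer
-/

namespace Pool.Agent.GH

open MeasureTheory ProbabilityTheory Filter Topology

namespace ODO

/-- Bounded pointwise convergence in circle averages. -/
theorem tendsto_circleAverage (f : ℕ → ℂ → ℝ) (g : ℂ → ℝ) (W : ℝ) (hc : ∀ k, Continuous (f k))
    (hb : ∀ k z, |f k z| ≤ W) (hl : ∀ z, Tendsto (fun k => f k z) atTop (𝓝 (g z))) (z : ℂ)
    (h : ℝ) :
    Tendsto (fun k => Real.circleAverage (f k) z h) atTop (𝓝 (Real.circleAverage g z h)) := by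
  unfold Real.circleAverage
  apply Tendsto.const_smul
  refine intervalIntegral.tendsto_integral_filter_of_dominated_convergence (fun _ => W) ?_ ?_ ?_ ?_
  · refine Eventually.of_forall fun k => ?_
    exact ((hc k).comp (continuous_circleMap z h)).aestronglyMeasurable
  · refine Eventually.of_forall fun k => ?_
    refine Eventually.of_forall fun θ _ => ?_
    rw [Real.norm_eq_abs]
    exact hb k _
  · exact intervalIntegrable_const
  · refine Eventually.of_forall fun θ _ => ?_
    exact hl _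

end ODO

open ODO in
theorem ODO_thm (h1 : ODOA_Stmt) (h2 : ITER_Stmt) : ODO_Stmt := by
  intro R S L hR hS hL
  obtain ⟨R₁, W, Λ, hR1, hW, hΛ, H⟩ := h1 R S L hR hS hL
  have key : ∀ (h : ℝ) (s : ℂ → ℝ), 0 < h → h ≤ 1 → Src s R S L →
      (∀ k z, odo h s k z ≤ Odo h s z) ∧
      (∀ z, Tendsto (fun k => odo h s k z) atTop (𝓝 (Odo h s z))) := by
    intro h s hh hh1 hs
    obtain ⟨b1, b2, b3, b4⟩ := H h s hh hh1 hs
    obtain ⟨c1, c2, c3, -, -, -⟩ := h2 h s R S L hh hs
    have hbdd : ∀ z, BddAbove (Set.range fun k : ℕ => odo h s k z) := by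
      intro z
      exact ⟨W, by rintro _ ⟨k, rfl⟩; exact b1 k z⟩
    refine ⟨fun k z => le_ciSup (hbdd z) k, fun z => ?_⟩
    have hm : Monotone (fun k : ℕ => odo h s k z) := monotone_nat_of_le_succ fun k => c3 k z
    exact tendsto_atTop_ciSup hm (hbdd z)
  refine ⟨R₁, W, Λ, hR1, hW, hΛ, ?_⟩
  intro h s hh hh1 hs
  obtain ⟨b1, b2, b3, b4⟩ := H h s hh hh1 hs
  obtain ⟨c1, c2, c3, -, -, -⟩ := h2 h s R S L hh hs
  obtain ⟨k1, k2⟩ := key h s hh hh1 hs
  refine ⟨⟨?_, ?_, ?_, ?_⟩, ?_, k1, k2, ?_⟩
  · intro z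
    exact le_trans (c2 0 z) (k1 0 z)
  · intro z z'
    have ht : Tendsto (fun k => |odo h s k z - odo h s k z'|) atTop
        (𝓝 |Odo h s z - Odo h s z'|) := ((k2 z).sub (k2 z')).abs
    exact le_of_tendsto ht (Eventually.of_forall fun k => b3 k z z')
  · intro z hz
    have h0 : Tendsto (fun k => odo h s k z) atTop (𝓝 0) := by
      have : (fun k => odo h s k z) = fun _ => (0 : ℝ) := by
        funext k
        exact b2 k z hz
      rw [this]
      exact tendsto_const_nhds
    exact tendsto_nhds_unique (k2 z) h0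
  · intro z
    have ha : Tendsto (fun k => Real.circleAverage (odo h s k) z h) atTop
        (𝓝 (Real.circleAverage (Odo h s) z h)) := by
      refine tendsto_circleAverage (fun k => odo h s k) (Odo h s) W c1 ?_ k2 z h
      intro k z
      rw [abs_of_nonneg (c2 k z)]
      exact b1 k z
    have hr : Tendsto (fun k => odo h s (k + 1) z) atTop
        (𝓝 (max 0 (Real.circleAverage (Odo h s) z h + h ^ 2 / 4 * (s z - 2)))) := by
      have : (fun k => odo h s (k + 1) z) =
          fun k => max 0 (Real.circleAverage (odo h s k) z h + h ^ 2 / 4 * (s z - 2)) := rfl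
      rw [this]
      exact tendsto_const_nhds.max (ha.add_const _)
    have hl : Tendsto (fun k => odo h s (k + 1) z) atTop (𝓝 (Odo h s z)) :=
      (k2 z).comp (tendsto_add_atTop_nat 1)
    exact tendsto_nhds_unique hl hr
  · intro z
    exact le_of_tendsto (k2 z) (Eventually.of_forall fun k => b1 k z)
  · intro s' δ hs' hδ hss z
    obtain ⟨-, k2'⟩ := key h s' hh hh1 hs'
    have ht : Tendsto (fun k => |odo h s k z - odo h s' k z|) atTop
        (𝓝 |Odo h s z - Odo h s' z|) := ((k2 z).sub (k2' z)).abs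
    exact le_of_tendsto ht (Eventually.of_forall fun k => b4 s' δ hs' hδ hss k z)

end Pool.Agent.GH
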