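import Pool.Agent.GH.Stmts

/-!
ODOA: estimates for the iteration, uniform in the step and in the scale.
-/

namespace Pool.Agent.GH

open MeasureTheory ProbabilityTheory Filter Topology

namespace ODOA

/-- One-sided comparison with a barrier. -/
theorem cmp (h2 : ITER_Stmt) {R S L C h : ℝ} {b : ℂ → ℝ} (hbc : Continuous b)
    (hb0 : ∀ z, 0 ≤ b z) (hbC : ∀ z, b z ≤ C)
    (hb2 : ∀ (h : ℝ) (z : ℂ), 0 < h → Ah h b z ≤ 2)
    (hb3 : ∀ (h : ℝ) (z : ℂ), 0 < h → ‖z‖ ≤ R + 2 - h → Ah h b z ≤ -(S + 1))
    (hh : 0 < h) (hh1 : h ≤ 1) {s : ℂ → ℝ} (hs : Src s R S L) {s' : ℂ → ℝ} {R' S' L' δ : ℝ}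
    (hs' : Src s' R' S' L') (hδ : 0 ≤ δ) (hδ1 : δ ≤ 1) (hd : ∀ z, s' z ≤ s z + δ)
    (hz : ∀ z, R + 1 < ‖z‖ → s' z = 0) (k : ℕ) (z : ℂ) :
    odo h s' k z ≤ odo h s k z + C * δ := by
  classical
  obtain ⟨-, i2, -, -, i5, -⟩ := h2 h s R S L hh hs
  have key := i5 s' R' S' L' δ b (fun z => if ‖z‖ ≤ R + 1 then 1 else 0) hs' hδ hδ1 hbc hb0
    (by
      intro z
      by_cases hz1 : ‖z‖ ≤ R + 1
      · simp only [hz1, if_true, mul_one]
        exact hd z
      · simp only [hz1, if_false, mul_zero, add_zero]
        rw [hz z (not_le.1 hz1)]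
        exact hs.nonneg z)
    (by
      intro z
      by_cases hz1 : ‖z‖ ≤ R + 1
      · simp only [hz1, if_true]
        have h3 := hb3 h z hh (by linarith)
        have h4 := hs.le z
        linarith
      · simp only [hz1, if_false]
        rw [hs.supp z (by linarith [not_le.1 hz1])]
        have h3 := hb2 h z hh
        linarith) k z
  have h0 := i2 k z
  have h1 : δ * b z ≤ C * δ := by
    rw [mul_comm C δ]
    exact mul_le_mul_of_nonneg_left (hbC z) hδ
  nlinarith

end ODOA

open ODOA in
/-- ODOA. -/
theorem ODOA_thm (h1 : BAR_Stmt) (h2 : ITER_Stmt) : ODOA_Stmt := by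
  intro R S L hR hS hL
  obtain ⟨R₁, C, b, hR1, hbc, hb0, hbC, hbz, -, hb2, hb3⟩ := h1 (R + 2) (S + 1) 0 (by linarith)
  have hC : 0 ≤ C := (hb0 0).trans (hbC 0)
  refine ⟨R₁, C + 1, (C + 1) * (1 + L), by linarith, by linarith, by positivity, ?_⟩
  intro h s hh hh1 hs
  have bound : ∀ s : ℂ → ℝ, Src s R S L → ∀ k z, odo h s k z ≤ b z := by
    intro s hs
    obtain ⟨-, -, -, i4, -⟩ := h2 h s R S L hh hs
    refine i4 b hbc hb0 ?_
    intro z
    by_cases hz : ‖z‖ ≤ R + 1
    · have h3 := hb3 h z hh (by linarith)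
      have h4 := hs.le z
      linarith
    · rw [hs.supp z (by linarith [not_le.1 hz])]
      have := hb2 h z hh
      linarith
  have nonneg : ∀ s : ℂ → ℝ, Src s R S L → ∀ k z, 0 ≤ odo h s k z := fun s hs =>
    (h2 h s R S L hh hs).2.1
  have hLL : 0 < 1 + L := by linarith
  refine ⟨?_, ?_, ?_, ?_⟩
  · intro k z
    linarith [bound s hs k z, hbC z]
  · intro k z hz
    apply le_antisymm _ (nonneg s hs k z)
    have := bound s hs k z
    rwa [hbz z hz] at this
  · -- Lipschitz
    have one : ∀ k z v, ‖v‖ ≤ 1 → L * ‖v‖ ≤ 1 →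
        odo h s k (z + v) ≤ odo h s k z + C * (L * ‖v‖) := by
      intro k z v hv1 hv2
      have hsv : Src (fun y => s (y + v)) (R + 1) S L := by
        refine ⟨fun z => hs.nonneg _, fun z => hs.le _, ?_, ?_⟩
        · intro z z'
          have := hs.lip (z + v) (z' + v)
          rwa [add_sub_add_right_eq_sub] at this
        · intro z hz
          apply hs.supp
          have h5 : ‖z‖ ≤ ‖z + v‖ + ‖v‖ := by
            have := norm_sub_le (z + v) v
            rwa [add_sub_cancel_right] at this
          linarith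
      have := cmp h2 hbc hb0 hbC hb2 hb3 hh hh1 hs hsv (δ := L * ‖v‖) (by positivity) hv2
        (by
          intro z
          have h6 := hs.lip (z + v) z
          rw [add_sub_cancel_left] at h6
          have h7 := le_abs_self (s (z + v) - s z)
          linarith)
        (by
          intro z hz
          exact hsv.supp z hz) k z
      rwa [(h2 h s R S L hh hs).2.2.2.2.2 v k z] at this
    have two : ∀ k z z', odo h s k z' ≤ odo h s k z + (C + 1) * (1 + L) * ‖z - z'‖ := by
      intro k z z'
      have hn : ‖z' - z‖ = ‖z - z'‖ := norm_sub_rev _ _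
      have hn0 : 0 ≤ ‖z - z'‖ := norm_nonneg _
      by_cases hv1 : ‖z - z'‖ ≤ 1
      · by_cases hv2 : L * ‖z - z'‖ ≤ 1
        · have := one k z (z' - z) (by rw [hn]; exact hv1) (by rw [hn]; exact hv2)
          rw [add_sub_cancel, hn] at this
          have e : C * (L * ‖z - z'‖) ≤ (C + 1) * (1 + L) * ‖z - z'‖ := by
            have : 0 ≤ (C + 1 + L) * ‖z - z'‖ := by positivity
            nlinarith
          linarith
        · have h8 := not_le.1 hv2
          have h9 := bound s hs k z'
          have h10 := hbC z'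
          have h11 := nonneg s hs k z
          have h12 : C ≤ (C + 1) * (1 + L) * ‖z - z'‖ := by
            have e1 : C * 1 ≤ C * (L * ‖z - z'‖) := mul_le_mul_of_nonneg_left h8.le hC
            have : 0 ≤ (C + 1 + L) * ‖z - z'‖ := by positivity
            nlinarith
          linarith
      · have h8 := not_le.1 hv1
        have h9 := bound s hs k z'
        have h10 := hbC z'
        have h11 := nonneg s hs k z
        have h12 : C ≤ (C + 1) * (1 + L) * ‖z - z'‖ := by
          have e1 : C * 1 ≤ C * ‖z - z'‖ := mul_le_mul_of_nonneg_left h8.le hC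
          have e2 : 0 ≤ C * L * ‖z - z'‖ := by positivity
          have e3 : 0 ≤ (1 + L) * ‖z - z'‖ := by positivity
          nlinarith
        linarith
    intro k z z'
    rw [abs_le]
    have e1 := two k z z'
    have e2 := two k z' z
    rw [norm_sub_rev z' z] at e2
    constructor <;> linarith
  · intro s' δ hs' hδ hd k z
    have hCΛ : C * δ ≤ (C + 1) * (1 + L) * δ := by
      have : 0 ≤ (1 + L + C * L) * δ := by positivity
      nlinarith
    by_cases hδ1 : δ ≤ 1
    · have e1 := cmp h2 hbc hb0 hbC hb2 hb3 hh hh1 hs hs' hδ hδ1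
        (by
          intro z
          have := abs_le.1 (hd z)
          linarith)
        (by
          intro z hz
          exact hs'.supp z (by linarith)) k z
      have e2 := cmp h2 hbc hb0 hbC hb2 hb3 hh hh1 hs' hs hδ hδ1
        (by
          intro z
          have := abs_le.1 (hd z)
          linarith)
        (by
          intro z hz
          exact hs.supp z (by linarith)) k z
      rw [abs_le]
      constructor <;> linarith
    · have h8 := not_le.1 hδ1
      have e1 := bound s hs k z
      have e2 := bound s' hs' k z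
      have e3 := nonneg s hs k z
      have e4 := nonneg s' hs' k z
      have e5 := hbC z
      have e6 : C * 1 ≤ C * δ := mul_le_mul_of_nonneg_left h8.le hC
      rw [abs_le]
      constructor <;> linarith

end Pool.Agent.GH
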