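import Pool.Agent.GH.Stmts

/-!
Module ONED: the one-dimensional inequality.
-/

namespace Pool.Agent.GH

open MeasureTheory Set

theorem oned_ii (f : ℝ → ℝ) (a b C : ℝ) (hab : a ≤ b) (hf : Measurable f)
    (hb : ∀ s, a < s → s ≤ b → |f s| ≤ C) : IntervalIntegrable f volume a b := by
  rw [intervalIntegrable_iff_integrableOn_Ioc_of_le hab]
  refine Measure.integrableOn_of_bounded (M := C) ?_ hf.aestronglyMeasurable ?_
  · simp
  · rw [ae_restrict_iff' measurableSet_Ioc]
    exact Filter.Eventually.of_forall fun s hs => hb s hs.1 hs.2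

theorem ONED : ONED_Stmt := by
  intro M m T U V hm hT hmono h0 hsq hle htop hU hV
  have hMm : Measurable M := hmono.measurable
  set w := Real.sqrt m with hw
  have hw0 : 0 < w := Real.sqrt_pos.mpr hm
  have hww : w ^ 2 = m := Real.sq_sqrt hm.le
  have hM0 : ∀ s, 0 < s → M s / s ≤ s := by
    intro s hs
    rw [div_le_iff₀ hs]
    nlinarith [hsq s hs.le]
  -- the three basic functions
  have i1 : IntervalIntegrable (fun s => M s / s) volume 0 w := by
    refine oned_ii _ 0 w w hw0.le (hMm.div measurable_id) ?_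
    intro s hs hsw
    rw [abs_of_nonneg (div_nonneg (h0 s) hs.le)]
    exact (hM0 s hs).trans hsw
  have i2 : IntervalIntegrable (fun s => (m - M s) / s) volume w T := by
    refine oned_ii _ w T (m / w) hT ((measurable_const.sub hMm).div measurable_id) ?_
    intro s hs _
    have hs0 : 0 < s := hw0.trans hs
    rw [abs_of_nonneg (div_nonneg (by linarith [hle s]) hs0.le)]
    exact div_le_div₀ hm.le (by linarith [h0 s]) hw0 hs.le
  have hgm : Measurable (fun s => M s * (m - M s) / s) :=
    (hMm.mul (measurable_const.sub hMm)).div measurable_id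
  have hgb : ∀ s, 0 < s → s ≤ T → |M s * (m - M s) / s| ≤ T * m := by
    intro s hs hsT
    have e : M s * (m - M s) / s = M s / s * (m - M s) := by ring
    rw [e, abs_of_nonneg (mul_nonneg (div_nonneg (h0 s) hs.le) (by linarith [hle s]))]
    exact mul_le_mul ((hM0 s hs).trans hsT) (by linarith [h0 s]) (by linarith [hle s])
      (hs.le.trans hsT)
  have i3 : IntervalIntegrable (fun s => M s * (m - M s) / s) volume 0 w :=
    oned_ii _ 0 w (T * m) hw0.le hgm (fun s hs hsw => hgb s hs (hsw.trans hT))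
  have i4 : IntervalIntegrable (fun s => M s * (m - M s) / s) volume w T :=
    oned_ii _ w T (T * m) hT hgm (fun s hs hsT => hgb s (hw0.trans hs) hsT)
  have hsplit : V = (∫ s in (0 : ℝ)..w, M s * (m - M s) / s) +
      ∫ s in w..T, M s * (m - M s) / s := by
    rw [hV, intervalIntegral.integral_add_adjacent_intervals i3 i4]
  -- part B
  have hB : (∫ s in w..T, M s * (m - M s) / s) ≤ m * ∫ s in w..T, (m - M s) / s := by
    rw [← intervalIntegral.integral_const_mul]
    refine intervalIntegral.integral_mono_on hT i4 (i2.const_mul m) ?_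
    intro s hs
    have hs0 : 0 < s := hw0.trans_le hs.1
    have : m * ((m - M s) / s) - M s * (m - M s) / s = (m - M s) ^ 2 / s := by
      field_simp
    have h2 : 0 ≤ (m - M s) ^ 2 / s := by positivity
    linarith
  have hJ2 : 0 ≤ ∫ s in w..T, (m - M s) / s := by
    refine intervalIntegral.integral_nonneg hT ?_
    intro s hs
    exact div_nonneg (by linarith [hle s]) (hw0.le.trans hs.1)
  -- part A
  set q := m - M w with hq
  have hq0 : 0 ≤ q := by linarith [hle w]
  have hqm : q ≤ m := by linarith [h0 w]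
  set d : ℝ → ℝ := fun s => s * (m - s ^ 2) + m * (s - M s / s) - M s * (m - M s) / s with hd
  have ipoly : IntervalIntegrable (fun s : ℝ => s * (m - s ^ 2)) volume 0 w :=
    (by fun_prop : Continuous fun s : ℝ => s * (m - s ^ 2)).intervalIntegrable _ _
  have iid : IntervalIntegrable (fun s : ℝ => s) volume 0 w :=
    continuous_id.intervalIntegrable _ _
  have id' : IntervalIntegrable d volume 0 w :=
    (ipoly.add ((iid.sub i1).const_mul m)).sub i3
  have hdval : (∫ s in (0 : ℝ)..w, d s) = m ^ 2 / 4 + m * (m / 2 - ∫ s in (0 : ℝ)..w, M s / s) -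
      ∫ s in (0 : ℝ)..w, M s * (m - M s) / s := by
    have e1 : (∫ s in (0 : ℝ)..w, d s) = (∫ s in (0 : ℝ)..w, s * (m - s ^ 2)) +
        m * ((∫ s in (0 : ℝ)..w, s) - ∫ s in (0 : ℝ)..w, M s / s) -
        ∫ s in (0 : ℝ)..w, M s * (m - M s) / s := by
      rw [hd, intervalIntegral.integral_sub (ipoly.add ((iid.sub i1).const_mul m)) i3,
        intervalIntegral.integral_add ipoly ((iid.sub i1).const_mul m),
        intervalIntegral.integral_const_mul, intervalIntegral.integral_sub iid i1]
    have e2 : (∫ s in (0 : ℝ)..w, s * (m - s ^ 2)) = m ^ 2 / 4 := by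
      have hder : ∀ x ∈ Set.uIcc (0 : ℝ) w,
          HasDerivAt (fun s : ℝ => m * s ^ 2 / 2 - s ^ 4 / 4) (x * (m - x ^ 2)) x := by
        intro x _
        have a1 := ((hasDerivAt_pow 2 x).const_mul m).div_const 2
        have a2 := (hasDerivAt_pow 4 x).div_const 4
        refine (a1.sub a2).congr_deriv ?_
        norm_num
        ring
      rw [intervalIntegral.integral_eq_sub_of_hasDerivAt hder ipoly]
      have : w ^ 4 = m ^ 2 := by rw [← hww]; ring
      rw [this, hww]
      ring
    have e3 : (∫ s in (0 : ℝ)..w, s) = m / 2 := by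
      rw [integral_id, hww]
      ring
    rw [e1, e2, e3]
  have hdeq : ∀ s, 0 < s → d s = (s ^ 2 - M s) * (2 * m - s ^ 2 - M s) / s := by
    intro s hs
    simp only [hd]
    field_simp
    ring
  have hd0 : ∀ s, 0 < s → s ≤ w → 0 ≤ d s := by
    intro s hs hsw
    rw [hdeq s hs]
    have hs2 : s ^ 2 ≤ m := by rw [← hww]; exact pow_le_pow_left₀ hs.le hsw 2
    refine div_nonneg (mul_nonneg ?_ ?_) hs.le
    · linarith [hsq s hs.le]
    · linarith [hle s]
  set c := Real.sqrt (m - q / 2) with hc
  have hmq : 0 < m - q / 2 := by linarith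
  have hc0 : 0 < c := Real.sqrt_pos.mpr hmq
  have hcc : c ^ 2 = m - q / 2 := Real.sq_sqrt hmq.le
  have hcw : c ≤ w := Real.sqrt_le_sqrt (by linarith)
  have hdc : ∀ s, c ≤ s → s ≤ w → q ^ 2 / (2 * w) ≤ d s := by
    intro s hcs hsw
    have hs : 0 < s := hc0.trans_le hcs
    rw [hdeq s hs]
    have hs2 : s ^ 2 ≤ m := by rw [← hww]; exact pow_le_pow_left₀ hs.le hsw 2
    have hs3 : m - q / 2 ≤ s ^ 2 := by rw [← hcc]; exact pow_le_pow_left₀ hc0.le hcs 2
    have hMs : M s ≤ m - q := by
      have := hmono hsw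
      linarith
    have k1 : q / 2 ≤ s ^ 2 - M s := by linarith
    have k2 : q ≤ 2 * m - s ^ 2 - M s := by linarith
    have k3 : q ^ 2 / 2 ≤ (s ^ 2 - M s) * (2 * m - s ^ 2 - M s) := by
      calc q ^ 2 / 2 = q / 2 * q := by ring
        _ ≤ _ := mul_le_mul k1 k2 hq0 (by linarith)
    have k4 : 0 ≤ (s ^ 2 - M s) * (2 * m - s ^ 2 - M s) := le_trans (by positivity) k3
    calc q ^ 2 / (2 * w) = q ^ 2 / 2 / w := by rw [div_div]
      _ ≤ (s ^ 2 - M s) * (2 * m - s ^ 2 - M s) / s := div_le_div₀ k4 k3 hs hsw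
  have ic1 : IntervalIntegrable d volume 0 c := id'.mono_set (by
    rw [Set.uIcc_of_le hc0.le, Set.uIcc_of_le hw0.le]
    exact Set.Icc_subset_Icc_right hcw)
  have ic2 : IntervalIntegrable d volume c w := id'.mono_set (by
    rw [Set.uIcc_of_le hcw, Set.uIcc_of_le hw0.le]
    exact Set.Icc_subset_Icc_left hc0.le)
  have hA : q ^ 3 / (8 * m) ≤ ∫ s in (0 : ℝ)..w, d s := by
    rw [← intervalIntegral.integral_add_adjacent_intervals ic1 ic2]
    have l1 : 0 ≤ ∫ s in (0 : ℝ)..c, d s := by
      rw [intervalIntegral.integral_of_le hc0.le]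
      refine setIntegral_nonneg measurableSet_Ioc ?_
      intro s hs
      exact hd0 s hs.1 (hs.2.trans hcw)
    have l2 : (w - c) * (q ^ 2 / (2 * w)) ≤ ∫ s in c..w, d s := by
      have := intervalIntegral.integral_mono_on hcw
        (intervalIntegrable_const (c := q ^ 2 / (2 * w))) ic2
        (fun s hs => hdc s hs.1 hs.2)
      rwa [intervalIntegral.integral_const, smul_eq_mul] at this
    have l3 : q / (4 * w) ≤ w - c := by
      rw [div_le_iff₀ (by positivity)]
      nlinarith
    have l4 : q ^ 3 / (8 * m) = q / (4 * w) * (q ^ 2 / (2 * w)) := by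
      rw [← hww]
      field_simp
      ring
    have l5 : q / (4 * w) * (q ^ 2 / (2 * w)) ≤ (w - c) * (q ^ 2 / (2 * w)) :=
      mul_le_mul_of_nonneg_right l3 (by positivity)
    rw [l4]
    linarith
  have hJ1 : 0 ≤ m / 2 - ∫ s in (0 : ℝ)..w, M s / s := by
    have e3 : (∫ s in (0 : ℝ)..w, s) = m / 2 := by
      rw [integral_id, hww]
      ring
    rw [← e3, ← intervalIntegral.integral_sub iid i1, intervalIntegral.integral_of_le hw0.le]
    refine setIntegral_nonneg measurableSet_Ioc ?_
    intro s hs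
    linarith [hM0 s hs.1]
  have hlog : Real.log w = Real.log m / 2 := by
    rw [hw, Real.log_sqrt hm.le]
  rw [hlog] at hU
  set J1 := ∫ s in (0 : ℝ)..w, M s / s with hJ1d
  set J2 := ∫ s in w..T, (m - M s) / s with hJ2d
  have hUe : U = m / 2 * (1 - Real.log m) - (m / 2 - J1) - J2 := by
    rw [hU]; ring
  constructor
  · have hexp : m ^ 2 / 4 + m * ((m / 2 - J1) + J2) ≤
        Real.exp 2 / 4 * Real.exp (-4 * U / m) := by
      have e1 : -4 * U / m = -2 + 2 * Real.log m + 4 * ((m / 2 - J1) + J2) / m := by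
        rw [hUe]
        field_simp
        ring
      have e2 : Real.exp (2 * Real.log m) = m ^ 2 := by
        rw [two_mul, Real.exp_add, Real.exp_log hm]; ring
      rw [e1, Real.exp_add, Real.exp_add, e2]
      have e3 : Real.exp 2 / 4 * (Real.exp (-2) * m ^ 2 *
          Real.exp (4 * ((m / 2 - J1) + J2) / m)) =
          m ^ 2 / 4 * Real.exp (4 * ((m / 2 - J1) + J2) / m) := by
        have : Real.exp 2 * Real.exp (-2) = 1 := by rw [← Real.exp_add]; simp
        calc _ = (Real.exp 2 * Real.exp (-2)) * (m ^ 2 / 4 *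
            Real.exp (4 * ((m / 2 - J1) + J2) / m)) := by ring
          _ = _ := by rw [this, one_mul]
      rw [e3]
      have e4 := Real.add_one_le_exp (4 * ((m / 2 - J1) + J2) / m)
      calc m ^ 2 / 4 + m * ((m / 2 - J1) + J2) =
          m ^ 2 / 4 * (4 * ((m / 2 - J1) + J2) / m + 1) := by
            field_simp
            ring
        _ ≤ _ := mul_le_mul_of_nonneg_left e4 (by positivity)
    rw [hsplit]
    linarith
  · rw [hUe]; linarith

end Pool.Agent.GH
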