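import Pool.Agent.GH.Stmts

/-!
# Module OUT: outer continuity of the capacity
-/

namespace Pool.Agent.GH

open MeasureTheory ProbabilityTheory Filter Topology

namespace OUT

theorem vdm_cont (n : ℕ) : Continuous (vdm : (Fin n → ℂ) → ℝ) := by
  unfold vdm
  fun_prop

theorem vdm_nonneg {n : ℕ} (z : Fin n → ℂ) : 0 ≤ vdm z :=
  Finset.prod_nonneg fun _ _ => Finset.prod_nonneg fun _ _ => norm_nonneg _

theorem tuples_compact (K : Set ℂ) (hK : IsCompact K) (n : ℕ) :
    IsCompact {z : Fin n → ℂ | ∀ i, z i ∈ K} :=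
  isCompact_pi_infinite fun _ => hK

theorem vdm_le (K : Set ℂ) (hK : IsCompact K) {n : ℕ} (z : Fin n → ℂ) (hz : ∀ i, z i ∈ K) :
    vdm z ≤ vmax K n := by
  refine le_csSup ?_ ⟨z, hz, rfl⟩
  exact ((tuples_compact K hK n).image (vdm_cont n)).bddAbove

theorem vmax_nonneg (K : Set ℂ) (n : ℕ) : 0 ≤ vmax K n := by
  refine Real.sSup_nonneg ?_
  rintro _ ⟨z, -, rfl⟩
  exact vdm_nonneg z

/-- Upper semicontinuity of `vmax`. -/
theorem vmax_usc (K : Set ℂ) (hK : IsCompact K) (hne : K.Nonempty) (n : ℕ) (τ : ℝ) (hτ : 0 < τ) :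
    ∃ δ : ℝ, 0 < δ ∧ vmax (Metric.cthickening δ K) n ≤ vmax K n + τ := by
  have hK1 : IsCompact (Metric.cthickening 1 K) := hK.cthickening
  have huc := (tuples_compact _ hK1 n).uniformContinuousOn_of_continuous
    (vdm_cont n).continuousOn
  rw [Metric.uniformContinuousOn_iff] at huc
  obtain ⟨δ, hδ, h⟩ := huc τ hτ
  have hm : 0 < min 1 (δ / 2) := lt_min one_pos (by linarith)
  refine ⟨min 1 (δ / 2), hm, ?_⟩
  obtain ⟨x0, hx0⟩ := hne
  refine csSup_le ⟨_, ⟨fun _ => x0, fun _ => Metric.self_subset_cthickening K hx0, rfl⟩⟩ ?_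
  rintro _ ⟨z, hz, rfl⟩
  have hex : ∀ i, ∃ y ∈ K, dist (z i) y ≤ min 1 (δ / 2) := by
    intro i
    have := hz i
    rw [hK.cthickening_eq_biUnion_closedBall hm.le] at this
    obtain ⟨y, hy, hzy⟩ := Set.mem_iUnion₂.mp this
    exact ⟨y, hy, Metric.mem_closedBall.mp hzy⟩
  choose y hy hzy using hex
  have hd : dist z y < δ := by
    refine lt_of_le_of_lt ((dist_pi_le_iff hm.le).mpr hzy) ?_
    exact (min_le_right _ _).trans_lt (by linarith)
  have h1 := h z (fun i => Metric.cthickening_mono (min_le_left _ _) K (hz i)) y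
    (fun i => Metric.self_subset_cthickening K (hy i)) hd
  have h2 := vdm_le K hK y hy
  rw [Real.dist_eq] at h1
  linarith [(abs_lt.mp h1).2]

end OUT

open OUT in
/-- OUT: outer continuity of the capacity. -/
theorem OUT_thm (h1 : CAPA_Stmt) : OUT_Stmt := by
  intro K hK hne ε hε
  obtain ⟨ht, -, -, -⟩ := h1.1 K hK hne
  have hev : ∀ᶠ n : ℕ in atTop, dn K n < cap K + ε / 2 ∧ 2 ≤ n :=
    ((tendsto_order.mp ht).2 _ (by linarith)).and (eventually_ge_atTop 2)
  obtain ⟨n, hn, hn2⟩ := hev.exists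
  -- continuity of the power
  set p : ℝ := 2 / ((n : ℝ) * ((n : ℝ) - 1)) with hp
  have hn' : (2 : ℝ) ≤ n := by exact_mod_cast hn2
  have hp0 : 0 < p := by
    rw [hp]
    have : 0 < (n : ℝ) * ((n : ℝ) - 1) := mul_pos (by linarith) (by linarith)
    positivity
  have hc : ContinuousAt (fun x : ℝ => x ^ p) (vmax K n) :=
    Real.continuousAt_rpow_const _ _ (Or.inr hp0.le)
  rw [Metric.continuousAt_iff] at hc
  obtain ⟨τ, hτ, hτ'⟩ := hc (ε / 2) (by linarith)
  obtain ⟨δ₀, hδ₀, hv⟩ := vmax_usc K hK hne n (τ / 2) (by linarith)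
  refine ⟨δ₀, n, hδ₀, fun δ N hδ hδδ hN => ?_⟩
  have hKδ₀ : IsCompact (Metric.cthickening δ₀ K) := hK.cthickening
  have hKδ : IsCompact (Metric.cthickening δ K) := hK.cthickening
  have hneδ₀ : (Metric.cthickening δ₀ K).Nonempty := hne.mono (Metric.self_subset_cthickening K)
  have hneδ : (Metric.cthickening δ K).Nonempty := hne.mono (Metric.self_subset_cthickening K)
  have s1 : dn (Metric.cthickening δ K) N ≤ dn (Metric.cthickening δ₀ K) N :=
    (h1.2.1 _ _ hKδ hKδ₀ hneδ (Metric.cthickening_mono hδδ K)).1 N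
  have s2 : dn (Metric.cthickening δ₀ K) N ≤ dn (Metric.cthickening δ₀ K) n := by
    have hstep := (h1.1 _ hKδ₀ hneδ₀).2.2.1
    obtain ⟨k, rfl⟩ := Nat.exists_eq_add_of_le hN
    clear s1 hN
    induction k with
    | zero => exact le_rfl
    | succ k ih => exact (hstep (n + k) (hn2.trans (Nat.le_add_right n k))).trans ih
  have s3 : dn (Metric.cthickening δ₀ K) n ≤ dn K n + ε / 2 := by
    have e1 : dn (Metric.cthickening δ₀ K) n ≤ (vmax K n + τ / 2) ^ p :=
      Real.rpow_le_rpow (vmax_nonneg _ _) hv hp0.le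
    have e2 : dist (vmax K n + τ / 2) (vmax K n) < τ := by
      rw [Real.dist_eq, add_sub_cancel_left, abs_of_pos (by linarith)]
      linarith
    have e3 := hτ' e2
    rw [Real.dist_eq] at e3
    have e4 : dn K n = vmax K n ^ p := rfl
    linarith [(abs_lt.mp e3).2]
  linarith

end Pool.Agent.GH
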