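import Pool.Agent.GH.Stmts

/-!
# POLV: the volume of `goodS`
-/

open MeasureTheory ProbabilityTheory Filter Topology

namespace Pool.Agent.GH

namespace POLV

/-- The coefficient matrix. -/
noncomputable def cm {n : ℕ} (z : Fin n → ℂ) : Matrix (Fin (n + 1)) (Fin (n + 1)) ℂ :=
  Matrix.of fun (k j : Fin (n + 1)) =>
    ((Fin.cons (rootPoly z) (rootPolyErase z) : Fin (n + 1) → Polynomial ℂ) j).coeff (k : ℕ)

/-- The matrix of the map. -/
noncomputable def mm {n : ℕ} (z : Fin n → ℂ) (a : ℝ) : Matrix (Fin (n + 1)) (Fin (n + 1)) ℂ :=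
  Matrix.of fun (k j : Fin (n + 1)) =>
    ((Real.sqrt ((k : ℕ).factorial : ℝ) : ℂ) * (a : ℂ)) * cm z k j

/-- The parameters. -/
def box (n : ℕ) (t : ℝ) : Set (Fin (n + 1) → ℂ) :=
  Set.univ.pi (Fin.cons (Metric.closedBall (1 : ℂ) (1 / 8)) fun _ : Fin n =>
    Metric.closedBall (0 : ℂ) t : Fin (n + 1) → Set ℂ)

theorem alg {n : ℕ} (s a q c : ℂ) (β L : Fin n → ℂ) :
    s * (a * (c * q + ∑ j, β j * L j)) = s * a * q * c + ∑ j, s * a * L j * β j := by
  rw [mul_add, mul_add, Finset.mul_sum, Finset.mul_sum]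
  congr 1
  · ring
  · refine Finset.sum_congr rfl fun j _ => ?_
    ring

theorem good_eq {n : ℕ} (z : Fin n → ℂ) (a t : ℝ) :
    goodS z a t = ((Matrix.toLin' (mm z a)).restrictScalars ℝ) '' box n t := by
  ext x
  constructor
  · rintro ⟨b, β, hb, hβ, hx⟩
    refine ⟨Fin.cons (1 + b) β, ?_, ?_⟩
    · intro i _
      refine Fin.cases ?_ (fun j => ?_) i
      · simp only [Fin.cons_zero, Metric.mem_closedBall, dist_eq_norm]
        rw [add_sub_cancel_left]; exact hb
      · simp only [Fin.cons_succ, Metric.mem_closedBall, dist_zero_right]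
        exact hβ j
    · funext k
      rw [hx k]
      simp only [LinearMap.coe_restrictScalars, Matrix.toLin'_apply, Matrix.mulVec,
        dotProduct, mm, cm, Matrix.of_apply, Fin.sum_univ_succ, Fin.cons_zero, Fin.cons_succ]
      rw [alg]
  · rintro ⟨y, hy, rfl⟩
    refine ⟨y 0 - 1, fun j => y j.succ, ?_, ?_, ?_⟩
    · have := hy 0 (Set.mem_univ _)
      simpa only [Fin.cons_zero, Metric.mem_closedBall, dist_eq_norm] using this
    · intro j
      have := hy j.succ (Set.mem_univ _)
      simpa only [Fin.cons_succ, Metric.mem_closedBall, dist_zero_right] using this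
    · intro k
      simp only [LinearMap.coe_restrictScalars, Matrix.toLin'_apply, Matrix.mulVec,
        dotProduct, mm, cm, Matrix.of_apply, Fin.sum_univ_succ, Fin.cons_zero, Fin.cons_succ]
      rw [alg, add_sub_cancel]

theorem isCompact_box (n : ℕ) (t : ℝ) : IsCompact (box n t) := by
  apply isCompact_univ_pi
  intro i
  refine Fin.cases ?_ (fun j => ?_) i
  · simp only [Fin.cons_zero]
    exact isCompact_closedBall _ _
  · simp only [Fin.cons_succ]
    exact isCompact_closedBall _ _

theorem volume_box (n : ℕ) {t : ℝ} (ht : 0 < t) :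
    (volume (box n t)).toReal = Real.pi / 64 * (Real.pi * t ^ 2) ^ n := by
  rw [box, volume_pi_pi, Fin.prod_univ_succ]
  simp only [Fin.cons_zero, Fin.cons_succ, Complex.volume_closedBall, Finset.prod_const,
    Finset.card_univ, Fintype.card_fin]
  rw [ENNReal.toReal_mul, ENNReal.toReal_mul, ENNReal.toReal_pow, ENNReal.toReal_pow,
    ENNReal.toReal_mul, ENNReal.toReal_pow, ENNReal.toReal_ofReal (by norm_num),
    ENNReal.toReal_ofReal ht.le]
  simp only [ENNReal.coe_toReal, NNReal.coe_real_pi]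
  ring

theorem det_sq (w : ℂ) : Algebra.norm ℝ w = ‖w‖ ^ 2 := by
  rw [Algebra.norm_complex_apply, Complex.normSq_eq_norm_sq]

theorem norm_det {n : ℕ} (h1 : VAND_Stmt) (z : Fin n → ℂ) {a : ℝ} (ha : 0 < a) :
    ‖(mm z a).det‖ ^ 2 = a ^ (2 * (n + 1)) *
      (∏ k ∈ Finset.range (n + 1), (k.factorial : ℝ)) * (vdm z) ^ 2 := by
  rw [mm, Matrix.det_mul_column, norm_mul, mul_pow]
  have e : ‖(cm z).det‖ = vdm z := h1 n z
  rw [e]
  congr 1
  rw [norm_prod, Finset.prod_range, ← Finset.prod_pow]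
  have e2 : ∀ k : Fin (n + 1), ‖(Real.sqrt ((k : ℕ).factorial : ℝ) : ℂ) * (a : ℂ)‖ ^ 2
      = a ^ 2 * ((k : ℕ).factorial : ℝ) := by
    intro k
    rw [norm_mul, Complex.norm_real, Complex.norm_real, Real.norm_eq_abs, Real.norm_eq_abs,
      mul_pow, sq_abs, sq_abs, Real.sq_sqrt (by positivity), mul_comm]
  rw [Finset.prod_congr rfl (fun k _ => e2 k), Finset.prod_mul_distrib, Finset.prod_const,
    Finset.card_univ, Fintype.card_fin, ← pow_mul]

end POLV

open POLV in
/-- The volume of `goodS`. -/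
theorem POLV_thm (h1 : VAND_Stmt) : POLV_Stmt := by
  intro n z a t ha ht
  rw [good_eq]
  constructor
  · exact ((isCompact_box n t).image
      (LinearMap.continuous_of_finiteDimensional _)).isClosed.measurableSet
  · rw [Measure.addHaar_image_linearMap, LinearMap.det_restrictScalars, LinearMap.det_toLin',
      det_sq, ENNReal.toReal_mul, ENNReal.toReal_ofReal (abs_nonneg _),
      abs_of_nonneg (by positivity), norm_det h1 z ha, volume_box n ht]
    ring

end Pool.Agent.GH
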