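import Pool.Agent.GH.Stmts

/-!
Positivity of the logarithmic energy of neutral densities.
-/

namespace Pool.Agent.GH

open MeasureTheory ProbabilityTheory Filter Topology Set

universe u

namespace POS

theorem nice_int {f : ℂ → ℝ} {R B : ℝ} (h : Nice f R B) : Integrable f := by
  have h1 : IntegrableOn f (Metric.closedBall 0 R) :=
    IntegrableOn.of_bound (measure_closedBall_lt_top) h.meas.aestronglyMeasurable B
      (Eventually.of_forall h.bdd)
  refine (integrableOn_iff_integrable_of_support_subset ?_).1 h1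
  intro z hz
  by_contra hz'
  exact hz (h.supp z (by simpa using hz'))

theorem para (x y u : ℂ) :
    ‖x - u‖ ^ 2 + ‖y - u‖ ^ 2 = 2 * ‖u - (x + y) / 2‖ ^ 2 + ‖x - y‖ ^ 2 / 2 := by
  have e1 : ∀ z : ℂ, ‖z‖ ^ 2 = z.re * z.re + z.im * z.im := fun z => by
    rw [Complex.sq_norm, Complex.normSq_apply]
  simp only [e1, Complex.sub_re, Complex.sub_im, Complex.add_re, Complex.add_im,
    Complex.div_ofNat_re, Complex.div_ofNat_im]
  ring

/-- The Gaussian weight. -/
noncomputable def gw (t : ℝ) (x u : ℂ) : ℝ := Real.exp (-(2 * t) * ‖x - u‖ ^ 2)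

theorem gw_mul (t : ℝ) (x y u : ℂ) :
    gw t x u * gw t y u
      = Real.exp (-(t * ‖x - y‖ ^ 2)) * Real.exp (-(4 * t) * ‖u - (x + y) / 2‖ ^ 2) := by
  unfold gw
  rw [← Real.exp_add, ← Real.exp_add]
  congr 1
  have h := para x y u
  linear_combination (-(2 * t)) * h

theorem gw_pos (t : ℝ) (x u : ℂ) : 0 < gw t x u := Real.exp_pos _

theorem gw_integral {t : ℝ} (ht : 0 < t) (x y : ℂ) :
    ∫ u, gw t x u * gw t y u = Real.exp (-(t * ‖x - y‖ ^ 2)) * (Real.pi / (4 * t)) := by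
  have h1 : (fun u => gw t x u * gw t y u)
      = fun u => Real.exp (-(t * ‖x - y‖ ^ 2)) * Real.exp (-(4 * t) * ‖u - (x + y) / 2‖ ^ 2) := by
    funext u
    exact gw_mul t x y u
  rw [h1, integral_const_mul]
  congr 1
  rw [integral_sub_right_eq_self (fun u : ℂ => Real.exp (-(4 * t) * ‖u‖ ^ 2)) ((x + y) / 2),
    GaussianFourier.integral_rexp_neg_mul_sq_norm (by positivity), Complex.finrank_real_complex]
  norm_num

theorem gw_integrable {t : ℝ} (ht : 0 < t) (x y : ℂ) :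
    Integrable (fun u => gw t x u * gw t y u) := by
  by_contra h
  have h1 := integral_undef h
  rw [gw_integral ht] at h1
  have h2 : 0 < Real.exp (-(t * ‖x - y‖ ^ 2)) * (Real.pi / (4 * t)) := by positivity
  exact h2.ne' h1

theorem F_int {f : ℂ → ℝ} (hf : Integrable f) :
    Integrable (fun p : ℂ × ℂ => f p.1 * f p.2) := hf.mul_prod hf

/-- Positivity of the Gaussian kernel. -/
theorem gauss_pos {f : ℂ → ℝ} (hf : Integrable f) (hm : Measurable f) {t : ℝ} (ht : 0 < t) :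
    0 ≤ ∫ p : ℂ × ℂ, Real.exp (-(t * ‖p.1 - p.2‖ ^ 2)) * (f p.1 * f p.2) := by
  have hG : Integrable (Function.uncurry fun (p : ℂ × ℂ) (u : ℂ) =>
      gw t p.1 u * gw t p.2 u * (f p.1 * f p.2)) ((volume : Measure (ℂ × ℂ)).prod volume) := by
    have hmeas : Measurable (Function.uncurry fun (p : ℂ × ℂ) (u : ℂ) =>
        gw t p.1 u * gw t p.2 u * (f p.1 * f p.2)) := by
      unfold gw Function.uncurry
      fun_prop
    rw [integrable_prod_iff hmeas.aestronglyMeasurable]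
    constructor
    · refine Eventually.of_forall fun p => ?_
      exact (gw_integrable ht p.1 p.2).mul_const (f p.1 * f p.2)
    · have h1 : ∀ p : ℂ × ℂ, ∫ u, ‖Function.uncurry (fun (p : ℂ × ℂ) (u : ℂ) =>
          gw t p.1 u * gw t p.2 u * (f p.1 * f p.2)) (p, u)‖
          = Real.exp (-(t * ‖p.1 - p.2‖ ^ 2)) * (Real.pi / (4 * t)) * |f p.1 * f p.2| := by
        intro p
        rw [← gw_integral ht, ← integral_mul_const]
        refine integral_congr_ae (Eventually.of_forall fun u => ?_)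
        simp only [Function.uncurry_apply_pair, Real.norm_eq_abs]
        rw [abs_mul, abs_of_pos (mul_pos (gw_pos _ _ _) (gw_pos _ _ _))]
      simp_rw [h1]
      refine ((F_int hf).norm.const_mul (Real.pi / (4 * t))).mono' ?_ ?_
      · refine Measurable.aestronglyMeasurable ?_
        fun_prop
      · refine Eventually.of_forall fun p => ?_
        rw [Real.norm_eq_abs, Real.norm_eq_abs, abs_mul, abs_abs, abs_of_pos (by positivity)]
        refine mul_le_mul_of_nonneg_right ?_ (abs_nonneg _)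
        have h2 : Real.exp (-(t * ‖p.1 - p.2‖ ^ 2)) ≤ 1 := by
          rw [Real.exp_le_one_iff]
          have : 0 ≤ t * ‖p.1 - p.2‖ ^ 2 := by positivity
          linarith
        have h3 : 0 ≤ Real.pi / (4 * t) := by positivity
        calc _ ≤ 1 * (Real.pi / (4 * t)) := mul_le_mul_of_nonneg_right h2 h3
          _ = _ := one_mul _
  have hsw := integral_integral_swap hG
  have h1 : ∀ p : ℂ × ℂ, ∫ u, gw t p.1 u * gw t p.2 u * (f p.1 * f p.2)
      = (Real.pi / (4 * t)) * (Real.exp (-(t * ‖p.1 - p.2‖ ^ 2)) * (f p.1 * f p.2)) := by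
    intro p
    rw [integral_mul_const, gw_integral ht]
    ring
  have h2 : ∀ u : ℂ, ∫ p : ℂ × ℂ, gw t p.1 u * gw t p.2 u * (f p.1 * f p.2)
      = (∫ x, gw t x u * f x) * (∫ y, gw t y u * f y) := by
    intro u
    rw [← integral_prod_mul (μ := (volume : Measure ℂ)) (ν := (volume : Measure ℂ))]
    refine integral_congr_ae (Eventually.of_forall fun p => ?_)
    simp only
    ring
  simp_rw [h1, h2] at hsw
  rw [integral_const_mul] at hsw
  have h3 : 0 ≤ Real.pi / (4 * t) * ∫ p : ℂ × ℂ,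
      Real.exp (-(t * ‖p.1 - p.2‖ ^ 2)) * (f p.1 * f p.2) := by
    rw [hsw]
    exact integral_nonneg fun u => mul_self_nonneg _
  exact nonneg_of_mul_nonneg_right h3 (by positivity)

theorem lap {s ε : ℝ} (h : 0 < s + ε) :
    ∫ t in Ioi (0 : ℝ), Real.exp (-(t * (s + ε))) = (s + ε)⁻¹ := by
  have h1 := integral_exp_mul_Ioi (a := -(s + ε)) (by linarith) 0
  have h2 : (fun t : ℝ => Real.exp (-(t * (s + ε)))) = fun t => Real.exp (-(s + ε) * t) := by
    funext t
    congr 1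
    ring
  rw [h2, h1, mul_zero, Real.exp_zero, neg_div_neg_eq, one_div]

/-- Positivity of the kernel `1/(|x - y|^2 + ε)`. -/
theorem inv_pos' {f : ℂ → ℝ} (hf : Integrable f) (hm : Measurable f) {ε : ℝ} (hε : 0 < ε) :
    0 ≤ ∫ p : ℂ × ℂ, (‖p.1 - p.2‖ ^ 2 + ε)⁻¹ * (f p.1 * f p.2) := by
  have hG : Integrable (Function.uncurry fun (p : ℂ × ℂ) (t : ℝ) =>
      Real.exp (-(t * (‖p.1 - p.2‖ ^ 2 + ε))) * (f p.1 * f p.2))
      ((volume : Measure (ℂ × ℂ)).prod (volume.restrict (Ioi (0 : ℝ)))) := by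
    have hb : Integrable (fun q : (ℂ × ℂ) × ℝ => (f q.1.1 * f q.1.2) * Real.exp (-ε * q.2))
        ((volume : Measure (ℂ × ℂ)).prod (volume.restrict (Ioi (0 : ℝ)))) :=
      (F_int hf).mul_prod (integrableOn_exp_mul_Ioi (by linarith) 0)
    refine hb.norm.mono' ?_ ?_
    · refine Measurable.aestronglyMeasurable ?_
      unfold Function.uncurry
      fun_prop
    · have h1 : ∀ᵐ q : (ℂ × ℂ) × ℝ ∂((volume : Measure (ℂ × ℂ)).prod
          (volume.restrict (Ioi (0 : ℝ)))), q.2 ∈ Ioi (0 : ℝ) := by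
        have h2 : (volume : Measure (ℂ × ℂ)).prod (volume.restrict (Ioi (0 : ℝ)))
            = ((volume : Measure (ℂ × ℂ)).prod (volume : Measure ℝ)).restrict
              (univ ×ˢ Ioi (0 : ℝ)) := by
          rw [← Measure.prod_restrict, Measure.restrict_univ]
        rw [h2]
        filter_upwards [ae_restrict_mem (MeasurableSet.univ.prod measurableSet_Ioi)] with q hq
        exact hq.2
      filter_upwards [h1] with q hq
      have hq' : 0 < q.2 := hq
      simp only [Function.uncurry]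
      rw [Real.norm_eq_abs, Real.norm_eq_abs, abs_mul, abs_mul (f q.1.1 * f q.1.2),
        abs_of_pos (Real.exp_pos _), abs_of_pos (Real.exp_pos _), mul_comm]
      refine mul_le_mul_of_nonneg_left ?_ (abs_nonneg _)
      rw [Real.exp_le_exp]
      have : 0 ≤ q.2 * ‖q.1.1 - q.1.2‖ ^ 2 := by positivity
      nlinarith
  have hsw := integral_integral_swap hG
  have h1 : ∀ p : ℂ × ℂ, ∫ t in Ioi (0 : ℝ), Real.exp (-(t * (‖p.1 - p.2‖ ^ 2 + ε))) *
      (f p.1 * f p.2) = (‖p.1 - p.2‖ ^ 2 + ε)⁻¹ * (f p.1 * f p.2) := by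
    intro p
    rw [integral_mul_const, lap (by positivity)]
  simp_rw [h1] at hsw
  rw [hsw]
  refine setIntegral_nonneg measurableSet_Ioi fun t ht => ?_
  have ht' : (0 : ℝ) < t := ht
  have h2 : ∀ p : ℂ × ℂ, Real.exp (-(t * (‖p.1 - p.2‖ ^ 2 + ε))) * (f p.1 * f p.2)
      = Real.exp (-(t * ε)) * (Real.exp (-(t * ‖p.1 - p.2‖ ^ 2)) * (f p.1 * f p.2)) := by
    intro p
    rw [← mul_assoc (Real.exp _) (Real.exp _), ← Real.exp_add]
    congr 2
    ring
  simp_rw [h2]
  rw [integral_const_mul]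
  exact mul_nonneg (Real.exp_pos _).le (gauss_pos hf hm ht')

theorem log_diff {s δ E : ℝ} (hs : 0 ≤ s) (hδ : 0 < δ) (hE : δ ≤ E) :
    ∫ ε in δ..E, (s + ε)⁻¹ = Real.log (s + E) - Real.log (s + δ) := by
  rw [intervalIntegral.integral_comp_add_left (fun x => x⁻¹) s, integral_inv_of_pos
    (by linarith) (by linarith), Real.log_div (by linarith) (by linarith)]

/-- Positivity of the kernel `log(s + E) - log(s + δ)`. -/
theorem log_pos' {f : ℂ → ℝ} (hf : Integrable f) (hm : Measurable f) {δ E : ℝ} (hδ : 0 < δ)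
    (hE : δ ≤ E) :
    0 ≤ ∫ p : ℂ × ℂ, (Real.log (‖p.1 - p.2‖ ^ 2 + E) - Real.log (‖p.1 - p.2‖ ^ 2 + δ)) *
      (f p.1 * f p.2) := by
  have hG : Integrable (Function.uncurry fun (ε : ℝ) (p : ℂ × ℂ) =>
      (‖p.1 - p.2‖ ^ 2 + ε)⁻¹ * (f p.1 * f p.2))
      ((volume.restrict (uIoc δ E)).prod (volume : Measure (ℂ × ℂ))) := by
    have hc : Integrable (fun _ : ℝ => δ⁻¹) (volume.restrict (uIoc δ E)) := by
      refine integrable_const_iff.2 (Or.inr ?_)
      rw [isFiniteMeasure_restrict, uIoc_of_le hE, Real.volume_Ioc]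
      exact ENNReal.ofReal_ne_top
    have hb : Integrable (fun q : ℝ × (ℂ × ℂ) => δ⁻¹ * (f q.2.1 * f q.2.2))
        ((volume.restrict (uIoc δ E)).prod (volume : Measure (ℂ × ℂ))) :=
      hc.mul_prod (F_int hf)
    refine hb.norm.mono' ?_ ?_
    · refine Measurable.aestronglyMeasurable ?_
      unfold Function.uncurry
      fun_prop
    · have h1 : ∀ᵐ q : ℝ × (ℂ × ℂ) ∂((volume.restrict (uIoc δ E)).prod
          (volume : Measure (ℂ × ℂ))), q.1 ∈ uIoc δ E := by
        have h2 : (volume.restrict (uIoc δ E)).prod (volume : Measure (ℂ × ℂ))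
            = ((volume : Measure ℝ).prod (volume : Measure (ℂ × ℂ))).restrict
              (uIoc δ E ×ˢ univ) := by
          rw [← Measure.prod_restrict, Measure.restrict_univ]
        rw [h2]
        filter_upwards [ae_restrict_mem (measurableSet_uIoc.prod MeasurableSet.univ)] with q hq
        exact hq.1
      filter_upwards [h1] with q hq
      rw [uIoc_of_le hE] at hq
      have hq' : δ < q.1 := hq.1
      have h3 : 0 < ‖q.2.1 - q.2.2‖ ^ 2 + q.1 := by
        have : 0 ≤ ‖q.2.1 - q.2.2‖ ^ 2 := by positivity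
        linarith
      simp only [Function.uncurry]
      rw [Real.norm_eq_abs, Real.norm_eq_abs, abs_mul, abs_mul δ⁻¹, abs_of_pos (inv_pos.2 h3),
        abs_of_pos (inv_pos.2 hδ)]
      refine mul_le_mul_of_nonneg_right ?_ (abs_nonneg _)
      refine inv_anti₀ hδ ?_
      have : 0 ≤ ‖q.2.1 - q.2.2‖ ^ 2 := by positivity
      linarith
  have hsw := intervalIntegral_integral_swap hG
  have h1 : ∀ p : ℂ × ℂ, ∫ ε in δ..E, (‖p.1 - p.2‖ ^ 2 + ε)⁻¹ * (f p.1 * f p.2)
      = (Real.log (‖p.1 - p.2‖ ^ 2 + E) - Real.log (‖p.1 - p.2‖ ^ 2 + δ)) *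
        (f p.1 * f p.2) := by
    intro p
    rw [intervalIntegral.integral_mul_const, log_diff (by positivity) hδ hE]
  simp_rw [h1] at hsw
  rw [← hsw]
  refine intervalIntegral.integral_nonneg hE fun ε hε => ?_
  exact inv_pos' hf hm (lt_of_lt_of_le hδ hε.1)

theorem s_le {f : ℂ → ℝ} {R B : ℝ} (h : Nice f R B) (p : ℂ × ℂ) (hp : f p.1 * f p.2 ≠ 0) :
    ‖p.1 - p.2‖ ^ 2 ≤ (2 * R) ^ 2 := by
  have h1 : ‖p.1‖ ≤ R := by
    by_contra hc
    exact hp (by rw [h.supp p.1 (not_le.1 hc), zero_mul])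
  have h2 : ‖p.2‖ ≤ R := by
    by_contra hc
    exact hp (by rw [h.supp p.2 (not_le.1 hc), mul_zero])
  have h3 : ‖p.1 - p.2‖ ≤ 2 * R := (norm_sub_le _ _).trans (by linarith)
  exact pow_le_pow_left₀ (norm_nonneg _) h3 2

/-- A bounded kernel on the support is harmless. -/
theorem ker_int {f : ℂ → ℝ} {R B : ℝ} (h : Nice f R B) (k : ℂ × ℂ → ℝ) (hk : Measurable k)
    (C : ℝ) (hC : ∀ p : ℂ × ℂ, f p.1 * f p.2 ≠ 0 → |k p| ≤ C) :
    Integrable (fun p : ℂ × ℂ => k p * (f p.1 * f p.2)) := by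
  have hf := nice_int h
  have hm := h.meas
  refine ((F_int hf).norm.const_mul C).mono' ?_ ?_
  · refine Measurable.aestronglyMeasurable ?_
    fun_prop
  · refine Eventually.of_forall fun p => ?_
    rw [Real.norm_eq_abs, Real.norm_eq_abs, abs_mul]
    by_cases hp : f p.1 * f p.2 = 0
    · rw [hp]
      simp
    · exact mul_le_mul_of_nonneg_right (hC p hp) (abs_nonneg _)

/-- The sign of the energy with the regularised logarithm. -/
theorem log_neg {f : ℂ → ℝ} {R B : ℝ} (h : Nice f R B) (h0 : ∫ z, f z = 0) {δ : ℝ}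
    (hδ : 0 < δ) :
    ∫ p : ℂ × ℂ, Real.log (‖p.1 - p.2‖ ^ 2 + δ) * (f p.1 * f p.2) ≤ 0 := by
  have hf := nice_int h
  have hm := h.meas
  have hF0 : ∫ p : ℂ × ℂ, f p.1 * f p.2 = 0 := by
    have := integral_prod_mul (μ := (volume : Measure ℂ)) (ν := (volume : Measure ℂ)) f f
    rw [h0, zero_mul] at this
    exact this
  set C : ℝ := ∫ p : ℂ × ℂ, |f p.1 * f p.2| with hC
  have hC0 : 0 ≤ C := integral_nonneg fun p => abs_nonneg _
  have hlogm : ∀ E : ℝ, Measurable (fun p : ℂ × ℂ => Real.log (‖p.1 - p.2‖ ^ 2 + E)) := by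
    intro E
    fun_prop
  have hi : ∀ E : ℝ, 0 < E → Integrable (fun p : ℂ × ℂ =>
      Real.log (‖p.1 - p.2‖ ^ 2 + E) * (f p.1 * f p.2)) := by
    intro E hE
    refine ker_int h _ (hlogm E) (|Real.log E| + |Real.log ((2 * R) ^ 2 + E)|) ?_
    intro p hp
    have h1 := s_le h p hp
    have h2 : (0 : ℝ) ≤ ‖p.1 - p.2‖ ^ 2 := by positivity
    have h3 : Real.log E ≤ Real.log (‖p.1 - p.2‖ ^ 2 + E) := Real.log_le_log hE (by linarith)
    have h4 : Real.log (‖p.1 - p.2‖ ^ 2 + E) ≤ Real.log ((2 * R) ^ 2 + E) :=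
      Real.log_le_log (by linarith) (by linarith)
    rw [abs_le]
    constructor
    · have := neg_abs_le (Real.log E)
      have := abs_nonneg (Real.log ((2 * R) ^ 2 + E))
      linarith
    · have := le_abs_self (Real.log ((2 * R) ^ 2 + E))
      have := abs_nonneg (Real.log E)
      linarith
  have key : ∀ E : ℝ, δ ≤ E → ∫ p : ℂ × ℂ, Real.log (‖p.1 - p.2‖ ^ 2 + δ) * (f p.1 * f p.2)
      ≤ (2 * R) ^ 2 * C / E := by
    intro E hE
    have hE0 : 0 < E := lt_of_lt_of_le hδ hE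
    have h1 := log_pos' hf hm hδ hE
    have h2 : ∫ p : ℂ × ℂ, (Real.log (‖p.1 - p.2‖ ^ 2 + E) - Real.log (‖p.1 - p.2‖ ^ 2 + δ)) *
        (f p.1 * f p.2) = (∫ p : ℂ × ℂ, Real.log (‖p.1 - p.2‖ ^ 2 + E) * (f p.1 * f p.2))
          - ∫ p : ℂ × ℂ, Real.log (‖p.1 - p.2‖ ^ 2 + δ) * (f p.1 * f p.2) := by
      rw [← integral_sub (hi E hE0) (hi δ hδ)]
      refine integral_congr_ae (Eventually.of_forall fun p => ?_)
      simp only
      ring
    have h3 : ∫ p : ℂ × ℂ, Real.log (‖p.1 - p.2‖ ^ 2 + E) * (f p.1 * f p.2)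
        = ∫ p : ℂ × ℂ, (Real.log (‖p.1 - p.2‖ ^ 2 + E) - Real.log E) * (f p.1 * f p.2) := by
      have h4 : (fun p : ℂ × ℂ => (Real.log (‖p.1 - p.2‖ ^ 2 + E) - Real.log E) *
          (f p.1 * f p.2)) = fun p : ℂ × ℂ => Real.log (‖p.1 - p.2‖ ^ 2 + E) * (f p.1 * f p.2)
            - Real.log E * (f p.1 * f p.2) := by
        funext p
        ring
      rw [h4, integral_sub (hi E hE0) ((F_int hf).const_mul _), integral_const_mul, hF0]
      ring
    have h5 : ‖∫ p : ℂ × ℂ, (Real.log (‖p.1 - p.2‖ ^ 2 + E) - Real.log E) * (f p.1 * f p.2)‖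
        ≤ ∫ p : ℂ × ℂ, ((2 * R) ^ 2 / E) * |f p.1 * f p.2| := by
      refine norm_integral_le_of_norm_le ((F_int hf).norm.const_mul _) ?_
      refine Eventually.of_forall fun p => ?_
      rw [Real.norm_eq_abs, abs_mul]
      by_cases hp : f p.1 * f p.2 = 0
      · rw [hp]
        simp
      · refine mul_le_mul_of_nonneg_right ?_ (abs_nonneg _)
        have h6 := s_le h p hp
        have h7 : (0 : ℝ) ≤ ‖p.1 - p.2‖ ^ 2 := by positivity
        rw [← Real.log_div (by linarith) hE0.ne', abs_of_nonneg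
          (Real.log_nonneg (by rw [le_div_iff₀ hE0]; linarith))]
        have h8 : (‖p.1 - p.2‖ ^ 2 + E) / E - 1 = ‖p.1 - p.2‖ ^ 2 / E := by
          field_simp
          ring
        refine (Real.log_le_sub_one_of_pos (by positivity)).trans ?_
        rw [h8]
        exact div_le_div_of_nonneg_right h6 hE0.le
    rw [integral_const_mul] at h5
    have h9 := (abs_le.1 (Real.norm_eq_abs _ ▸ h5)).2
    have h10 : (2 * R) ^ 2 / E * C = (2 * R) ^ 2 * C / E := by ring
    rw [h2, h3] at h1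
    rw [← hC, h10] at h9
    linarith
  have hlim : Tendsto (fun E : ℝ => (2 * R) ^ 2 * C / E) atTop (𝓝 0) :=
    tendsto_const_nhds.div_atTop tendsto_id
  refine ge_of_tendsto hlim ?_
  filter_upwards [eventually_ge_atTop δ] with E hE
  exact key E hE

theorem diag_null : ∀ᵐ p : ℂ × ℂ, p.1 ≠ p.2 := by
  have hm : MeasurableSet {p : ℂ × ℂ | p.1 = p.2} := measurableSet_eq_fun measurable_fst
    measurable_snd
  have h : (volume : Measure (ℂ × ℂ)) {p : ℂ × ℂ | p.1 = p.2} = 0 := by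
    refine (Measure.measure_prod_null (μ := (volume : Measure ℂ)) (ν := (volume : Measure ℂ))
      hm).2 ?_
    refine Eventually.of_forall fun x => ?_
    have : Prod.mk x ⁻¹' {p : ℂ × ℂ | p.1 = p.2} = {x} := by
      ext y
      simp [eq_comm]
    show volume (Prod.mk x ⁻¹' {p : ℂ × ℂ | p.1 = p.2}) = 0
    rw [this]
    simp
  rw [ae_iff]
  simpa using h

end POS

theorem POS_thm (h1 : SYM_Stmt) : POS_Stmt := by
  intro f R B h h0
  obtain ⟨-, hI, hE, -⟩ := h1 f f R B R B h h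
  rw [← hE]
  have hm := h.meas
  have hseq : ∀ n : ℕ, ∫ p : ℂ × ℂ, Real.log (‖p.1 - p.2‖ ^ 2 + 1 / ((n : ℝ) + 1)) *
      (f p.1 * f p.2) ≤ 0 := fun n => POS.log_neg h h0 (by positivity)
  have hs : Integrable (fun p : ℂ × ℂ => ‖p.1 - p.2‖ ^ 2 * (f p.1 * f p.2)) := by
    refine POS.ker_int h (fun p : ℂ × ℂ => ‖p.1 - p.2‖ ^ 2) (by fun_prop) ((2 * R) ^ 2) ?_
    intro p hp
    rw [abs_of_nonneg (by positivity)]
    exact POS.s_le h p hp
  have hlim : Tendsto (fun n : ℕ => ∫ p : ℂ × ℂ,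
      Real.log (‖p.1 - p.2‖ ^ 2 + 1 / ((n : ℝ) + 1)) * (f p.1 * f p.2)) atTop
      (𝓝 (∫ p : ℂ × ℂ, Real.log (‖p.1 - p.2‖ ^ 2) * (f p.1 * f p.2))) := by
    refine tendsto_integral_of_dominated_convergence
      (fun p : ℂ × ℂ => 2 * ‖-Real.log ‖p.1 - p.2‖ * (f p.1 * f p.2)‖
        + ‖‖p.1 - p.2‖ ^ 2 * (f p.1 * f p.2)‖) ?_ ((hI.norm.const_mul 2).add hs.norm) ?_ ?_
    · intro n
      refine Measurable.aestronglyMeasurable ?_
      fun_prop
    · intro n
      filter_upwards [POS.diag_null] with p hp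
      have hs0 : 0 < ‖p.1 - p.2‖ ^ 2 := by
        have : 0 < ‖p.1 - p.2‖ := norm_pos_iff.2 (sub_ne_zero.2 hp)
        positivity
      have hn0 : (0 : ℝ) < 1 / ((n : ℝ) + 1) := by positivity
      have hn1 : 1 / ((n : ℝ) + 1) ≤ 1 := by
        rw [div_le_one (by positivity)]
        have : (0 : ℝ) ≤ n := Nat.cast_nonneg n
        linarith
      have hl : Real.log (‖p.1 - p.2‖ ^ 2) = 2 * Real.log ‖p.1 - p.2‖ := by
        rw [Real.log_pow]
        norm_num
      have a1 : Real.log (‖p.1 - p.2‖ ^ 2) ≤ Real.log (‖p.1 - p.2‖ ^ 2 + 1 / ((n : ℝ) + 1)) :=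
        Real.log_le_log hs0 (by linarith)
      have a2 : Real.log (‖p.1 - p.2‖ ^ 2 + 1 / ((n : ℝ) + 1)) ≤ ‖p.1 - p.2‖ ^ 2 := by
        refine (Real.log_le_sub_one_of_pos (by positivity)).trans ?_
        linarith
      have a3 : |Real.log (‖p.1 - p.2‖ ^ 2 + 1 / ((n : ℝ) + 1))|
          ≤ 2 * |Real.log ‖p.1 - p.2‖| + ‖p.1 - p.2‖ ^ 2 := by
        rw [abs_le]
        constructor
        · have := neg_abs_le (Real.log ‖p.1 - p.2‖)
          linarith
        · have := abs_nonneg (Real.log ‖p.1 - p.2‖)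
          linarith
      rw [norm_mul, norm_mul (-Real.log ‖p.1 - p.2‖), norm_mul (‖p.1 - p.2‖ ^ 2), norm_neg,
        Real.norm_eq_abs, Real.norm_eq_abs, Real.norm_eq_abs, Real.norm_eq_abs, abs_of_pos hs0]
      have := mul_le_mul_of_nonneg_right a3 (abs_nonneg (f p.1 * f p.2))
      linarith
    · filter_upwards [POS.diag_null] with p hp
      have hs0 : ‖p.1 - p.2‖ ^ 2 ≠ 0 := by
        have : 0 < ‖p.1 - p.2‖ := norm_pos_iff.2 (sub_ne_zero.2 hp)
        positivity
      refine Tendsto.mul_const _ ?_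
      have hc : Tendsto (fun n : ℕ => ‖p.1 - p.2‖ ^ 2 + 1 / ((n : ℝ) + 1)) atTop
          (𝓝 (‖p.1 - p.2‖ ^ 2 + 0)) := tendsto_const_nhds.add tendsto_one_div_add_atTop_nhds_zero_nat
      rw [add_zero] at hc
      exact ((Real.continuousAt_log hs0).tendsto).comp hc
  have hle : ∫ p : ℂ × ℂ, Real.log (‖p.1 - p.2‖ ^ 2) * (f p.1 * f p.2) ≤ 0 :=
    le_of_tendsto hlim (Eventually.of_forall hseq)
  have heq : ∫ p : ℂ × ℂ, Real.log (‖p.1 - p.2‖ ^ 2) * (f p.1 * f p.2)
      = (-2) * ∫ p : ℂ × ℂ, -Real.log ‖p.1 - p.2‖ * (f p.1 * f p.2) := by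
    rw [← integral_const_mul]
    refine integral_congr_ae (Eventually.of_forall fun p => ?_)
    simp only [Real.log_pow]
    push_cast
    ring
  rw [heq] at hle
  linarith

end Pool.Agent.GH
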