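import Pool.Agent.GH.Stmts

/-!
Basic facts on logarithmic potentials of bounded densities with bounded support.
-/

namespace Pool.Agent.GH

open MeasureTheory ProbabilityTheory Filter Topology

namespace POT

/-- `log‖x‖` is integrable on balls. -/
lemma integrableOn_log_ball (r : ℝ) :
    IntegrableOn (fun x : ℂ => Real.log ‖x‖) (Metric.ball (0 : ℂ) r) := by
  rw [integrableOn_fun_norm_addHaar (f := Real.log) (volume : Measure ℂ)]
  have hc : Continuous (fun y : ℝ => y * Real.log y) := Real.continuous_mul_log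
  have h1 : IntegrableOn (fun y : ℝ => y * Real.log y) (Set.Icc 0 r) :=
    hc.continuousOn.integrableOn_compact isCompact_Icc
  refine (h1.mono_set Set.Ioo_subset_Icc_self).congr_fun ?_ measurableSet_Ioo
  intro y hy
  simp [Complex.finrank_real_complex]

lemma integrable_nice {f : ℂ → ℝ} {R B : ℝ} (hf : Nice f R B) : Integrable f := by
  have h1 : Integrable (Set.indicator (Metric.closedBall (0 : ℂ) R) (fun _ => B)) := by
    rw [integrable_indicator_iff Metric.isClosed_closedBall.measurableSet]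
    exact integrableOn_const (by exact measure_closedBall_lt_top.ne)
  refine h1.mono' hf.meas.aestronglyMeasurable (Filter.Eventually.of_forall fun z => ?_)
  by_cases hz : z ∈ Metric.closedBall (0 : ℂ) R
  · rw [Set.indicator_of_mem hz, Real.norm_eq_abs]
    exact hf.bdd z
  · rw [Set.indicator_of_notMem hz]
    have : R < ‖z‖ := by
      simpa [Metric.mem_closedBall, dist_zero_right] using hz
    rw [hf.supp z this]
    simp

/-- Truncated logarithm. -/
noncomputable def lg (T : ℝ) (x : ℂ) : ℝ :=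
  Set.indicator (Metric.ball (0 : ℂ) T) (fun x => |Real.log ‖x‖|) x

lemma integrable_lg (T : ℝ) : Integrable (lg T) := by
  have := (integrableOn_log_ball T).norm
  unfold lg
  rw [integrable_indicator_iff Metric.isOpen_ball.measurableSet]
  exact this

lemma nonneg_B {f : ℂ → ℝ} {R B : ℝ} (hf : Nice f R B) : 0 ≤ B :=
  le_trans (abs_nonneg _) (hf.bdd 0)

lemma integrable_pot {f : ℂ → ℝ} {R B : ℝ} (hf : Nice f R B) (z : ℂ) :
    Integrable (fun y => -Real.log ‖z - y‖ * f y) := by
  have h1 : Integrable (fun y : ℂ => B * lg (‖z‖ + R + 1) (z - y)) :=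
    ((integrable_lg (‖z‖ + R + 1)).comp_sub_left z).const_mul B
  refine h1.mono' ?_ (Filter.Eventually.of_forall fun y => ?_)
  · refine Measurable.aestronglyMeasurable ?_
    exact (Real.measurable_log.comp (by fun_prop)).neg.mul hf.meas
  · by_cases hy : R < ‖y‖
    · rw [hf.supp y hy]
      simp only [mul_zero, norm_zero]
      refine mul_nonneg (nonneg_B hf) ?_
      unfold lg
      exact Set.indicator_nonneg (fun _ _ => abs_nonneg _) _
    · have hmem : z - y ∈ Metric.ball (0 : ℂ) (‖z‖ + R + 1) := by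
        rw [Metric.mem_ball, dist_zero_right]
        have := norm_sub_le z y
        linarith
      unfold lg
      rw [Set.indicator_of_mem hmem, norm_mul, norm_neg, Real.norm_eq_abs, Real.norm_eq_abs,
        mul_comm]
      exact mul_le_mul_of_nonneg_right (hf.bdd y) (abs_nonneg _)

/-- The singular kernel at scale `τ`. -/
noncomputable def sk (τ : ℝ) (x : ℂ) : ℝ := Real.posLog (τ / ‖x‖)

lemma sk_nonneg (τ : ℝ) (x : ℂ) : 0 ≤ sk τ x := Real.posLog_nonneg

lemma sk_one (x : ℂ) : sk 1 x = lg 1 x := by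
  unfold sk lg
  rw [Real.posLog_apply, one_div, Real.log_inv]
  by_cases hx : x ∈ Metric.ball (0 : ℂ) 1
  · rw [Set.indicator_of_mem hx]
    rw [Metric.mem_ball, dist_zero_right] at hx
    have h0 : Real.log ‖x‖ ≤ 0 := Real.log_nonpos (norm_nonneg x) hx.le
    rw [abs_of_nonpos h0]
    exact max_eq_right (by linarith)
  · rw [Set.indicator_of_notMem hx]
    rw [Metric.mem_ball, dist_zero_right, not_lt] at hx
    have h0 : 0 ≤ Real.log ‖x‖ := Real.log_nonneg hx
    exact max_eq_left (by linarith)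

lemma integrable_sk_one : Integrable (sk 1) := by
  have : sk 1 = lg 1 := funext sk_one
  rw [this]
  exact integrable_lg 1

lemma sk_scale {τ : ℝ} (hτ : 0 < τ) (x : ℂ) : sk τ x = sk 1 (τ⁻¹ • x) := by
  unfold sk
  rw [norm_smul, norm_inv, Real.norm_of_nonneg hτ.le]
  congr 1
  rw [one_div, mul_inv, inv_inv, div_eq_mul_inv]

lemma integrable_sk {τ : ℝ} (hτ : 0 < τ) : Integrable (sk τ) := by
  have h : sk τ = fun x => sk 1 (τ⁻¹ • x) := funext (sk_scale hτ)
  rw [h]
  exact (integrable_comp_smul_iff volume (sk 1) (inv_ne_zero hτ.ne')).2 integrable_sk_one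

lemma integral_sk {τ : ℝ} (hτ : 0 < τ) : ∫ x, sk τ x = τ ^ 2 * ∫ x, sk 1 x := by
  have h : sk τ = fun x => sk 1 (τ⁻¹ • x) := funext (sk_scale hτ)
  rw [h, Measure.integral_comp_smul volume (sk 1) τ⁻¹, Complex.finrank_real_complex, smul_eq_mul,
    inv_pow, inv_inv, abs_of_nonneg (by positivity)]

/-- The regularised potential. -/
noncomputable def rp (f : ℂ → ℝ) (τ : ℝ) (z : ℂ) : ℝ := ∫ y, -Real.log (max τ ‖z - y‖) * f y

lemma bound_log {τ T t : ℝ} (hτ : 0 < τ) (hT : t ≤ T) :
    |Real.log (max τ t)| ≤ |Real.log τ| + |Real.log (max τ T)| := by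
  have h1 : Real.log τ ≤ Real.log (max τ t) := Real.log_le_log hτ (le_max_left _ _)
  have h2 : Real.log (max τ t) ≤ Real.log (max τ T) :=
    Real.log_le_log (lt_of_lt_of_le hτ (le_max_left _ _)) (max_le_max le_rfl hT)
  have h3 := abs_le_max_abs_abs h1 h2
  refine h3.trans (max_le ?_ ?_)
  · linarith [abs_nonneg (Real.log (max τ T))]
  · linarith [abs_nonneg (Real.log τ)]

lemma rp_bound {f : ℂ → ℝ} {R B : ℝ} (hf : Nice f R B) {τ T : ℝ} (hτ : 0 < τ) {z : ℂ}
    (hz : ‖z‖ + R ≤ T) (y : ℂ) :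
    ‖-Real.log (max τ ‖z - y‖) * f y‖ ≤ (|Real.log τ| + |Real.log (max τ T)|) * ‖f y‖ := by
  by_cases hy : R < ‖y‖
  · rw [hf.supp y hy]
    simp
  · rw [norm_mul, norm_neg, Real.norm_eq_abs]
    refine mul_le_mul_of_nonneg_right (bound_log hτ ?_) (norm_nonneg _)
    have := norm_sub_le z y
    linarith

lemma rp_meas {f : ℂ → ℝ} {R B : ℝ} (hf : Nice f R B) (τ : ℝ) (z : ℂ) :
    AEStronglyMeasurable (fun y => -Real.log (max τ ‖z - y‖) * f y) volume := by
  refine Measurable.aestronglyMeasurable ?_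
  exact (Real.measurable_log.comp (by fun_prop)).neg.mul hf.meas

lemma integrable_rp {f : ℂ → ℝ} {R B : ℝ} (hf : Nice f R B) {τ : ℝ} (hτ : 0 < τ) (z : ℂ) :
    Integrable (fun y => -Real.log (max τ ‖z - y‖) * f y) :=
  ((integrable_nice hf).norm.const_mul _).mono' (rp_meas hf τ z)
    (Filter.Eventually.of_forall (rp_bound hf hτ (le_refl (‖z‖ + R))))

lemma continuous_rp {f : ℂ → ℝ} {R B : ℝ} (hf : Nice f R B) {τ : ℝ} (hτ : 0 < τ) :
    Continuous (rp f τ) := by
  rw [continuous_iff_continuousAt]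
  intro z0
  unfold rp
  refine continuousAt_of_dominated
    (bound := fun y => (|Real.log τ| + |Real.log (max τ (‖z0‖ + 1 + R))|) * ‖f y‖)
    (Filter.Eventually.of_forall fun z => rp_meas hf τ z) ?_
    ((integrable_nice hf).norm.const_mul _) ?_
  · filter_upwards [Metric.ball_mem_nhds z0 one_pos] with z hz
    refine Filter.Eventually.of_forall fun y => rp_bound hf hτ ?_ y
    rw [Metric.mem_ball, dist_eq_norm] at hz
    have : ‖z‖ ≤ ‖z0‖ + ‖z - z0‖ := by
      have := norm_add_le z0 (z - z0)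
      simpa using this
    linarith
  · refine Filter.Eventually.of_forall fun y => ?_
    refine ContinuousAt.mul (ContinuousAt.neg (ContinuousAt.log (by fun_prop) ?_)) continuousAt_const
    exact (lt_of_lt_of_le hτ (le_max_left _ _)).ne'

lemma sk_eq {τ : ℝ} (hτ : 0 < τ) {x : ℂ} (hx : x ≠ 0) :
    sk τ x = Real.log (max τ ‖x‖) - Real.log ‖x‖ := by
  have hx' : 0 < ‖x‖ := norm_pos_iff.2 hx
  unfold sk
  rw [Real.posLog_apply, Real.log_div hτ.ne' hx'.ne']
  rcases le_total τ ‖x‖ with h | h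
  · rw [max_eq_right h, sub_self]
    exact max_eq_left (by linarith [Real.log_le_log hτ h])
  · rw [max_eq_left h]
    exact max_eq_right (by linarith [Real.log_le_log hx' h])

lemma rp_close {f : ℂ → ℝ} {R B : ℝ} (hf : Nice f R B) {τ : ℝ} (hτ : 0 < τ) (z : ℂ) :
    |pot f z - rp f τ z| ≤ B * (τ ^ 2 * ∫ x, sk 1 x) := by
  have h1 : pot f z - rp f τ z = ∫ y, sk τ (z - y) * f y := by
    unfold pot rp
    rw [← integral_sub (integrable_pot hf z) (integrable_rp hf hτ z)]
    refine integral_congr_ae ?_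
    have hne : ∀ᵐ y : ℂ, y ≠ z := by
      rw [ae_iff]
      simp
    filter_upwards [hne] with y hy
    rw [sk_eq hτ (sub_ne_zero.2 (Ne.symm hy))]
    ring
  rw [h1, ← integral_sk hτ, ← Real.norm_eq_abs]
  have h2 : ∫ x, sk τ x = ∫ y, sk τ (z - y) := (integral_sub_left_eq_self (sk τ) volume z).symm
  rw [h2, ← integral_const_mul]
  refine norm_integral_le_of_norm_le (((integrable_sk hτ).comp_sub_left z).const_mul B)
    (Filter.Eventually.of_forall fun y => ?_)
  rw [norm_mul, Real.norm_of_nonneg (sk_nonneg τ _), Real.norm_eq_abs, mul_comm]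
  exact mul_le_mul_of_nonneg_right (hf.bdd y) (sk_nonneg τ _)

lemma continuous_pot {f : ℂ → ℝ} {R B : ℝ} (hf : Nice f R B) : Continuous (pot f) := by
  refine continuous_of_uniform_approx_of_continuous fun u hu => ?_
  obtain ⟨ε, hε, hu'⟩ := Metric.mem_uniformity_dist.1 hu
  have hlim : Tendsto (fun τ : ℝ => B * (τ ^ 2 * ∫ x, sk 1 x)) (𝓝[>] 0) (𝓝 0) := by
    have : Tendsto (fun τ : ℝ => B * (τ ^ 2 * ∫ x, sk 1 x)) (𝓝 0)
        (𝓝 (B * (0 ^ 2 * ∫ x, sk 1 x))) :=
      Continuous.tendsto (by fun_prop) 0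
    simp only [ne_eq, OfNat.ofNat_ne_zero, not_false_eq_true, zero_pow, zero_mul, mul_zero] at this
    exact this.mono_left nhdsWithin_le_nhds
  obtain ⟨τ, hτ1, hτ2⟩ := ((hlim.eventually_lt_const hε).and self_mem_nhdsWithin).exists
  refine ⟨rp f τ, continuous_rp hf hτ2, fun z => hu' ?_⟩
  rw [Real.dist_eq]
  exact (rp_close hf hτ2 z).trans_lt hτ1

end POT

theorem POT_thm : POT_Stmt := by
  refine ⟨fun f R B hf => ⟨POT.integrable_nice hf, POT.integrable_pot hf,
    POT.continuous_pot hf⟩, ?_⟩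
  intro f g R B R' B' a b hf hg z
  have hF := POT.integrable_pot hf z
  have hG := POT.integrable_pot hg z
  unfold pot
  rw [← integral_const_mul, ← integral_const_mul, ← integral_add (hF.const_mul a) (hG.const_mul b)]
  refine integral_congr_ae (Filter.Eventually.of_forall fun y => ?_)
  simp only
  ring

end Pool.Agent.GH
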