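import Pool.Agent.GH.Stmts

/-!
# Rotation averaging
-/

namespace Pool.Agent.GH

open MeasureTheory ProbabilityTheory Filter Topology

namespace ROT

/-- The rotation about `x₀`. -/
noncomputable def rot (u : Circle) (x₀ : ℂ) : ℂ ≃ₜ ℂ :=
  ((Homeomorph.subRight x₀).trans (rotation u).toHomeomorph).trans (Homeomorph.addLeft x₀)

theorem rot_apply (u : Circle) (x₀ y : ℂ) : rot u x₀ y = x₀ + u * (y - x₀) := rfl

theorem rot_mp (u : Circle) (x₀ : ℂ) : MeasurePreserving (rot u x₀) volume volume := by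
  have h1 := measurePreserving_sub_right (volume : Measure ℂ) x₀
  have h2 := (rotation u).measurePreserving
  have h3 := measurePreserving_add_left (volume : Measure ℂ) x₀
  exact h3.comp (h2.comp h1)

theorem norm_rot (u : Circle) (x₀ z y : ℂ) : ‖rot u x₀ z - rot u x₀ y‖ = ‖z - y‖ := by
  rw [rot_apply, rot_apply]
  have : x₀ + u * (z - x₀) - (x₀ + u * (y - x₀)) = u * (z - y) := by ring
  rw [this, norm_mul, Circle.norm_coe, one_mul]

theorem norm_rot' (u : Circle) (x₀ z : ℂ) : ‖rot u x₀ z - x₀‖ = ‖z - x₀‖ := by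
  have h := norm_rot u x₀ z x₀
  have e : rot u x₀ x₀ = x₀ := by rw [rot_apply]; simp
  rwa [e] at h

theorem integral_rot (u : Circle) (x₀ : ℂ) (g : ℂ → ℝ) : ∫ z, g (rot u x₀ z) = ∫ z, g z :=
  (rot_mp u x₀).integral_comp (rot u x₀).measurableEmbedding g

theorem pot_rot (u : Circle) (x₀ : ℂ) (f : ℂ → ℝ) (z : ℂ) :
    pot (fun y => f (rot u x₀ y)) z = pot f (rot u x₀ z) := by
  unfold pot
  rw [← integral_rot u x₀ (fun y => -Real.log ‖rot u x₀ z - y‖ * f y)]
  simp only [norm_rot]

theorem nice_rot (u : Circle) (x₀ : ℂ) {f : ℂ → ℝ} {R B : ℝ} (hf : Nice f R B) :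
    Nice (fun y => f (rot u x₀ y)) (R + 2 * ‖x₀‖) B where
  meas := hf.meas.comp (rot u x₀).continuous.measurable
  bdd := fun z => hf.bdd _
  supp := by
    intro z hz
    apply hf.supp
    have h1 := norm_rot' u x₀ z
    have h2 : ‖z‖ ≤ ‖z - x₀‖ + ‖x₀‖ := by
      have := norm_add_le (z - x₀) x₀
      simpa using this
    have h3 : ‖rot u x₀ z - x₀‖ ≤ ‖rot u x₀ z‖ + ‖x₀‖ := norm_sub_le _ _
    linarith

theorem en_rot (u : Circle) (x₀ : ℂ) (f : ℂ → ℝ) :
    en (fun y => f (rot u x₀ y)) (fun y => f (rot u x₀ y)) = en f f := by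
  unfold en
  simp only [pot_rot]
  exact integral_rot u x₀ (fun z => pot f z * f z)

/-- The inequality for one rotation. -/
theorem one_rot (h1 : POS_Stmt) (h2 : SYM_Stmt) (h4 : POT_Stmt) {f : ℂ → ℝ} {R B : ℝ}
    (hf : Nice f R B) (u : Circle) (x₀ : ℂ) :
    ∫ z, pot f (rot u x₀ z) * f z ≤ en f f := by
  set g : ℂ → ℝ := fun y => f (rot u x₀ y) with hg
  have hgn := nice_rot u x₀ hf
  have hB : 0 ≤ B := (abs_nonneg _).trans (hf.bdd 0)
  have hd : Nice (fun y => 1 * f y + (-1) * g y) (R + 2 * ‖x₀‖) (B + B) := by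
    refine ⟨(hf.meas.const_mul 1).add (hgn.meas.const_mul (-1)), ?_, ?_⟩
    · intro z
      have e1 := abs_le.1 (hf.bdd z)
      have e2 := abs_le.1 (hgn.bdd z)
      rw [abs_le]
      constructor <;> simp only [hg] at * <;> linarith
    · intro z hz
      have e1 : f z = 0 := hf.supp z (by linarith [norm_nonneg x₀])
      have e2 : g z = 0 := hgn.supp z hz
      rw [e1, e2]
      ring
  have hfi := (h4.1 f R B hf).1
  have hgi := (h4.1 g _ B hgn).1
  have hint : ∫ z, (1 * f z + (-1) * g z) = 0 := by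
    rw [integral_add (hfi.const_mul 1) (hgi.const_mul (-1)), integral_const_mul,
      integral_const_mul]
    have e : ∫ z, g z = ∫ z, f z := integral_rot u x₀ f
    rw [e]
    ring
  have hpos := h1 _ _ _ hd hint
  have hpot : ∀ z, pot (fun y => 1 * f y + (-1) * g y) z = 1 * pot f z + (-1) * pot g z :=
    h4.2 f g R B (R + 2 * ‖x₀‖) B 1 (-1) hf hgn
  have i1 := (h2 f f R B R B hf hf).1
  have i2 := (h2 f g R B _ B hf hgn).1
  have i3 := (h2 g f _ B R B hgn hf).1
  have i4 := (h2 g g _ B _ B hgn hgn).1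
  have hen : en (fun y => 1 * f y + (-1) * g y) (fun y => 1 * f y + (-1) * g y) =
      en f f - en f g - en g f + en g g := by
    have k1 := integral_sub i1 i2
    have k2 := integral_sub (i1.sub i2) i3
    have k3 := integral_add ((i1.sub i2).sub i3) i4
    simp only [Pi.sub_apply] at k1 k2 k3
    unfold en
    rw [← k1, ← k2, ← k3]
    refine integral_congr_ae (Eventually.of_forall fun z => ?_)
    simp only [hpot]
    ring
  rw [hen, (h2 f g R B _ B hf hgn).2.2.2, en_rot u x₀ f] at hpos
  have e : en g f = ∫ z, pot f (rot u x₀ z) * f z := by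
    unfold en
    simp only [hg, pot_rot]
  rw [← e]
  linarith

theorem circle_avg (F : ℂ → ℝ) (x₀ z : ℂ) :
    ∫ θ in (0 : ℝ)..(2 * Real.pi), F (rot (Circle.exp θ) x₀ z) =
      2 * Real.pi * Real.circleAverage F x₀ ‖z - x₀‖ := by
  have h1 : ∀ θ : ℝ, rot (Circle.exp θ) x₀ z = circleMap x₀ ‖z - x₀‖ (θ + (z - x₀).arg) := by
    intro θ
    rw [rot_apply, circleMap, Circle.coe_exp]
    congr 1
    push_cast
    rw [add_mul, Complex.exp_add]
    have h2 := Complex.norm_mul_exp_arg_mul_I (z - x₀)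
    rw [mul_left_comm, h2]
  simp only [h1]
  rw [intervalIntegral.integral_comp_add_right (fun θ => F (circleMap x₀ ‖z - x₀‖ θ))]
  have hper : Function.Periodic (fun θ => F (circleMap x₀ ‖z - x₀‖ θ)) (2 * Real.pi) := by
    intro θ
    simp only [periodic_circleMap x₀ ‖z - x₀‖ θ]
  have h3 := hper.intervalIntegral_add_eq (0 + (z - x₀).arg) 0
  rw [Real.circleAverage_def]
  rw [zero_add] at h3 ⊢
  rw [add_comm (2 * Real.pi), h3, zero_add, smul_eq_mul]
  have hpi : (2 * Real.pi) ≠ 0 := by positivity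
  field_simp

end ROT

open ROT in
theorem ROT_thm (h1 : POS_Stmt) (h2 : SYM_Stmt) (h3 : AVG_Stmt) (h4 : POT_Stmt) : ROT_Stmt := by
  intro f R B hf _ x₀
  have hcont : Continuous (pot f) := (h4.1 f R B hf).2.2
  have hB : 0 ≤ B := (abs_nonneg _).trans (hf.bdd 0)
  -- the left side is an integral of circle averages
  have e1 : (∫ z, (∫ y, -Real.log (max ‖z - x₀‖ ‖y - x₀‖) * f y) * f z) =
      ∫ z, Real.circleAverage (pot f) x₀ ‖z - x₀‖ * f z := by
    have hae : ∀ᵐ z : ℂ, z ≠ x₀ := by
      have : ({x₀}ᶜ : Set ℂ) ∈ ae (volume : Measure ℂ) := by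
        rw [compl_mem_ae_iff]
        exact measure_singleton x₀
      exact this
    refine integral_congr_ae (hae.mono fun z hz => ?_)
    simp only
    rw [(h3 f R B hf x₀ ‖z - x₀‖ (norm_pos_iff.2 (sub_ne_zero.2 hz))).2]
    simp only [norm_sub_rev x₀]
  rw [e1]
  have hpi : 0 < 2 * Real.pi := by positivity
  -- integrability
  obtain ⟨C, hC⟩ := (isCompact_closedBall x₀ (R + ‖x₀‖)).exists_bound_of_continuousOn
    hcont.continuousOn
  have hjoint : Continuous (fun p : ℂ × ℝ => rot (Circle.exp p.2) x₀ p.1) := by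
    simp only [rot_apply]
    fun_prop
  have hint : Integrable (fun p : ℂ × ℝ => pot f (rot (Circle.exp p.2) x₀ p.1) * f p.1)
      ((volume : Measure ℂ).prod ((volume : Measure ℝ).restrict (Set.Ioc 0 (2 * Real.pi)))) := by
    have hdom : Integrable (fun p : ℂ × ℝ =>
        (Metric.closedBall (0 : ℂ) R).indicator (fun _ => |C| * B) p.1 * (fun _ => (1 : ℝ)) p.2)
        ((volume : Measure ℂ).prod ((volume : Measure ℝ).restrict (Set.Ioc 0 (2 * Real.pi)))) := by
      refine Integrable.mul_prod (L := ℝ)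
        (f := (Metric.closedBall (0 : ℂ) R).indicator (fun _ => |C| * B))
        (g := fun _ => (1 : ℝ)) ?_ ?_
      · rw [integrable_indicator_iff measurableSet_closedBall]
        exact integrableOn_const (isCompact_closedBall _ _).measure_lt_top.ne
      · exact integrable_const 1
    refine hdom.mono' ?_ ?_
    · exact (hcont.comp hjoint).aestronglyMeasurable.mul
        (hf.meas.comp measurable_fst).aestronglyMeasurable
    · refine Eventually.of_forall fun p => ?_
      by_cases hp : p.1 ∈ Metric.closedBall (0 : ℂ) R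
      · rw [Set.indicator_of_mem hp, norm_mul, mul_one]
        refine mul_le_mul ?_ (hf.bdd _) (norm_nonneg _) (abs_nonneg _)
        refine (hC _ ?_).trans (le_abs_self C)
        rw [mem_closedBall_iff_norm, norm_rot']
        rw [mem_closedBall_zero_iff] at hp
        exact (norm_sub_le _ _).trans (by linarith)
      · have : f p.1 = 0 := by
          apply hf.supp
          rw [mem_closedBall_zero_iff, not_le] at hp
          exact hp
        rw [this, Set.indicator_of_notMem hp]
        simp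
  have e2 : ∫ z, Real.circleAverage (pot f) x₀ ‖z - x₀‖ * f z =
      (2 * Real.pi)⁻¹ * ∫ θ in Set.Ioc 0 (2 * Real.pi),
        ∫ z, pot f (rot (Circle.exp θ) x₀ z) * f z := by
    rw [← integral_integral_swap hint, ← integral_const_mul]
    refine integral_congr_ae (Eventually.of_forall fun z => ?_)
    simp only
    rw [integral_mul_const, ← intervalIntegral.integral_of_le hpi.le, circle_avg]
    field_simp
  rw [e2]
  have hle : ∫ θ in Set.Ioc 0 (2 * Real.pi), ∫ z, pot f (rot (Circle.exp θ) x₀ z) * f z ≤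
      ∫ _ in Set.Ioc 0 (2 * Real.pi), en f f := by
    refine integral_mono ?_ (integrable_const _) fun θ => one_rot h1 h2 h4 hf _ x₀
    exact hint.integral_prod_right
  rw [setIntegral_const] at hle
  have hvol : (volume : Measure ℝ).real (Set.Ioc 0 (2 * Real.pi)) = 2 * Real.pi := by
    rw [Real.volume_real_Ioc]
    rw [sub_zero, max_eq_left hpi.le]
  rw [hvol, smul_eq_mul] at hle
  rw [inv_mul_le_iff₀ hpi]
  exact hle

end Pool.Agent.GH
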