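import Pool.Agent.GH.Stmts

/-!
Module `GH_ROU`: the `N`-th roots of unity scaled to a circle.
-/

namespace Pool.Agent.GH

open Polynomial

namespace ROU

/-- The scaled roots of unity. -/
noncomputable def pt (x : ℂ) (c : ℝ) (N : ℕ) (k : Fin N) : ℂ :=
  x + (c : ℂ) * Complex.exp (2 * Real.pi * Complex.I / N) ^ (k : ℕ)

theorem prim {N : ℕ} (hN : 1 ≤ N) :
    IsPrimitiveRoot (Complex.exp (2 * Real.pi * Complex.I / N)) N :=
  Complex.isPrimitiveRoot_exp N (by omega)

theorem norm_root {N : ℕ} (hN : 1 ≤ N) :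
    ‖Complex.exp (2 * Real.pi * Complex.I / N)‖ = 1 :=
  (prim hN).norm'_eq_one (by omega)

theorem inj (x : ℂ) {c : ℝ} (hc : 0 < c) {N : ℕ} (hN : 1 ≤ N) :
    Function.Injective (pt x c N) := by
  intro i j hij
  have hc' : (c : ℂ) ≠ 0 := by exact_mod_cast hc.ne'
  have h1 : Complex.exp (2 * Real.pi * Complex.I / N) ^ (i : ℕ) =
      Complex.exp (2 * Real.pi * Complex.I / N) ^ (j : ℕ) := by
    unfold pt at hij
    exact mul_left_cancel₀ hc' (add_left_cancel hij)
  exact Fin.ext ((prim hN).pow_inj i.2 j.2 h1)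

theorem norm_pt (x : ℂ) {c : ℝ} (hc : 0 < c) {N : ℕ} (hN : 1 ≤ N) (i : Fin N) :
    ‖pt x c N i - x‖ = c := by
  unfold pt
  rw [add_sub_cancel_left, norm_mul, norm_pow, norm_root hN, one_pow, mul_one,
    Complex.norm_real, Real.norm_of_nonneg hc.le]

theorem roots_eq {N : ℕ} (hN : 1 ≤ N) :
    nthRootsFinset N (1 : ℂ) = Finset.univ.image
      (fun k : Fin N => Complex.exp (2 * Real.pi * Complex.I / N) ^ (k : ℕ)) := by
  symm
  apply Finset.eq_of_subset_of_card_le
  · intro w hw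
    rw [Finset.mem_image] at hw
    obtain ⟨k, -, rfl⟩ := hw
    rw [Polynomial.mem_nthRootsFinset (by omega), ← pow_mul, mul_comm (k : ℕ) N, pow_mul,
      (prim hN).pow_eq_one, one_pow]
  · rw [(prim hN).card_nthRootsFinset, Finset.card_image_of_injective, Finset.card_univ,
      Fintype.card_fin]
    intro i j hij
    exact Fin.ext ((prim hN).pow_inj i.2 j.2 hij)

theorem prod_eq (x : ℂ) (c : ℝ) {N : ℕ} (hN : 1 ≤ N) (z : ℂ) :
    ∏ i, (z - pt x c N i) = (z - x) ^ N - (c : ℂ) ^ N := by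
  rw [(prim hN).pow_sub_pow_eq_prod_sub_mul (z - x) (c : ℂ) (by omega), roots_eq hN,
    Finset.prod_image]
  · refine Finset.prod_congr rfl fun k _ => ?_
    unfold pt
    ring
  · intro i _ j _ hij
    exact Fin.ext ((prim hN).pow_inj i.2 j.2 hij)

theorem poly_eq (x : ℂ) (c : ℝ) {N : ℕ} (hN : 1 ≤ N) :
    ∏ i, (X - C (pt x c N i)) = (X - C x) ^ N - C ((c : ℂ) ^ N) := by
  apply Polynomial.funext
  intro z
  rw [Polynomial.eval_prod]
  simp only [eval_sub, eval_X, eval_C, eval_pow]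
  exact prod_eq x c hN z

theorem prod_ne (x : ℂ) (c : ℝ) {N : ℕ} (hN : 1 ≤ N) (i : Fin N) :
    ∏ j ∈ Finset.univ.erase i, (pt x c N i - pt x c N j) =
      (N : ℂ) * (pt x c N i - x) ^ (N - 1) := by
  have h := congrArg (fun p => (derivative p).eval (pt x c N i)) (poly_eq x c hN)
  simp only [derivative_prod_finset, eval_finsetSum] at h
  rw [Finset.sum_eq_single i] at h
  · rw [eval_mul, eval_prod] at h
    simpa [derivative_pow] using h
  · intro j _ hji
    rw [eval_mul, eval_prod, Finset.prod_eq_zero (i := i), zero_mul]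
    · exact Finset.mem_erase.mpr ⟨hji.symm, Finset.mem_univ _⟩
    · simp
  · intro hi
    exact absurd (Finset.mem_univ i) hi

theorem vdm_sq (x : ℂ) {c : ℝ} (hc : 0 < c) {N : ℕ} (hN : 1 ≤ N) :
    (vdm (pt x c N)) ^ 2 = ((N : ℝ) * c ^ (N - 1)) ^ N := by
  have h1 : (vdm (pt x c N)) ^ 2 = ∏ i : Fin N, ∏ j ∈ Finset.Ioi i,
      (‖pt x c N i - pt x c N j‖ * ‖pt x c N j - pt x c N i‖) := by
    unfold vdm
    rw [pow_two, ← Finset.prod_mul_distrib]
    refine Finset.prod_congr rfl fun i _ => ?_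
    rw [← Finset.prod_mul_distrib]
    refine Finset.prod_congr rfl fun j _ => ?_
    rw [norm_sub_rev (pt x c N j) (pt x c N i)]
  have h2 := Finset.prod_prod_Ioi_mul_eq_prod_prod_off_diag
    (fun i j : Fin N => ‖pt x c N j - pt x c N i‖)
  rw [h1, h2]
  have h3 : ∀ i : Fin N, ∏ j ∈ ({i}ᶜ : Finset (Fin N)), ‖pt x c N i - pt x c N j‖ =
      (N : ℝ) * c ^ (N - 1) := by
    intro i
    have h4 : ({i}ᶜ : Finset (Fin N)) = Finset.univ.erase i := by
      ext j
      simp
    rw [h4, ← norm_prod, prod_ne x c hN i, norm_mul, norm_pow, norm_pt x hc hN i]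
    simp
  rw [Finset.prod_congr rfl fun i _ => h3 i, Finset.prod_const, Finset.card_univ,
    Fintype.card_fin]

end ROU

theorem ROU_thm : ROU_Stmt := by
  intro x c N hc hN
  exact ⟨ROU.pt x c N, ROU.inj x hc hN, ROU.norm_pt x hc hN, ROU.prod_eq x c hN,
    ROU.vdm_sq x hc hN⟩

end Pool.Agent.GH
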