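import Pool.Agent.GH.Stmts

/-!
Hole probability of the Gaussian entire function: approximation by polynomials on a thickening
(module RUN).
-/

namespace Pool.Agent.GH

open MeasureTheory ProbabilityTheory Filter Topology

namespace RUN

/-- Power series. -/
lemma poly_approx (F : ℂ → ℂ) (M R' : ℝ) (hM : 0 ≤ M) (hR : M < R')
    (hF : DifferentiableOn ℂ F (Metric.closedBall 0 R')) (ε : ℝ) (hε : 0 < ε) :
    ∃ q : Polynomial ℂ, ∀ u : ℂ, ‖u‖ ≤ M → ‖F u - q.eval u‖ < ε := by
  have hR0 : 0 < R' := by linarith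
  lift R' to NNReal using hR0.le
  have hR1 : (0 : NNReal) < R' := by exact_mod_cast hR0
  have hp := hF.hasFPowerSeriesOnBall hR1
  obtain ⟨r', h1, h2⟩ : ∃ r' : NNReal, M < r' ∧ r' < R' := by
    obtain ⟨t, ht1, ht2⟩ := exists_between hR
    exact ⟨⟨t, by linarith⟩, ht1, by exact_mod_cast ht2⟩
  have hu := hp.tendstoUniformlyOn' (r' := r') (by exact_mod_cast h2)
  rw [Metric.tendstoUniformlyOn_iff] at hu
  obtain ⟨n, hn⟩ := (hu ε hε).exists
  refine ⟨∑ k ∈ Finset.range n,
    Polynomial.C ((cauchyPowerSeries F 0 R').coeff k) * Polynomial.X ^ k, ?_⟩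
  intro u hu
  have h3 := hn u (by
    rw [Metric.mem_ball, dist_zero_right]
    linarith)
  rw [dist_eq_norm] at h3
  refine lt_of_eq_of_lt ?_ h3
  congr 2
  rw [Polynomial.eval_finsetSum]
  unfold FormalMultilinearSeries.partialSum
  refine Finset.sum_congr rfl fun k _ => ?_
  rw [Polynomial.eval_mul, Polynomial.eval_C, Polynomial.eval_pow, Polynomial.eval_X,
    FormalMultilinearSeries.apply_eq_pow_smul_coeff, sub_zero, smul_eq_mul, mul_comm]

/-- Uniform approximation by polynomials. -/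
def PT (T : Set ℂ) (f : ℂ → ℂ) : Prop :=
  ∀ ε : ℝ, 0 < ε → ∃ p : Polynomial ℂ, ∀ y ∈ T, ‖f y - p.eval y‖ < ε

/-- Composition with a function which is approximated by polynomials. -/
lemma PT.comp {T : Set ℂ} {g F : ℂ → ℂ} {M : ℝ} (hM : 0 ≤ M) (hg : PT T g)
    (hb : ∀ y ∈ T, ‖g y‖ ≤ M)
    (hF : ∀ ε : ℝ, 0 < ε → ∃ q : Polynomial ℂ, ∀ u : ℂ, ‖u‖ ≤ M → ‖F u - q.eval u‖ < ε) :
    PT T (fun y => F (g y)) := by
  intro ε hε
  obtain ⟨q, hq⟩ := hF (ε / 2) (by linarith)
  have hcont : Continuous fun u : ℂ => q.eval u := q.continuous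
  have huc : UniformContinuousOn (fun u : ℂ => q.eval u) (Metric.closedBall 0 (M + 1)) :=
    (isCompact_closedBall _ _).uniformContinuousOn_of_continuous hcont.continuousOn
  rw [Metric.uniformContinuousOn_iff] at huc
  obtain ⟨η, hη, hη2⟩ := huc (ε / 2) (by linarith)
  obtain ⟨p, hp⟩ := hg (min η 1) (lt_min hη one_pos)
  refine ⟨q.comp p, fun y hy => ?_⟩
  have h1 := hp y hy
  have h2 : ‖g y - p.eval y‖ < η := lt_of_lt_of_le h1 (min_le_left _ _)
  have h3 : ‖g y - p.eval y‖ < 1 := lt_of_lt_of_le h1 (min_le_right _ _)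
  have h4 : ‖p.eval y‖ ≤ M + 1 := by
    have h5 : ‖p.eval y‖ ≤ ‖g y‖ + ‖g y - p.eval y‖ := by
      have := norm_sub_norm_le (p.eval y) (g y)
      rw [norm_sub_rev] at this
      linarith
    have := hb y hy
    linarith
  have h6 := hη2 (g y) (by
    rw [Metric.mem_closedBall, dist_zero_right]
    have := hb y hy
    linarith) (p.eval y) (by
    rw [Metric.mem_closedBall, dist_zero_right]
    exact h4) (by rw [dist_eq_norm]; exact h2)
  rw [dist_eq_norm] at h6
  have h7 := hq (g y) (hb y hy)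
  rw [Polynomial.eval_comp]
  calc ‖F (g y) - q.eval (p.eval y)‖
      = ‖(F (g y) - q.eval (g y)) + (q.eval (g y) - q.eval (p.eval y))‖ := by ring_nf
    _ ≤ ‖F (g y) - q.eval (g y)‖ + ‖q.eval (g y) - q.eval (p.eval y)‖ := norm_add_le _ _
    _ < ε := by linarith

lemma PT.of_poly {T : Set ℂ} {F : ℂ → ℂ} {M : ℝ} (hT : ∀ y ∈ T, ‖y‖ ≤ M)
    (hF : ∀ ε : ℝ, 0 < ε → ∃ q : Polynomial ℂ, ∀ u : ℂ, ‖u‖ ≤ M → ‖F u - q.eval u‖ < ε) :
    PT T F := by
  intro ε hε
  obtain ⟨q, hq⟩ := hF ε hε
  exact ⟨q, fun y hy => hq y (hT y hy)⟩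

lemma slit_of_norm_lt {v : ℂ} (hv : ‖v‖ < 1) : 1 - v ∈ Complex.slitPlane := by
  rw [Complex.mem_slitPlane_iff]
  left
  have := Complex.abs_re_le_norm v
  have h2 := (abs_le.1 this).2
  simp only [Complex.sub_re, Complex.one_re]
  linarith

/-- The key step. -/
lemma step {z z' : ℂ} {T : Set ℂ} {r : ℝ} (hr : 0 < r) (hT : ∀ y ∈ T, r ≤ ‖z - y‖)
    (hz : ‖z' - z‖ ≤ r / 2) (h : RunProp z T) : RunProp z' T := by
  obtain ⟨hlog, hinv⟩ := h
  have hg : PT T (fun y => (z - y)⁻¹) := hinv
  have hb : ∀ y ∈ T, ‖(z - y)⁻¹‖ ≤ 1 / r := by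
    intro y hy
    rw [norm_inv, one_div]
    exact inv_anti₀ hr (hT y hy)
  have hw : ‖z - z'‖ ≤ r / 2 := by rw [norm_sub_rev]; exact hz
  have hM : (0 : ℝ) ≤ 1 / r := by positivity
  have hMR : 1 / r < 3 / (2 * r) := by
    rw [div_lt_div_iff₀ hr (by positivity)]
    linarith
  have hsmall : ∀ u : ℂ, ‖u‖ ≤ 3 / (2 * r) → ‖(z - z') * u‖ < 1 := by
    intro u hu
    rw [norm_mul]
    calc ‖z - z'‖ * ‖u‖ ≤ (r / 2) * (3 / (2 * r)) := by gcongr
      _ = 3 / 4 := by field_simp; norm_num
      _ < 1 := by norm_num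
  have hne : ∀ u : ℂ, ‖u‖ ≤ 3 / (2 * r) → 1 - (z - z') * u ≠ 0 := by
    intro u hu h0
    have h1 : (z - z') * u = 1 := by linear_combination -h0
    have h2 := hsmall u hu
    rw [h1, norm_one] at h2
    exact lt_irrefl _ h2
  have hfac : ∀ y ∈ T, z' - y = (z - y) * (1 - (z - z') * (z - y)⁻¹) := by
    intro y hy
    have h0 : z - y ≠ 0 := by
      intro h0
      have := hT y hy
      rw [h0, norm_zero] at this
      linarith
    field_simp
    ring
  constructor
  · -- logarithms
    have hA : ∀ ε : ℝ, 0 < ε → ∃ q : Polynomial ℂ, ∀ u : ℂ, ‖u‖ ≤ 1 / r →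
        ‖Complex.log (1 - (z - z') * u) - q.eval u‖ < ε := by
      intro ε hε
      refine poly_approx (fun u => Complex.log (1 - (z - z') * u)) (1 / r) (3 / (2 * r)) hM hMR
        ?_ ε hε
      intro u hu
      rw [Metric.mem_closedBall, dist_zero_right] at hu
      have h1 : DifferentiableAt ℂ (fun u : ℂ => 1 - (z - z') * u) u := by fun_prop
      exact (h1.clog (slit_of_norm_lt (hsmall u hu))).differentiableWithinAt
    have hB := PT.comp (F := fun u => Complex.log (1 - (z - z') * u)) hM hg hb hA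
    intro ε hε
    obtain ⟨p1, hp1⟩ := hlog (ε / 2) (by linarith)
    obtain ⟨p2, hp2⟩ := hB (ε / 2) (by linarith)
    refine ⟨p1 + p2, fun y hy => ?_⟩
    have h1 := hp1 y hy
    have h2 := hp2 y hy
    have h0 : ‖z - y‖ ≠ 0 := by
      have := hT y hy
      intro h0
      linarith
    have hu : ‖(z - y)⁻¹‖ ≤ 3 / (2 * r) := (hb y hy).trans hMR.le
    have h3 : Real.log ‖z' - y‖ = Real.log ‖z - y‖ +
        (Complex.log (1 - (z - z') * (z - y)⁻¹)).re := by
      rw [hfac y hy, norm_mul, Real.log_mul h0 (norm_ne_zero_iff.2 (hne _ hu)), Complex.log_re]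
    have h4 : |(Complex.log (1 - (z - z') * (z - y)⁻¹) - p2.eval y).re| < ε / 2 :=
      lt_of_le_of_lt (Complex.abs_re_le_norm _) h2
    rw [Complex.sub_re] at h4
    rw [h3, Polynomial.eval_add, Complex.add_re]
    calc |Real.log ‖z - y‖ + (Complex.log (1 - (z - z') * (z - y)⁻¹)).re -
          ((p1.eval y).re + (p2.eval y).re)|
        = |(Real.log ‖z - y‖ - (p1.eval y).re) +
          ((Complex.log (1 - (z - z') * (z - y)⁻¹)).re - (p2.eval y).re)| := by ring_nf
      _ ≤ |Real.log ‖z - y‖ - (p1.eval y).re| +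
          |(Complex.log (1 - (z - z') * (z - y)⁻¹)).re - (p2.eval y).re| := abs_add_le _ _
      _ < ε := by linarith
  · -- inverses
    have hA : ∀ ε : ℝ, 0 < ε → ∃ q : Polynomial ℂ, ∀ u : ℂ, ‖u‖ ≤ 1 / r →
        ‖u * (1 - (z - z') * u)⁻¹ - q.eval u‖ < ε := by
      intro ε hε
      refine poly_approx (fun u => u * (1 - (z - z') * u)⁻¹) (1 / r) (3 / (2 * r)) hM hMR
        ?_ ε hε
      intro u hu
      rw [Metric.mem_closedBall, dist_zero_right] at hu
      have h1 : DifferentiableAt ℂ (fun u : ℂ => 1 - (z - z') * u) u := by fun_prop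
      exact (differentiableAt_id.mul (h1.inv (hne u hu))).differentiableWithinAt
    have hB := PT.comp (F := fun u => u * (1 - (z - z') * u)⁻¹) hM hg hb hA
    intro ε hε
    obtain ⟨p, hp⟩ := hB ε hε
    refine ⟨p, fun y hy => ?_⟩
    have h1 := hp y hy
    rw [hfac y hy, mul_inv]
    exact h1

/-- Points far away. -/
lemma far {z : ℂ} {T : Set ℂ} {R : ℝ} (hR : 0 < R) (hT : ∀ y ∈ T, ‖y‖ ≤ R) (hz : R < ‖z‖) :
    RunProp z T := by
  obtain ⟨R', h1, h2⟩ := exists_between hz
  have hz0 : z ≠ 0 := by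
    intro h0
    rw [h0, norm_zero] at hz
    linarith
  have hsmall : ∀ u : ℂ, ‖u‖ ≤ R' → ‖u / z‖ < 1 := by
    intro u hu
    rw [norm_div, div_lt_one (by linarith)]
    linarith
  constructor
  · have hA : PT T (fun y => Complex.log (1 - y / z)) := by
      refine PT.of_poly hT fun ε hε => ?_
      refine poly_approx (fun y => Complex.log (1 - y / z)) R R' hR.le h1 ?_ ε hε
      intro u hu
      rw [Metric.mem_closedBall, dist_zero_right] at hu
      have h1 : DifferentiableAt ℂ (fun u : ℂ => 1 - u / z) u := by fun_prop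
      exact (h1.clog (slit_of_norm_lt (hsmall u hu))).differentiableWithinAt
    intro ε hε
    obtain ⟨p, hp⟩ := hA ε hε
    refine ⟨Polynomial.C (Real.log ‖z‖ : ℂ) + p, fun y hy => ?_⟩
    have h3 := hp y hy
    have hy2 : ‖y / z‖ < 1 := hsmall y ((hT y hy).trans h1.le)
    have hne : 1 - y / z ≠ 0 := by
      intro h0
      have h4 : y / z = 1 := by linear_combination -h0
      rw [h4, norm_one] at hy2
      exact lt_irrefl _ hy2
    have h5 : Real.log ‖z - y‖ = Real.log ‖z‖ + (Complex.log (1 - y / z)).re := by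
      have h6 : z - y = z * (1 - y / z) := by field_simp
      rw [h6, norm_mul, Real.log_mul (norm_ne_zero_iff.2 hz0) (norm_ne_zero_iff.2 hne),
        Complex.log_re]
    rw [h5, Polynomial.eval_add, Polynomial.eval_C, Complex.add_re, Complex.ofReal_re]
    have h7 : |(Complex.log (1 - y / z) - p.eval y).re| < ε :=
      lt_of_le_of_lt (Complex.abs_re_le_norm _) h3
    rw [Complex.sub_re] at h7
    have h8 : Real.log ‖z‖ + (Complex.log (1 - y / z)).re - (Real.log ‖z‖ + (p.eval y).re) =
        (Complex.log (1 - y / z)).re - (p.eval y).re := by ring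
    rw [h8]
    exact h7
  · refine PT.of_poly hT fun ε hε => ?_
    refine poly_approx (fun y => (z - y)⁻¹) R R' hR.le h1 ?_ ε hε
    intro u hu
    rw [Metric.mem_closedBall, dist_zero_right] at hu
    have h1 : DifferentiableAt ℂ (fun u : ℂ => z - u) u := by fun_prop
    have hne : z - u ≠ 0 := by
      intro h0
      have : z = u := by linear_combination h0
      rw [this] at h2
      linarith
    exact (h1.inv hne).differentiableWithinAt

lemma RunProp.mono {z : ℂ} {T T' : Set ℂ} (h : T ⊆ T') (hz : RunProp z T') : RunProp z T := by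
  refine ⟨fun ε hε => ?_, fun ε hε => ?_⟩
  · obtain ⟨p, hp⟩ := hz.1 ε hε
    exact ⟨p, fun y hy => hp y (h hy)⟩
  · obtain ⟨p, hp⟩ := hz.2 ε hε
    exact ⟨p, fun y hy => hp y (h hy)⟩

/-- The set of the good points. -/
def W (K : Set ℂ) : Set ℂ :=
  {z | ∃ δ : ℝ, 0 < δ ∧ z ∉ Metric.cthickening δ K ∧ RunProp z (Metric.cthickening δ K)}

lemma isOpen_W (K : Set ℂ) : IsOpen (W K) := by
  rw [Metric.isOpen_iff]
  rintro z ⟨δ, hδ, hz, hrun⟩
  have hopen : IsOpen (Metric.cthickening δ K)ᶜ := Metric.isClosed_cthickening.isOpen_compl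
  obtain ⟨r, hr, hball⟩ := Metric.isOpen_iff.1 hopen z hz
  have hT : ∀ y ∈ Metric.cthickening δ K, r ≤ ‖z - y‖ := by
    intro y hy
    by_contra hc
    push Not at hc
    have : y ∈ Metric.ball z r := by
      rw [Metric.mem_ball, dist_comm, dist_eq_norm]
      exact hc
    exact hball this hy
  refine ⟨r / 2, by linarith, fun z' hz' => ?_⟩
  rw [Metric.mem_ball, dist_eq_norm] at hz'
  refine ⟨δ, hδ, ?_, step hr hT hz'.le hrun⟩
  have : z' ∈ Metric.ball z r := by
    rw [Metric.mem_ball, dist_eq_norm]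
    linarith
  exact hball this

end RUN

open RUN in
theorem RUN_thm : RUN_Stmt := by
  intro K z hK hz
  rcases K.eq_empty_or_nonempty with rfl | hne
  · refine ⟨1, one_pos, ?_, ?_, ?_⟩
    · rw [Metric.cthickening_empty]
      exact Set.notMem_empty _
    · intro ε _
      exact ⟨0, fun y hy => by rw [Metric.cthickening_empty] at hy; exact absurd hy (Set.notMem_empty _)⟩
    · intro ε _
      exact ⟨0, fun y hy => by rw [Metric.cthickening_empty] at hy; exact absurd hy (Set.notMem_empty _)⟩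
  obtain ⟨hzK, hunb⟩ := hz
  -- distance to the thickening
  have hdist : ∀ (δ : ℝ) (x y : ℂ), y ∈ Metric.cthickening δ K → 0 ≤ δ →
      Metric.infDist x K - δ ≤ ‖x - y‖ := by
    intro δ x y hy hδ
    rw [hK.cthickening_eq_biUnion_closedBall hδ] at hy
    simp only [Set.mem_iUnion, exists_prop] at hy
    obtain ⟨k, hk, hyk⟩ := hy
    rw [Metric.mem_closedBall] at hyk
    have h1 : Metric.infDist x K ≤ dist x k := Metric.infDist_le_dist_of_mem hk
    have h2 := dist_triangle x y k
    rw [dist_eq_norm x y] at h2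
    linarith
  -- the component is contained in the good set
  have hsub : connectedComponentIn Kᶜ z ⊆ W K := by
    refine isPreconnected_connectedComponentIn.subset_of_closure_inter_subset (isOpen_W K) ?_ ?_
    · obtain ⟨R, hR⟩ := hK.isBounded.subset_closedBall 0
      have hT : ∀ y ∈ Metric.cthickening 1 K, ‖y‖ ≤ |R| + 1 := by
        intro y hy
        rw [hK.cthickening_eq_biUnion_closedBall zero_le_one] at hy
        simp only [Set.mem_iUnion, exists_prop] at hy
        obtain ⟨k, hk, hyk⟩ := hy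
        rw [Metric.mem_closedBall, dist_eq_norm] at hyk
        have h1 := hR hk
        rw [Metric.mem_closedBall, dist_zero_right] at h1
        have h2 : ‖y‖ ≤ ‖y - k‖ + ‖k‖ := by
          have := norm_add_le (y - k) k
          rwa [sub_add_cancel] at this
        have := le_abs_self R
        linarith
      have hex : ∃ w ∈ connectedComponentIn Kᶜ z, |R| + 1 < ‖w‖ := by
        by_contra hc
        push Not at hc
        apply hunb
        refine (Metric.isBounded_closedBall (x := (0 : ℂ)) (r := |R| + 1)).subset ?_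
        intro w hw
        rw [Metric.mem_closedBall, dist_zero_right]
        exact hc w hw
      obtain ⟨w, hw, hw2⟩ := hex
      refine ⟨w, hw, 1, one_pos, ?_, ?_⟩
      · intro hmem
        have := hT w hmem
        linarith
      · exact far (by positivity) hT hw2
    · rintro z' ⟨hcl, hz'⟩
      have hz'K : z' ∉ K := connectedComponentIn_subset _ _ hz'
      have hd : 0 < Metric.infDist z' K := by
        rw [← hK.isClosed.notMem_iff_infDist_pos hne]
        exact hz'K
      set d := Metric.infDist z' K with hdd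
      obtain ⟨w, hw, hwd⟩ := Metric.mem_closure_iff.1 hcl (d / 8) (by linarith)
      obtain ⟨δ, hδ, -, hrun⟩ := hw
      have hδ' : 0 < min δ (d / 4) := lt_min hδ (by linarith)
      rw [dist_eq_norm] at hwd
      have hrun' : RunProp w (Metric.cthickening (min δ (d / 4)) K) :=
        RunProp.mono (Metric.cthickening_mono (min_le_left _ _) K) hrun
      have hwd2 : d - ‖z' - w‖ ≤ Metric.infDist w K := by
        have h1 := Metric.infDist_le_infDist_add_dist (s := K) (x := z') (y := w)
        rw [dist_eq_norm] at h1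
        linarith
      have hm : min δ (d / 4) ≤ d / 4 := min_le_right _ _
      refine ⟨min δ (d / 4), hδ', ?_, step (z := w) (r := d / 2) (by linarith) ?_ ?_ hrun'⟩
      · intro hmem
        have h1 := hdist _ z' z' hmem hδ'.le
        rw [sub_self, norm_zero] at h1
        linarith
      · intro y hy
        have h1 := hdist _ w y hy hδ'.le
        linarith
      · linarith
  exact hsub (mem_connectedComponentIn hzK)

end Pool.Agent.GH
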