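import Pool.Agent.GH.Stmts

/-!
SAMPA: existence of good point configurations, by the first moment method.
-/

namespace Pool.Agent.GH

open MeasureTheory ProbabilityTheory Filter Topology

namespace SAMPA

/-- The law with density `g`. -/
noncomputable def mu (g : ℂ → ℝ) : Measure ℂ :=
  volume.withDensity (fun z => ENNReal.ofReal (g z))

theorem dens_meas {g : ℂ → ℝ} {R B : ℝ} (hg : Nice g R B) :
    Measurable (fun z => ENNReal.ofReal (g z)) := hg.meas.ennreal_ofReal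

theorem nice_int {g : ℂ → ℝ} {R B : ℝ} (hg : Nice g R B) : Integrable g := by
  have h1 : IntegrableOn g (Metric.closedBall (0 : ℂ) R) := by
    refine Measure.integrableOn_of_bounded (M := B) ?_ hg.meas.aestronglyMeasurable ?_
    · exact (isCompact_closedBall (0 : ℂ) R).measure_lt_top.ne
    · exact Filter.Eventually.of_forall fun z => by rw [Real.norm_eq_abs]; exact hg.bdd z
  rwa [integrableOn_iff_integrable_of_support_subset] at h1
  intro z hz
  rw [Metric.mem_closedBall, dist_zero_right]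
  by_contra hcon
  exact hz (hg.supp z (not_le.mp hcon))

theorem mu_prob {g : ℂ → ℝ} {R B : ℝ} (hg : Nice g R B) (h0 : ∀ z, 0 ≤ g z)
    (h1 : ∫ z, g z = 1) : IsProbabilityMeasure (mu g) := by
  constructor
  rw [mu, withDensity_apply _ MeasurableSet.univ, Measure.restrict_univ,
    ← ofReal_integral_eq_lintegral_ofReal (nice_int hg) (Filter.Eventually.of_forall h0), h1,
    ENNReal.ofReal_one]

theorem int_mu {g : ℂ → ℝ} {R B : ℝ} (hg : Nice g R B) (h0 : ∀ z, 0 ≤ g z) (f : ℂ → ℝ) :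
    ∫ z, f z ∂(mu g) = ∫ z, f z * g z := by
  rw [mu, integral_withDensity_eq_integral_toReal_smul (dens_meas hg)
    (Filter.Eventually.of_forall fun z => ENNReal.ofReal_lt_top)]
  refine integral_congr_ae (Filter.Eventually.of_forall fun z => ?_)
  show (ENNReal.ofReal (g z)).toReal • f z = f z * g z
  rw [ENNReal.toReal_ofReal (h0 z), smul_eq_mul, mul_comm]

theorem ae_ne {g : ℂ → ℝ} {R B : ℝ} (hg : Nice g R B) : ∀ᵐ z ∂(mu g), g z ≠ 0 := by
  rw [mu, ae_withDensity_iff (dens_meas hg)]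
  refine Filter.Eventually.of_forall fun z hz h => hz ?_
  rw [h, ENNReal.ofReal_zero]

theorem norm_le_of_ne {g : ℂ → ℝ} {R B : ℝ} (hg : Nice g R B) {z : ℂ} (hz : g z ≠ 0) :
    ‖z‖ ≤ R := by
  by_contra hcon
  exact hz (hg.supp z (not_le.mp hcon))

/-! ### The logarithm is integrable -/

/-- The truncated logarithm. -/
noncomputable def tl (T r : ℝ) : ℝ := if r ≤ T then Real.log r else 0

theorem tl_int (T : ℝ) : Integrable (fun u : ℂ => tl T ‖u‖) := by
  rw [integrable_fun_norm_addHaar (μ := (volume : Measure ℂ)) (f := tl T)]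
  have hd : Module.finrank ℝ ℂ - 1 = 1 := by rw [Complex.finrank_real_complex]
  rw [hd]
  have hmeas : Measurable (fun y : ℝ => y ^ 1 • tl T y) := by
    have : Measurable (tl T) := Measurable.ite measurableSet_Iic Real.measurable_log
      measurable_const
    exact (measurable_id.pow_const 1).smul this
  have hfin : IntegrableOn (fun y : ℝ => y ^ 1 • tl T y) (Set.Ioc 0 T) := by
    refine Measure.integrableOn_of_bounded (M := 1 + T * |Real.log T|) ?_
      hmeas.aestronglyMeasurable ?_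
    · rw [Real.volume_Ioc]; exact ENNReal.ofReal_ne_top
    · rw [ae_restrict_iff' measurableSet_Ioc]
      refine Filter.Eventually.of_forall fun y hy => ?_
      have hT : 0 < T := lt_of_lt_of_le hy.1 hy.2
      rw [pow_one, smul_eq_mul, tl, if_pos hy.2, Real.norm_eq_abs, mul_comm]
      rcases le_or_gt y 1 with h | h
      · have := Real.abs_log_mul_self_lt y hy.1 h
        have : 0 ≤ T * |Real.log T| := mul_nonneg hT.le (abs_nonneg _)
        linarith
      · rw [abs_mul, abs_of_pos hy.1, abs_of_nonneg (Real.log_nonneg h.le)]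
        have h1 : Real.log y ≤ |Real.log T| :=
          (Real.log_le_log hy.1 hy.2).trans (le_abs_self _)
        have h2 : Real.log y * y ≤ |Real.log T| * T :=
          mul_le_mul h1 hy.2 hy.1.le (abs_nonneg _)
        nlinarith
  have : IntegrableOn (fun y : ℝ => y ^ 1 • tl T y) (Set.Ioc 0 T ∪ Set.Ioi (max 0 T)) := by
    refine hfin.union ?_
    have hz : IntegrableOn (fun _ : ℝ => (0 : ℝ)) (Set.Ioi (max 0 T)) :=
      integrable_zero _ _ _
    refine hz.congr_fun ?_ measurableSet_Ioi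
    intro y hy
    have : ¬ y ≤ T := not_le.mpr (lt_of_le_of_lt (le_max_right _ _) hy)
    simp [tl, this]
  refine this.mono_set ?_
  intro y hy
  rcases le_or_gt y T with h | h
  · exact Or.inl ⟨hy, h⟩
  · exact Or.inr (max_lt hy h)

theorem log_meas : Measurable (fun u : ℂ => ‖Real.log ‖u‖‖ₑ) :=
  (Real.measurable_log.comp measurable_norm).enorm

theorem log_fin (T : ℝ) :
    ∫⁻ u : ℂ, (Metric.closedBall (0 : ℂ) T).indicator (fun u => ‖Real.log ‖u‖‖ₑ) u < ⊤ := by
  refine lt_of_le_of_lt (lintegral_mono fun u => ?_) (tl_int T).hasFiniteIntegral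
  by_cases hu : u ∈ Metric.closedBall (0 : ℂ) T
  · rw [Set.indicator_of_mem hu]
    rw [Metric.mem_closedBall, dist_zero_right] at hu
    have e : tl T ‖u‖ = Real.log ‖u‖ := if_pos hu
    show ‖Real.log ‖u‖‖ₑ ≤ ‖tl T ‖u‖‖ₑ
    rw [e]
  · rw [Set.indicator_of_notMem hu]
    exact bot_le

theorem unif {g : ℂ → ℝ} {R B : ℝ} (hg : Nice g R B) {x : ℂ} (hx : ‖x‖ ≤ R) :
    ∫⁻ y, ‖Real.log ‖x - y‖‖ₑ ∂(mu g) ≤ ENNReal.ofReal B *
      ∫⁻ u : ℂ, (Metric.closedBall (0 : ℂ) (2 * R)).indicator (fun u => ‖Real.log ‖u‖‖ₑ) u := by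
  have hm : Measurable (fun y : ℂ => ‖Real.log ‖x - y‖‖ₑ) :=
    log_meas.comp (measurable_const.sub measurable_id)
  rw [mu, lintegral_withDensity_eq_lintegral_mul _ (dens_meas hg) hm]
  have hind : Measurable ((Metric.closedBall (0 : ℂ) (2 * R)).indicator
      (fun u => ‖Real.log ‖u‖‖ₑ)) := log_meas.indicator measurableSet_closedBall
  have e1 : ∫⁻ u : ℂ, (Metric.closedBall (0 : ℂ) (2 * R)).indicator
      (fun u => ‖Real.log ‖u‖‖ₑ) u = ∫⁻ y : ℂ, (Metric.closedBall (0 : ℂ) (2 * R)).indicator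
      (fun u => ‖Real.log ‖u‖‖ₑ) (x - y) :=
    (lintegral_sub_left_eq_self (μ := (volume : Measure ℂ))
      ((Metric.closedBall (0 : ℂ) (2 * R)).indicator (fun u => ‖Real.log ‖u‖‖ₑ)) x).symm
  have hind2 : Measurable (fun y : ℂ => (Metric.closedBall (0 : ℂ) (2 * R)).indicator
      (fun u => ‖Real.log ‖u‖‖ₑ) (x - y)) := hind.comp (measurable_const.sub measurable_id)
  rw [e1, ← lintegral_const_mul _ hind2]
  refine lintegral_mono fun y => ?_
  show ENNReal.ofReal (g y) * ‖Real.log ‖x - y‖‖ₑ ≤ _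
  by_cases hy : g y = 0
  · rw [hy, ENNReal.ofReal_zero, zero_mul]; exact bot_le
  · have hyR := norm_le_of_ne hg hy
    have hmem : x - y ∈ Metric.closedBall (0 : ℂ) (2 * R) := by
      rw [Metric.mem_closedBall, dist_zero_right]
      have := norm_sub_le x y
      linarith
    rw [Set.indicator_of_mem hmem]
    gcongr
    exact (le_abs_self _).trans (hg.bdd y)

theorem pair_meas : Measurable (fun p : ℂ × ℂ => Real.log ‖p.1 - p.2‖) :=
  Real.measurable_log.comp (measurable_norm.comp (measurable_fst.sub measurable_snd))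

theorem pair_int {g : ℂ → ℝ} {R B : ℝ} (hg : Nice g R B) (h0 : ∀ z, 0 ≤ g z)
    (h1 : ∫ z, g z = 1) :
    Integrable (fun p : ℂ × ℂ => Real.log ‖p.1 - p.2‖) ((mu g).prod (mu g)) := by
  have := mu_prob hg h0 h1
  refine ⟨pair_meas.aestronglyMeasurable, ?_⟩
  show ∫⁻ p : ℂ × ℂ, ‖Real.log ‖p.1 - p.2‖‖ₑ ∂((mu g).prod (mu g)) < ⊤
  rw [lintegral_prod _ pair_meas.enorm.aemeasurable]
  have hle : ∫⁻ x, ∫⁻ y, ‖Real.log ‖x - y‖‖ₑ ∂(mu g) ∂(mu g) ≤ ∫⁻ _x, ENNReal.ofReal B *
      (∫⁻ u : ℂ, (Metric.closedBall (0 : ℂ) (2 * R)).indicator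
        (fun u => ‖Real.log ‖u‖‖ₑ) u) ∂(mu g) := by
    refine lintegral_mono_ae ?_
    filter_upwards [ae_ne hg] with x hx
    exact unif hg (norm_le_of_ne hg hx)
  refine lt_of_le_of_lt hle ?_
  rw [lintegral_const, measure_univ, mul_one]
  exact ENNReal.mul_lt_top ENNReal.ofReal_lt_top (log_fin _)

theorem pair_val {g : ℂ → ℝ} {R B : ℝ} (hg : Nice g R B) (h0 : ∀ z, 0 ≤ g z)
    (h1 : ∫ z, g z = 1) :
    ∫ p : ℂ × ℂ, Real.log ‖p.1 - p.2‖ ∂((mu g).prod (mu g)) = -en g g := by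
  have := mu_prob hg h0 h1
  rw [integral_prod _ (pair_int hg h0 h1)]
  simp only
  rw [int_mu hg h0 (fun x => ∫ y, Real.log ‖x - y‖ ∂(mu g))]
  rw [en, ← integral_neg]
  refine integral_congr_ae (Filter.Eventually.of_forall fun x => ?_)
  show (∫ y, Real.log ‖x - y‖ ∂(mu g)) * g x = -(pot g x * g x)
  rw [int_mu hg h0 (fun y => Real.log ‖x - y‖), pot]
  have : ∫ y, -Real.log ‖x - y‖ * g y = -∫ y, Real.log ‖x - y‖ * g y := by
    rw [← integral_neg]
    refine integral_congr_ae (Filter.Eventually.of_forall fun y => ?_)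
    show -Real.log ‖x - y‖ * g y = -(Real.log ‖x - y‖ * g y)
    ring
  rw [this]
  ring

/-! ### The product measure -/

theorem pair_law {g : ℂ → ℝ} {R B : ℝ} (hg : Nice g R B) (h0 : ∀ z, 0 ≤ g z)
    (h1 : ∫ z, g z = 1) {n : ℕ} (i j : Fin n) (hij : i ≠ j) :
    Measure.map (fun ζ : Fin n → ℂ => (ζ i, ζ j)) (Measure.pi fun _ => mu g) =
      (mu g).prod (mu g) := by
  have := mu_prob hg h0 h1
  have hind : iIndepFun (fun (i : Fin n) (ζ : Fin n → ℂ) => (id (ζ i) : ℂ))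
      (Measure.pi fun _ => mu g) :=
    iIndepFun_pi (X := fun _ => (id : ℂ → ℂ)) (fun _ => aemeasurable_id)
  have h := (indepFun_iff_map_prod_eq_prod_map_map
    (measurable_pi_apply i).aemeasurable (measurable_pi_apply j).aemeasurable).mp
    (hind.indepFun hij)
  have e1 := (measurePreserving_eval (fun _ : Fin n => mu g) i).map_eq
  have e2 := (measurePreserving_eval (fun _ : Fin n => mu g) j).map_eq
  have h' : Measure.map (fun ζ : Fin n → ℂ => (ζ i, ζ j)) (Measure.pi fun _ => mu g) =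
      (Measure.map (Function.eval i) (Measure.pi fun _ => mu g)).prod
        (Measure.map (Function.eval j) (Measure.pi fun _ => mu g)) := h
  rw [h', e1, e2]

theorem pairE {g : ℂ → ℝ} {R B : ℝ} (hg : Nice g R B) (h0 : ∀ z, 0 ≤ g z)
    (h1 : ∫ z, g z = 1) {n : ℕ} (i j : Fin n) (hij : i ≠ j) :
    Integrable (fun ζ : Fin n → ℂ => Real.log ‖ζ i - ζ j‖) (Measure.pi fun _ => mu g) ∧
      ∫ ζ : Fin n → ℂ, Real.log ‖ζ i - ζ j‖ ∂(Measure.pi fun _ => mu g) = -en g g := by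
  have := mu_prob hg h0 h1
  have hm : Measurable (fun ζ : Fin n → ℂ => (ζ i, ζ j)) :=
    (measurable_pi_apply i).prodMk (measurable_pi_apply j)
  have hI := pair_int hg h0 h1
  rw [← pair_law hg h0 h1 i j hij] at hI
  have hV := pair_val hg h0 h1
  rw [← pair_law hg h0 h1 i j hij] at hV
  refine ⟨(integrable_map_measure pair_meas.aestronglyMeasurable hm.aemeasurable).mp hI, ?_⟩
  rw [integral_map hm.aemeasurable pair_meas.aestronglyMeasurable] at hV
  exact hV

theorem ae_inj {g : ℂ → ℝ} {R B : ℝ} (hg : Nice g R B) (h0 : ∀ z, 0 ≤ g z)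
    (h1 : ∫ z, g z = 1) (n : ℕ) :
    ∀ᵐ ζ : Fin n → ℂ ∂(Measure.pi fun _ => mu g), Function.Injective ζ := by
  have := mu_prob hg h0 h1
  have : NullSingletonClass (mu g) := by
    constructor
    intro x
    exact withDensity_absolutelyContinuous _ _ (measure_singleton x)
  have hpair : ∀ i j : Fin n, i ≠ j →
      ∀ᵐ ζ : Fin n → ℂ ∂(Measure.pi fun _ => mu g), ζ i ≠ ζ j := by
    intro i j hij
    have hm : Measurable (fun ζ : Fin n → ℂ => (ζ i, ζ j)) :=
      (measurable_pi_apply i).prodMk (measurable_pi_apply j)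
    have hS : MeasurableSet {p : ℂ × ℂ | p.1 = p.2} :=
      measurableSet_eq_fun measurable_fst measurable_snd
    have hz : ((mu g).prod (mu g)) {p : ℂ × ℂ | p.1 = p.2} = 0 := by
      rw [Measure.measure_prod_null hS]
      refine Filter.Eventually.of_forall fun x => ?_
      have : Prod.mk x ⁻¹' {p : ℂ × ℂ | p.1 = p.2} = {x} := by
        ext y
        constructor
        · intro h
          exact (show x = y from h).symm
        · intro h
          exact (show y = x from h).symm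
      show (mu g) (Prod.mk x ⁻¹' {p : ℂ × ℂ | p.1 = p.2}) = 0
      rw [this]
      exact measure_singleton x
    rw [← pair_law hg h0 h1 i j hij, Measure.map_apply hm hS] at hz
    rw [ae_iff]
    refine measure_mono_null ?_ hz
    intro ζ hζ
    exact not_not.mp hζ
  have hall : ∀ᵐ ζ : Fin n → ℂ ∂(Measure.pi fun _ => mu g), ∀ i j : Fin n, i ≠ j → ζ i ≠ ζ j := by
    rw [ae_all_iff]
    intro i
    rw [ae_all_iff]
    intro j
    by_cases hij : i = j
    · exact Filter.Eventually.of_forall fun ζ h => absurd hij h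
    · filter_upwards [hpair i j hij] with ζ hζ _
      exact hζ
  filter_upwards [hall] with ζ hζ i j hij
  by_contra hne
  exact hζ i j hne hij

theorem ae_supp {g : ℂ → ℝ} {R B : ℝ} (hg : Nice g R B) (h0 : ∀ z, 0 ≤ g z)
    (h1 : ∫ z, g z = 1) (n : ℕ) :
    ∀ᵐ ζ : Fin n → ℂ ∂(Measure.pi fun _ => mu g), ∀ i, g (ζ i) ≠ 0 := by
  have := mu_prob hg h0 h1
  rw [ae_all_iff]
  intro i
  exact (measurePreserving_eval (fun _ : Fin n => mu g) i).quasiMeasurePreserving.ae (ae_ne hg)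

/-- The second moment of a linear statistic. -/
theorem second {g : ℂ → ℝ} {R B : ℝ} (hg : Nice g R B) (h0 : ∀ z, 0 ≤ g z)
    (h1 : ∫ z, g z = 1) {φ : ℂ → ℝ} {C : ℝ} (hφ : Measurable φ) (hC : ∀ z, |φ z| ≤ C) {n : ℕ}
    (hn : 0 < n) :
    Integrable (fun ζ : Fin n → ℂ => ((∑ j, φ (ζ j)) / (n : ℝ) - ∫ z, φ z * g z) ^ 2)
        (Measure.pi fun _ => mu g) ∧
      ∫ ζ : Fin n → ℂ, ((∑ j, φ (ζ j)) / (n : ℝ) - ∫ z, φ z * g z) ^ 2
        ∂(Measure.pi fun _ => mu g) ≤ C ^ 2 / n := by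
  have := mu_prob hg h0 h1
  have hn' : (0 : ℝ) < n := by exact_mod_cast hn
  have hC0 : 0 ≤ C := (abs_nonneg _).trans (hC 0)
  set m : ℝ := ∫ z, φ z * g z with hm
  have hm' : ∫ z, φ z ∂(mu g) = m := int_mu hg h0 φ
  have hSmeas : Measurable (fun ζ : Fin n → ℂ => ∑ j, φ (ζ j)) :=
    Finset.measurable_sum _ fun j _ => hφ.comp (measurable_pi_apply j)
  have hmem : MemLp φ 2 (mu g) :=
    memLp_of_bounded (a := -C) (b := C)
      (Filter.Eventually.of_forall fun z => ⟨(abs_le.mp (hC z)).1, (abs_le.mp (hC z)).2⟩)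
      hφ.aestronglyMeasurable 2
  have hmint : Integrable φ (mu g) := hmem.integrable (by norm_num)
  have hmle : |m| ≤ C := by
    rw [← hm']
    have := norm_integral_le_of_norm_le_const (μ := mu g) (f := φ) (C := C)
      (Filter.Eventually.of_forall fun z => by rw [Real.norm_eq_abs]; exact hC z)
    rw [Real.norm_eq_abs] at this
    simpa using this
  have hbd : ∀ ζ : Fin n → ℂ, |∑ j, φ (ζ j)| ≤ n * C := by
    intro ζ
    refine (Finset.abs_sum_le_sum_abs _ _).trans ?_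
    refine (Finset.sum_le_sum fun j _ => hC (ζ j)).trans ?_
    rw [Finset.sum_const, Finset.card_univ, Fintype.card_fin, nsmul_eq_mul]
  have hint : Integrable (fun ζ : Fin n → ℂ => ((∑ j, φ (ζ j)) / (n : ℝ) - m) ^ 2)
      (Measure.pi fun _ => mu g) := by
    refine Integrable.of_bound
      (((hSmeas.div_const _).sub_const _).pow_const 2).aestronglyMeasurable ((2 * C) ^ 2) ?_
    refine Filter.Eventually.of_forall fun ζ => ?_
    rw [Real.norm_eq_abs, abs_pow]
    have h2 : |(∑ j, φ (ζ j)) / (n : ℝ) - m| ≤ 2 * C := by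
      have h3 : |(∑ j, φ (ζ j)) / (n : ℝ)| ≤ C := by
        rw [abs_div, abs_of_pos hn', div_le_iff₀ hn', mul_comm]
        exact hbd ζ
      have := abs_sub (∑ j, φ (ζ j) / (n : ℝ)) m
      calc |(∑ j, φ (ζ j)) / (n : ℝ) - m| ≤ |(∑ j, φ (ζ j)) / (n : ℝ)| + |m| := abs_sub _ _
        _ ≤ 2 * C := by linarith
    exact pow_le_pow_left₀ (abs_nonneg _) h2 2
  refine ⟨hint, ?_⟩
  have hvar := variance_sum_pi (μ := fun _ : Fin n => mu g) (X := fun _ : Fin n => φ)
    (fun _ => hmem)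
  have hfun : (∑ i : Fin n, fun ζ : Fin n → ℂ => φ (ζ i)) = fun ζ => ∑ j, φ (ζ j) := by
    funext ζ
    rw [Finset.sum_apply]
  rw [hfun] at hvar
  rw [variance_eq_integral hSmeas.aemeasurable] at hvar
  have hES : ∫ ζ : Fin n → ℂ, ∑ j, φ (ζ j) ∂(Measure.pi fun _ => mu g) = n * m := by
    have hj : ∀ j : Fin n, Integrable (fun ζ : Fin n → ℂ => φ (ζ j)) (Measure.pi fun _ => mu g) ∧
        ∫ ζ : Fin n → ℂ, φ (ζ j) ∂(Measure.pi fun _ => mu g) = m := by
      intro j
      have mp := measurePreserving_eval (fun _ : Fin n => mu g) j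
      refine ⟨mp.integrable_comp_of_integrable hmint, ?_⟩
      have e := mp.map_eq
      have e2 : ∫ z, φ z ∂(Measure.map (Function.eval j) (Measure.pi fun _ => mu g)) =
          ∫ ζ : Fin n → ℂ, φ (ζ j) ∂(Measure.pi fun _ => mu g) :=
        integral_map (measurable_pi_apply j).aemeasurable hφ.aestronglyMeasurable
      rw [← e2, e, hm']
    rw [integral_finsetSum _ fun j _ => (hj j).1]
    rw [Finset.sum_congr rfl fun j _ => (hj j).2, Finset.sum_const, Finset.card_univ,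
      Fintype.card_fin, nsmul_eq_mul]
  rw [hES] at hvar
  have hv1 : Var[φ; mu g] ≤ C ^ 2 := by
    refine (variance_le_expectation_sq hφ.aestronglyMeasurable).trans ?_
    have : ∫ z, (φ ^ 2) z ∂(mu g) ≤ ∫ _z, C ^ 2 ∂(mu g) := by
      refine integral_mono_of_nonneg (Filter.Eventually.of_forall fun z => ?_)
        (integrable_const _) (Filter.Eventually.of_forall fun z => ?_)
      · show 0 ≤ φ z ^ 2
        positivity
      · show φ z ^ 2 ≤ C ^ 2
        rw [← sq_abs]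
        exact pow_le_pow_left₀ (abs_nonneg _) (hC z) 2
    refine this.trans ?_
    rw [integral_const]
    simp
  have hsum : ∑ _i : Fin n, Var[φ; mu g] ≤ n * C ^ 2 := by
    rw [Finset.sum_const, Finset.card_univ, Fintype.card_fin, nsmul_eq_mul]
    exact mul_le_mul_of_nonneg_left hv1 hn'.le
  have hcalc : ∫ ζ : Fin n → ℂ, ((∑ j, φ (ζ j)) / (n : ℝ) - m) ^ 2 ∂(Measure.pi fun _ => mu g) =
      (∫ ζ : Fin n → ℂ, ((∑ j, φ (ζ j)) - n * m) ^ 2 ∂(Measure.pi fun _ => mu g)) / n ^ 2 := by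
    rw [← integral_div]
    refine integral_congr_ae (Filter.Eventually.of_forall fun ζ => ?_)
    show ((∑ j, φ (ζ j)) / (n : ℝ) - m) ^ 2 = ((∑ j, φ (ζ j)) - n * m) ^ 2 / n ^ 2
    field_simp
  rw [hcalc, hvar, div_le_div_iff₀ (by positivity) hn']
  nlinarith

/-- The energy sum. -/
noncomputable def F {n : ℕ} (ζ : Fin n → ℂ) : ℝ :=
  ∑ i, ∑ j ∈ Finset.univ.erase i, Real.log ‖ζ i - ζ j‖

theorem F_int {g : ℂ → ℝ} {R B : ℝ} (hg : Nice g R B) (h0 : ∀ z, 0 ≤ g z)
    (h1 : ∫ z, g z = 1) (n : ℕ) :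
    Integrable (F : (Fin n → ℂ) → ℝ) (Measure.pi fun _ => mu g) ∧
      ∫ ζ : Fin n → ℂ, F ζ ∂(Measure.pi fun _ => mu g) = -((n : ℝ) * ((n : ℝ) - 1) * en g g) := by
  have := mu_prob hg h0 h1
  have hin : ∀ i : Fin n, Integrable
      (fun ζ : Fin n → ℂ => ∑ j ∈ Finset.univ.erase i, Real.log ‖ζ i - ζ j‖)
      (Measure.pi fun _ => mu g) := fun i =>
    integrable_finsetSum _ fun j hj => (pairE hg h0 h1 i j (Finset.ne_of_mem_erase hj).symm).1
  refine ⟨integrable_finsetSum _ fun i _ => hin i, ?_⟩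
  unfold F
  rw [integral_finsetSum _ fun i _ => hin i]
  have : ∀ i : Fin n, ∫ ζ : Fin n → ℂ, ∑ j ∈ Finset.univ.erase i, Real.log ‖ζ i - ζ j‖
      ∂(Measure.pi fun _ => mu g) = ((n : ℝ) - 1) * (-en g g) := by
    intro i
    rw [integral_finsetSum _ fun j hj =>
      (pairE hg h0 h1 i j (Finset.ne_of_mem_erase hj).symm).1]
    rw [Finset.sum_congr rfl fun j hj =>
      (pairE hg h0 h1 i j (Finset.ne_of_mem_erase hj).symm).2]
    rw [Finset.sum_const, Finset.card_erase_of_mem (Finset.mem_univ i), Finset.card_univ,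
      Fintype.card_fin, nsmul_eq_mul]
    have : 1 ≤ n := by
      have := i.2
      omega
    push_cast [this]
    ring
  rw [Finset.sum_congr rfl fun i _ => this i, Finset.sum_const, Finset.card_univ,
    Fintype.card_fin, nsmul_eq_mul]
  ring

theorem F_le {R : ℝ} (hR : 0 ≤ R) {n : ℕ} (ζ : Fin n → ℂ) (h : ∀ i, ‖ζ i‖ ≤ R) :
    F ζ ≤ (n : ℝ) ^ 2 * Real.log (2 * R + 1) := by
  have hlog : 0 ≤ Real.log (2 * R + 1) := Real.log_nonneg (by linarith)
  have h1 : ∀ i j : Fin n, Real.log ‖ζ i - ζ j‖ ≤ Real.log (2 * R + 1) := by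
    intro i j
    rcases eq_or_lt_of_le (norm_nonneg (ζ i - ζ j)) with h0 | h0
    · rw [← h0, Real.log_zero]; exact hlog
    · refine Real.log_le_log h0 ?_
      have := norm_sub_le (ζ i) (ζ j)
      linarith [h i, h j]
  have h2 : ∀ i : Fin n, ∑ j ∈ Finset.univ.erase i, Real.log ‖ζ i - ζ j‖ ≤
      n * Real.log (2 * R + 1) := by
    intro i
    refine (Finset.sum_le_sum fun j _ => h1 i j).trans ?_
    rw [Finset.sum_const, nsmul_eq_mul]
    refine mul_le_mul_of_nonneg_right ?_ hlog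
    have : (Finset.univ.erase i).card ≤ n := by
      refine (Finset.card_le_univ _).trans ?_
      rw [Fintype.card_fin]
    exact_mod_cast this
  unfold F
  refine (Finset.sum_le_sum fun i _ => h2 i).trans ?_
  rw [Finset.sum_const, Finset.card_univ, Fintype.card_fin, nsmul_eq_mul]
  apply le_of_eq
  ring

end SAMPA

open SAMPA in
/-- The module theorem. -/
theorem SAMPA_thm : SAMPA_Stmt := by
  intro g R B hg h0 h1 M φ C hφ hC ε hε
  have := mu_prob hg h0 h1
  have hR : 0 ≤ R := by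
    by_contra hcon
    have : ∀ z, g z = 0 := fun z => hg.supp z (lt_of_lt_of_le (not_le.mp hcon) (norm_nonneg z))
    have : ∫ z, g z = 0 := by simp [this]
    rw [h1] at this
    exact one_ne_zero this
  set I : ℝ := en g g with hI
  set Λ : ℝ := Real.log (2 * R + 1) with hΛ
  have hΛ0 : 0 ≤ Λ := Real.log_nonneg (by linarith)
  set D : ℝ := 2 * (Λ + |I| + 1) / ε ^ 2 with hD
  have hD0 : 0 < D := by positivity
  set E : ℝ := M * C ^ 2 with hE
  have hE0 : 0 ≤ E := by positivity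
  obtain ⟨N1, hN1⟩ := exists_nat_ge (2 * E / ε ^ 2)
  obtain ⟨N2, hN2⟩ := exists_nat_ge ((|I| + D * E) / ε)
  filter_upwards [eventually_ge_atTop (N1 + N2 + 1)] with n hn
  have hn0 : 0 < n := by omega
  have hnR : (0 : ℝ) < n := by exact_mod_cast hn0
  have hn1 : 2 * E / ε ^ 2 ≤ n := hN1.trans (by exact_mod_cast (by omega : N1 ≤ n))
  have hn2 : (|I| + D * E) / ε ≤ n := hN2.trans (by exact_mod_cast (by omega : N2 ≤ n))
  set G : Fin M → (Fin n → ℂ) → ℝ := fun l ζ =>
    ((∑ j, φ l (ζ j)) / (n : ℝ) - ∫ z, φ l z * g z) ^ 2 with hG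
  have hGint : ∀ l, Integrable (G l) (Measure.pi fun _ => mu g) := fun l =>
    (second hg h0 h1 (hφ l) (hC l) hn0).1
  have hGE : ∀ l, ∫ ζ, G l ζ ∂(Measure.pi fun _ => mu g) ≤ C ^ 2 / n := fun l =>
    (second hg h0 h1 (hφ l) (hC l) hn0).2
  obtain ⟨hFint, hFE⟩ := F_int hg h0 h1 n
  set X : (Fin n → ℂ) → ℝ := fun ζ => F ζ - D * (n : ℝ) ^ 2 * ∑ l, G l ζ with hX
  have hGs : Integrable (fun ζ => ∑ l, G l ζ) (Measure.pi fun _ => mu g) :=
    integrable_finsetSum _ fun l _ => hGint l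
  have hXint : Integrable X (Measure.pi fun _ => mu g) := hFint.sub (hGs.const_mul _)
  have hXE : -((n : ℝ) * ((n : ℝ) - 1) * I) - D * n * E ≤
      ∫ ζ, X ζ ∂(Measure.pi fun _ => mu g) := by
    have e1 : ∫ ζ, X ζ ∂(Measure.pi fun _ => mu g) =
        -((n : ℝ) * ((n : ℝ) - 1) * I) -
          D * (n : ℝ) ^ 2 * ∑ l, ∫ ζ, G l ζ ∂(Measure.pi fun _ => mu g) := by
      rw [hX]
      rw [integral_sub hFint (hGs.const_mul _), hFE, integral_const_mul,
        integral_finsetSum _ fun l _ => hGint l]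
    rw [e1]
    have e2 : ∑ l, ∫ ζ, G l ζ ∂(Measure.pi fun _ => mu g) ≤ M * (C ^ 2 / n) := by
      refine (Finset.sum_le_sum fun l _ => hGE l).trans ?_
      rw [Finset.sum_const, Finset.card_univ, Fintype.card_fin, nsmul_eq_mul]
    have e3 : D * (n : ℝ) ^ 2 * ∑ l, ∫ ζ, G l ζ ∂(Measure.pi fun _ => mu g) ≤
        D * (n : ℝ) ^ 2 * (M * (C ^ 2 / n)) := mul_le_mul_of_nonneg_left e2 (by positivity)
    have e4 : D * (n : ℝ) ^ 2 * (M * (C ^ 2 / n)) = D * n * E := by
      rw [hE]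
      field_simp
    linarith
  -- the null set
  have hae := (ae_inj hg h0 h1 n).and (ae_supp hg h0 h1 n)
  rw [ae_iff] at hae
  obtain ⟨ζ, hζN, hζX⟩ := exists_notMem_null_integral_le hXint hae
  have hζ : Function.Injective ζ ∧ ∀ i, g (ζ i) ≠ 0 := not_not.mp hζN
  have hXζ : -((n : ℝ) * ((n : ℝ) - 1) * I) - D * n * E ≤ X ζ := hXE.trans hζX
  have hGnn : ∀ l, 0 ≤ G l ζ := fun l => sq_nonneg _
  have hGsum : 0 ≤ ∑ l, G l ζ := Finset.sum_nonneg fun l _ => hGnn l
  have hIabs := abs_nonneg I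
  have hI1 := neg_abs_le I
  have hI2 := le_abs_self I
  have hFle := F_le hR ζ fun i => norm_le_of_ne hg (hζ.2 i)
  refine ⟨ζ, hζ.1, hζ.2, ?_, ?_⟩
  · have h2 : X ζ ≤ F ζ := by
      have : 0 ≤ D * (n : ℝ) ^ 2 * ∑ l, G l ζ := by positivity
      show F ζ - D * (n : ℝ) ^ 2 * ∑ l, G l ζ ≤ F ζ
      linarith
    have h3 : |I| + D * E ≤ n * ε := by
      rw [div_le_iff₀ hε] at hn2
      exact hn2
    have h4 : (n : ℝ) * (|I| + D * E) ≤ n * (n * ε) := mul_le_mul_of_nonneg_left h3 hnR.le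
    have h5 : -((n : ℝ) ^ 2 * I) - ε * (n : ℝ) ^ 2 ≤
        -((n : ℝ) * ((n : ℝ) - 1) * I) - D * n * E := by
      nlinarith
    exact h5.trans (hXζ.trans h2)
  · intro l
    have h6 : D * (n : ℝ) ^ 2 * ∑ l, G l ζ ≤
        (n : ℝ) ^ 2 * Λ + ((n : ℝ) * ((n : ℝ) - 1) * I + D * n * E) := by
      have : X ζ = F ζ - D * (n : ℝ) ^ 2 * ∑ l, G l ζ := rfl
      linarith
    have h7 : (n : ℝ) * ((n : ℝ) - 1) * I ≤ (n : ℝ) ^ 2 * |I| := by
      have hn1' : (1 : ℝ) ≤ n := by exact_mod_cast hn0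
      have : (n : ℝ) * ((n : ℝ) - 1) * I ≤ (n : ℝ) * ((n : ℝ) - 1) * |I| :=
        mul_le_mul_of_nonneg_left hI2 (mul_nonneg hnR.le (by linarith))
      nlinarith
    have h8 : G l ζ ≤ ∑ l, G l ζ :=
      Finset.single_le_sum (f := fun l => G l ζ) (fun l _ => hGnn l) (Finset.mem_univ l)
    have h9 : D * (n : ℝ) ^ 2 * G l ζ ≤ (n : ℝ) ^ 2 * (Λ + |I|) + D * n * E := by
      have : D * (n : ℝ) ^ 2 * G l ζ ≤ D * (n : ℝ) ^ 2 * ∑ l, G l ζ :=
        mul_le_mul_of_nonneg_left h8 (by positivity)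
      linarith
    have h10 : Λ + |I| + 1 = D * ε ^ 2 / 2 := by
      rw [hD]
      field_simp
    have h11 : 2 * E ≤ n * ε ^ 2 := by
      rw [div_le_iff₀ (by positivity)] at hn1
      exact hn1
    have h12 : D * n * E ≤ D * (n : ℝ) ^ 2 * (ε ^ 2 / 2) := by
      have : D * n * (2 * E) ≤ D * n * (n * ε ^ 2) :=
        mul_le_mul_of_nonneg_left h11 (by positivity)
      nlinarith
    have h13 : (n : ℝ) ^ 2 * (Λ + |I|) ≤ D * (n : ℝ) ^ 2 * (ε ^ 2 / 2) := by
      have : (n : ℝ) ^ 2 * (Λ + |I|) ≤ (n : ℝ) ^ 2 * (D * ε ^ 2 / 2) :=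
        mul_le_mul_of_nonneg_left (by linarith) (by positivity)
      nlinarith
    have h14 : D * (n : ℝ) ^ 2 * G l ζ ≤ D * (n : ℝ) ^ 2 * ε ^ 2 := by linarith
    have h15 : G l ζ ≤ ε ^ 2 := le_of_mul_le_mul_left h14 (by positivity)
    exact abs_le_of_sq_le_sq h15 hε.le

end Pool.Agent.GH
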