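import Pool.Agent.GH.Stmts

/-!
Existence of good point configurations, part two: uniform bounds from finitely many test
functions (module GH_SAMPB).
-/

namespace Pool.Agent.GH

open MeasureTheory ProbabilityTheory Filter Topology

namespace SAMPB

theorem lip {τ : ℝ} (hτ : 0 < τ) (a b : ℝ) :
    |Real.log (max a τ) - Real.log (max b τ)| ≤ |a - b| / τ := by
  wlog hab : b ≤ a generalizing a b
  · rw [abs_sub_comm, abs_sub_comm a b]
    exact this b a (le_of_not_ge hab)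
  have hA : 0 < max a τ := lt_max_of_lt_right hτ
  have hB : 0 < max b τ := lt_max_of_lt_right hτ
  have hle : max b τ ≤ max a τ := max_le_max hab le_rfl
  have h0 : 0 ≤ Real.log (max a τ) - Real.log (max b τ) :=
    sub_nonneg.2 (Real.log_le_log hB hle)
  rw [abs_of_nonneg h0, abs_of_nonneg (sub_nonneg.2 hab), ← Real.log_div hA.ne' hB.ne']
  have h1 : Real.log (max a τ / max b τ) ≤ max a τ / max b τ - 1 :=
    Real.log_le_sub_one_of_pos (div_pos hA hB)
  refine h1.trans ?_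
  have h2 : max a τ / max b τ - 1 = (max a τ - max b τ) / max b τ := by
    rw [sub_div, div_self hB.ne']
  rw [h2]
  have h3 : max a τ - max b τ ≤ a - b := by
    rcases le_total a τ with h | h
    · rw [max_eq_right h, max_eq_right (hab.trans h)]
      linarith
    · rw [max_eq_left h]
      have := le_max_left b τ
      linarith
  have h4 : τ ≤ max b τ := le_max_right _ _
  exact div_le_div₀ (sub_nonneg.2 hab) h3 hτ h4

/-- The truncated logarithm of the distance. -/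
noncomputable def F (Z τ : ℝ) (z y : ℂ) : ℝ := Real.log (max (min ‖z - y‖ Z) τ)

theorem F_cont (Z : ℝ) {τ : ℝ} (hτ : 0 < τ) (z : ℂ) : Continuous (F Z τ z) := by
  unfold F
  refine Continuous.log (by fun_prop) fun y => ?_
  exact (lt_max_of_lt_right hτ).ne'

theorem F_bdd (Z : ℝ) {τ : ℝ} (hτ : 0 < τ) (z y : ℂ) :
    |F Z τ z y| ≤ |Real.log τ| + |Real.log (max Z τ)| := by
  unfold F
  have h1 : Real.log τ ≤ Real.log (max (min ‖z - y‖ Z) τ) :=
    Real.log_le_log hτ (le_max_right _ _)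
  have h2 : Real.log (max (min ‖z - y‖ Z) τ) ≤ Real.log (max Z τ) :=
    Real.log_le_log (lt_max_of_lt_right hτ) (max_le_max (min_le_right _ _) le_rfl)
  rw [abs_le]
  have h3 := neg_abs_le (Real.log τ)
  have h4 := le_abs_self (Real.log (max Z τ))
  have h5 := abs_nonneg (Real.log τ)
  have h6 := abs_nonneg (Real.log (max Z τ))
  constructor <;> linarith

theorem F_lip (Z : ℝ) {τ : ℝ} (hτ : 0 < τ) (z z' y : ℂ) :
    |F Z τ z y - F Z τ z' y| ≤ ‖z - z'‖ / τ := by
  unfold F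
  refine (lip hτ _ _).trans ?_
  have h1 : |min ‖z - y‖ Z - min ‖z' - y‖ Z| ≤ ‖z - z'‖ := by
    refine (abs_min_sub_min_le_max _ _ _ _).trans ?_
    rw [sub_self, abs_zero]
    refine max_le ?_ (norm_nonneg _)
    have h2 := abs_norm_sub_norm_le (z - y) (z' - y)
    rwa [sub_sub_sub_cancel_right] at h2
  gcongr

theorem log_sub {t τ : ℝ} (ht : 0 < t) (hτ : 0 < τ) :
    Real.log (max t τ) - Real.log t = Real.posLog (τ / t) := by
  rcases le_total τ t with h | h
  · rw [max_eq_left h, sub_self]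
    symm
    rw [Real.posLog_eq_zero_iff, abs_of_pos (div_pos hτ ht)]
    exact (div_le_one ht).2 h
  · rw [max_eq_right h, Real.posLog_eq_log, Real.log_div hτ.ne' ht.ne']
    rw [abs_of_pos (div_pos hτ ht)]
    exact (one_le_div ht).2 h

section

variable {g : ℂ → ℝ} {R B Z τ : ℝ}

theorem F_int (hg : Integrable g) (hτ : 0 < τ) (z : ℂ) :
    Integrable (fun y => F Z τ z y * g y) := by
  refine hg.bdd_mul (c := |Real.log τ| + |Real.log (max Z τ)|)
    (F_cont Z hτ z).aestronglyMeasurable (Eventually.of_forall fun y => ?_)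
  rw [Real.norm_eq_abs]
  exact F_bdd Z hτ z y

theorem u_bound (h2 : POT_Stmt) (h3 : KER_Stmt) (hg : Nice g R B) (hg0 : ∀ z, 0 ≤ g z)
    (hτ : 0 < τ) (z : ℂ) (hZ : ∀ y : ℂ, ‖y‖ ≤ R → ‖z - y‖ ≤ Z) :
    -pot g z ≤ (∫ y, F Z τ z y * g y) ∧
      (∫ y, F Z τ z y * g y) ≤ -pot g z + B * (Real.pi * τ ^ 2 / 2) := by
  obtain ⟨hi, hi2, -⟩ := h2.1 g R B hg
  have hFi : Integrable (fun y => F Z τ z y * g y) := F_int hi hτ z
  obtain ⟨hk1, hk2⟩ := h3.1 τ hτ
  have hk1' : Integrable (fun y : ℂ => Real.posLog (τ / ‖z - y‖)) := hk1.comp_sub_left z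
  have hk2' : ∫ y : ℂ, Real.posLog (τ / ‖z - y‖) = Real.pi * τ ^ 2 / 2 := by
    rw [← hk2]
    exact integral_sub_left_eq_self (fun y : ℂ => Real.posLog (τ / ‖y‖)) volume z
  have hB : 0 ≤ B := (abs_nonneg (g 0)).trans (hg.bdd 0)
  have hsum : (∫ y, F Z τ z y * g y) + pot g z =
      ∫ y, (F Z τ z y * g y + -Real.log ‖z - y‖ * g y) := by
    rw [pot, ← integral_add hFi (hi2 z)]
  have hae : (fun y => F Z τ z y * g y + -Real.log ‖z - y‖ * g y) =ᵐ[volume]
      fun y => Real.posLog (τ / ‖z - y‖) * g y := by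
    have hne : ∀ᵐ y : ℂ, y ≠ z := by
      rw [ae_iff]
      simp
    filter_upwards [hne] with y hy
    by_cases hyR : ‖y‖ ≤ R
    · have ht : 0 < ‖z - y‖ := norm_pos_iff.2 (sub_ne_zero.2 (Ne.symm hy))
      rw [← log_sub ht hτ, F, min_eq_left (hZ y hyR)]
      ring
    · rw [hg.supp y (not_le.1 hyR)]
      simp
  rw [integral_congr_ae hae] at hsum
  have hlow : 0 ≤ ∫ y, Real.posLog (τ / ‖z - y‖) * g y :=
    integral_nonneg fun y => mul_nonneg Real.posLog_nonneg (hg0 y)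
  have hup : ∫ y, Real.posLog (τ / ‖z - y‖) * g y ≤ B * (Real.pi * τ ^ 2 / 2) := by
    rw [← hk2', ← integral_const_mul]
    refine integral_mono_of_nonneg
      (Eventually.of_forall fun y => mul_nonneg Real.posLog_nonneg (hg0 y))
      (hk1'.const_mul B) (Eventually.of_forall fun y => ?_)
    have h4 : g y ≤ B := (le_abs_self _).trans (hg.bdd y)
    have h5 : 0 ≤ Real.posLog (τ / ‖z - y‖) := Real.posLog_nonneg
    change Real.posLog (τ / ‖z - y‖) * g y ≤ B * Real.posLog (τ / ‖z - y‖)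
    rw [mul_comm B]
    exact mul_le_mul_of_nonneg_left h4 h5
  constructor <;> linarith

theorem int_lip (hg : Integrable g) (hg0 : ∀ z, 0 ≤ g z) (hg1 : ∫ z, g z = 1) (hτ : 0 < τ)
    (z z' : ℂ) : |(∫ y, F Z τ z y * g y) - ∫ y, F Z τ z' y * g y| ≤ ‖z - z'‖ / τ := by
  rw [← integral_sub (F_int hg hτ z) (F_int hg hτ z')]
  have h1 : ‖∫ y, (F Z τ z y * g y - F Z τ z' y * g y)‖ ≤ ∫ y, ‖z - z'‖ / τ * g y := by
    refine norm_integral_le_of_norm_le (hg.const_mul _) (Eventually.of_forall fun y => ?_)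
    rw [← sub_mul, norm_mul, Real.norm_eq_abs, Real.norm_eq_abs, abs_of_nonneg (hg0 y)]
    exact mul_le_mul_of_nonneg_right (F_lip Z hτ z z' y) (hg0 y)
  rw [integral_const_mul, hg1, mul_one, Real.norm_eq_abs] at h1
  exact h1

end

end SAMPB

open SAMPB in
theorem SAMPB_thm (h1 : SAMPA_Stmt) (h2 : POT_Stmt) (h3 : KER_Stmt) : SAMPB_Stmt := by
  intro g R B hg hg0 hg1 K η T hK hKne hη hhole ε hε
  obtain ⟨hi, -, -⟩ := h2.1 g R B hg
  have hB : 0 ≤ B := (abs_nonneg (g 0)).trans (hg.bdd 0)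
  -- a large ball
  obtain ⟨T₁, hT₁⟩ := hK.isBounded.subset_closedBall (0 : ℂ)
  obtain ⟨T', hT'⟩ : ∃ T' : ℝ, T' = max T (max T₁ 0) := ⟨_, rfl⟩
  have hTT' : T ≤ T' := by rw [hT']; exact le_max_left _ _
  have hKT' : ∀ z ∈ K, ‖z‖ ≤ T' := by
    intro z hz
    have h4 := hT₁ hz
    rw [Metric.mem_closedBall, dist_zero_right] at h4
    rw [hT']
    exact h4.trans ((le_max_left _ _).trans (le_max_right _ _))
  -- the scale
  obtain ⟨τ, hτ, hτη, hτB⟩ : ∃ τ : ℝ, 0 < τ ∧ τ ≤ η ∧ B * (Real.pi * τ ^ 2 / 2) ≤ ε / 4 := by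
    have h4 : Tendsto (fun τ : ℝ => B * (Real.pi * τ ^ 2 / 2)) (𝓝[>] 0)
        (𝓝 (B * (Real.pi * 0 ^ 2 / 2))) := by
      refine Tendsto.mono_left ?_ nhdsWithin_le_nhds
      exact Continuous.tendsto (by fun_prop) 0
    have h5 : B * (Real.pi * (0 : ℝ) ^ 2 / 2) < ε / 4 := by
      simp only [ne_eq, OfNat.ofNat_ne_zero, not_false_eq_true, zero_pow, mul_zero, zero_div]
      linarith
    have h6 := h4.eventually (Iio_mem_nhds h5)
    have h7 : ∀ᶠ τ : ℝ in 𝓝[>] 0, τ ≤ η := by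
      have := Ioc_mem_nhdsGT hη
      filter_upwards [this] with τ hτ
      exact hτ.2
    obtain ⟨τ, hτ⟩ := ((h6.and h7).and self_mem_nhdsWithin).exists
    exact ⟨τ, hτ.2, hτ.1.2, (Set.mem_Iio.1 hτ.1.1).le⟩
  -- the net
  have hδ : 0 < ε * τ / 8 := by positivity
  obtain ⟨s, hs, hsfin, hscov⟩ := (isCompact_closedBall (0 : ℂ) T').finite_cover_balls hδ
  obtain ⟨M, ⟨e⟩⟩ := Finite.exists_equiv_fin s (h := hsfin)
  set Z : ℝ := T' + R with hZ
  have hZ' : ∀ z : ℂ, ‖z‖ ≤ T' → ∀ y : ℂ, ‖y‖ ≤ R → ‖z - y‖ ≤ Z := by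
    intro z hz y hy
    exact (norm_sub_le _ _).trans (add_le_add hz hy)
  have h4 := h1 g R B hg hg0 hg1 M (fun l => F Z τ (e.symm l : ℂ))
    (|Real.log τ| + |Real.log (max Z τ)|) (fun l => (F_cont Z hτ _).measurable)
    (fun l z => F_bdd Z hτ _ z) (ε / 4) (by positivity)
  filter_upwards [h4, eventually_ge_atTop 1] with n hn hn1
  obtain ⟨ζ, hinj, hne, hen, hφ⟩ := hn
  have hn0 : (0 : ℝ) < n := by exact_mod_cast hn1
  have hζR : ∀ j, ‖ζ j‖ ≤ R := by
    intro j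
    by_contra hc
    exact hne j (hg.supp _ (not_le.1 hc))
  -- the uniform estimate
  have key : ∀ z : ℂ, ‖z‖ ≤ T' → (n : ℝ) * (-pot g z - ε) ≤ ∑ j, F Z τ z (ζ j) ∧
      ∑ j, F Z τ z (ζ j) ≤ (n : ℝ) * (-pot g z + ε) := by
    intro z hz
    have hzc : z ∈ Metric.closedBall (0 : ℂ) T' := by
      rw [Metric.mem_closedBall, dist_zero_right]
      exact hz
    obtain ⟨x, hx, hzx⟩ : ∃ x ∈ s, z ∈ Metric.ball x (ε * τ / 8) := by
      have := hscov hzc
      simpa using this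
    have hd : ‖z - x‖ / τ ≤ ε / 8 := by
      rw [Metric.mem_ball, dist_eq_norm] at hzx
      rw [div_le_iff₀ hτ]
      linarith
    have h5 := hφ (e ⟨x, hx⟩)
    simp only [Equiv.symm_apply_apply] at h5
    have h6 := u_bound h2 h3 hg hg0 hτ z (hZ' z hz)
    have h7 := int_lip (Z := Z) hi hg0 hg1 hτ z x
    have h8 : |∑ j, F Z τ z (ζ j) - ∑ j, F Z τ x (ζ j)| ≤ (n : ℝ) * (ε / 8) := by
      rw [← Finset.sum_sub_distrib]
      refine (Finset.abs_sum_le_sum_abs _ _).trans ?_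
      have h9 : ∀ j ∈ (Finset.univ : Finset (Fin n)),
          |F Z τ z (ζ j) - F Z τ x (ζ j)| ≤ ε / 8 := fun j _ =>
        (F_lip Z hτ z x (ζ j)).trans hd
      refine (Finset.sum_le_card_nsmul _ _ _ h9).trans ?_
      rw [Finset.card_univ, Fintype.card_fin, nsmul_eq_mul]
    rw [abs_le] at h5 h7 h8
    have h10 : ∑ j, F Z τ x (ζ j) = (n : ℝ) * ((∑ j, F Z τ x (ζ j)) / (n : ℝ)) := by
      field_simp
    set S := (∑ j, F Z τ x (ζ j)) / (n : ℝ) with hS
    have hup : S ≤ -pot g z + 5 / 8 * ε := by linarith [h5.2, h7.1, h6.2]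
    have hlo : -pot g z - 3 / 8 * ε ≤ S := by linarith [h5.1, h7.2, h6.1]
    constructor
    · have h11 : (n : ℝ) * (-pot g z - ε) ≤ (n : ℝ) * S - (n : ℝ) * (ε / 8) := by
        rw [← mul_sub]
        exact mul_le_mul_of_nonneg_left (by linarith) hn0.le
      linarith [h8.1]
    · have h11 : (n : ℝ) * S + (n : ℝ) * (ε / 8) ≤ (n : ℝ) * (-pot g z + ε) := by
        rw [← mul_add]
        exact mul_le_mul_of_nonneg_left (by linarith) hn0.le
      linarith [h8.2]
  refine ⟨ζ, hinj, hne, ?_, ?_, ?_⟩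
  · have : 0 ≤ (n : ℝ) ^ 2 := by positivity
    nlinarith
  · intro z hz
    have hz' := hz.trans hTT'
    refine le_trans ?_ (Real.exp_le_exp.2 (key z hz').2)
    rw [Real.exp_sum]
    refine Finset.prod_le_prod (fun j _ => norm_nonneg _) fun j _ => ?_
    rw [F, min_eq_left (hZ' z hz' _ (hζR j)), Real.exp_log (lt_max_of_lt_right hτ)]
    exact le_max_left _ _
  · intro z hz
    have hz' := hKT' z hz
    refine (Real.exp_le_exp.2 (key z hz').1).trans (le_of_eq ?_)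
    rw [Real.exp_sum]
    refine Finset.prod_congr rfl fun j _ => ?_
    have h5 : η ≤ ‖z - ζ j‖ := by
      have h6 : η ≤ Metric.infDist (ζ j) K := by
        by_contra hc
        exact hne j (hhole _ (not_le.1 hc))
      have h7 := Metric.infDist_le_dist_of_mem (x := ζ j) hz
      rw [dist_comm, dist_eq_norm] at h7
      exact h6.trans h7
    rw [F, min_eq_left (hZ' z hz' _ (hζR j)), Real.exp_log (lt_max_of_lt_right hτ),
      max_eq_left (hτη.trans h5)]

end Pool.Agent.GH
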