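import Pool.Agent.GH.Stmts

/-!
# Module GH_SEP (MP_629fb1_pr): moments of Fekete tuples stay away from those of point masses
-/

namespace Pool.Agent.GH

open MeasureTheory ProbabilityTheory Filter Topology

namespace SEP

/-- The local data at a point of `K`. -/
theorem local_data (h1 : RUN_Stmt) {K : Set ℂ} (hK : IsCompact K) {c : ℝ}
    {x : ℂ} (hxK : x ∈ K) (hx : ∃ z ∈ outer K, ‖z - x‖ < c) :
    ∃ (z : ℂ) (d e : ℝ) (p : Polynomial ℂ), 0 < d ∧ 0 < e ∧ z ∉ Metric.cthickening d K ∧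
      (∀ y ∈ Metric.cthickening d K, |Real.log ‖z - y‖ - (p.eval y).re| < e) ∧
      (p.eval x).re ≤ Real.log c - 7 * e := by
  obtain ⟨z, hz, hzx⟩ := hx
  obtain ⟨d, hd, hzd, hrun⟩ := h1 K z hK hz
  have hzK : z ∉ K := hz.1
  have hne : 0 < ‖z - x‖ := by
    rw [norm_pos_iff, sub_ne_zero]
    rintro rfl
    exact hzK hxK
  have hlog : Real.log ‖z - x‖ < Real.log c := Real.log_lt_log hne hzx
  set e : ℝ := (Real.log c - Real.log ‖z - x‖) / 8 with he
  have he0 : 0 < e := by rw [he]; linarith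
  obtain ⟨p, hp⟩ := hrun.1 e he0
  refine ⟨z, d, e, p, hd, he0, hzd, hp, ?_⟩
  have h2 := hp x (Metric.self_subset_cthickening K hxK)
  rw [abs_lt] at h2
  have h3 : 8 * e = Real.log c - Real.log ‖z - x‖ := by rw [he]; ring
  linarith [h2.1]

/-- The error term tends to zero. -/
theorem ev_small (A : ℝ) {ε : ℝ} (hε : 0 < ε) :
    ∀ᶠ N : ℕ in atTop, (A + Real.log N) / N ≤ ε := by
  have h1 : Tendsto (fun N : ℕ => (A + Real.log N) / N) atTop (𝓝 0) := by
    have h2 : Tendsto (fun x : ℝ => A / x + Real.log x / x) atTop (𝓝 (0 + 0)) :=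
      (tendsto_const_nhds.div_atTop tendsto_id).add
        (by simpa using (Real.isLittleO_log_id_atTop.tendsto_div_nhds_zero))
    rw [add_zero] at h2
    refine (h2.comp tendsto_natCast_atTop_atTop).congr fun N => ?_
    simp only [Function.comp]
    rw [add_div]
  exact (h1.eventually (gt_mem_nhds hε)).mono fun N hN => hN.le

end SEP

/-- SEP: the moments of Fekete tuples stay away from those of point masses. -/
theorem SEP_thm (h1 : RUN_Stmt) (h2 : FLOW_Stmt) (h3 : FEK_Stmt) (h4 : CAPA_Stmt) : SEP_Stmt := by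
  intro K hK hKne hcap hout
  set c : ℝ := cap K with hc
  have hdata : ∀ x : K, ∃ (z : ℂ) (d e : ℝ) (p : Polynomial ℂ), 0 < d ∧ 0 < e ∧
      z ∉ Metric.cthickening d K ∧
      (∀ y ∈ Metric.cthickening d K, |Real.log ‖z - y‖ - (p.eval y).re| < e) ∧
      (p.eval (x : ℂ)).re ≤ Real.log c - 7 * e := fun x =>
    SEP.local_data h1 hK x.2 (hout x x.2)
  choose z d e p hd he hz hp hl using hdata
  obtain ⟨t, ht⟩ := hK.elim_nhds_subcover'
    (fun x hx => {y : ℂ | ((p ⟨x, hx⟩).eval y).re < ((p ⟨x, hx⟩).eval x).re + e ⟨x, hx⟩})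
    (fun x hx => by
      have hcont : Continuous fun y : ℂ => ((p ⟨x, hx⟩).eval y).re :=
        Complex.continuous_re.comp (Polynomial.continuous _)
      exact (isOpen_lt hcont continuous_const).mem_nhds (by
        show ((p ⟨x, hx⟩).eval x).re < ((p ⟨x, hx⟩).eval x).re + e ⟨x, hx⟩
        linarith [he ⟨x, hx⟩]))
  have htne : t.Nonempty := by
    obtain ⟨x, hx⟩ := hKne
    have h5 := ht hx
    simp only [Set.mem_iUnion] at h5
    obtain ⟨y, hy, -⟩ := h5
    exact ⟨y, hy⟩
  set ε : ℝ := t.inf' htne e with hεdef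
  set δ₀ : ℝ := t.inf' htne d with hδdef
  have hε : 0 < ε := (Finset.lt_inf'_iff htne).2 fun i _ => he i
  have hδ₀ : 0 < δ₀ := (Finset.lt_inf'_iff htne).2 fun i _ => hd i
  refine ⟨ε, δ₀, p '' (t : Set K), hε, hδ₀, (t.finite_toSet).image p, ?_⟩
  intro δ hδ hδδ N₀
  -- the threshold
  have hev : ∀ᶠ N : ℕ in atTop, ∀ x ∈ t,
      ((Real.log c - ε - Real.log (Metric.infDist (z x) (Metric.cthickening (d x) K))) +
        Real.log N) / N ≤ ε := by
    rw [Filter.eventually_all_finset]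
    intro x _
    exact SEP.ev_small _ hε
  obtain ⟨N₁, hN₁⟩ := eventually_atTop.1 hev
  have hK'c : IsCompact (Metric.cthickening δ K) := hK.cthickening
  have hKK' : K ⊆ Metric.cthickening δ K := Metric.self_subset_cthickening K
  have hK'ne : (Metric.cthickening δ K).Nonempty := hKne.mono hKK'
  have hcc : c ≤ cap (Metric.cthickening δ K) := (h4.2.1 K _ hK hK'c hKne hKK').2.2
  obtain ⟨N, hN0, hN2, hflow⟩ := h2 _ hK'c hK'ne (hcap.trans_le hcc) ε hε (max N₀ N₁)
  refine ⟨N, (le_max_left _ _).trans hN0, hN2, ?_⟩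
  intro a ha x hxK
  have h5 := ht hxK
  simp only [Set.mem_iUnion] at h5
  obtain ⟨y, hyt, hy⟩ := h5
  have hy' : ((p y).eval x).re < ((p y).eval (y : ℂ)).re + e y := hy
  refine ⟨p y, ⟨y, hyt, rfl⟩, ?_⟩
  have hεe : ε ≤ e y := Finset.inf'_le _ hyt
  have hδd : δ < d y := hδδ.trans_le (Finset.inf'_le _ hyt)
  have hsub : Metric.cthickening δ K ⊆ Metric.cthickening (d y) K :=
    Metric.cthickening_mono hδd.le K
  have hzK' : z y ∉ Metric.cthickening δ K := fun h => hz y (hsub h)
  have hflow1 := hflow a ha (z y) hzK'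
  have hNpos : (0 : ℝ) < N := by positivity
  -- distances
  have hρ : 0 < Metric.infDist (z y) (Metric.cthickening (d y) K) :=
    (Metric.isClosed_cthickening.notMem_iff_infDist_pos
      (hKne.mono (Metric.self_subset_cthickening K))).1 (hz y)
  have hρ' : Metric.infDist (z y) (Metric.cthickening (d y) K) ≤
      Metric.infDist (z y) (Metric.cthickening δ K) :=
    Metric.infDist_le_infDist_of_subset hsub hK'ne
  have hai : ∀ i, a i ∈ Metric.cthickening δ K := ha.1
  have hane : ∀ i, ‖z y - a i‖ ≠ 0 := by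
    intro i h
    rw [norm_eq_zero, sub_eq_zero] at h
    exact hzK' (h ▸ hai i)
  -- logarithm of the lower bound
  set ρ : ℝ := Metric.infDist (z y) (Metric.cthickening (d y) K) with hρdef
  have hcpos : 0 < c := hcap
  have hbase : 0 < c * Real.exp (-ε) := by positivity
  have hlow : ρ * (c * Real.exp (-ε)) ^ (N - 1) / N ≤ ∏ i, ‖z y - a i‖ := by
    refine le_trans ?_ hflow1
    have h6 : (c * Real.exp (-ε)) ^ (N - 1) ≤
        (cap (Metric.cthickening δ K) * Real.exp (-ε)) ^ (N - 1) :=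
      pow_le_pow_left₀ hbase.le (mul_le_mul_of_nonneg_right hcc (Real.exp_pos _).le) _
    have h7 : 0 ≤ Metric.infDist (z y) (Metric.cthickening δ K) := Metric.infDist_nonneg
    exact div_le_div_of_nonneg_right (mul_le_mul hρ' h6 (pow_nonneg hbase.le _) h7) hNpos.le
  have hleft : 0 < ρ * (c * Real.exp (-ε)) ^ (N - 1) / N := by positivity
  have hlog := Real.log_le_log hleft hlow
  rw [Real.log_prod (fun i _ => hane i), Real.log_div (by positivity) (by positivity),
    Real.log_mul (by positivity) (by positivity), Real.log_pow,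
    Real.log_mul (by positivity) (by positivity), Real.log_exp] at hlog
  have hNcast : ((N - 1 : ℕ) : ℝ) = (N : ℝ) - 1 := by
    rw [Nat.cast_sub (by omega)]; simp
  rw [hNcast] at hlog
  have hthr := hN₁ N ((le_max_right _ _).trans hN0) y hyt
  rw [div_le_iff₀ hNpos] at hthr
  have hsum : (N : ℝ) * (Real.log c - 2 * ε) ≤ ∑ i, Real.log ‖z y - a i‖ := by
    have h8 : ((N : ℝ) - 1) * (Real.log c + -ε) =
        (N : ℝ) * (Real.log c - ε) - (Real.log c - ε) := by ring
    rw [h8] at hlog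
    nlinarith
  -- polynomial values
  have hpoly : ∀ i, Real.log ‖z y - a i‖ - e y ≤ ((p y).eval (a i)).re := by
    intro i
    have h9 := hp y (a i) (hsub (hai i))
    rw [abs_lt] at h9
    linarith [h9.2]
  have hsum2 : (∑ i, Real.log ‖z y - a i‖) - N * e y ≤ ∑ i, ((p y).eval (a i)).re := by
    have h10 : ∑ i : Fin N, (Real.log ‖z y - a i‖ - e y) ≤ ∑ i, ((p y).eval (a i)).re :=
      Finset.sum_le_sum fun i _ => hpoly i
    rw [Finset.sum_sub_distrib] at h10
    simpa using h10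
  have hmean : Real.log c - 2 * ε - e y ≤
      ((1 / (N : ℂ)) * (∑ i, (p y).eval (a i))).re := by
    have h11 : ((1 / (N : ℂ)) * (∑ i, (p y).eval (a i))).re =
        (1 / (N : ℝ)) * ∑ i, ((p y).eval (a i)).re := by
      have h12 : (1 / (N : ℂ)) = ((1 / (N : ℝ) : ℝ) : ℂ) := by push_cast; rfl
      rw [h12, Complex.re_ofReal_mul, Complex.re_sum]
    rw [h11, one_div, inv_mul_eq_div, le_div_iff₀ hNpos]
    nlinarith
  have hfin : ε ≤ ((1 / (N : ℂ)) * (∑ i, (p y).eval (a i)) - (p y).eval x).re := by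
    rw [Complex.sub_re]
    have h13 := hl y
    linarith
  exact hfin.trans (Complex.re_le_norm _)

end Pool.Agent.GH
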