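import Pool.Agent.GH.Stmts

/-!
Smoothing with the kernel (module GH_SMO).
-/

namespace Pool.Agent.GH

open MeasureTheory ProbabilityTheory Filter Topology

namespace SMO

/-- A Lipschitz function vanishing off a ball is continuous. -/
lemma cont {w : ℂ → ℝ} {Λ : ℝ} (hΛ : 0 ≤ Λ) (hw : ∀ z z', |w z - w z'| ≤ Λ * ‖z - z'‖) :
    Continuous w := by
  have : LipschitzWith ⟨Λ, hΛ⟩ w := by
    refine LipschitzWith.of_dist_le_mul fun z z' => ?_
    rw [Real.dist_eq, dist_eq_norm]
    exact hw z z'
  exact this.continuous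

lemma integrable_w {w : ℂ → ℝ} {R : ℝ} (hc : Continuous w) (hs : ∀ z, R ≤ ‖z‖ → w z = 0) :
    Integrable w := by
  refine hc.integrable_of_hasCompactSupport ?_
  refine HasCompactSupport.intro (isCompact_closedBall (0 : ℂ) R) fun z hz => ?_
  refine hs z ?_
  rw [Metric.mem_closedBall, dist_zero_right, not_le] at hz
  exact hz.le

lemma integrable_ker_sub {h : ℝ} (hk : Integrable (ker h)) (z : ℂ) :
    Integrable (fun y => ker h (z - y)) := hk.comp_sub_left z

lemma integral_ker_sub {h : ℝ} (hk : ∫ x, ker h x = 1) (z : ℂ) :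
    ∫ y, ker h (z - y) = 1 := by
  rw [integral_sub_left_eq_self (ker h) volume z, hk]

lemma bound_w {w : ℂ → ℝ} {R Λ : ℝ} (hΛ : 0 ≤ Λ) (hR : 0 ≤ R)
    (hw : ∀ z z', |w z - w z'| ≤ Λ * ‖z - z'‖) (hs : ∀ z, R ≤ ‖z‖ → w z = 0) (z : ℂ) :
    ‖w z‖ ≤ Λ * (2 * R) := by
  rw [Real.norm_eq_abs]
  by_cases hz : R ≤ ‖z‖
  · rw [hs z hz, abs_zero]; positivity
  · push Not at hz
    have h1 := hw z (R : ℂ)
    have h2 : w (R : ℂ) = 0 := hs _ (by rw [Complex.norm_real, Real.norm_eq_abs, abs_of_nonneg hR])
    rw [h2, sub_zero] at h1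
    refine h1.trans (mul_le_mul_of_nonneg_left ?_ hΛ)
    calc ‖z - (R : ℂ)‖ ≤ ‖z‖ + ‖(R : ℂ)‖ := norm_sub_le _ _
      _ ≤ R + R := by
        rw [Complex.norm_real, Real.norm_eq_abs, abs_of_nonneg hR]
        linarith
      _ = 2 * R := by ring

lemma integrable_ker_mul {h : ℝ} (hk : Integrable (ker h)) {w : ℂ → ℝ} {C : ℝ}
    (hc : Continuous w) (hb : ∀ z, ‖w z‖ ≤ C) (z : ℂ) :
    Integrable (fun y => ker h (z - y) * w y) :=
  (integrable_ker_sub hk z).mul_bdd hc.aestronglyMeasurable (Eventually.of_forall hb)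

end SMO

open SMO in
/-- Smoothing with the kernel. -/
theorem SMO_thm (h1 : KER_Stmt) : SMO_Stmt := by
  intro h w R Λ hh hR hΛ hn hl hs w' hw'
  obtain ⟨hki, hk1, hk0, hks⟩ := h1.2 h hh
  have hc : Continuous w := cont hΛ hl
  have hiw : Integrable w := integrable_w hc hs
  have hb := bound_w hΛ hR hl hs
  have hconv : w' = MeasureTheory.convolution w (ker h) (ContinuousLinearMap.mul ℝ ℝ) volume := by
    funext z
    rw [hw' z, MeasureTheory.convolution_def]
    refine integral_congr_ae (Eventually.of_forall fun y => ?_)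
    simp only [ContinuousLinearMap.mul_apply']
    ring
  refine ⟨fun z => ?_, fun z => ?_, fun z hz => ?_, hiw, ?_, ?_⟩
  · rw [hw' z]
    exact integral_nonneg fun y => mul_nonneg (hk0 _) (hn y)
  · have e1 : w' z - w z = ∫ y, ker h (z - y) * (w y - w z) := by
      rw [hw' z]
      have : ∫ y, ker h (z - y) * (w y - w z) =
          (∫ y, ker h (z - y) * w y) - ∫ y, ker h (z - y) * w z := by
        rw [← integral_sub (integrable_ker_mul hki hc hb z)
          ((integrable_ker_sub hki z).mul_const _)]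
        refine integral_congr_ae (Eventually.of_forall fun y => ?_)
        simp only
        ring
      rw [this, integral_mul_const, integral_ker_sub hk1 z, one_mul]
    rw [e1, ← Real.norm_eq_abs]
    calc ‖∫ y, ker h (z - y) * (w y - w z)‖ ≤ ∫ y, ker h (z - y) * (Λ * h) := by
          refine norm_integral_le_of_norm_le ((integrable_ker_sub hki z).mul_const _)
            (Eventually.of_forall fun y => ?_)
          rw [norm_mul, Real.norm_eq_abs, Real.norm_eq_abs, abs_of_nonneg (hk0 _)]
          by_cases hy : h ≤ ‖z - y‖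
          · rw [hks _ hy, zero_mul, zero_mul]
          · push Not at hy
            refine mul_le_mul_of_nonneg_left ?_ (hk0 _)
            refine (hl y z).trans (mul_le_mul_of_nonneg_left ?_ hΛ)
            rw [norm_sub_rev]
            exact hy.le
      _ = Λ * h := by rw [integral_mul_const, integral_ker_sub hk1 z, one_mul]
  · rw [hw' z]
    refine integral_eq_zero_of_ae (Eventually.of_forall fun y => ?_)
    simp only [Pi.zero_apply]
    by_cases hy : R ≤ ‖y‖
    · rw [hs y hy, mul_zero]
    · push Not at hy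
      have : h ≤ ‖z - y‖ := by
        have := norm_sub_norm_le z y
        linarith
      rw [hks _ this, zero_mul]
  · rw [hconv]
    exact hiw.integrable_convolution (ContinuousLinearMap.mul ℝ ℝ) hki
  · rw [hconv, integral_convolution (L := ContinuousLinearMap.mul ℝ ℝ) hiw hki, hk1]
    simp

end Pool.Agent.GH
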