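import Pool.Agent.GH.Stmts

/-!
The star inequality (module STAR).
-/

namespace Pool.Agent.GH

open MeasureTheory ProbabilityTheory Filter Topology

namespace STAR

/-- The mean of `-log max` over the second variable. -/
noncomputable def G (lam : ℂ → ℝ) (x₀ z : ℂ) : ℝ :=
  ∫ y, -Real.log (max ‖z - x₀‖ ‖y - x₀‖) * lam y

theorem meas_joint {lam : ℂ → ℝ} (hm : Measurable lam) (x₀ : ℂ) :
    Measurable (fun p : ℂ × ℂ => -Real.log (max ‖p.1 - x₀‖ ‖p.2 - x₀‖) * lam p.2) := by
  refine Measurable.mul ?_ (hm.comp measurable_snd)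
  refine Measurable.neg (Real.measurable_log.comp ?_)
  exact ((measurable_fst.sub_const x₀).norm).max ((measurable_snd.sub_const x₀).norm)

theorem meas_G {lam : ℂ → ℝ} (hm : Measurable lam) (x₀ : ℂ) : StronglyMeasurable (G lam x₀) := by
  have h := (meas_joint hm x₀).stronglyMeasurable
  exact h.integral_prod_right

theorem meas_slice {lam : ℂ → ℝ} (hm : Measurable lam) (x₀ z : ℂ) :
    Measurable (fun y : ℂ => -Real.log (max ‖z - x₀‖ ‖y - x₀‖) * lam y) :=
  (meas_joint hm x₀).comp (measurable_const.prodMk measurable_id)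

/-- Bound for the logarithm of a maximum. -/
theorem abs_log_max {a t T : ℝ} (ht : 0 < t) (haT : a ≤ T) (hT : 1 ≤ T) :
    |Real.log (max a t)| ≤ |Real.log t| + Real.log T := by
  have hlT : 0 ≤ Real.log T := Real.log_nonneg hT
  by_cases h : a ≤ t
  · rw [max_eq_right h]
    linarith
  · push Not at h
    rw [max_eq_left h.le]
    have ha0 : 0 < a := lt_trans ht h
    have h1 : Real.log a ≤ Real.log T := Real.log_le_log ha0 haT
    have h2 : Real.log t ≤ Real.log a := Real.log_le_log ht h.le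
    rw [abs_le]
    constructor
    · have := neg_abs_le (Real.log t)
      linarith
    · have := abs_nonneg (Real.log t)
      linarith

theorem ae_ne (x₀ : ℂ) : ∀ᵐ y : ℂ, y ≠ x₀ := by
  have h : volume ({x₀} : Set ℂ) = 0 := measure_singleton x₀
  exact compl_mem_ae_iff.2 h

section

variable {lam : ℂ → ℝ} {x₀ : ℂ} {T : ℝ}

/-- The pointwise bound of the integrand. -/
theorem slice_bound (hT : 1 ≤ T) {z : ℂ} (hz : ‖z - x₀‖ ≤ T) :
    ∀ᵐ y : ℂ, ‖-Real.log (max ‖z - x₀‖ ‖y - x₀‖) * lam y‖ ≤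
      ‖-Real.log ‖x₀ - y‖ * lam y‖ + Real.log T * ‖lam y‖ := by
  filter_upwards [ae_ne x₀] with y hy
  have hpos : 0 < ‖y - x₀‖ := norm_pos_iff.2 (sub_ne_zero.2 hy)
  rw [norm_mul, norm_mul, norm_neg, norm_neg, Real.norm_eq_abs, Real.norm_eq_abs, Real.norm_eq_abs,
    ← add_mul, norm_sub_rev x₀ y]
  exact mul_le_mul_of_nonneg_right (abs_log_max hpos hz hT) (abs_nonneg _)

theorem slice_integrable (hm : Measurable lam) (hi : Integrable lam)
    (hp : Integrable (fun y => -Real.log ‖x₀ - y‖ * lam y)) (hT : 1 ≤ T) {z : ℂ}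
    (hz : ‖z - x₀‖ ≤ T) :
    Integrable (fun y : ℂ => -Real.log (max ‖z - x₀‖ ‖y - x₀‖) * lam y) := by
  refine Integrable.mono' (hp.norm.add (hi.norm.const_mul (Real.log T)))
    (meas_slice hm x₀ z).aestronglyMeasurable ?_
  exact slice_bound hT hz

theorem G_bound (hi : Integrable lam)
    (hp : Integrable (fun y => -Real.log ‖x₀ - y‖ * lam y)) (hT : 1 ≤ T) {z : ℂ}
    (hz : ‖z - x₀‖ ≤ T) :
    ‖G lam x₀ z‖ ≤ (∫ y, (‖-Real.log ‖x₀ - y‖ * lam y‖ + Real.log T * ‖lam y‖)) := by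
  refine norm_integral_le_of_norm_le (hp.norm.add (hi.norm.const_mul (Real.log T))) ?_
  exact slice_bound hT hz

theorem G_integrable (hm : Measurable lam) (hi : Integrable lam)
    (hp : Integrable (fun y => -Real.log ‖x₀ - y‖ * lam y)) (hT : 1 ≤ T)
    (hs : ∀ z, T < ‖z - x₀‖ → lam z = 0) :
    Integrable (fun z => G lam x₀ z * lam z) := by
  set C : ℝ := ∫ y, (‖-Real.log ‖x₀ - y‖ * lam y‖ + Real.log T * ‖lam y‖) with hC
  refine Integrable.mono' (hi.norm.const_mul C)
    (((meas_G hm x₀).measurable.mul hm).aestronglyMeasurable) (Eventually.of_forall ?_)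
  intro z
  rw [norm_mul]
  by_cases hz : ‖z - x₀‖ ≤ T
  · exact mul_le_mul_of_nonneg_right (G_bound hi hp hT hz) (norm_nonneg _)
  · push Not at hz
    rw [hs z hz]
    simp

/-- The double integral of the logarithm of the maximum. -/
theorem double_eq (hm : Measurable lam) (hi : Integrable lam)
    (hp : Integrable (fun y => -Real.log ‖x₀ - y‖ * lam y)) (hT : 1 ≤ T)
    (hs : ∀ z, T < ‖z - x₀‖ → lam z = 0) :
    (∫ z, (∫ y, (Real.log (max ‖z - x₀‖ ‖y - x₀‖) - Real.log ‖y - x₀‖) * lam y) * lam z) =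
      pot lam x₀ * (∫ z, lam z) - ∫ z, G lam x₀ z * lam z := by
  have h1 : ∀ z, (∫ y, (Real.log (max ‖z - x₀‖ ‖y - x₀‖) - Real.log ‖y - x₀‖) * lam y) * lam z =
      pot lam x₀ * lam z - G lam x₀ z * lam z := by
    intro z
    by_cases hz : ‖z - x₀‖ ≤ T
    · have h2 : (∫ y, (Real.log (max ‖z - x₀‖ ‖y - x₀‖) - Real.log ‖y - x₀‖) * lam y) =
          pot lam x₀ - G lam x₀ z := by
        unfold pot G
        rw [← integral_sub hp (slice_integrable hm hi hp hT hz)]
        refine integral_congr_ae (Eventually.of_forall ?_)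
        intro y
        simp only
        rw [norm_sub_rev x₀ y]
        ring
      rw [h2]
      ring
    · push Not at hz
      rw [hs z hz]
      ring
  rw [integral_congr_ae (Eventually.of_forall h1),
    integral_sub (hi.const_mul _) (G_integrable hm hi hp hT hs), integral_const_mul]

end

end STAR

open STAR in
theorem STAR_thm (h1 : LAY_Stmt) (h2 : ONED_Stmt) (h3 : ROT_Stmt) (h4 : POT_Stmt)
    (h5 : SYM_Stmt) : STAR_Stmt := by
  have _ := h5
  intro lam R hN hpos x₀ m q hm hm0 hq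
  set T : ℝ := max (max (R + ‖x₀‖ + 1) 1) (Real.sqrt m) with hTdef
  have hT1 : 1 ≤ T := le_trans (le_max_right _ _) (le_max_left _ _)
  have hTR : R + ‖x₀‖ < T := by
    have : R + ‖x₀‖ + 1 ≤ T := le_trans (le_max_left _ _) (le_max_left _ _)
    linarith
  have hTm : Real.sqrt m ≤ T := le_max_right _ _
  have hs : ∀ z, T < ‖z - x₀‖ → lam z = 0 := by
    intro z hz
    apply hN.supp
    have := norm_sub_le z x₀
    linarith
  obtain ⟨hint, hpi, -⟩ := h4.1 lam R (1 / Real.pi) hN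
  have hp := hpi x₀
  set M : ℝ → ℝ := fun s => ∫ z in Metric.ball x₀ s, lam z with hM
  obtain ⟨hmono, hM0, hMs, hMm, hMT, hpot, hdbl⟩ :=
    h1 lam R hN hpos x₀ m T hm hm0 hTR hTm M (fun s => rfl)
  have hsm : 0 < Real.sqrt m := Real.sqrt_pos.2 hm0
  have hU := hpot (Real.sqrt m) hsm hTm
  obtain ⟨hV, hUle⟩ := h2 M m T (pot lam x₀) _ hm0 hTm hmono hM0 hMs hMm hMT hU hdbl
  have hqM : q = m - M (Real.sqrt m) := hq
  refine ⟨?_, ?_, hUle, ?_⟩
  · rw [hqM]
    linarith [hMm (Real.sqrt m)]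
  · rw [hqM]
    linarith [hM0 (Real.sqrt m)]
  · have hR := h3 lam R (1 / Real.pi) hN hpos x₀
    have hD := double_eq hN.meas hint hp hT1 hs
    rw [hD, ← hm, ← hqM] at hV
    have hG : (∫ z, G lam x₀ z * lam z) ≤ en lam lam := hR
    linarith [hV, hG]

end Pool.Agent.GH
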