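import Pool.Agent.GH.Stmts

/-!
STRICT: strict inequality for every continuum with interior other than a closed disk.
-/

namespace Pool.Agent.GH

open MeasureTheory ProbabilityTheory Filter Topology

namespace STRICT

/-- A compact set with nonempty interior has positive capacity. -/
theorem cap_pos (h4 : CAPA_Stmt) {K : Set ℂ} (hK : IsCompact K) (hi : (interior K).Nonempty) :
    0 < cap K := by
  obtain ⟨z, hz⟩ := hi
  obtain ⟨ρ, hρ, hsub⟩ := Metric.nhds_basis_closedBall.mem_iff.mp
    (mem_interior_iff_mem_nhds.mp hz)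
  exact lt_of_lt_of_le hρ (h4.2.2 K z ρ hK hρ hsub)

end STRICT

theorem STRICT_thm (h1 : CASA_Stmt) (h2 : CASB_Stmt) (h3 : CBIG_Stmt) (h4 : CAPA_Stmt) :
    STRICT_Stmt := by
  intro K hK hconn hi hdisk
  have hc := STRICT.cap_pos h4 hK hi
  by_cases hx : ∃ x ∈ K, K ⊆ Metric.closedBall x (cap K)
  · obtain ⟨x, hxK, hsub⟩ := hx
    exact h1 K x hK hi hxK hsub fun h => hdisk ⟨x, cap K, h⟩
  · push Not at hx
    refine h2 K hK hi fun x hxK => ?_
    by_contra hcon
    push Not at hcon
    have hfar : ∃ y ∈ K, cap K < ‖y - x‖ := by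
      obtain ⟨y, hyK, hy⟩ := Set.not_subset.mp (hx x hxK)
      refine ⟨y, hyK, ?_⟩
      rw [Metric.mem_closedBall, not_le, Complex.dist_eq] at hy
      exact hy
    have h5 := h3 K x (cap K) hK hconn hxK hc
      (fun z hz hzo => absurd hz (not_lt.mpr (hcon z hzo))) hfar
    exact lt_irrefl _ h5

end Pool.Agent.GH
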