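import Pool.Agent.GH.Stmts

/-!
# Module GH_SYM (MP_629fb1_pr): symmetry and integrability of the mutual energy
-/

namespace Pool.Agent.GH

open MeasureTheory ProbabilityTheory Filter Topology

namespace SYM

theorem nice_abs {f : ℂ → ℝ} {R B : ℝ} (h : Nice f R B) : Nice (fun z => |f z|) R B where
  meas := h.meas.norm
  bdd z := by rw [abs_abs]; exact h.bdd z
  supp z hz := by simp [h.supp z hz]

/-- The function `k` of the statement is measurable. -/
theorem kmeas {f g : ℂ → ℝ} {R B R' B' : ℝ} (hf : Nice f R B) (hg : Nice g R' B') :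
    Measurable fun p : ℂ × ℂ => -Real.log ‖p.1 - p.2‖ * (f p.1 * g p.2) := by
  have h1 : Measurable fun p : ℂ × ℂ => Real.log ‖p.1 - p.2‖ :=
    Real.measurable_log.comp (measurable_fst.sub measurable_snd).norm
  exact h1.neg.mul ((hf.meas.comp measurable_fst).mul (hg.meas.comp measurable_snd))

/-- Elementary bound for the logarithm. -/
theorem abs_log_le {t L : ℝ} (ht : 0 ≤ t) (hL : 0 ≤ L) (h : t ≤ Real.exp L) :
    |Real.log t| ≤ 2 * L + -Real.log t := by
  have h1 : Real.log t ≤ L := by
    rcases ht.eq_or_lt with h0 | h0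
    · rw [← h0, Real.log_zero]; exact hL
    · rw [Real.log_le_iff_le_exp h0]; exact h
  rw [abs_le]
  constructor <;> linarith

theorem kint (hP : POT_Stmt) {f g : ℂ → ℝ} {R B R' B' : ℝ} (hf : Nice f R B)
    (hg : Nice g R' B') :
    Integrable (fun p : ℂ × ℂ => -Real.log ‖p.1 - p.2‖ * (f p.1 * g p.2)) := by
  obtain ⟨hP1, -⟩ := hP
  obtain ⟨fi, fl, -⟩ := hP1 f R B hf
  obtain ⟨gi, -, -⟩ := hP1 g R' B' hg
  obtain ⟨ai, al, ac⟩ := hP1 _ R B (nice_abs hf)
  have hm := kmeas hf hg
  rw [Measure.volume_eq_prod, integrable_prod_iff' hm.aestronglyMeasurable]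
  constructor
  · refine Eventually.of_forall fun y => ?_
    have h1 := (fl y).mul_const (g y)
    refine h1.congr (Eventually.of_forall fun x => ?_)
    show -Real.log ‖y - x‖ * f x * g y = -Real.log ‖x - y‖ * (f x * g y)
    rw [norm_sub_rev y x, mul_assoc]
  · -- the bound
    set L : ℝ := |R| + |R'| with hL
    have hL0 : 0 ≤ L := by positivity
    obtain ⟨C, hC⟩ := (isCompact_closedBall (0 : ℂ) R').exists_bound_of_continuousOn
      ac.continuousOn
    have key : ∀ y : ℂ, ‖y‖ ≤ R' →
        ∫ x, |Real.log ‖x - y‖| * |f x| ≤ 2 * L * (∫ x, |f x|) + C := by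
      intro y hy
      have hle : ∀ x, |Real.log ‖x - y‖| * |f x| ≤ 2 * L * |f x| + -Real.log ‖y - x‖ * |f x| := by
        intro x
        by_cases hx : R < ‖x‖
        · rw [hf.supp x hx]; simp
        · push Not at hx
          have h2 : ‖x - y‖ ≤ Real.exp L := by
            have h3 : ‖x - y‖ ≤ ‖x‖ + ‖y‖ := norm_sub_le _ _
            have h4 : L + 1 ≤ Real.exp L := Real.add_one_le_exp L
            have h5 := le_abs_self R
            have h6 := le_abs_self R'
            linarith
          have h7 := abs_log_le (norm_nonneg (x - y)) hL0 h2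
          rw [norm_sub_rev y x]
          have h8 : 0 ≤ |f x| := abs_nonneg _
          nlinarith
      have hint2 : Integrable fun x => 2 * L * |f x| + -Real.log ‖y - x‖ * |f x| :=
        (ai.const_mul (2 * L)).add (al y)
      have hint1 : Integrable fun x => |Real.log ‖x - y‖| * |f x| := by
        refine hint2.mono' ?_ (Eventually.of_forall fun x => ?_)
        · have h1 : Measurable fun x : ℂ => Real.log ‖x - y‖ :=
            Real.measurable_log.comp (measurable_id.sub_const y).norm
          exact (h1.norm.mul hf.meas.norm).aestronglyMeasurable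
        · rw [Real.norm_eq_abs, abs_of_nonneg (by positivity)]
          exact hle x
      have h9 : ∫ x, |Real.log ‖x - y‖| * |f x| ≤
          ∫ x, (2 * L * |f x| + -Real.log ‖y - x‖ * |f x|) :=
        integral_mono hint1 hint2 hle
      have h10 : ∫ x, (2 * L * |f x| + -Real.log ‖y - x‖ * |f x|) =
          2 * L * (∫ x, |f x|) + pot (fun z => |f z|) y := by
        rw [integral_add (ai.const_mul (2 * L)) (al y), integral_const_mul]
        rfl
      have h11 := hC y (by simpa using hy)
      rw [Real.norm_eq_abs] at h11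
      have h12 := le_abs_self (pot (fun z => |f z|) y)
      linarith
    have hnorm : ∀ y : ℂ, (∫ x, ‖-Real.log ‖x - y‖ * (f x * g y)‖) =
        (∫ x, |Real.log ‖x - y‖| * |f x|) * |g y| := by
      intro y
      rw [← integral_mul_const]
      refine integral_congr_ae (Eventually.of_forall fun x => ?_)
      show ‖-Real.log ‖x - y‖ * (f x * g y)‖ = |Real.log ‖x - y‖| * |f x| * |g y|
      rw [norm_mul, norm_neg, norm_mul, Real.norm_eq_abs, Real.norm_eq_abs, Real.norm_eq_abs,
        mul_assoc]
    have hC0 : ∀ y : ℂ, ‖y‖ ≤ R' → 0 ≤ 2 * L * (∫ x, |f x|) + C := fun y hy =>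
      le_trans (integral_nonneg fun x => by positivity) (key y hy)
    refine (gi.norm.const_mul (2 * L * (∫ x, |f x|) + C)).mono' ?_
      (Eventually.of_forall fun y => ?_)
    · exact (hm.norm.comp measurable_swap).aestronglyMeasurable.integral_prod_right'
    · rw [Real.norm_eq_abs, abs_of_nonneg (integral_nonneg fun x => norm_nonneg _), hnorm y,
        Real.norm_eq_abs]
      by_cases hy : R' < ‖y‖
      · rw [hg.supp y hy]; simp
      · push Not at hy
        exact mul_le_mul_of_nonneg_right (key y hy) (abs_nonneg _)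

end SYM

/-- SYM: symmetry and integrability of the mutual energy. -/
theorem SYM_thm (h1 : POT_Stmt) : SYM_Stmt := by
  intro f g R B R' B' hf hg
  have hk := SYM.kint h1 hf hg
  have e1 : ∀ y : ℂ, (∫ x, -Real.log ‖x - y‖ * (f x * g y)) = pot f y * g y := by
    intro y
    unfold pot
    rw [← integral_mul_const]
    refine integral_congr_ae (Eventually.of_forall fun x => ?_)
    show -Real.log ‖x - y‖ * (f x * g y) = -Real.log ‖y - x‖ * f x * g y
    rw [norm_sub_rev y x, mul_assoc]
  have e2 : ∀ x : ℂ, (∫ y, -Real.log ‖x - y‖ * (f x * g y)) = pot g x * f x := by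
    intro x
    unfold pot
    rw [← integral_mul_const]
    refine integral_congr_ae (Eventually.of_forall fun y => ?_)
    show -Real.log ‖x - y‖ * (f x * g y) = -Real.log ‖x - y‖ * g y * f x
    ring
  have hk' := hk
  rw [Measure.volume_eq_prod] at hk'
  have i1 : ∫ p : ℂ × ℂ, -Real.log ‖p.1 - p.2‖ * (f p.1 * g p.2) = en f g := by
    rw [Measure.volume_eq_prod, integral_prod_symm _ hk']
    unfold en
    exact integral_congr_ae (Eventually.of_forall fun y => e1 y)
  have i2 : ∫ p : ℂ × ℂ, -Real.log ‖p.1 - p.2‖ * (f p.1 * g p.2) = en g f := by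
    rw [Measure.volume_eq_prod, integral_prod _ hk']
    unfold en
    exact integral_congr_ae (Eventually.of_forall fun x => e2 x)
  refine ⟨?_, hk, i1, i1.symm.trans i2⟩
  have h3 := hk'.integral_prod_right
  exact h3.congr (Eventually.of_forall fun y => e1 y)

end Pool.Agent.GH
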