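import Pool.Agent.GH.Stmts

/-!
The deterministic tail estimate.
-/

namespace Pool.Agent.GH

open MeasureTheory ProbabilityTheory Filter Topology

namespace TAILE

/-- one term of the tail -/
theorem term (R A r t : ℝ) (hR : 0 < R) (hA : 4 * Real.exp 3 * R ^ 2 ≤ A) (hr : 0 < r)
    (ht : 0 ≤ t) (htR : t ≤ R) (k : ℕ) (hk : A * r ^ 2 ≤ k) :
    (r * t) ^ k / Real.sqrt (k.factorial : ℝ) ≤ (Real.exp (-1) / 2) ^ k := by
  have hf : (0 : ℝ) < (k.factorial : ℝ) := by exact_mod_cast k.factorial_pos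
  rw [div_le_iff₀ (Real.sqrt_pos.2 hf)]
  have hrt : 0 ≤ r * t := mul_nonneg hr.le ht
  have h1 : (r * t) ^ 2 ≤ (k : ℝ) * (Real.exp (-1) / 2) ^ 2 * Real.exp (-1) := by
    have h2 : (r * t) ^ 2 ≤ r ^ 2 * R ^ 2 := by
      rw [mul_pow]
      exact mul_le_mul_of_nonneg_left (pow_le_pow_left₀ ht htR 2) (by positivity)
    have h3 : (4 * Real.exp 3 * R ^ 2) * r ^ 2 ≤ k :=
      (mul_le_mul_of_nonneg_right hA (by positivity)).trans hk
    have h4 : (Real.exp (-1) / 2) ^ 2 * Real.exp (-1) * (4 * Real.exp 3) = 1 := by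
      have h5 : (Real.exp (-1)) ^ 2 * Real.exp (-1) * Real.exp 3 = 1 := by
        rw [← pow_succ, ← Real.exp_nat_mul, ← Real.exp_add]
        norm_num
      calc (Real.exp (-1) / 2) ^ 2 * Real.exp (-1) * (4 * Real.exp 3)
          = (Real.exp (-1)) ^ 2 * Real.exp (-1) * Real.exp 3 := by ring
        _ = 1 := h5
    have h6 : 0 ≤ (Real.exp (-1) / 2) ^ 2 * Real.exp (-1) := by positivity
    have h7 := mul_le_mul_of_nonneg_left h3 h6
    have h8 : (Real.exp (-1) / 2) ^ 2 * Real.exp (-1) * ((4 * Real.exp 3 * R ^ 2) * r ^ 2) =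
        r ^ 2 * R ^ 2 := by
      calc _ = ((Real.exp (-1) / 2) ^ 2 * Real.exp (-1) * (4 * Real.exp 3)) * (r ^ 2 * R ^ 2) := by
            ring
        _ = _ := by rw [h4, one_mul]
    rw [h8] at h7
    linarith
  have h9 : ((r * t) ^ k) ^ 2 ≤ ((Real.exp (-1) / 2) ^ k) ^ 2 * (k.factorial : ℝ) := by
    have h10 : (k : ℝ) ^ k * Real.exp (-1) ^ k ≤ (k.factorial : ℝ) := by
      have h11 := Real.pow_div_factorial_le_exp (k : ℝ) (by positivity) k
      rw [div_le_iff₀ hf] at h11
      have h12 : Real.exp (-1) ^ k = Real.exp (-(k : ℝ)) := by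
        rw [← Real.exp_nat_mul]
        congr 1
        ring
      rw [h12]
      calc (k : ℝ) ^ k * Real.exp (-(k : ℝ)) ≤
          (Real.exp k * (k.factorial : ℝ)) * Real.exp (-(k : ℝ)) :=
            mul_le_mul_of_nonneg_right h11 (Real.exp_pos _).le
        _ = (k.factorial : ℝ) * (Real.exp k * Real.exp (-(k : ℝ))) := by ring
        _ = (k.factorial : ℝ) := by rw [← Real.exp_add, add_neg_cancel, Real.exp_zero, mul_one]
    calc ((r * t) ^ k) ^ 2 = ((r * t) ^ 2) ^ k := by rw [← pow_mul, ← pow_mul, mul_comm k 2]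
      _ ≤ ((k : ℝ) * (Real.exp (-1) / 2) ^ 2 * Real.exp (-1)) ^ k :=
          pow_le_pow_left₀ (by positivity) h1 k
      _ = ((Real.exp (-1) / 2) ^ k) ^ 2 * ((k : ℝ) ^ k * Real.exp (-1) ^ k) := by
          rw [mul_pow, mul_pow, ← pow_mul, ← pow_mul, mul_comm 2 k]
          ring
      _ ≤ _ := mul_le_mul_of_nonneg_left h10 (by positivity)
  calc (r * t) ^ k = Real.sqrt (((r * t) ^ k) ^ 2) := (Real.sqrt_sq (by positivity)).symm
    _ ≤ Real.sqrt (((Real.exp (-1) / 2) ^ k) ^ 2 * (k.factorial : ℝ)) := Real.sqrt_le_sqrt h9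
    _ = _ := by
        rw [Real.sqrt_mul (by positivity), Real.sqrt_sq (by positivity)]

theorem exp_neg_one_le : Real.exp (-1) ≤ 1 / 2 := by
  rw [Real.exp_neg, one_div]
  apply inv_anti₀ (by norm_num)
  have := Real.add_one_le_exp (1 : ℝ)
  linarith

theorem geom (n : ℕ) (q : ℝ) (hq0 : 0 ≤ q) (hq : q ≤ 1 / 2) :
    Summable (fun k : ℕ => if n < k then q ^ k else 0) ∧
      (∑' k : ℕ, if n < k then q ^ k else 0) ≤ 2 * q ^ (n + 1) := by
  have hs : Summable (fun k : ℕ => q ^ k) := summable_geometric_of_lt_one hq0 (by linarith)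
  have hs' : Summable (fun k : ℕ => if n < k then q ^ k else 0) := by
    refine Summable.of_nonneg_of_le (fun k => ?_) (fun k => ?_) hs
    · split_ifs <;> positivity
    · split_ifs
      · exact le_refl _
      · positivity
  refine ⟨hs', ?_⟩
  rw [← hs'.sum_add_tsum_nat_add (n + 1)]
  have h1 : ∑ k ∈ Finset.range (n + 1), (if n < k then q ^ k else 0) = 0 := by
    refine Finset.sum_eq_zero fun k hk => ?_
    rw [Finset.mem_range] at hk
    rw [if_neg (by omega)]
  have h2 : ∀ k : ℕ, (if n < k + (n + 1) then q ^ (k + (n + 1)) else 0) = q ^ (n + 1) * q ^ k := by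
    intro k
    rw [if_pos (by omega), pow_add]
    ring
  rw [h1, zero_add]
  simp_rw [h2]
  rw [tsum_mul_left, tsum_geometric_of_lt_one hq0 (by linarith)]
  have h3 : (1 - q)⁻¹ ≤ 2 := by
    rw [inv_le_comm₀ (by linarith) (by norm_num)]
    linarith
  have h4 : 0 ≤ q ^ (n + 1) := by positivity
  nlinarith

end TAILE

open TAILE in
/-- TAILE. -/
theorem TAILE_thm : TAILE_Stmt := by
  intro R W hR hW
  refine ⟨max 1 (max (W + 1) (4 * Real.exp 3 * R ^ 2)), le_max_left _ _, fun A hA => ?_⟩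
  have hA1 : 1 ≤ A := (le_max_left _ _).trans hA
  have hA2 : W + 1 ≤ A := ((le_max_left _ _).trans (le_max_right _ _)).trans hA
  have hA3 : 4 * Real.exp 3 * R ^ 2 ≤ A := ((le_max_right _ _).trans (le_max_right _ _)).trans hA
  filter_upwards [eventually_ge_atTop (1 : ℝ)] with r hr
  intro n t hn ht htR
  have hr0 : 0 < r := by linarith
  have hn1 : A * r ^ 2 < (n : ℝ) + 1 := by
    rw [hn]
    exact Nat.lt_floor_add_one _
  have hq0 := (Real.exp_pos (-1)).le
  obtain ⟨hs, hle⟩ := geom n (Real.exp (-1)) hq0 exp_neg_one_le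
  have hterm : ∀ k : ℕ, (if n < k then (k : ℝ) * (r * t) ^ k / Real.sqrt (k.factorial : ℝ) else 0)
      ≤ (if n < k then Real.exp (-1) ^ k else 0) := by
    intro k
    split_ifs with hk
    · have hk' : A * r ^ 2 ≤ k := by
        have : (n : ℝ) + 1 ≤ k := by exact_mod_cast hk
        linarith
      have h1 := term R A r t hR hA3 hr0 ht htR k hk'
      have h2 : (k : ℝ) ≤ 2 ^ k := by exact_mod_cast (Nat.lt_two_pow_self (n := k)).le
      calc (k : ℝ) * (r * t) ^ k / Real.sqrt (k.factorial : ℝ)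
          = (k : ℝ) * ((r * t) ^ k / Real.sqrt (k.factorial : ℝ)) := by rw [mul_div_assoc]
        _ ≤ 2 ^ k * (Real.exp (-1) / 2) ^ k := by
            apply mul_le_mul h2 h1 _ (by positivity)
            positivity
        _ = Real.exp (-1) ^ k := by
            rw [← mul_pow]
            congr 1
            ring
    · exact le_refl _
  have hnn : ∀ k : ℕ, 0 ≤ (if n < k then (k : ℝ) * (r * t) ^ k / Real.sqrt (k.factorial : ℝ)
      else 0) := by
    intro k
    split_ifs <;> positivity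
  have hs2 := Summable.of_nonneg_of_le hnn hterm hs
  refine (hs2.tsum_le_tsum hterm hs).trans (hle.trans ?_)
  rw [← Real.exp_nat_mul]
  have h5 : (2 : ℝ) ≤ Real.exp (r ^ 2) := by
    have h6 := Real.add_one_le_exp (r ^ 2)
    nlinarith
  calc 2 * Real.exp (((n + 1 : ℕ) : ℝ) * -1) ≤ Real.exp (r ^ 2) * Real.exp (-((W + 1) * r ^ 2)) := by
        apply mul_le_mul h5 _ (Real.exp_pos _).le (Real.exp_pos _).le
        apply Real.exp_le_exp.2
        push_cast
        nlinarith
    _ = Real.exp (-(W * r ^ 2)) := by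
        rw [← Real.exp_add]
        congr 1
        ring

end Pool.Agent.GH
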