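import Pool.Agent.GH.Stmts

/-!
# Module TAILW: uniform bound for the support of the odometer
-/

namespace Pool.Agent.GH

open MeasureTheory ProbabilityTheory Filter Topology Set

namespace TAILW

open Real in
/-- Integration over a disk in polar coordinates. -/
theorem ball_eq_zero {g : ℂ → ℝ} (hg : Continuous g) {T : ℝ} (_hT : 0 < T) :
    ∫ y in Metric.ball (0 : ℂ) T, g y =
      ∫ ρ in Ioo (0 : ℝ) T, 2 * π * ρ * Real.circleAverage g 0 ρ := by
  have hcont : Continuous fun p : ℝ × ℝ => p.1 * g (circleMap 0 p.1 p.2) := by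
    have : Continuous fun p : ℝ × ℝ => circleMap 0 p.1 p.2 := circleMap.continuous
    exact continuous_fst.mul (hg.comp this)
  rw [← integral_indicator measurableSet_ball, ← Complex.integral_comp_polarCoord_symm]
  have h1 : ∫ p in polarCoord.target,
      p.1 • (Metric.ball (0 : ℂ) T).indicator g (Complex.polarCoord.symm p) =
      ∫ p in (Ioo (0 : ℝ) T) ×ˢ (Ioo (-π) π), p.1 * g (circleMap 0 p.1 p.2) := by
    rw [← integral_indicator polarCoord.open_target.measurableSet,
      ← integral_indicator (measurableSet_Ioo.prod measurableSet_Ioo)]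
    congr 1
    ext p
    have hs : Complex.polarCoord.symm p = circleMap 0 p.1 p.2 := by
      rw [Complex.polarCoord_symm_apply, circleMap, zero_add, Complex.exp_mul_I]
      push_cast
      rfl
    by_cases hp : p ∈ polarCoord.target
    · rw [indicator_of_mem hp, hs, smul_eq_mul]
      have hp' : 0 < p.1 ∧ p.2 ∈ Ioo (-π) π := ⟨hp.1, hp.2⟩
      by_cases hb : p.1 < T
      · rw [indicator_of_mem (show p ∈ (Ioo (0 : ℝ) T) ×ˢ (Ioo (-π) π) from ⟨⟨hp'.1, hb⟩, hp'.2⟩),
          indicator_of_mem]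
        simpa [abs_of_pos hp'.1] using hb
      · rw [indicator_of_notMem, indicator_of_notMem, mul_zero]
        · exact fun h => hb h.1.2
        · simpa [abs_of_pos hp'.1] using hb
    · rw [indicator_of_notMem hp, indicator_of_notMem]
      intro h
      exact hp ⟨h.1.1, h.2⟩
  rw [h1]
  have hint : IntegrableOn (fun p : ℝ × ℝ => p.1 * g (circleMap 0 p.1 p.2))
      ((Ioo (0 : ℝ) T) ×ˢ (Ioo (-π) π)) (volume.prod volume) := by
    have := (hcont.continuousOn (s := Icc (0 : ℝ) T ×ˢ Icc (-π) π)).integrableOn_compact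
      (μ := volume.prod volume) (isCompact_Icc.prod isCompact_Icc)
    exact this.mono_set (prod_mono Ioo_subset_Icc_self Ioo_subset_Icc_self)
  have h2 := setIntegral_prod (μ := volume) (ν := volume) (s := Ioo (0 : ℝ) T) (t := Ioo (-π) π)
    (fun p : ℝ × ℝ => p.1 * g (circleMap 0 p.1 p.2)) hint
  have h2' : ∫ p in (Ioo (0 : ℝ) T) ×ˢ (Ioo (-π) π), p.1 * g (circleMap 0 p.1 p.2) =
      ∫ x in Ioo (0 : ℝ) T, ∫ y in Ioo (-π) π, x * g (circleMap 0 x y) := h2
  rw [h2']
  refine setIntegral_congr_fun measurableSet_Ioo (fun ρ hρ => ?_)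
  rw [integral_const_mul, ← integral_Ioc_eq_integral_Ioo,
    ← intervalIntegral.integral_of_le (by linarith [pi_pos])]
  have hper : (fun θ => g (circleMap 0 ρ θ)).Periodic (2 * π) := fun x => by
    simp [periodic_circleMap 0 ρ x]
  have h3 := hper.intervalIntegral_add_eq (-π) 0
  have e1 : -π + 2 * π = π := by ring
  rw [e1, zero_add] at h3
  rw [h3, Real.circleAverage, smul_eq_mul]
  field_simp

open Real in
theorem ball_eq {g : ℂ → ℝ} (hg : Continuous g) (c : ℂ) {T : ℝ} (hT : 0 < T) :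
    ∫ y in Metric.ball c T, g y =
      ∫ ρ in Ioo (0 : ℝ) T, 2 * π * ρ * Real.circleAverage g c ρ := by
  have h1 : ∫ y in Metric.ball c T, g y = ∫ y in Metric.ball (0 : ℂ) T, g (y + c) := by
    rw [← integral_indicator measurableSet_ball, ← integral_indicator measurableSet_ball,
      ← integral_add_right_eq_self (μ := volume) _ c]
    congr 1
    ext y
    by_cases hy : ‖y‖ < T
    · rw [indicator_of_mem, indicator_of_mem]
      · simpa using hy
      · simpa [dist_eq_norm] using hy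
    · rw [indicator_of_notMem, indicator_of_notMem]
      · simpa using hy
      · simpa [dist_eq_norm] using hy
  have hg' : Continuous fun y : ℂ => g (y + c) := hg.comp (continuous_id.add continuous_const)
  rw [h1, ball_eq_zero hg' hT]
  refine setIntegral_congr_fun measurableSet_Ioo (fun ρ hρ => ?_)
  rw [Real.circleAverage_map_add_const]

open Real in
theorem ball_le {g : ℂ → ℝ} (hg : Continuous g) (c : ℂ) {T : ℝ} (hT : 0 < T)
    (hb : ∀ ρ, 0 < ρ → Real.circleAverage g c ρ ≤ 1 + ρ ^ 2 / 2) :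
    ∫ y in Metric.ball c T, g y ≤ π * (T ^ 2 + T ^ 4 / 4) := by
  rw [ball_eq hg c hT]
  have hc : Continuous fun ρ : ℝ => 2 * π * ρ * Real.circleAverage g c ρ :=
    (continuous_const.mul continuous_id).mul (Continuous.circleAverage hg)
  have hc2 : Continuous fun ρ : ℝ => 2 * π * ρ * (1 + ρ ^ 2 / 2) := by fun_prop
  calc ∫ ρ in Ioo (0 : ℝ) T, 2 * π * ρ * Real.circleAverage g c ρ
      ≤ ∫ ρ in Ioo (0 : ℝ) T, 2 * π * ρ * (1 + ρ ^ 2 / 2) := by
        refine setIntegral_mono_on ?_ ?_ measurableSet_Ioo (fun ρ hρ => ?_)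
        · exact (hc.integrableOn_Icc).mono_set Ioo_subset_Icc_self
        · exact (hc2.integrableOn_Icc).mono_set Ioo_subset_Icc_self
        · exact mul_le_mul_of_nonneg_left (hb ρ hρ.1) (by have := hρ.1; positivity)
    _ = π * (T ^ 2 + T ^ 4 / 4) := by
        rw [← integral_Ioc_eq_integral_Ioo, ← intervalIntegral.integral_of_le hT.le]
        have hd : ∀ x ∈ uIcc 0 T, HasDerivAt (fun ρ : ℝ => π * (ρ ^ 2 + ρ ^ 4 / 4))
            (2 * π * x * (1 + x ^ 2 / 2)) x := by
          intro x _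
          have h1 := ((hasDerivAt_pow 2 x).add ((hasDerivAt_pow 4 x).div_const 4)).const_mul π
          refine h1.congr_deriv ?_
          norm_num
          ring
        rw [intervalIntegral.integral_eq_sub_of_hasDerivAt hd (hc2.intervalIntegrable _ _)]
        simp

open Real in
theorem le_ball {g : ℂ → ℝ} (hg : Continuous g) (c : ℂ) {a : ℝ}
    (hb : ∀ ρ, 0 < ρ → ρ ≤ 1 → a ≤ Real.circleAverage g c ρ) :
    π * a ≤ ∫ y in Metric.ball c 1, g y := by
  rw [ball_eq hg c one_pos]
  have hc : Continuous fun ρ : ℝ => 2 * π * ρ * Real.circleAverage g c ρ :=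
    (continuous_const.mul continuous_id).mul (Continuous.circleAverage hg)
  have hc2 : Continuous fun ρ : ℝ => 2 * π * ρ * a := by fun_prop
  calc π * a = ∫ ρ in Ioo (0 : ℝ) 1, 2 * π * ρ * a := by
        rw [← integral_Ioc_eq_integral_Ioo, ← intervalIntegral.integral_of_le zero_le_one]
        have hd : ∀ x ∈ uIcc (0 : ℝ) 1, HasDerivAt (fun ρ : ℝ => π * a * ρ ^ 2)
            (2 * π * x * a) x := by
          intro x _
          have h1 := (hasDerivAt_pow 2 x).const_mul (π * a)
          refine h1.congr_deriv ?_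
          norm_num
          ring
        rw [intervalIntegral.integral_eq_sub_of_hasDerivAt hd (hc2.intervalIntegrable _ _)]
        simp
    _ ≤ ∫ ρ in Ioo (0 : ℝ) 1, 2 * π * ρ * Real.circleAverage g c ρ := by
        refine setIntegral_mono_on ?_ ?_ measurableSet_Ioo (fun ρ hρ => ?_)
        · exact (hc2.integrableOn_Icc).mono_set Ioo_subset_Icc_self
        · exact (hc.integrableOn_Icc).mono_set Ioo_subset_Icc_self
        · exact mul_le_mul_of_nonneg_left (hb ρ hρ.1 hρ.2.le) (by have := hρ.1; positivity)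

theorem cont_of_lip {w : ℂ → ℝ} {Λ : ℝ} (hΛ : 0 ≤ Λ) (h : ∀ z z', |w z - w z'| ≤ Λ * ‖z - z'‖) :
    Continuous w := by
  have : LipschitzWith ⟨Λ, hΛ⟩ w := by
    refine LipschitzWith.of_dist_le_mul (fun z z' => ?_)
    rw [Real.dist_eq, dist_eq_norm]
    exact h z z'
  exact this.continuous

theorem lip_nonneg {w : ℂ → ℝ} {Λ : ℝ} (h : ∀ z z', |w z - w z'| ≤ Λ * ‖z - z'‖) : 0 ≤ Λ := by
  have := h 0 1
  simp only [zero_sub, norm_neg, norm_one, mul_one] at this
  exact (abs_nonneg _).trans this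

theorem posLog_zero {ρ t : ℝ} (hρ : 0 < ρ) (ht : ρ ≤ t) : Real.posLog (ρ / t) = 0 := by
  rw [Real.posLog_eq_zero_iff]
  rw [abs_of_nonneg (div_nonneg hρ.le (hρ.le.trans ht))]
  exact div_le_one_of_le₀ ht (hρ.le.trans ht)

theorem annulus_bound (h3 : AVK_Stmt) (h4 : KER_Stmt) (h5 : LAMA_Stmt)
    (h6 : CONV_Stmt) (h7 : SMO_Stmt) (h8 : POT_Stmt) {R₀ : ℝ} (hR₀ : 0 < R₀)
    {h : ℝ} {s : ℂ → ℝ} {S L R₁ Λ : ℝ} {x₀ : ℂ} (hh : 0 < h) (hΛh : Λ * h ≤ 1)
    (hs : Src s R₀ S L) (hw : IsOdo h s (Odo h s) R₁ Λ) (hx₀ : ‖x₀‖ ≤ R₀)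
    (hint : (∫ y, ker h (x₀ - y) * Odo h s y) ≤ 1) {z : ℂ} (hz1 : R₀ + 1 ≤ ‖z‖)
    (hz2 : ‖z‖ ≤ R₀ + 2) :
    Odo h s z ≤ (2 * R₀ + 3) ^ 2 + (2 * R₀ + 3) ^ 4 / 4 + 1 := by
  have hπ := Real.pi_pos
  set w : ℂ → ℝ := Odo h s with hwdef
  have hΛ : 0 ≤ Λ := lip_nonneg hw.lip
  have hwc : Continuous w := cont_of_lip hΛ hw.lip
  have hsc : Continuous s := cont_of_lip (lip_nonneg hs.lip) hs.lip
  set w' : ℂ → ℝ := fun z => ∫ y, ker h (z - y) * w y with hw'def
  obtain ⟨hlc, hl0, hl1, -, hlsupp⟩ := h5 h s w R₀ S L R₁ Λ hh hs hw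
  set f : ℂ → ℝ := fun y => s y / (2 * Real.pi) - lamOf h s w y with hfdef
  have hf : ∀ y, f y = -(1 / (2 * Real.pi)) * Ah h w y := by
    intro y
    simp only [hfdef, lamOf]
    field_simp
    ring
  have hfc : Continuous f := (hsc.div_const _).sub hlc
  have hnice : Nice f (max R₀ R₁ + h) (S / (2 * Real.pi) + 1 / Real.pi) := by
    refine ⟨hfc.measurable, fun y => ?_, fun y hy => ?_⟩
    · have a1 := hs.nonneg y
      have a2 := hs.le y
      have a3 := hl0 y
      have a4 := hl1 y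
      have a5 : 0 ≤ s y / (2 * Real.pi) := by positivity
      have a6 : s y / (2 * Real.pi) ≤ S / (2 * Real.pi) := by gcongr
      have a7 : 0 < 1 / Real.pi := by positivity
      rw [abs_le]
      constructor <;> simp only [hfdef] <;> linarith
    · have b1 : s y = 0 := hs.supp y (by
        have := le_max_left R₀ R₁
        linarith)
      simp only [hfdef, b1, hlsupp y hy]
      simp
  have hpot : pot f = w' := by
    ext x
    have c1 := (h6 h w R₁ hh hwc hw.supp).1 x
    have c2 : pot f x = -(1 / (2 * Real.pi)) * pot (Ah h w) x := by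
      unfold pot
      rw [← integral_const_mul]
      congr 1
      ext y
      rw [hf y]
      ring
    rw [c2, c1, hw'def]
    field_simp
  have hpc : Continuous w' := by
    rw [← hpot]
    exact (h8.1 f _ _ hnice).2.2
  obtain ⟨hw'0, hw'w, -, -, hw'int, -⟩ := h7 h w (max R₁ 0) Λ hh (le_max_right _ _) hΛ hw.nonneg
    hw.lip (fun y hy => hw.supp y ((le_max_left _ _).trans hy)) w' (fun _ => rfl)
  obtain ⟨hA, -⟩ := h3 f _ _ hnice
  -- averages around `x₀`
  have hup : ∀ ρ, 0 < ρ → Real.circleAverage w' x₀ ρ ≤ 1 + ρ ^ 2 / 2 := by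
    intro ρ hρ
    obtain ⟨d1, d2⟩ := hA x₀ ρ hρ
    rw [hpot] at d2
    obtain ⟨k1, k2⟩ := h4.1 ρ hρ
    have k3 : Integrable (fun y : ℂ => Real.posLog (ρ / ‖x₀ - y‖)) := k1.comp_sub_left x₀
    have k4 : ∫ y : ℂ, Real.posLog (ρ / ‖x₀ - y‖) = Real.pi * ρ ^ 2 / 2 := by
      rw [← k2]
      exact integral_sub_left_eq_self (fun y : ℂ => Real.posLog (ρ / ‖y‖)) volume x₀
    have k5 : -∫ y, Real.posLog (ρ / ‖x₀ - y‖) * f y ≤
        ∫ y, Real.posLog (ρ / ‖x₀ - y‖) * (1 / Real.pi) := by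
      rw [← integral_neg]
      refine integral_mono d1.neg (k3.mul_const _) (fun y => ?_)
      have e1 : 0 ≤ Real.posLog (ρ / ‖x₀ - y‖) := Real.posLog_nonneg
      have e2 : -f y ≤ 1 / Real.pi := by
        have a1 := hs.nonneg y
        have a4 := hl1 y
        have a5 : 0 ≤ s y / (2 * Real.pi) := by positivity
        simp only [hfdef]
        linarith
      have := mul_le_mul_of_nonneg_left e2 e1
      show -(Real.posLog (ρ / ‖x₀ - y‖) * f y) ≤ _
      linarith
    rw [integral_mul_const, k4] at k5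
    have k6 : Real.pi * ρ ^ 2 / 2 * (1 / Real.pi) = ρ ^ 2 / 2 := by field_simp
    have k7 : w' x₀ ≤ 1 := hint
    linarith
  -- averages around `z`
  have hlow : ∀ ρ, 0 < ρ → ρ ≤ 1 → w' z ≤ Real.circleAverage w' z ρ := by
    intro ρ hρ hρ1
    obtain ⟨d1, d2⟩ := hA z ρ hρ
    rw [hpot] at d2
    have k5 : ∫ y, Real.posLog (ρ / ‖z - y‖) * f y ≤ 0 := by
      refine integral_nonpos (fun y => ?_)
      show Real.posLog (ρ / ‖z - y‖) * f y ≤ 0
      by_cases hy : ρ ≤ ‖z - y‖
      · rw [posLog_zero hρ hy, zero_mul]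
      · rw [not_le] at hy
        have e0 : R₀ < ‖y‖ := by
          have := norm_sub_norm_le z y
          linarith
        have e1 : s y = 0 := hs.supp y e0
        have e2 : f y ≤ 0 := by
          have := hl0 y
          simp only [hfdef, e1, zero_div]
          linarith
        exact mul_nonpos_of_nonneg_of_nonpos Real.posLog_nonneg e2
    linarith
  have hT : 0 < 2 * R₀ + 3 := by linarith
  have g1 := ball_le hpc x₀ hT hup
  have g2 := le_ball hpc z hlow
  have g3 : ∫ y in Metric.ball z 1, w' y ≤ ∫ y in Metric.ball x₀ (2 * R₀ + 3), w' y := by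
    refine setIntegral_mono_set hw'int.integrableOn (ae_of_all _ hw'0) ?_
    refine LE.le.eventuallyLE ?_
    intro y hy
    rw [Metric.mem_ball, dist_eq_norm] at hy ⊢
    have e1 : y - x₀ = (y - z) + (z - x₀) := by ring
    have e2 := norm_add_le (y - z) (z - x₀)
    have e3 := norm_sub_le z x₀
    rw [e1]
    linarith
  have g4 : Real.pi * w' z ≤ Real.pi * ((2 * R₀ + 3) ^ 2 + (2 * R₀ + 3) ^ 4 / 4) :=
    g2.trans (g3.trans g1)
  have g5 : w' z ≤ (2 * R₀ + 3) ^ 2 + (2 * R₀ + 3) ^ 4 / 4 := le_of_mul_le_mul_left g4 hπ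
  have g6 := abs_le.1 (hw'w z)
  linarith [g6.1]

end TAILW

open TAILW in
theorem TAILW_thm (h1 : BAR_Stmt) (h2 : ITER_Stmt) (h3 : AVK_Stmt) (h4 : KER_Stmt)
    (h5 : LAMA_Stmt) (h6 : CONV_Stmt) (h7 : SMO_Stmt) (h8 : POT_Stmt) : TAILW_Stmt := by
  intro R₀ hR₀
  obtain ⟨R, C, b, hρR, hbc, hb0, hbC, hbR, hbW, hbA, -⟩ :=
    h1 (R₀ + 2) 0 ((2 * R₀ + 3) ^ 2 + (2 * R₀ + 3) ^ 4 / 4 + 1) (by linarith)
  refine ⟨R, by linarith, ?_⟩
  intro h s S L R₁ Λ x₀ hh hh1 hΛh hs hw hle htend hx₀ hint z hz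
  obtain ⟨hoc, ho0, -, -, -, -⟩ := h2 h s R₀ S L hh hs
  have key : ∀ k : ℕ, ∀ z : ℂ, R₀ + 1 ≤ ‖z‖ → odo h s k z ≤ b z := by
    intro k
    induction k with
    | zero => intro z _; exact hb0 z
    | succ k ih =>
      intro z hz
      by_cases hz2 : ‖z‖ ≤ R₀ + 2
      · exact ((hle (k + 1) z).trans
          (annulus_bound h3 h4 h5 h6 h7 h8 hR₀ hh hΛh hs hw hx₀ hint hz hz2)).trans (hbW z hz2)
      · rw [not_le] at hz2
        have hs0 : s z = 0 := hs.supp z (by linarith)
        show max 0 (Real.circleAverage (odo h s k) z h + h ^ 2 / 4 * (s z - 2)) ≤ b z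
        refine max_le (hb0 z) ?_
        have e1 : Real.circleAverage (odo h s k) z h ≤ Real.circleAverage b z h := by
          refine Real.circleAverage_mono (hoc k).continuousOn.circleIntegrable' hbc.continuousOn.circleIntegrable' ?_
          intro x hx
          refine ih x ?_
          rw [mem_sphere_iff_norm, abs_of_pos hh] at hx
          have := norm_sub_norm_le z x
          rw [norm_sub_rev] at this
          linarith
        have e2 := hbA h z hh
        unfold Ah at e2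
        have e3 : Real.circleAverage b z h - b z ≤ h ^ 2 / 2 := by
          have h20 : 0 < h ^ 2 := by positivity
          rw [div_mul_eq_mul_div, div_le_iff₀ h20] at e2
          linarith
        rw [hs0]
        linarith
  have hz1 : R₀ + 1 ≤ ‖z‖ := by linarith
  have hlim : Odo h s z ≤ b z :=
    le_of_tendsto (htend z) (Eventually.of_forall fun k => key k z hz1)
  rw [hbR z hz] at hlim
  exact le_antisymm hlim (hw.nonneg z)

end Pool.Agent.GH
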