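import Pool.Agent.GH.CASB

/-!
THA: upper bound of the exponent by the capacity, sets with interior.
-/

namespace Pool.Agent.GH

open MeasureTheory ProbabilityTheory Filter Topology

open CASB in
/-- **(THA)** -/
theorem THA_thm (h1 : KI_Stmt) (h3 : BETA_Stmt) (h4 : FEK_Stmt)
    (h5 : FEKB_Stmt) (h6 : OUT_Stmt) (h7 : CAPA_Stmt) : THA_Stmt := by
  intro K hK hint G hG0
  have hne : K.Nonempty := hint.mono interior_subset
  obtain ⟨hC1, hC2, hC3⟩ := h7
  -- the capacity is positive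
  obtain ⟨c, hc⟩ : ∃ c, c = cap K := ⟨_, rfl⟩
  have hc0 : 0 < c := by
    obtain ⟨w, hw⟩ := hint
    obtain ⟨ρ, hρ, hsub⟩ := Metric.isOpen_iff.1 isOpen_interior w hw
    have hb : Metric.closedBall w (ρ / 2) ⊆ K :=
      (Metric.closedBall_subset_ball (by linarith)).trans (hsub.trans interior_subset)
    have := hC3 K w (ρ / 2) hK (by linarith) hb
    rw [hc]
    linarith
  -- the volume
  have hvol : 0 < (volume K).toReal := by
    apply ENNReal.toReal_pos
    · exact (lt_of_lt_of_le (isOpen_interior.measure_pos volume hint)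
        (measure_mono interior_subset)).ne'
    · exact hK.measure_lt_top.ne
  obtain ⟨m0, hm0⟩ : ∃ m0, m0 = (volume K).toReal / Real.pi := ⟨_, rfl⟩
  have hm0p : 0 < m0 := by
    rw [hm0]
    exact div_pos hvol Real.pi_pos
  -- the radii
  obtain ⟨RK, hRK⟩ := hK.isBounded.subset_closedBall (0 : ℂ)
  have hRK' : ∀ y ∈ K, ‖y‖ ≤ RK := fun y hy => by
    have := hRK hy
    rwa [mem_closedBall_zero_iff] at this
  have hRK0 : 0 ≤ RK := by
    obtain ⟨y, hy⟩ := hne
    exact (norm_nonneg y).trans (hRK' y hy)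
  obtain ⟨R₀, hR₀⟩ : ∃ R₀, R₀ = RK + 3 := ⟨_, rfl⟩
  obtain ⟨R₂, hR₂, hKI⟩ := h1 R₀ (by linarith)
  have hR₂0 : 0 < R₂ := by linarith
  -- the separation
  obtain ⟨CB, hCB⟩ := h3
  obtain ⟨ε1, hε1, hε1G⟩ := small c (G / 4) (by linarith)
  obtain ⟨δo, No, hδo, hout⟩ := h6 K hK hne ε1 hε1
  obtain ⟨δ, hδ⟩ : ∃ δ, δ = min δo 1 := ⟨_, rfl⟩
  have hδ0 : 0 < δ := by
    rw [hδ]
    exact lt_min hδo one_pos
  have hδo' : δ ≤ δo := by
    rw [hδ]
    exact min_le_left _ _
  have hδ1 : δ ≤ 1 := by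
    rw [hδ]
    exact min_le_right _ _
  obtain ⟨e, he⟩ : ∃ e, e = δ / 2 := ⟨_, rfl⟩
  have he0 : 0 < e := by rw [he]; linarith
  obtain ⟨D, hD⟩ : ∃ D, D = c + ε1 + |CB| + |Real.log e| := ⟨_, rfl⟩
  have hD0 : 0 ≤ D := by
    rw [hD]
    have := abs_nonneg CB
    have := abs_nonneg (Real.log e)
    linarith
  obtain ⟨N1, hN1⟩ := exists_nat_ge (4 * (R₂ ^ 4 * D) / G)
  obtain ⟨N, hN, hN2⟩ : ∃ N : ℕ, max No N1 ≤ N ∧ 2 ≤ N :=
    ⟨max (max No N1) 2, le_max_left _ _, le_max_right _ _⟩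
  have hNo : No ≤ N := (le_max_left _ _).trans hN
  have hN1' : (4 * (R₂ ^ 4 * D) / G) ≤ (N : ℝ) := by
    refine hN1.trans ?_
    exact_mod_cast (le_max_right _ _).trans hN
  have hNpos : (0 : ℝ) < N := by
    have : 0 < N := by omega
    exact_mod_cast this
  -- the thickening and its Fekete points
  obtain ⟨K', hK'⟩ : ∃ K', K' = Metric.cthickening δ K := ⟨_, rfl⟩
  have hK'c : IsCompact K' := by
    rw [hK']
    exact hK.cthickening
  have hKK' : K ⊆ K' := by
    rw [hK']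
    exact Metric.self_subset_cthickening K
  have hK'ne : K'.Nonempty := hne.mono hKK'
  obtain ⟨hF1, -, hF3⟩ := h4 K' hK'c hK'ne
  obtain ⟨a, ha⟩ := hF1 N
  have hcap' : 0 < cap K' := by
    have := (hC2 K K' hK hK'c hne hKK').2.2
    rw [← hc] at this
    linarith
  obtain ⟨hinj, hdn0, hsum, hprod⟩ := hF3 hcap' N a hN2 ha
  have hdist : ∀ i, Metric.infDist (a i) K = δ :=
    h5 K δ N a hK hne hδ0 hN2 (by rw [← hK']; exact ha)
  have hdn : dn K' N ≤ c + ε1 := by
    rw [hK', hc]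
    exact hout δ N hδ0 hδo' hNo
  obtain ⟨L, hL⟩ : ∃ L, L = Real.log (dn K' N) := ⟨_, rfl⟩
  have hL1 : L ≤ c + ε1 := by
    rw [hL]
    have := Real.log_le_sub_one_of_pos hdn0
    linarith
  -- the norms of the Fekete points
  have hnorm : ∀ i, ‖a i‖ + e ≤ R₀ := by
    intro i
    obtain ⟨y, hy, hyd⟩ := hK.exists_infDist_eq_dist hne (a i)
    rw [hdist i] at hyd
    have h8 := hRK' y hy
    have h9 : ‖a i‖ ≤ ‖y‖ + dist (a i) y := by
      rw [dist_eq_norm]
      have := norm_add_le y (a i - y)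
      rwa [add_sub_cancel] at this
    rw [← hyd] at h9
    rw [he, hR₀]
    linarith
  obtain ⟨β, hβD, hβ1, hβ2, hβ3⟩ := hCB N a e R₀ (by omega) hinj he0 hnorm
  have hfar : ∀ z, Metric.infDist z K < e → ∀ i, e ≤ ‖z - a i‖ := by
    intro z hz i
    have h8 := Metric.infDist_le_infDist_add_dist (s := K) (x := a i) (y := z)
    rw [hdist i, dist_comm, dist_eq_norm] at h8
    rw [he] at hz ⊢
    linarith
  obtain ⟨x₀, hx₀, m, q, hm, hm2, hq, hadm, hmom⟩ := hKI K β e (G / 4) hK hne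
    (hRK.trans (Metric.closedBall_subset_closedBall (by linarith))) hvol hβD he0
    (fun z hz => (hβ1 z (hfar z hz)).1) (by linarith)
  rw [← hm0] at hm
  have hmp : 0 < m := lt_of_lt_of_le hm0p hm
  refine adm_mono hadm ?_
  -- the potential at `x₀`
  have hx0d : Metric.infDist x₀ K < e := by
    rw [Metric.infDist_zero_of_mem hx₀]
    exact he0
  have hpot := (hβ1 x₀ (hfar x₀ hx0d)).2
  have hposi : ∀ i, 0 < ‖x₀ - a i‖ := fun i => lt_of_lt_of_le he0 (hfar x₀ hx0d i)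
  have hlogprod : ∑ i, Real.log ‖x₀ - a i‖ ≤ (N : ℝ) * L := by
    have h8 := hprod x₀ (hKK' hx₀)
    have h9 : Real.log (∏ i, ‖x₀ - a i‖) ≤ Real.log ((dn K' N) ^ N) :=
      Real.log_le_log (Finset.prod_pos fun i _ => hposi i) h8
    rw [Real.log_prod (fun i _ => (hposi i).ne'), Real.log_pow, ← hL] at h9
    exact h9
  have hpotL : -L ≤ pot β x₀ := by
    rw [hpot, Finset.sum_neg_distrib, mul_neg]
    apply neg_le_neg
    rw [one_div, inv_mul_le_iff₀ hNpos]
    exact hlogprod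
  have hen : en β β ≤ -(((N : ℝ) - 1) / N * L) + (CB - Real.log e) / N := by
    refine hβ2.trans (le_of_eq ?_)
    have h8 : ∑ i, ∑ j ∈ Finset.univ.erase i, -Real.log ‖a i - a j‖ =
        -((N : ℝ) * ((N : ℝ) - 1) * L) := by
      rw [hL, ← hsum]
      simp only [Finset.sum_neg_distrib]
    rw [h8]
    field_simp
  have hdiff : en β β - pot β x₀ ≤ D / N := by
    have h8 : en β β - pot β x₀ ≤ (L + CB - Real.log e) / N := by
      have h9 : -(((N : ℝ) - 1) / N * L) + (CB - Real.log e) / N + L =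
          (L + CB - Real.log e) / N := by
        field_simp
        ring
      linarith
    refine h8.trans (div_le_div_of_nonneg_right ?_ hNpos.le)
    rw [hD]
    have := le_abs_self CB
    have := neg_abs_le (Real.log e)
    linarith
  have hA1 : m ^ 2 * (en β β - pot β x₀) ≤ G / 4 := by
    have h8 : m ^ 2 * (en β β - pot β x₀) ≤ m ^ 2 * (D / N) :=
      mul_le_mul_of_nonneg_left hdiff (sq_nonneg m)
    have h9 : m ^ 2 ≤ R₂ ^ 4 := by
      calc m ^ 2 ≤ (R₂ ^ 2) ^ 2 := pow_le_pow_left₀ hmp.le hm2 2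
        _ = R₂ ^ 4 := by ring
    have h10 : m ^ 2 * (D / N) ≤ R₂ ^ 4 * (D / N) :=
      mul_le_mul_of_nonneg_right h9 (div_nonneg hD0 hNpos.le)
    have h11 : R₂ ^ 4 * (D / N) ≤ G / 4 := by
      rw [← mul_div_assoc, div_le_iff₀ hNpos]
      rw [div_le_iff₀ hG0] at hN1'
      linarith
    linarith
  have hA2 : Real.exp 2 / 4 * Real.exp (-4 * pot β x₀) ≤ Real.exp 2 / 4 * c ^ 4 + G / 4 := by
    refine le_trans ?_ hε1G
    refine mul_le_mul_of_nonneg_left ?_ (by positivity)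
    calc Real.exp (-4 * pot β x₀) ≤ Real.exp (4 * L) := Real.exp_le_exp.2 (by linarith)
      _ = (dn K' N) ^ 4 := by
        rw [hL, mul_comm, Real.exp_mul, Real.exp_log hdn0]
        exact_mod_cast Real.rpow_natCast (dn K' N) 4
      _ ≤ (c + ε1) ^ 4 := pow_le_pow_left₀ hdn0.le hdn 4
  have hA3 : 0 ≤ q ^ 3 / (8 * m) := by positivity
  rw [← hc]
  linarith

end Pool.Agent.GH
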