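import Pool.Agent.GH.Stmts

/-!
Module THB (MP_629fb1_pr): the upper bound of the exponent by the capacity for all compact sets.
-/

set_option autoImplicit false

namespace Pool.Agent.GH.THB

open MeasureTheory ProbabilityTheory Filter Topology

/-- Admissible exponents of a larger set are admissible for a smaller one. -/
theorem adm_mono {K K' : Set ℂ} (hK : K.Nonempty) (h : K ⊆ K') {E E' : ℝ} (hE : E ≤ E')
    (hA : Adm K' E) : Adm K E' := by
  obtain ⟨σ, lam, R, B, η, hd, he⟩ := hA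
  refine ⟨σ, lam, R, B, η, ?_, he.trans hE⟩
  exact
    { σ_nice := hd.σ_nice
      σ_nonneg := hd.σ_nonneg
      lam_nice := hd.lam_nice
      lam_nonneg := hd.lam_nonneg
      mass := hd.mass
      η_pos := hd.η_pos
      hole := fun z hz => hd.hole z ((Metric.infDist_le_infDist_of_subset h hK).trans_lt hz)
      w_nonneg := hd.w_nonneg
      w_supp := hd.w_supp }

end Pool.Agent.GH.THB

namespace Pool.Agent.GH

open MeasureTheory ProbabilityTheory Filter Topology

theorem THB_thm (h1 : THA_Stmt) (h2 : OUT_Stmt) (h3 : CAPA_Stmt) : THB_Stmt := by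
  intro K hK hne ε hε
  obtain ⟨hcap, hmono, -⟩ := h3
  obtain ⟨-, -, -, hc0⟩ := hcap K hK hne
  -- choose the error of the capacity
  have hcont : Tendsto (fun t : ℝ => Real.exp 2 / 4 * (cap K + t) ^ 4) (𝓝 0)
      (𝓝 (Real.exp 2 / 4 * (cap K + 0) ^ 4)) := by
    apply Continuous.tendsto
    fun_prop
  rw [add_zero] at hcont
  have hev : ∀ᶠ t : ℝ in 𝓝 0, Real.exp 2 / 4 * (cap K + t) ^ 4 <
      Real.exp 2 / 4 * cap K ^ 4 + ε / 2 :=
    hcont.eventually (gt_mem_nhds (by linarith))
  obtain ⟨t, ht, ht0⟩ : ∃ t : ℝ, Real.exp 2 / 4 * (cap K + t) ^ 4 <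
      Real.exp 2 / 4 * cap K ^ 4 + ε / 2 ∧ 0 < t :=
    ((hev.filter_mono nhdsWithin_le_nhds).and (self_mem_nhdsWithin (s := Set.Ioi (0 : ℝ)))).exists
  obtain ⟨δ₀, N₀, hδ₀, hout⟩ := h2 K hK hne t ht0
  have hK' : IsCompact (Metric.cthickening δ₀ K) := hK.cthickening
  have hsub : K ⊆ Metric.cthickening δ₀ K := Metric.self_subset_cthickening K
  have hne' : (Metric.cthickening δ₀ K).Nonempty := hne.mono hsub
  have hint : (interior (Metric.cthickening δ₀ K)).Nonempty := by
    refine (hne.mono (Metric.self_subset_thickening hδ₀ K)).mono ?_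
    exact interior_maximal (Metric.thickening_subset_cthickening δ₀ K) Metric.isOpen_thickening
  obtain ⟨-, hle, -, hc0'⟩ := hcap _ hK' hne'
  have hcle : cap (Metric.cthickening δ₀ K) ≤ cap K + t :=
    (hle (max N₀ 2) (le_max_right _ _)).trans (hout δ₀ (max N₀ 2) hδ₀ le_rfl (le_max_left _ _))
  have hpow : Real.exp 2 / 4 * cap (Metric.cthickening δ₀ K) ^ 4 ≤
      Real.exp 2 / 4 * (cap K + t) ^ 4 := by
    apply mul_le_mul_of_nonneg_left _ (by positivity)
    exact pow_le_pow_left₀ hc0' hcle 4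
  refine THB.adm_mono hne hsub ?_ (h1 _ hK' hint (ε / 2) (by linarith))
  linarith

end Pool.Agent.GH
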