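import Mathlib
import Pool.Agent.GH.Stmts

/-!
# VAND: the determinant of the basis `Q, L_0, ..., L_{n-1}`
-/

namespace Pool.Agent.GH

namespace VAND

open Finset

theorem eval_rootPolyErase {n : ℕ} (z : Fin n → ℂ) (j : Fin n) (w : ℂ) :
    (rootPolyErase z j).eval w = ∏ i ∈ univ.erase j, (w - z i) := by
  rw [rootPolyErase, Polynomial.eval_prod]
  simp

theorem natDegree_rootPolyErase {n : ℕ} (z : Fin n → ℂ) (j : Fin n) :
    (rootPolyErase z j).natDegree = n - 1 := by
  rw [rootPolyErase, Polynomial.natDegree_prod_of_monic _ _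
    (fun i _ => Polynomial.monic_X_sub_C _)]
  simp [card_erase_of_mem]

theorem natDegree_rootPoly {n : ℕ} (z : Fin n → ℂ) : (rootPoly z).natDegree = n := by
  rw [rootPoly, Polynomial.natDegree_prod_of_monic _ _
    (fun i _ => Polynomial.monic_X_sub_C _)]
  simp

theorem monic_rootPoly {n : ℕ} (z : Fin n → ℂ) : (rootPoly z).Monic :=
  Polynomial.monic_prod_of_monic _ _ (fun i _ => Polynomial.monic_X_sub_C _)

theorem mul_rootPolyErase {n : ℕ} (z : Fin n → ℂ) (j : Fin n) :
    (Polynomial.X - Polynomial.C (z j)) * rootPolyErase z j = rootPoly z := by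
  rw [rootPoly, rootPolyErase]
  exact mul_prod_erase univ (fun i => Polynomial.X - Polynomial.C (z i)) (mem_univ j)

theorem prod_erase_eq {n : ℕ} (f : Fin n → Fin n → ℝ) (hf : ∀ i j, f i j = f j i) :
    ∏ i : Fin n, ∏ j ∈ univ.erase i, f i j = (∏ i : Fin n, ∏ j ∈ Ioi i, f i j) ^ 2 := by
  have h1 : ∀ i : Fin n, ∏ j ∈ univ.erase i, f i j =
      (∏ j ∈ Ioi i, f i j) * ∏ j ∈ Iio i, f i j := by
    intro i
    rw [← prod_union]
    · apply prod_congr _ fun _ _ => rfl
      ext j
      simp only [mem_erase, mem_univ, and_true, mem_union, mem_Ioi, mem_Iio]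
      constructor
      · intro h
        rcases lt_or_gt_of_ne h with h | h
        · exact Or.inr h
        · exact Or.inl h
      · rintro (h | h)
        · exact h.ne'
        · exact h.ne
    · rw [disjoint_left]
      intro j h1 h2
      rw [mem_Ioi] at h1
      rw [mem_Iio] at h2
      exact lt_asymm h1 h2
  rw [prod_congr rfl fun i _ => h1 i, prod_mul_distrib, sq]
  congr 1
  rw [prod_comm' (t' := univ) (s' := fun j => Ioi j)]
  · refine prod_congr rfl fun i _ => prod_congr rfl fun j _ => hf _ _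
  · intro i j
    simp

/-- The coefficient matrix. -/
noncomputable def cm {n : ℕ} (z : Fin n → ℂ) : Matrix (Fin (n + 1)) (Fin (n + 1)) ℂ :=
  Matrix.of fun (k j : Fin (n + 1)) =>
    ((Fin.cons (rootPoly z) (rootPolyErase z) : Fin (n + 1) → Polynomial ℂ) j).coeff (k : ℕ)

/-- The small coefficient matrix. -/
noncomputable def cs {n : ℕ} (z : Fin n → ℂ) : Matrix (Fin n) (Fin n) ℂ :=
  Matrix.of fun (k j : Fin n) => (rootPolyErase z j).coeff (k : ℕ)

theorem norm_det_cm {n : ℕ} (z : Fin n → ℂ) : ‖(cm z).det‖ = ‖(cs z).det‖ := by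
  rw [Matrix.det_succ_row (cm z) (Fin.last n), Fin.sum_univ_succ]
  have h1 : ∀ j : Fin n, cm z (Fin.last n) j.succ = 0 := by
    intro j
    rw [cm, Matrix.of_apply, Fin.cons_succ, Fin.val_last]
    apply Polynomial.coeff_eq_zero_of_natDegree_lt
    rw [natDegree_rootPolyErase]
    have := j.2
    omega
  have h2 : cm z (Fin.last n) 0 = 1 := by
    rw [cm, Matrix.of_apply, Fin.cons_zero, Fin.val_last]
    have := monic_rootPoly z
    rwa [Polynomial.Monic, Polynomial.leadingCoeff, natDegree_rootPoly] at this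
  have h3 : (cm z).submatrix (Fin.last n).succAbove (Fin.succAbove 0) = cs z := by
    ext k j
    rw [Matrix.submatrix_apply, Fin.succAbove_last, Fin.succAbove_zero, cm, cs, Matrix.of_apply,
      Matrix.of_apply, Fin.cons_succ]
    rfl
  rw [sum_eq_zero (fun j _ => by rw [h1 j]; ring), h2, h3]
  simp

theorem vandermonde_mul {n : ℕ} (z : Fin n → ℂ) :
    Matrix.vandermonde z * cs z = Matrix.diagonal fun i => ∏ l ∈ univ.erase i, (z i - z l) := by
  ext i j
  rw [Matrix.mul_apply]
  have h0 : 0 < n := i.pos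
  have h1 : ∑ k : Fin n, Matrix.vandermonde z i k * cs z k j = (rootPolyErase z j).eval (z i) := by
    rw [Polynomial.eval_eq_sum_range' (n := n) (by rw [natDegree_rootPolyErase]; omega),
      ← Fin.sum_univ_eq_sum_range (fun k => (rootPolyErase z j).coeff k * z i ^ k) n]
    refine sum_congr rfl fun k _ => ?_
    rw [Matrix.vandermonde_apply, cs, Matrix.of_apply, mul_comm]
  rw [h1, eval_rootPolyErase, Matrix.diagonal_apply]
  split_ifs with h
  · rw [h]
  · exact prod_eq_zero (mem_erase.mpr ⟨h, mem_univ _⟩) (sub_self _)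

theorem norm_det_vandermonde {n : ℕ} (z : Fin n → ℂ) :
    ‖(Matrix.vandermonde z).det‖ = vdm z := by
  rw [Matrix.det_vandermonde, norm_prod, vdm]
  refine prod_congr rfl fun i _ => ?_
  rw [norm_prod]
  exact prod_congr rfl fun j _ => norm_sub_rev _ _

end VAND

open VAND

theorem VAND_thm : VAND_Stmt := by
  intro n z
  change ‖(cm z).det‖ = vdm z
  by_cases h0 : vdm z = 0
  · rw [h0, norm_eq_zero]
    rw [vdm, Finset.prod_eq_zero_iff] at h0
    obtain ⟨i, _, h0⟩ := h0
    rw [Finset.prod_eq_zero_iff] at h0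
    obtain ⟨j, hj, h0⟩ := h0
    rw [Finset.mem_Ioi] at hj
    have hz : z i = z j := sub_eq_zero.mp (norm_eq_zero.mp h0)
    have hL : rootPolyErase z i = rootPolyErase z j := by
      apply mul_left_cancel₀ (Polynomial.X_sub_C_ne_zero (z i))
      rw [mul_rootPolyErase]
      rw [hz, mul_rootPolyErase]
    refine Matrix.det_zero_of_column_eq (i := i.succ) (j := j.succ)
      (fun h => hj.ne (Fin.succ_injective _ h)) fun k => ?_
    rw [cm, Matrix.of_apply, Matrix.of_apply, Fin.cons_succ, Fin.cons_succ, hL]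
  · rw [norm_det_cm]
    apply mul_left_cancel₀ h0
    have h1 := congrArg (fun M => ‖Matrix.det M‖) (vandermonde_mul z)
    simp only [Matrix.det_mul, Matrix.det_diagonal, norm_mul, norm_det_vandermonde,
      norm_prod] at h1
    rw [h1, prod_erase_eq (fun i j => ‖z i - z j‖) (fun i j => norm_sub_rev _ _), ← vdm, sq]

end Pool.Agent.GH
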