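import Pool.Agent.GH.GDENS
import Pool.Agent.GH.INDT
import Pool.Agent.GH.VAND
import Pool.Agent.GH.POLV
import Pool.Agent.GH.FOCK
import Pool.Agent.GH.CAU
import Pool.Agent.GH.FACT
import Pool.Agent.GH.HOLEPT
import Pool.Agent.GH.SAMPA
import Pool.Agent.GH.SAMPB
import Pool.Agent.GH.ABD
import Pool.Agent.GH.ABN
import Pool.Agent.GH.TAILE
import Pool.Agent.GH.AB
import Pool.Agent.GH.POT
import Pool.Agent.GH.SYM
import Pool.Agent.GH.AVG
import Pool.Agent.GH.KER
import Pool.Agent.GH.AVK
import Pool.Agent.GH.RAD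
import Pool.Agent.GH.DISC
import Pool.Agent.GH.POS
import Pool.Agent.GH.ROT
import Pool.Agent.GH.LAY
import Pool.Agent.GH.ONED
import Pool.Agent.GH.STAR
import Pool.Agent.GH.MOM
import Pool.Agent.GH.BAR
import Pool.Agent.GH.ITER
import Pool.Agent.GH.ODOA
import Pool.Agent.GH.ODO
import Pool.Agent.GH.LAMA
import Pool.Agent.GH.CONV
import Pool.Agent.GH.SMO
import Pool.Agent.GH.ENE
import Pool.Agent.GH.TAILW
import Pool.Agent.GH.MLA
import Pool.Agent.GH.ML
import Pool.Agent.GH.KI
import Pool.Agent.GH.CAPA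
import Pool.Agent.GH.FEK
import Pool.Agent.GH.FEKB
import Pool.Agent.GH.FLOW
import Pool.Agent.GH.OUT
import Pool.Agent.GH.HULL
import Pool.Agent.GH.ROU
import Pool.Agent.GH.CFG
import Pool.Agent.GH.CBIG
import Pool.Agent.GH.BUMP
import Pool.Agent.GH.BETA
import Pool.Agent.GH.RUN
import Pool.Agent.GH.SEP
import Pool.Agent.GH.ANN
import Pool.Agent.GH.THA
import Pool.Agent.GH.THB
import Pool.Agent.GH.CASA
import Pool.Agent.GH.CASB
import Pool.Agent.GH.STRICT

/-!
Assembly.
-/

namespace Pool.Agent.GH.Final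

open MeasureTheory ProbabilityTheory Filter Topology

universe u

theorem pot : POT_Stmt := POT_thm
theorem sym : SYM_Stmt := SYM_thm pot
theorem avg : AVG_Stmt := AVG_thm pot
theorem kerf : KER_Stmt := KER_thm
theorem avk : AVK_Stmt := AVK_thm avg pot kerf
theorem rad : RAD_Stmt := RAD_thm avg pot
theorem dsc : DISC_Stmt := DISC_thm rad pot
theorem pos : POS_Stmt := POS_thm sym
theorem rot : ROT_Stmt := ROT_thm pos sym avg pot
theorem lay : LAY_Stmt := LAY_thm pot
theorem oned : ONED_Stmt := ONED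
theorem star : STAR_Stmt := STAR_thm lay oned rot pot sym
theorem mom : MOM_Stmt := MOM_thm

theorem vand : VAND_Stmt := VAND_thm
theorem polv : POLV_Stmt := POLV_thm vand
theorem fockle : FOCK_Stmt := FOCK_thm
theorem cau : CAU_Stmt := CAU_thm
theorem fact : FACT_Stmt := FACT_thm
theorem holept : HOLEPT_Stmt.{u} := HOLEPT_thm GDENS_thm INDT_thm polv fockle
theorem sampa : SAMPA_Stmt := SAMPA_thm
theorem sampb : SAMPB_Stmt := SAMPB_thm sampa pot kerf
theorem abd : ABD_Stmt := ABD_thm pot sym dsc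
theorem abn : ABN_Stmt := ABN_thm fact
theorem taile : TAILE_Stmt := TAILE_thm
theorem ab : AB_Stmt.{u} := AB_thm holept sampb abd abn taile cau pot

theorem bar : BAR_Stmt := BAR_thm pot dsc avk kerf
theorem iter : ITER_Stmt := ITER_thm
theorem odoa : ODOA_Stmt := ODOA_thm bar iter
theorem odo : ODO_Stmt := ODO_thm odoa iter
theorem lama : LAMA_Stmt := LAMA_thm
theorem conv : CONV_Stmt := CONV_thm pot avg avk
theorem smo : SMO_Stmt := SMO_thm kerf
theorem ene : ENE_Stmt := ENE_thm sym pot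
theorem tailw : TAILW_Stmt := TAILW_thm bar iter avk kerf lama conv smo pot
theorem mla : MLA_Stmt := MLA_thm odo iter lama conv smo star pot kerf
theorem ml : ML_Stmt := ML_thm mla tailw lama conv smo ene kerf pot
theorem ki : KI_Stmt := KI_thm ml star mom pot

theorem rou : ROU_Stmt := ROU_thm
theorem capa : CAPA_Stmt := CAPA_thm rou
theorem fek : FEK_Stmt := FEK_thm capa
theorem fekb : FEKB_Stmt := FEKB_thm capa fek
theorem flow : FLOW_Stmt := FLOW_thm capa fek
theorem out : OUT_Stmt := OUT_thm capa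
theorem hull : HULL_Stmt := HULL_thm
theorem cfg : CFG_Stmt := CFG_thm rou
theorem cbig : CBIG_Stmt := CBIG_thm hull cfg capa
theorem bump : BUMP_Stmt := BUMP_thm rad pot sym
theorem beta : BETA_Stmt := BETA_thm bump pot sym
theorem run : RUN_Stmt := RUN_thm
theorem sep : SEP_Stmt := SEP_thm run flow fek capa
theorem ann : ANN_Stmt := ANN_thm rad pot

theorem tha : THA_Stmt := THA_thm ki beta fek fekb out capa
theorem thb : THB_Stmt := THB_thm tha out capa
theorem casa : CASA_Stmt := CASA_thm ki ann bump capa pot sym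
theorem casb : CASB_Stmt := CASB_thm ki sep beta fek fekb out capa
theorem strict : STRICT_Stmt := STRICT_thm casa casb cbig capa

/-- Part (1): the exponent is at most the conjectured one, for every nonempty compact set. -/
theorem hole_lb {Ω : Type u} [MeasurableSpace Ω] (P : Measure Ω) (ξ : ℕ → Ω → ℂ)
    (hξ : IsGauss P ξ) (K : Set ℂ) (hK : IsCompact K) (hne : K.Nonempty) :
    HoleLB P ξ K (Real.exp 2 / 4 * cap K ^ 4) := by
  intro ε hε
  have h := ab P ξ hξ K _ hK hne (thb K hK hne (ε / 2) (by positivity)) (ε / 2) (by positivity)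
  filter_upwards [h] with r hr
  convert hr using 3
  ring

/-- Part (2): the exponent is strictly smaller than the conjectured one, for every continuum with
nonempty interior that is not a closed disk. -/
theorem hole_strict {Ω : Type u} [MeasurableSpace Ω] (P : Measure Ω) (ξ : ℕ → Ω → ℂ)
    (hξ : IsGauss P ξ) (K : Set ℂ) (hK : IsCompact K) (hc : IsConnected K)
    (hi : (interior K).Nonempty) (hd : ¬ ∃ (z : ℂ) (ρ : ℝ), K = Metric.closedBall z ρ) :
    ∃ δ : ℝ, 0 < δ ∧ ∀ᶠ r : ℝ in atTop,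
      Real.exp (-((Real.exp 2 / 4 * cap K ^ 4 - δ) * r ^ 4)) ≤ holeP P ξ K r := by
  obtain ⟨δ, hδ, hA⟩ := strict K hK hc hi hd
  refine ⟨δ / 2, by positivity, ?_⟩
  have h := ab P ξ hξ K _ hK hc.nonempty hA (δ / 2) (by positivity)
  filter_upwards [h] with r hr
  convert hr using 3
  ring

end Pool.Agent.GH.Final
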