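import Pool.Agent.GH.Stmts

/-!
# GDENS: finite-dimensional Gaussian lower bound
-/

namespace Pool.Agent.GH

open MeasureTheory ProbabilityTheory Filter Topology

universe u

namespace GDENS

open scoped ENNReal

/-- Fubini's theorem for products of functions of one variable. -/
theorem lintegral_pi_prod {n : ℕ} (f : Fin n → ℂ → ℝ≥0∞) (hf : ∀ i, Measurable (f i)) :
    ∫⁻ x : Fin n → ℂ, ∏ i, f i (x i) = ∏ i, ∫⁻ y, f i y := by
  induction n with
  | zero =>
    simp [volume_pi]
  | succ n ih =>
    have h1 : ∫⁻ x : Fin (n + 1) → ℂ, ∏ i, f i (x i) =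
        ∫⁻ z : ℂ × (Fin n → ℂ), f 0 z.1 * ∏ i, f i.succ (z.2 i) ∂(volume.prod volume) := by
      rw [← (((volume_preserving_piFinSuccAbove (fun _ : Fin (n + 1) => ℂ) 0)).symm).lintegral_comp_emb
        (MeasurableEquiv.measurableEmbedding _)]
      refine lintegral_congr fun z => ?_
      rw [Fin.prod_univ_succ]
      rfl
    have hg : AEMeasurable (fun y : Fin n → ℂ => ∏ i, f i.succ (y i)) volume :=
      (Finset.measurable_fun_prod _ fun i _ =>
        (hf i.succ).comp (measurable_pi_apply i)).aemeasurable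
    have h2 := lintegral_prod_mul (μ := (volume : Measure ℂ))
      (ν := (volume : Measure (Fin n → ℂ))) (hf 0).aemeasurable hg
    rw [h1, h2, ih _ (fun i => hf i.succ), Fin.prod_univ_succ]

/-- The density of `stdC`. -/
noncomputable def g (w : ℂ) : ℝ≥0∞ := ENNReal.ofReal (Real.exp (-‖w‖ ^ 2) / Real.pi)

theorem measurable_g : Measurable g := by
  unfold g
  fun_prop

theorem pi_stdC (n : ℕ) [IsProbabilityMeasure stdC] :
    Measure.pi (fun _ : Fin n => stdC) = volume.withDensity (fun x : Fin n → ℂ => ∏ i, g (x i)) := by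
  refine Measure.pi_eq fun s hs => ?_
  rw [withDensity_apply _ (MeasurableSet.univ_pi hs), ← lintegral_indicator (MeasurableSet.univ_pi hs)]
  have h1 : ∀ x : Fin n → ℂ, (Set.univ.pi s).indicator (fun x : Fin n → ℂ => ∏ i, g (x i)) x =
      ∏ i, (s i).indicator g (x i) := by
    intro x
    by_cases hx : x ∈ Set.univ.pi s
    · rw [Set.indicator_of_mem hx]
      refine Finset.prod_congr rfl fun i _ => ?_
      rw [Set.indicator_of_mem (hx i (Set.mem_univ i))]
    · rw [Set.indicator_of_notMem hx]
      rw [Set.mem_univ_pi] at hx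
      push Not at hx
      obtain ⟨i, hi⟩ := hx
      symm
      apply Finset.prod_eq_zero (Finset.mem_univ i)
      rw [Set.indicator_of_notMem hi]
  rw [lintegral_congr h1, lintegral_pi_prod _ fun i => measurable_g.indicator (hs i)]
  refine Finset.prod_congr rfl fun i _ => ?_
  rw [lintegral_indicator (hs i)]
  unfold stdC
  rw [withDensity_apply _ (hs i)]
  rfl

end GDENS

open GDENS in
theorem GDENS_thm : GDENS_Stmt.{u} := by
  intro Ω _ P ξ hG n S hS hball
  have := hG.prob
  have hst : IsProbabilityMeasure stdC := by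
    rw [← hG.law 0]
    exact Measure.isProbabilityMeasure_map (hG.meas 0).aemeasurable
  have hind : iIndepFun (fun k : Fin (n + 1) => ξ (k : ℕ)) P :=
    hG.indep.precomp Fin.val_injective
  have hlaw : P.map (fun ω (k : Fin (n + 1)) => ξ (k : ℕ) ω) =
      volume.withDensity (fun x : Fin (n + 1) → ℂ => ∏ i, g (x i)) := by
    have h1 := (iIndepFun_iff_map_fun_eq_pi_map
      (fun k : Fin (n + 1) => (hG.meas k).aemeasurable)).mp hind
    rw [← pi_stdC (n + 1), h1]
    congr 1
    funext k
    exact hG.law k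
  have hmeas : Measurable (fun ω (k : Fin (n + 1)) => ξ (k : ℕ) ω) :=
    measurable_pi_lambda _ fun k => hG.meas k
  have hP : P {ω | (fun k : Fin (n + 1) => ξ (k : ℕ) ω) ∈ S} =
      ∫⁻ x in S, ∏ i, g (x i) := by
    rw [← withDensity_apply _ hS, ← hlaw, Measure.map_apply hmeas hS]
    rfl
  have hlow : ENNReal.ofReal (Real.exp (-1) / Real.pi ^ (n + 1)) * volume S ≤
      ∫⁻ x in S, ∏ i, g (x i) := by
    rw [← setLIntegral_const]
    refine setLIntegral_mono' hS fun x hx => ?_
    unfold g
    rw [← ENNReal.ofReal_prod_of_nonneg (fun i _ => by positivity)]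
    apply ENNReal.ofReal_le_ofReal
    rw [Finset.prod_div_distrib, ← Real.exp_sum, Finset.prod_const, Finset.card_univ,
      Fintype.card_fin]
    apply div_le_div_of_nonneg_right _ (by positivity)
    apply Real.exp_le_exp.mpr
    rw [Finset.sum_neg_distrib]
    exact neg_le_neg (hball x hx)
  have hle := hP ▸ hlow
  have h2 := ENNReal.toReal_mono (measure_ne_top P _) hle
  rw [ENNReal.toReal_mul, ENNReal.toReal_ofReal (by positivity)] at h2
  exact h2

end Pool.Agent.GH
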