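import Pool.Agent.GH.Stmts

/-!
Hole probability of the Gaussian entire function: potentials of radial densities (module RAD).
-/

namespace Pool.Agent.GH

open MeasureTheory ProbabilityTheory Filter Topology

namespace RAD

/-- The potential of a radial density is rotation invariant. -/
lemma pot_rot (f : ℂ → ℝ) (hf : ∀ y y' : ℂ, ‖y‖ = ‖y'‖ → f y = f y') (a : Circle) (z : ℂ) :
    pot f ((a : ℂ) * z) = pot f z := by
  unfold pot
  have h1 := (rotation a).measurePreserving.integral_comp
    (rotation a).toHomeomorph.measurableEmbedding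
    (fun y : ℂ => -Real.log ‖(a : ℂ) * z - y‖ * f y)
  rw [← h1]
  refine integral_congr_ae (Filter.Eventually.of_forall fun y => ?_)
  have h2 : ‖(a : ℂ) * z - (rotation a) y‖ = ‖z - y‖ := by
    rw [rotation_apply, ← mul_sub, norm_mul, Circle.norm_coe, one_mul]
  have h3 : f ((rotation a) y) = f y := hf _ _ (by
    rw [rotation_apply, norm_mul, Circle.norm_coe, one_mul])
  simp only [h2, h3]

lemma pot_norm (f : ℂ → ℝ) (hf : ∀ y y' : ℂ, ‖y‖ = ‖y'‖ → f y = f y') (w z : ℂ) (hz : z ≠ 0)
    (h : ‖w‖ = ‖z‖) : pot f w = pot f z := by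
  have hn : ‖w / z‖ = 1 := by
    rw [norm_div, h, div_self (norm_ne_zero_iff.2 hz)]
  let a : Circle := ⟨w / z, by simpa [Submonoid.unitSphere] using hn⟩
  have ha : (a : ℂ) = w / z := rfl
  have h1 := pot_rot f hf a z
  rw [ha, div_mul_cancel₀ w hz] at h1
  exact h1

end RAD

theorem RAD_thm (h1 : AVG_Stmt) (h2 : POT_Stmt) : RAD_Stmt := by
  have _ := h2
  intro f R B hn hf z hz
  have hz' : 0 < ‖z‖ := norm_pos_iff.2 hz
  obtain ⟨-, h⟩ := h1 f R B hn 0 ‖z‖ hz'
  have e : Real.circleAverage (pot f) 0 ‖z‖ = pot f z := by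
    refine Real.circleAverage_const_on_circle ?_
    intro w hw
    refine RAD.pot_norm f hf w z hz ?_
    simpa using hw
  rw [← e, h]
  simp only [zero_sub, norm_neg]

end Pool.Agent.GH
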